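import Pool.Agent.H86.FS.Defs

/-!
# The relations (R1)-(R16) as a structure
-/

set_option autoImplicit false

open scoped commutatorElement

namespace Pool.Agent.H86.FS

variable {G : Type*} [Group G] {r : ℕ}

/-- conjugation `^g x` -/
abbrev cj (g x : G) : G := g * x * g⁻¹

/-- generators -/
structure Gens (G : Type*) (r : ℕ) where
  t : G
  u1 : G
  u2 : G
  s : Fin r → G
  th : G
  et : G
  d : G
  sg : G
  X : G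
  Y : G
  ph : G
  J1 : G
  J2 : G
  a : G
  b : G
  D : G
  S : G
  m : G

namespace Gens

/-- image of the generators under a map -/
def map {G' : Type*} (f : G → G') (g : Gens G r) : Gens G' r where
  t := f g.t
  u1 := f g.u1
  u2 := f g.u2
  s := fun i => f (g.s i)
  th := f g.th
  et := f g.et
  d := f g.d
  sg := f g.sg
  X := f g.X
  Y := f g.Y
  ph := f g.ph
  J1 := f g.J1
  J2 := f g.J2
  a := f g.a
  b := f g.b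
  D := f g.D
  S := f g.S
  m := f g.m

/-- the set of all generators -/
def set (g : Gens G r) : Set G :=
  {g.t, g.u1, g.u2, g.th, g.et, g.d, g.sg, g.X, g.Y, g.ph, g.J1, g.J2, g.a, g.b, g.D, g.S, g.m} ∪
    Set.range g.s

/-- `Z = [X, Y]` -/
def Z (g : Gens G r) : G := ⁅g.X, g.Y⁆
/-- `rho = [th, et]` -/
def rho (g : Gens G r) : G := ⁅g.th, g.et⁆
/-- `sb = [d, sg]` -/
def sb (g : Gens G r) : G := ⁅g.d, g.sg⁆
/-- `sb' = [D, S]` -/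
def sb' (g : Gens G r) : G := ⁅g.D, g.S⁆

/-- the letter `c(al, i, k) = ^(d^al X^i Z^k) c` -/
def letter (g : Gens G r) (c : G) (al : Fin 2) (i k : ℕ) : G :=
  cj (g.d ^ (al : ℕ) * g.X ^ i * g.Z ^ k) c

end Gens

/-- relations (R1)-(R11) -/
structure BRel (g : Gens G r) : Prop where
  -- R1
  tor : ∀ x ∈ [g.t, g.u1, g.u2], ∀ y ∈ [g.t, g.u1, g.u2], Commute x y
  tors : ∀ x ∈ [g.t, g.u1, g.u2], ∀ i, Commute x (g.s i)
  ss : ∀ i j, Commute (g.s i) (g.s j)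
  ph : ∀ x ∈ [g.t, g.u1, g.u2, g.th, g.et, g.d, g.sg, g.Y], Commute g.ph x
  phs : ∀ i, Commute g.ph (g.s i)
  -- R2
  inv : ∀ x ∈ [g.th, g.et, g.d, g.sg], x * x = 1
  -- R3
  u1c : ∀ c ∈ [g.th, g.et], cj g.u1 c = cj g.t c * cj g.t⁻¹ c
  u2c : ∀ c ∈ [g.th, g.et], cj g.u2 c = cj g.t c * c * cj g.t⁻¹ c
  sc : ∀ c ∈ [g.th, g.et], ∀ i : Fin r, cj (g.s i) c = c * cj (g.t ^ (2 * (i : ℕ) + 3)) c
  -- R4
  com : ∀ c ∈ [g.th, g.et], ∀ k : Fin 3, Commute c (cj (g.t ^ (k : ℕ)) c)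
  -- R5
  tr : ∀ i j k : Fin 5, ∀ c ∈ [g.th, g.et],
    Commute ⁅cj (g.t ^ (i : ℕ)) g.th, cj (g.t ^ (j : ℕ)) g.et⁆ (cj (g.t ^ (k : ℕ)) c)
  -- R6
  sy : ∀ k : Fin 3, ⁅g.th, cj (g.t ^ (k : ℕ)) g.et⁆ = ⁅cj (g.t ^ (k : ℕ)) g.th, g.et⁆
  -- R7
  dt : ∀ x ∈ [g.d, g.sg], ∀ y ∈ [g.t, g.u1, g.u2], Commute x y
  dts : ∀ x ∈ [g.d, g.sg], ∀ i, Commute x (g.s i)
  dth : Commute g.d g.th
  sget : Commute g.sg g.et
  thsg : ⁅g.th, g.sg⁆ = g.rho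
  det : ⁅g.d, g.et⁆ = g.rho
  sbc : ∀ x ∈ [g.th, g.et, g.d, g.sg], Commute g.sb x
  -- R8
  XYc : ∀ K ∈ [g.X, g.Y], ∀ y ∈ [g.t, g.u1, g.u2, g.et, g.sg], Commute K y
  XYs : ∀ K ∈ [g.X, g.Y], ∀ i, Commute K (g.s i)
  XYsb : ∀ K ∈ [g.X, g.Y], cj g.sb K = K⁻¹
  XYd : ∀ K ∈ [g.X, g.Y], Commute K (cj g.d K)
  XYth : ∀ K ∈ [g.X, g.Y], Commute g.th (K * cj g.d K)
  -- R9
  phX : cj g.ph g.X = g.X * g.X
  Y31 : g.Y ^ 31 = 1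
  -- R10
  XY' : Commute g.X (cj g.d g.Y)
  Zc : ∀ y ∈ [g.X, g.Y, g.rho], Commute g.Z y
  -- R11
  Jc : ∀ x ∈ [g.J1, g.J2], ∀ y ∈ [g.t, g.u1, g.u2, g.th, g.et, g.d, g.sg, g.X, g.Y], Commute x y
  Js : ∀ x ∈ [g.J1, g.J2], ∀ i, Commute x (g.s i)
  JJ : Commute g.J1 g.J2
  phJ : ∀ x ∈ [g.J1, g.J2], cj g.ph x = x * x

/-- relations (R12) for `c = a` and `c = b` -/
structure CRel (g : Gens G r) (c : G) : Prop where
  sq : c * c = 1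
  com : ∀ y ∈ [g.t, g.u1, g.u2, g.et, g.sg, g.rho, g.sb, g.ph, g.Y, cj g.d g.X, cj g.d g.Y],
    Commute c y
  coms : ∀ i, Commute c (g.s i)
  swap : Commute c (cj g.d c)
  cth : Commute g.th (c * cj g.d c)
  Phi : cj (g.Z ^ 5) c * cj (g.Z ^ 2) c * c = 1
  J1 : cj g.J1 c = cj (g.X ^ 31) c * cj (g.X ^ 31)⁻¹ c
  J2 : cj g.J2 c = cj (g.X ^ 31) c * c * cj (g.X ^ 31)⁻¹ c
  lett : ∀ i : Fin 93, ∀ k : Fin 31, Commute c (cj (g.X ^ (i : ℕ) * g.Z ^ (k : ℕ)) c)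

/-- relations (R13)-(R16) -/
structure TRel (g : Gens G r) : Prop where
  -- R13
  tr : ∀ al be ga : Fin 2, ∀ i j l : Fin 155, ∀ k k' k'' : Fin 31, ∀ c ∈ [g.a, g.b],
    Commute ⁅g.letter g.a al i k, g.letter g.b be j k'⁆ (g.letter c ga l k'')
  -- R14
  sy : ∀ al be : Fin 2, ∀ i j : Fin 93, ∀ k k' : Fin 31,
    ⁅g.letter g.a al i k, g.letter g.b be j k'⁆ = ⁅g.letter g.a be j k', g.letter g.b al i k⁆
  -- R15
  inv : ∀ x ∈ [g.D, g.S], x * x = 1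
  DS : ∀ x ∈ [g.D, g.S], ∀ y ∈ [g.t, g.u1, g.u2, g.th, g.et, g.d, g.sg, g.X, g.Y, g.ph,
    g.J1, g.J2], Commute x y
  DSs : ∀ x ∈ [g.D, g.S], ∀ i, Commute x (g.s i)
  Da : Commute g.D g.a
  Sb : Commute g.S g.b
  aS : ⁅g.a, g.S⁆ = ⁅g.a, g.b⁆
  Db : ⁅g.D, g.b⁆ = ⁅g.a, g.b⁆
  sb'c : ∀ x ∈ [g.a, g.b, g.D, g.S], Commute g.sb' x
  -- R16
  mc : ∀ y ∈ [g.t, g.u1, g.u2, g.th, g.et, g.d, g.sg, g.X, g.Y, g.J1, g.J2, g.b, g.S],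
    Commute g.m y
  ms : ∀ i, Commute g.m (g.s i)
  msb : cj g.sb' g.m = g.m⁻¹
  mD : Commute g.m (cj g.D g.m)
  ma : Commute g.a (g.m * cj g.D g.m)
  mph : cj g.ph g.m = g.m * g.m

/-- all relations -/
structure Rels (g : Gens G r) : Prop where
  base : BRel g
  ca : CRel g g.a
  cb : CRel g g.b
  top : TRel g

namespace Gens

def XX (g : Gens G r) : G := g.X * cj g.d g.X
/-- `b_i` -/
def bi (g : Gens G r) (i : Fin r) : G := cj (g.t ^ (i : ℕ)) (g.XX * (cj g.rho g.XX)⁻¹)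
def AA (g : Gens G r) : G := g.a * cj g.d g.a
def BB (g : Gens G r) : G := g.b * cj g.d g.b
def Ai (g : Gens G r) (i : Fin r) : G := g.AA * cj g.XX g.AA * cj (g.bi i) g.AA
def Bi (g : Gens G r) (i : Fin r) : G := g.BB * cj g.XX g.BB * cj (g.bi i) g.BB
/-- `m_i` -/
def mi (g : Gens G r) (i : Fin r) : G := cj ⁅g.Ai i, g.Bi i⁆ g.m
/-- `x_i` -/
def xi (g : Gens G r) (i : Fin r) : G := g.mi i * g.bi i * g.s i

end Gens

end Pool.Agent.H86.FS
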