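import Pool.Agent.H86.FS.BE

/-!
# The base data (sections 4, 6) from (R1)-(R10)
All statements about `∀ y ∈ g.GR` are closure inductions: on generators `conj2 q (th, et)`, `q ∈ ⟨TS⟩`; `X`, `Y`, `d`, `sg`, `ph` commute with `q`
(induction over `⟨TS⟩`), so conjugate the relation for `(th, et)` by `q`.
* `ph_GR`: `ph` commutes with `q`, `th`, `et`, so with both components.
* `md`: for `K ∈ [X, Y]`: `et`, `th` from (R8), `φΓ`: `conj2 ph y = y` by `ph_GR`.
* `Zs`: `Z` commutes with `sn y`: `sn` is multiplicative on `GR` (`Core.sn_mul`), `sn (conj2 q (th, et)) = q rho q⁻¹`, `Z = ⁅X, Y⁆` commutes with `q`, `rho`.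
-/

set_option autoImplicit false

open scoped commutatorElement

namespace Pool.Agent.H86.FS

open Pool.Agent.H75.FS

variable {G : Type*} [Group G] {r : ℕ}

namespace BRel

variable {g : Gens G r}

theorem TT_com (h : BRel g) : ∀ q ∈ g.TT, ∀ x ∈ [g.t, g.u1, g.u2, g.d, g.sg, g.X, g.Y, g.ph, g.J1, g.J2],
    Commute q x := by
  intro q hq x hx
  refine TT_of ?_ q hq
  rintro p (hp | ⟨i, rfl⟩)
  · have hp1 : p ∈ [g.t, g.u1, g.u2] := by rcases hp with rfl | rfl | rfl <;> simp
    have hp2 : p ∈ [g.t, g.u1, g.u2, g.th, g.et, g.d, g.sg, g.Y] := by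
      rcases hp with rfl | rfl | rfl <;> simp
    have hp3 : p ∈ [g.t, g.u1, g.u2, g.et, g.sg] := by
      rcases hp with rfl | rfl | rfl <;> simp
    have hp4 : p ∈ [g.t, g.u1, g.u2, g.th, g.et, g.d, g.sg, g.X, g.Y] := by
      rcases hp with rfl | rfl | rfl <;> simp
    simp only [List.mem_cons, List.not_mem_nil, or_false] at hx
    rcases hx with rfl | rfl | rfl | rfl | rfl | rfl | rfl | rfl | rfl | rfl
    · exact h.tor _ hp1 _ (by simp)
    · exact h.tor _ hp1 _ (by simp)
    · exact h.tor _ hp1 _ (by simp)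
    · exact (h.dt _ (by simp) _ hp1).symm
    · exact (h.dt _ (by simp) _ hp1).symm
    · exact (h.XYc _ (by simp) _ hp3).symm
    · exact (h.XYc _ (by simp) _ hp3).symm
    · exact (h.ph _ hp2).symm
    · exact (h.Jc _ (by simp) _ hp4).symm
    · exact (h.Jc _ (by simp) _ hp4).symm
  · simp only [List.mem_cons, List.not_mem_nil, or_false] at hx
    rcases hx with rfl | rfl | rfl | rfl | rfl | rfl | rfl | rfl | rfl | rfl
    · exact (h.tors _ (by simp) i).symm
    · exact (h.tors _ (by simp) i).symm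
    · exact (h.tors _ (by simp) i).symm
    · exact (h.dts _ (by simp) i).symm
    · exact (h.dts _ (by simp) i).symm
    · exact (h.XYs _ (by simp) i).symm
    · exact (h.XYs _ (by simp) i).symm
    · exact (h.phs i).symm
    · exact (h.Js _ (by simp) i).symm
    · exact (h.Js _ (by simp) i).symm

theorem TT_comm (h : BRel g) : ∀ q ∈ g.TT, ∀ q' ∈ g.TT, Commute q q' := by
  exact h.TT_com0

/-- an element commuting with `TT` and with `th` commutes with all first components -/
theorem GR_fst {x : G} (hT : ∀ q ∈ g.TT, Commute q x) (hx : Commute g.th x) :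
    ∀ y ∈ g.GR, Commute y.1 x := by
  intro y hy
  unfold Gens.GR at hy
  induction hy using Subgroup.closure_induction with
  | mem y hy =>
    obtain ⟨q, hq, rfl⟩ := hy
    exact ((hT q hq).mul_left hx).mul_left (hT q hq).inv_left
  | one => exact Commute.one_left _
  | mul a b _ _ ha hb => exact ha.mul_left hb
  | inv a _ ha => exact ha.inv_left

/-- an element commuting with `TT` and with `et` commutes with all second components -/
theorem GR_snd {x : G} (hT : ∀ q ∈ g.TT, Commute q x) (hx : Commute g.et x) :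
    ∀ y ∈ g.GR, Commute y.2 x := by
  intro y hy
  unfold Gens.GR at hy
  induction hy using Subgroup.closure_induction with
  | mem y hy =>
    obtain ⟨q, hq, rfl⟩ := hy
    exact ((hT q hq).mul_left hx).mul_left (hT q hq).inv_left
  | one => exact Commute.one_left _
  | mul a b _ _ ha hb => exact ha.mul_left hb
  | inv a _ ha => exact ha.inv_left

/-- an element commuting with `TT` and with `rho` commutes with all signs -/
theorem GR_sn (h : BRel g) {x : G} (hT : ∀ q ∈ g.TT, Commute q x) (hx : Commute g.rho x) :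
    ∀ y ∈ g.GR, Commute (sn y) x := by
  intro y hy
  have hc := h.core
  unfold Gens.GR at hc hy
  induction hy using Subgroup.closure_induction with
  | mem y hy =>
    obtain ⟨q, hq, rfl⟩ := hy
    rw [sn_conj2]
    exact ((hT q hq).mul_left hx).mul_left (hT q hq).inv_left
  | one => rw [show sn (1 : G × G) = 1 by simp [sn]]; exact Commute.one_left _
  | mul a b ha' hb' ha hb => rw [hc.sn_mul ha' hb']; exact ha.mul_left hb
  | inv a ha' ha => rw [hc.inv ha']; exact ha

theorem ph_GR (h : BRel g) : ∀ y ∈ g.GR, Commute g.ph y.1 ∧ Commute g.ph y.2 := by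
  intro y hy
  have hT : ∀ q ∈ g.TT, Commute q g.ph := fun q hq => h.TT_com q hq g.ph (by simp)
  exact ⟨(GR_fst hT (h.ph g.th (by simp)).symm y hy).symm,
    (GR_snd hT (h.ph g.et (by simp)).symm y hy).symm⟩

theorem md (h : BRel g) : ∀ K ∈ [g.X, g.Y], (g.ph * K * g.ph⁻¹ = K * K ∨
    (g.ph * K * g.ph⁻¹ = K ∧ K ^ 31 = 1)) → h.eng.MD g.ph K := by
  intro K hK hφ
  have hK2 : K ∈ [g.t, g.u1, g.u2, g.d, g.sg, g.X, g.Y, g.ph, g.J1, g.J2] := by
    simp only [List.mem_cons, List.not_mem_nil, or_false] at hK ⊢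
    rcases hK with rfl | rfl <;> simp
  have hT : ∀ q ∈ g.TT, Commute q K := fun q hq => h.TT_com q hq K hK2
  have hTd : ∀ q ∈ g.TT, Commute q g.d := fun q hq => h.TT_com q hq g.d (by simp)
  have hT' : ∀ q ∈ g.TT, Commute q (K * (g.d * K * g.d⁻¹)) := fun q hq =>
    (hT q hq).mul_right (((hTd q hq).mul_right (hT q hq)).mul_right (hTd q hq).inv_right)
  have hfix : ∀ y ∈ g.GR, (g.ph * y.1 * g.ph⁻¹, g.ph * y.2 * g.ph⁻¹) = y := by
    intro y hy
    obtain ⟨h1, h2⟩ := h.ph_GR y hy
    rw [h1.eq, h2.eq, mul_inv_cancel_right, mul_inv_cancel_right]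
  have hfix' : ∀ y ∈ g.GR, (g.ph⁻¹ * y.1 * g.ph, g.ph⁻¹ * y.2 * g.ph) = y := by
    intro y hy
    obtain ⟨h1, h2⟩ := h.ph_GR y hy
    rw [mul_assoc, mul_assoc, ← h1.eq, ← h2.eq, inv_mul_cancel_left, inv_mul_cancel_left]
  exact
    { et := GR_snd hT (h.XYc K hK g.et (by simp)).symm
      ς := (h.XYc K hK g.sg (by simp)).symm
      σ := h.XYsb K hK
      swap := h.XYd K hK
      th := GR_fst hT' (h.XYth K hK)
      φΓ := fun y hy => by rw [hfix y hy]; exact hy
      φΓ' := fun y hy => by rw [hfix' y hy]; exact hy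
      φδ := h.ph g.d (by simp)
      φς := h.ph g.sg (by simp)
      φx := hφ }

theorem Zs (h : BRel g) : ∀ y ∈ g.GR, Commute ⁅g.X, g.Y⁆ (sn y) := by
  intro y hy
  have hT : ∀ q ∈ g.TT, Commute q ⁅g.X, g.Y⁆ := fun q hq => by
    have hX := h.TT_com q hq g.X (by simp)
    have hY := h.TT_com q hq g.Y (by simp)
    rw [commutatorElement_def]
    exact ((hX.mul_right hY).mul_right hX.inv_right).mul_right hY.inv_right
  exact (h.GR_sn hT (h.Zc g.rho (by simp)).symm y hy).symm

/-- the base data -/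
def B (h : BRel g) : Base G where
  toEng := h.eng
  φ := g.ph
  X := g.X
  Y := g.Y
  φ_th := fun y hy => (h.ph_GR y hy).1
  φ_et := fun y hy => (h.ph_GR y hy).2
  mX := h.md g.X (by simp) (Or.inl h.phX)
  mY := h.md g.Y (by simp) (Or.inr ⟨by
    rw [(h.ph g.Y (by simp)).eq, mul_inv_cancel_right], h.Y31⟩)
  φX := h.phX
  φY := h.ph g.Y (by simp)
  Y31 := h.Y31
  XY' := h.XY'
  ZX := h.Zc g.X (by simp)
  ZY := h.Zc g.Y (by simp)
  Zs := h.Zs

@[simp] theorem B_Γ (h : BRel g) : h.B.Γ = g.GR := rfl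
@[simp] theorem B_δ (h : BRel g) : h.B.δ = g.d := rfl
@[simp] theorem B_ς (h : BRel g) : h.B.ς = g.sg := rfl
@[simp] theorem B_φ (h : BRel g) : h.B.φ = g.ph := rfl
@[simp] theorem B_X (h : BRel g) : h.B.X = g.X := rfl
@[simp] theorem B_Y (h : BRel g) : h.B.Y = g.Y := rfl
@[simp] theorem B_Z (h : BRel g) : h.B.Z = g.Z := rfl
@[simp] theorem B_grp (h : BRel g) : h.B.toEng.grp = h.eng.grp := rfl

end BRel

end Pool.Agent.H86.FS
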