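import Pool.Agent.H86.FS.Defs
import Pool.Agent.H69.MG.Tame

/-!
# T2 (tameness, two slots)
Setting: `τ, γ ∈ G` act by conjugation on two families `a l q`, `b l q` (`q ∈ ℤ`):
`τ` shifts the index by one, `γ` maps `a l q` to `a l (q+1) * a l (q-1)`.
Claim: if `a l p` and `b l' q` commute whenever `|p - q| ≤ 2` then they always commute.

Proof. By conjugation with powers of `τ` (`τ^k * a l q * τ^(-k) = a l (q+k)`, induction on `k`) the statement
for `(p, q)` depends only on `q - p`; call it `S(D)`, `D = q - p`. Show `S(D)` for `0 ≤ D` by strong induction.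
`D ≤ 2`: `base`. For `D ≥ 3`: `S(D-2)` gives `Commute (a l 1) (b l' (D-1))`; conjugate by `γ`:
`Commute (a l 2 * a l 0) (b l' D * b l' (D-2))`. Now `a l 2` commutes with `b l' D` (`S(D-2)`) and with `b l' (D-2)`
(`S(D-4)`; `D - 4 ≥ -1`, for `D = 3` this is `S(-1)`, i.e. `Commute (a l 2) (b l' 1)`, from `base'`), and `a l 0` commutes
with `b l' (D-2)` (`S(D-2)`). Hence `a l 0` commutes with `b l' D`.
[General fact: if `x1 x0` commutes with `y1 y0`, `x1` commutes with `y0`, `y1`, and `x0` commutes with `y0`, then `x0`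
commutes with `y1`: `x0` commutes with `y1 * y0` since `x1` does and `x1 x0` does, and with `y0`.]
Negative `D`: same argument (`base'`), or apply the positive case to the pair `(b, a)`.
-/

set_option autoImplicit false

open scoped commutatorElement

namespace Pool.Agent.H86.FS

theorem T2 {G : Type*} [Group G] {L L' : Type*} (τ γ : G) (a : L → ℤ → G) (b : L' → ℤ → G)
    (haτ : ∀ l q, τ * a l q * τ⁻¹ = a l (q + 1)) (hbτ : ∀ l q, τ * b l q * τ⁻¹ = b l (q + 1))
    (haγ : ∀ l q, γ * a l q * γ⁻¹ = a l (q + 1) * a l (q - 1))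
    (hbγ : ∀ l q, γ * b l q * γ⁻¹ = b l (q + 1) * b l (q - 1))
    (base : ∀ l l' (q : ℤ), 0 ≤ q → q ≤ 2 → Commute (a l 0) (b l' q))
    (base' : ∀ l l' (q : ℤ), 0 ≤ q → q ≤ 2 → Commute (a l q) (b l' 0)) :
    ∀ l l' p q, Commute (a l p) (b l' q) := by
  have sh : ∀ (c : ℤ → G), (∀ q, τ * c q * τ⁻¹ = c (q + 1)) → ∀ (n q : ℤ),
      τ ^ n * c q * (τ ^ n)⁻¹ = c (q + n) := by
    intro c hc n
    induction n using Int.induction_on with
    | zero => intro q; simp
    | succ n ih =>
      intro q
      rw [show q + ((n : ℤ) + 1) = (q + 1) + n by ring, ← ih, ← hc, zpow_add_one]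
      group
    | pred n ih =>
      intro q
      have h1 := ih (q - 1)
      have h2 := hc (q - 1)
      rw [sub_add_cancel] at h2
      rw [show q + (-(n : ℤ) - 1) = (q - 1) + -(n : ℤ) by ring, ← h1, ← h2, zpow_sub_one]
      group
  have sh2 : ∀ l l' p q (n : ℤ), Commute (a l p) (b l' q) →
      Commute (a l (p + n)) (b l' (q + n)) := by
    intro l l' p q n h
    rw [← sh (a l) (haτ l) n p, ← sh (b l') (hbτ l') n q]
    exact Pool.Agent.H69.MG.conj_comm h
  intro l l' p q
  refine Pool.Agent.H69.MG.T2 a b γ haγ hbγ ?_ l l' p q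
  intro l l' p q h
  rw [abs_le] at h
  rcases le_total p q with hpq | hpq
  · have := sh2 l l' 0 (q - p) p (base l l' (q - p) (by omega) (by omega))
    rwa [zero_add, sub_add_cancel] at this
  · have := sh2 l l' (p - q) 0 q (base' l l' (p - q) (by omega) (by omega))
    rwa [zero_add, sub_add_cancel] at this

end Pool.Agent.H86.FS
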