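import Pool.Agent.H86.FS.Defs
import Pool.Agent.H69.MG.Tame

/-!
# T2S (symmetry from finitely many cases)
Same setting as T2, now all commutators `⁅a l p, b l' q⁆` commute with all `a`'s and `b`'s, so that
`⁅x * x', y⁆ = ⁅x, y⁆ * ⁅x', y⁆` and `⁅x, y * y'⁆ = ⁅x, y⁆ * ⁅x, y'⁆` for products of two letters
(`⁅x x', y⁆ = x ⁅x', y⁆ x⁻¹ ⁅x, y⁆`, `⁅x, y y'⁆ = ⁅x, y⁆ y ⁅x, y'⁆ y⁻¹`), and all these commutators commute with each other.
Claim: if `⁅a l p, b l' q⁆ = ⁅a l' q, b l p⁆` for `0 ≤ p, q ≤ 2`, then for all `p, q`.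

Proof. Conjugating by `τ^k`: the statement `S(l, l', p, q)` depends only on `q - p`. `S(l,l',p,q) ↔ S(l',l,q,p)` (it is the same
equation read backwards), so take `D = q - p ≥ 0`; `D ≤ 2` is the base. `D ≥ 3`: conjugate `S` for `(1, D-1)` by `γ`:
`⁅a l 2 * a l 0, b l' D * b l' (D-2)⁆ = ⁅a l' D * a l' (D-2), b l 2 * b l 0⁆`, expand both sides into the four commutators:
`(2,D), (2,D-2), (0,D), (0,D-2)`; three of the four equalities are known (differences `D-2`, `D-4`, `D-2`, all of absolute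
value `< D`, use strong induction on `|q - p|`), so the fourth, `(0, D)`, holds.
-/

set_option autoImplicit false

open scoped commutatorElement

namespace Pool.Agent.H86.FS

lemma expand4 {G : Type*} [Group G] {x x' y y' : G}
    (h1 : Commute ⁅x', y'⁆ y) (h2 : Commute ⁅x, y'⁆ y)
    (h3 : Commute ⁅x', y⁆ x) (h4 : Commute ⁅x', y'⁆ x) :
    ⁅x * x', y * y'⁆ = ⁅x', y⁆ * ⁅x', y'⁆ * (⁅x, y⁆ * ⁅x, y'⁆) := by
  have e : ∀ u : G, Commute ⁅u, y'⁆ y → ⁅u, y * y'⁆ = ⁅u, y⁆ * ⁅u, y'⁆ := by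
    intro u hu
    calc ⁅u, y * y'⁆ = ⁅u, y⁆ * (y * ⁅u, y'⁆) * y⁻¹ := by
          simp only [commutatorElement_def]; group
      _ = ⁅u, y⁆ * ⁅u, y'⁆ := by rw [← hu.eq]; group
  calc ⁅x * x', y * y'⁆ = x * ⁅x', y * y'⁆ * x⁻¹ * ⁅x, y * y'⁆ := by
        simp only [commutatorElement_def]; group
    _ = (x * (⁅x', y⁆ * ⁅x', y'⁆)) * x⁻¹ * (⁅x, y⁆ * ⁅x, y'⁆) := by
        rw [e x' h1, e x h2]
    _ = ⁅x', y⁆ * ⁅x', y'⁆ * (⁅x, y⁆ * ⁅x, y'⁆) := by
        rw [← (h3.mul_left h4).eq]; group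

theorem T2S {G : Type*} [Group G] {L : Type*} (τ γ : G) (a b : L → ℤ → G)
    (haτ : ∀ l q, τ * a l q * τ⁻¹ = a l (q + 1)) (hbτ : ∀ l q, τ * b l q * τ⁻¹ = b l (q + 1))
    (haγ : ∀ l q, γ * a l q * γ⁻¹ = a l (q + 1) * a l (q - 1))
    (hbγ : ∀ l q, γ * b l q * γ⁻¹ = b l (q + 1) * b l (q - 1))
    (hca : ∀ l l' l'' p q k, Commute ⁅a l p, b l' q⁆ (a l'' k))
    (hcb : ∀ l l' l'' p q k, Commute ⁅a l p, b l' q⁆ (b l'' k))
    (base : ∀ l l' (p q : ℤ), 0 ≤ p → p ≤ 2 → 0 ≤ q → q ≤ 2 → ⁅a l p, b l' q⁆ = ⁅a l' q, b l p⁆) :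
    ∀ l l' p q, ⁅a l p, b l' q⁆ = ⁅a l' q, b l p⁆ := by
  have sh : ∀ (c : ℤ → G), (∀ q, τ * c q * τ⁻¹ = c (q + 1)) → ∀ (n q : ℤ),
      τ ^ n * c q * (τ ^ n)⁻¹ = c (q + n) := by
    intro c hc n
    induction n using Int.induction_on with
    | zero => intro q; simp
    | succ n ih =>
      intro q
      rw [show q + ((n : ℤ) + 1) = (q + 1) + n by ring, ← ih, ← hc, zpow_add_one]
      group
    | pred n ih =>
      intro q
      have h1 := ih (q - 1)
      have h2 := hc (q - 1)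
      rw [sub_add_cancel] at h2
      rw [show q + (-(n : ℤ) - 1) = (q - 1) + -(n : ℤ) by ring, ← h1, ← h2, zpow_sub_one]
      group
  have shc : ∀ l l' p q (n : ℤ), τ ^ n * ⁅a l p, b l' q⁆ * (τ ^ n)⁻¹
      = ⁅a l (p + n), b l' (q + n)⁆ := by
    intro l l' p q n
    rw [← sh (a l) (haτ l) n p, ← sh (b l') (hbτ l') n q]
    simp only [commutatorElement_def]
    group
  have hcc : ∀ l l' p q k k' i j, Commute ⁅a l p, b l' q⁆ ⁅a k i, b k' j⁆ := by
    intro l l' p q k k' i j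
    rw [commutatorElement_def (a k i)]
    exact (((hca _ _ _ _ _ _).mul_right (hcb _ _ _ _ _ _)).mul_right
      (hca _ _ _ _ _ _).inv_right).mul_right (hcb _ _ _ _ _ _).inv_right
  have base2 : ∀ l l' (p q : ℤ), |p - q| ≤ 2 → ⁅a l p, b l' q⁆ = ⁅a l' q, b l p⁆ := by
    intro l l' p q h
    rw [abs_le] at h
    rcases le_total p q with hpq | hpq
    · have := base l l' 0 (q - p) (by omega) (by omega) (by omega) (by omega)
      have h1 := shc l l' 0 (q - p) p
      have h2 := shc l' l (q - p) 0 p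
      rw [zero_add, sub_add_cancel] at h1 h2
      rw [← h1, ← h2, this]
    · have := base l l' (p - q) 0 (by omega) (by omega) (by omega) (by omega)
      have h1 := shc l l' (p - q) 0 q
      have h2 := shc l' l 0 (p - q) q
      rw [zero_add, sub_add_cancel] at h1 h2
      rw [← h1, ← h2, this]
  have conjγ : ∀ l l' p q, γ * ⁅a l p, b l' q⁆ * γ⁻¹
      = ⁅a l (p + 1) * a l (p - 1), b l' (q + 1) * b l' (q - 1)⁆ := by
    intro l l' p q
    rw [← haγ l p, ← hbγ l' q]
    simp only [commutatorElement_def]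
    group
  have ex : ∀ l l' p q, ⁅a l (p + 1) * a l (p - 1), b l' (q + 1) * b l' (q - 1)⁆
      = ⁅a l (p - 1), b l' (q + 1)⁆ * ⁅a l (p - 1), b l' (q - 1)⁆
        * (⁅a l (p + 1), b l' (q + 1)⁆ * ⁅a l (p + 1), b l' (q - 1)⁆) := by
    intro l l' p q
    exact expand4 (hcb _ _ _ _ _ _) (hcb _ _ _ _ _ _) (hca _ _ _ _ _ _) (hca _ _ _ _ _ _)
  have main : ∀ (n : ℕ) (l l' : L) (p q : ℤ), |p - q| ≤ (n : ℤ) →
      ⁅a l p, b l' q⁆ = ⁅a l' q, b l p⁆ := by
    intro n
    induction n using Nat.strong_induction_on with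
    | _ n ih =>
      intro l l' p q hpq
      by_cases hn : n ≤ 2
      · exact base2 l l' p q (hpq.trans (by exact_mod_cast hn))
      rw [not_le] at hn
      have ih' : ∀ (l l' : L) (p q : ℤ), |p - q| ≤ ((n : ℤ) - 1) →
          ⁅a l p, b l' q⁆ = ⁅a l' q, b l p⁆ := by
        intro l l' p q hh
        refine ih (n - 1) (by omega) l l' p q ?_
        rw [Nat.cast_sub (by omega)]
        exact_mod_cast hh
      by_cases hlt : |p - q| ≤ (n : ℤ) - 1
      · exact ih' l l' p q hlt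
      have heq : |p - q| = n := by omega
      -- it suffices to treat p = q + n
      have pos : ∀ (l l' : L) (q : ℤ), ⁅a l (q + n), b l' q⁆ = ⁅a l' q, b l (q + n)⁆ := by
        intro l l' q
        have h0 := ih' l l' (q + n - 1) (q + 1) (by rw [abs_le]; constructor <;> omega)
        have h1 := congrArg (fun g => γ * g * γ⁻¹) h0
        beta_reduce at h1
        rw [conjγ, conjγ, ex, ex] at h1
        rw [show q + (n : ℤ) - 1 + 1 = q + n by ring, show q + (n : ℤ) - 1 - 1 = q + n - 2 by ring,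
          show q + 1 + 1 = q + 2 by ring, show q + 1 - 1 = q by ring] at h1
        have k1 := ih' l l' (q + n - 2) (q + 2) (by rw [abs_le]; constructor <;> omega)
        have k2 := ih' l l' (q + n - 2) q (by rw [abs_le]; constructor <;> omega)
        have k3 := ih' l l' (q + n) (q + 2) (by rw [abs_le]; constructor <;> omega)
        rw [k1, k2, k3] at h1
        -- h1 : c1 * c2 * (c3 * X) = X' * c2 * (c3 * c1)
        have cA := hcc l' l q (q + n) l' l (q + 2) (q + n - 2)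
        have cB := hcc l' l q (q + n) l' l q (q + n - 2)
        have cC := hcc l' l q (q + n) l' l (q + 2) (q + n)
        have c12 := hcc l' l (q + 2) (q + n - 2) l' l q (q + n - 2)
        have c13 := hcc l' l (q + 2) (q + n - 2) l' l (q + 2) (q + n)
        have e2 : ⁅a l' q, b l (q + n)⁆ * ⁅a l' q, b l (q + n - 2)⁆
            * (⁅a l' (q + 2), b l (q + n)⁆ * ⁅a l' (q + 2), b l (q + n - 2)⁆)
            = ⁅a l' (q + 2), b l (q + n - 2)⁆ * ⁅a l' q, b l (q + n - 2)⁆
            * (⁅a l' (q + 2), b l (q + n)⁆ * ⁅a l' q, b l (q + n)⁆) := by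
          generalize ⁅a l' q, b l (q + n)⁆ = X at *
          generalize ⁅a l' q, b l (q + n - 2)⁆ = c2 at *
          generalize ⁅a l' (q + 2), b l (q + n)⁆ = c3 at *
          generalize ⁅a l' (q + 2), b l (q + n - 2)⁆ = c1 at *
          calc X * c2 * (c3 * c1) = X * (c2 * (c3 * c1)) := by group
            _ = X * (c2 * (c1 * c3)) := by rw [c13.eq]
            _ = X * ((c2 * c1) * c3) := by group
            _ = X * ((c1 * c2) * c3) := by rw [c12.eq]
            _ = (X * (c1 * c2 * c3)) := by group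
            _ = (c1 * c2 * c3) * X := (((cA.mul_right cB).mul_right cC)).eq
            _ = c1 * c2 * (c3 * X) := by group
        exact mul_left_cancel (mul_left_cancel (h1.trans e2))
      rcases (abs_eq (by positivity)).mp heq with h1 | h1
      · have := pos l l' q
        rwa [show q + (n : ℤ) = p by omega] at this
      · have := pos l' l p
        rw [show p + (n : ℤ) = q by omega] at this
        exact this.symm
  intro l l' p q
  exact main (p - q).natAbs l l' p q (by rw [Int.abs_eq_natAbs])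

end Pool.Agent.H86.FS
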