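import Pool.Agent.H86.FS.T3Def
import Pool.Agent.H69.MG.Wrap

/-!
# T3, case 1: extremes `a_0` and `a_D`, middle `b_j`
(Labels suppressed.) Notation and remarks as in T3A.  Claim: for `1 ≤ j ≤ D-1`, `a_0` commutes with `c(D, j) = ⁅a_D, b_j⁆`.

Proof. Let `2 ≤ j' ≤ D-2`. Window `[1, D-1]`: `a_1` commutes with `c(D-1, j')`, hence with `b_{j'} a_{D-1} b_{j'}⁻¹ = a_{D-1} c(D-1,j')`.
(g2) conjugate: `a_2 a_0` commutes with `β (a_D a_{D-2}) β⁻¹`, `β = b_{j'+1} b_{j'-1}` (indices in `[1, D-1]`).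
 `β a_{D-2} β⁻¹ = a_{D-2} c(D-2,j'+1) c(D-2,j'-1)` (window `[1, D-1]`) commutes with `a_0` (window `[0, D-1]`) and with `a_2`.
 `β a_D β⁻¹ = a_D c(D, j'+1) c(D, j'-1)` (window `[1, D]`; the `c`'s commute with each other and with `a_D`, `b`'s of that window) commutes with
 `a_2`. So `a_0` commutes with `β a_D β⁻¹`, and with `a_D`, hence with `c(D, j'+1) c(D, j'-1)`.   (1)
(g3) the same with `g3`: `a_2 a_1 a_0` commutes with `β₃ (a_D a_{D-1} a_{D-2}) β₃⁻¹`, `β₃ = b_{j'+1} b_{j'} b_{j'-1}`; the parts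
 `β₃ a_{D-1} β₃⁻¹`, `β₃ a_{D-2} β₃⁻¹` are in the window `[1, D-1]` and commute with `a_0, a_1, a_2`; `β₃ a_D β₃⁻¹` commutes with `a_1, a_2`
 (window `[1, D]`). So `a_0` commutes with `c(D, j'+1) c(D, j') c(D, j'-1)`.   (2)
Hence `a_0` commutes with `c(D, j')` for `2 ≤ j' ≤ D-2` (the `c(D, ·)` commute with each other), and by (1) with `j' = 2` and `j' = D-2`
(`D ≥ 5`) also for `j = 1`, `j = D-1`.
-/

set_option autoImplicit false

open scoped commutatorElement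

namespace Pool.Agent.H86.FS

variable {G : Type*} [Group G] {L : Type*}

theorem T3Sys.case1 (S : T3Sys G L) (D : ℤ) (hD : 5 ≤ D) (h : S.P (D - 1)) :
    ∀ (l l' l'' : L) (j : ℤ), 1 ≤ j → j ≤ D - 1 →
      Commute (S.a l 0) ⁅S.a l' D, S.b l'' j⁆ := by
  intro l l' l'' j h1 h2
  have := Pool.Agent.H69.MG.case1 (Pool.Agent.H69.MG.toSys S) hD (Pool.Agent.H69.MG.toHyp S h)
    l l' l'' 0 j (by omega) (by omega)
  rwa [zero_add] at this

end Pool.Agent.H86.FS
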