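import Pool.Agent.H86.FS.T3Def
import Pool.Agent.H69.MG.Wrap

/-!
# T3, the two ties
(Labels suppressed; `a`, `a'` denote letters with possibly different labels.) Notation as in T3A.
Hypotheses: `h : P(D-1)`; `h2` = case 2 (T3A); `h2'` = case 2 for the swapped and mirrored system, in the form
`b_0` commutes with `a_D b_2 a_D⁻¹`; `h1` = case 1 with `j = 2`.

Claim 1: `a_D` commutes with `b_0 a'_D b_0⁻¹`.  Start with: `a_{D-1}` commutes with `b_1 a'_{D-1} b_1⁻¹` (window `[1, D-1]`), conjugate by `g2`: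
`a_D a_{D-2}` commutes with `(β a'_D β⁻¹)(β a'_{D-2} β⁻¹)`, `β = b_2 b_0`.
 * `a_{D-2}` commutes with `β a'_{D-2} β⁻¹` (window `[0, D-2]`).
 * `a_{D-2}` commutes with `β a'_D β⁻¹`: conjugate by `b_2`: `b_2 a_{D-2} b_2⁻¹ = a_{D-2} c(D-2, 2)`; `a_{D-2}` commutes with
   `b_0 a'_D b_0⁻¹` (h2), and `c(D-2,2)` commutes with `b_0` (window `[0,D-2]`) and `a'_D` (window `[2, D]`).
 * `a_D` commutes with `β a'_{D-2} β⁻¹`: conjugate by `β` (`β β = 1`) and use the previous item with the labels exchanged.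
 So `a_D` commutes with `β a'_D β⁻¹` [all four other pairs commute]. `β a'_D β⁻¹ = b_0 (a'_D z) b_0⁻¹` with `z = c'(D, 2)`; `z` commutes with
 `b_0` by `h2'` (`z = (a'_D b_2 a'_D⁻¹) b_2⁻¹`), so this is `(b_0 a'_D b_0⁻¹) z`, and `z` commutes with `a_D` (window `[2, D]`). Done.
Claim 2: `a_0` commutes with `b_0 a'_D b_0⁻¹`. Start with: `a_1` commutes with `b_1 a'_{D-1} b_1⁻¹`, conjugate by `g2`:
`a_2 a_0` commutes with `(β a'_D β⁻¹)(β a'_{D-2} β⁻¹)`; `β a'_{D-2} β⁻¹` commutes with `a_0, a_2` (window `[0, D-2]`); `a_2` commutes with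
 `β a'_D β⁻¹` (conjugate by `b_2`: `a_2 c(2,2)`, `h2` with `i = 2`, and `c(2,2)` commutes with `b_0`, `a'_D`). So `a_0` commutes with
 `β a'_D β⁻¹ = (b_0 a'_D b_0⁻¹) z`, and `z = c'(D,2)` commutes with `a_0` by `h1`. Done.
-/

set_option autoImplicit false

open scoped commutatorElement

namespace Pool.Agent.H86.FS

variable {G : Type*} [Group G] {L : Type*}

theorem T3Sys.ties (S : T3Sys G L) (D : ℤ) (hD : 5 ≤ D) (h : S.P (D - 1))
    (h2 : ∀ (l l' l'' : L) (i : ℤ), 1 ≤ i → i ≤ D - 1 →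
      Commute (S.a l i) (S.b l'' 0 * S.a l' D * (S.b l'' 0)⁻¹))
    (h2' : ∀ (l l' l'' : L), Commute (S.b l 0) (S.a l'' D * S.b l' 2 * (S.a l'' D)⁻¹))
    (h1 : ∀ (l l' l'' : L), Commute (S.a l 0) ⁅S.a l' D, S.b l'' 2⁆) :
    ∀ (l l' l'' : L), Commute (S.a l D) (S.b l'' 0 * S.a l' D * (S.b l'' 0)⁻¹) ∧
      Commute (S.a l 0) (S.b l'' 0 * S.a l' D * (S.b l'' 0)⁻¹) := by
  intro l l' l''
  have t1 := Pool.Agent.H69.MG.tie1 (Pool.Agent.H69.MG.toSys S) hD (Pool.Agent.H69.MG.toHyp S h)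
    l l' l'' 0
  have t2 := Pool.Agent.H69.MG.tie2 (Pool.Agent.H69.MG.toSys S) hD (Pool.Agent.H69.MG.toHyp S h)
    l l' l'' 0
  rw [(Pool.Agent.H69.MG.toSys S).form, zero_add] at t1 t2
  exact ⟨t1, t2⟩

end Pool.Agent.H86.FS
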