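import Pool.Agent.H86.FS.T3A
import Pool.Agent.H86.FS.T3B
import Pool.Agent.H86.FS.T3C
import Pool.Agent.H69.MG.Wrap

/-!
# T3: assembly
Write `c(i,j) = ⁅a_i, b_j⁆ = a_i (b_j a_i b_j⁻¹)` (involutions) `= (a_i b_j a_i⁻¹) b_j⁻¹`. So, since the `a`'s commute,
'`c(i,j)` commutes with `a_k`' is equivalent to '`a_k` commutes with `b_j a_i b_j⁻¹`', and (conjugate by `b_j`) symmetric in `(i,k)`
(with the labels exchanged); '`c(i,j)` commutes with `b_k`' is equivalent to '`b_k` commutes with `a_i b_j a_i⁻¹`', symmetric in `(j,k)`.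

Step: `5 ≤ D → S.P (D-1) → S.P D`. Conjugating by powers of `τ` we may take `m = 0`. If the three indices lie in a window of length
`D-1`, done; otherwise the minimum is `0` and the maximum is `D`.
* `(B)`-statements (`c(i,j)` with `a_k`), up to exchanging `i` and `k`:
  - `j = 0`: one of `i,k` is `D`, say `k = D`: `i = 0`, `i = D`: `ties`; else `case2`.
  - `j = D`: mirror image (`S.mirror`, translated by `D`).
  - `0 < j < D`: `{i,k} = {0,D}`: `case1`.
* `(A)`-statements: apply the above to `S.swap`.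
`P_swap`: `⁅b_j, a_i⁆ = ⁅a_i, b_j⁆⁻¹`. `P_mirror`: windows `[m, m+D]` go to `[-m-D, -m]`.
`h2'` for `ties`: `case2` for `S.swap.mirror` (translate by `τ^D`) gives `b_{D-i}` commutes with `a_D b_0 a_D⁻¹`; take `i = D-2` and
conjugate by `a_D`.
Then `S.P D` for all `D ≥ 4` by induction, and any three indices lie in some window.
-/

set_option autoImplicit false

open scoped commutatorElement

namespace Pool.Agent.H86.FS

variable {G : Type*} [Group G] {L : Type*}

theorem T3Sys.main (S : T3Sys G L) (h : S.P 4) :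
    ∀ (l l' l'' : L) (i j k : ℤ),
      Commute ⁅S.a l i, S.b l' j⁆ (S.a l'' k) ∧ Commute ⁅S.a l i, S.b l' j⁆ (S.b l'' k) := by
  intro l l' l'' i j k
  exact ⟨(Pool.Agent.H69.MG.T3a (Pool.Agent.H69.MG.toSys S) (Pool.Agent.H69.MG.toHyp S h)
      l'' l l' k i j).symm,
    (Pool.Agent.H69.MG.T3b (Pool.Agent.H69.MG.toSys S) (Pool.Agent.H69.MG.toHyp S h)
      l'' l l' k i j).symm⟩

end Pool.Agent.H86.FS
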