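import Pool.Agent.H86.FS.EC
import Pool.Agent.H86.FS.Rels
import Pool.Agent.H86.FS.T2
import Pool.Agent.H86.FS.T2S
import Pool.Agent.H86.FS.T3

/-!
# The base engine (section 4)
`a q := t^q th t^(-q)`, `b q := t^q et t^(-q)` (`q ∈ ℤ`; labels `Unit`), `τ = t`, `γ = g2 = u1`, `g3 = u2`.
* `aγ`: `u1 (t^q th t^-q) u1⁻¹ = t^q (u1 th u1⁻¹) t^-q = t^q (t th t⁻¹ * t⁻¹ th t) t^-q` (R3, R1).
* `core_G0`: `aa`: T2 with `b := a`, base from (R4) (`k = 0, 1, 2`), `base'` by conjugation/symmetry; `bb` the same. `T3Sys.main` with `S.P 4` from (R5) (conjugate by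
  `t^(-m)`). (R6) and T2S. Then `core_closure`.
* `G0_stable`: `t^{±1}` shifts, `u1`, `u2` by R3; `s_i c s_i⁻¹ = c * t^(2i+3) c t^-(2i+3)` for `c = th` and `c = et` simultaneously, i.e.
  `conj2 s_i (a q, b q) = (a q, b q) * (a (q+m_i), b (q+m_i))`. Same for `u1`, `u2`.
* `reach`: `g0 = u1 * u2 * ∏ s_i`. `reach_closure` with `Γ0 = G0`, `g = g0`, `Q = {t,u1,u2} ∪ range s`: all of `Q` commutes with `g0`; for `q ∈ Q`:
  `conj2 (g0^k) (conj2 q y) = conj2 q (conj2 (g0^k) y)`, `G0_stable`; for `q⁻¹`: `g0 = q * q'` with `q'` a product of elements of `Q`, so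
  `conj2 (g0^(k+1)) (conj2 q⁻¹ y) = conj2 q' (conj2 (g0^k) y)`. (`t⁻¹`: directly.)
* `core`: `core_of_reach`.
* `e4`: `e4_closure`; on generators `conj2 q (th, et)`, `q ∈ TT`: `q` commutes with `d`, `sg` (R7), so conjugate the relations (R7) for `(th, et)` by `q`;
  `sn (conj2 q y) = q * sn y * q⁻¹`.
* `ΓT`: `TT`-stability, because the set of generators is stable.
-/

set_option autoImplicit false

open scoped commutatorElement

namespace Pool.Agent.H86.FS

open Pool.Agent.H75.FS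

variable {G : Type*} [Group G] {r : ℕ}

theorem sn_conj2 (q : G) (y : G × G) : sn (conj2 q y) = q * sn y * q⁻¹ := by
  simp [sn, commutatorElement_def, mul_assoc]

namespace Gens

variable (g : Gens G r)

/-- generators of `T` -/
def TS : Set G := {g.t, g.u1, g.u2} ∪ Set.range g.s
/-- `T = ⟨t, u₁, u₂, s_i⟩` -/
def TT : Subgroup G := Subgroup.closure g.TS
/-- `Γ⁰` -/
def G0 : Subgroup (G × G) := Subgroup.closure {y | ∃ q : ℤ, y = conj2 (g.t ^ q) (g.th, g.et)}
/-- `Γ_R` -/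
def GR : Subgroup (G × G) :=
  Subgroup.closure {y | ∃ q ∈ Subgroup.closure g.TS, y = conj2 q (g.th, g.et)}
/-- `u₁ u₂ ∏ s_i` -/
def g0 : G := g.u1 * g.u2 * (List.ofFn g.s).prod

end Gens

/-- a family `cj (t^q) c` shifts under `t` -/
lemma fam_shift (t c : G) (q : ℤ) : t * cj (t ^ q) c * t⁻¹ = cj (t ^ (q + 1)) c := by
  unfold cj
  rw [show q + 1 = 1 + q by ring, zpow_add, zpow_one]; group

lemma fam_two {t u c : G} (htu : Commute u t) (h : cj u c = cj t c * cj t⁻¹ c) (q : ℤ) :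
    u * cj (t ^ q) c * u⁻¹ = cj (t ^ (q + 1)) c * cj (t ^ (q - 1)) c := by
  have h1 : Commute u (t ^ q) := htu.zpow_right q
  calc u * cj (t ^ q) c * u⁻¹ = (u * t ^ q) * c * (u * t ^ q)⁻¹ := by unfold cj; group
    _ = (t ^ q * u) * c * (t ^ q * u)⁻¹ := by rw [h1.eq]
    _ = t ^ q * cj u c * (t ^ q)⁻¹ := by unfold cj; group
    _ = cj (t ^ (q + 1)) c * cj (t ^ (q - 1)) c := by
      rw [h]; unfold cj; rw [zpow_add, zpow_sub, zpow_one]; group

lemma fam_three {t u c : G} (htu : Commute u t) (h : cj u c = cj t c * c * cj t⁻¹ c) (q : ℤ) :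
    u * cj (t ^ q) c * u⁻¹ = cj (t ^ (q + 1)) c * cj (t ^ q) c * cj (t ^ (q - 1)) c := by
  have h1 : Commute u (t ^ q) := htu.zpow_right q
  calc u * cj (t ^ q) c * u⁻¹ = (u * t ^ q) * c * (u * t ^ q)⁻¹ := by unfold cj; group
    _ = (t ^ q * u) * c * (t ^ q * u)⁻¹ := by rw [h1.eq]
    _ = t ^ q * cj u c * (t ^ q)⁻¹ := by unfold cj; group
    _ = cj (t ^ (q + 1)) c * cj (t ^ q) c * cj (t ^ (q - 1)) c := by
      rw [h]; unfold cj; rw [zpow_add, zpow_sub, zpow_one]; group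

lemma fam_s {t u c : G} {n : ℕ} (htu : Commute u t) (h : cj u c = c * cj (t ^ n) c) (q : ℤ) :
    u * cj (t ^ q) c * u⁻¹ = cj (t ^ q) c * cj (t ^ (q + n)) c := by
  have h1 : Commute u (t ^ q) := htu.zpow_right q
  calc u * cj (t ^ q) c * u⁻¹ = (u * t ^ q) * c * (u * t ^ q)⁻¹ := by unfold cj; group
    _ = (t ^ q * u) * c * (t ^ q * u)⁻¹ := by rw [h1.eq]
    _ = t ^ q * cj u c * (t ^ q)⁻¹ := by unfold cj; group
    _ = cj (t ^ q) c * cj (t ^ (q + n)) c := by
      rw [h]; unfold cj; rw [zpow_add, zpow_natCast]; group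

lemma fam_conj (t c : G) (m q : ℤ) : cj (t ^ q) c = t ^ m * cj (t ^ (q - m)) c * (t ^ m)⁻¹ := by
  unfold cj
  rw [zpow_sub]; group

lemma fam_sq {t c : G} (h : c * c = 1) (q : ℤ) : cj (t ^ q) c * cj (t ^ q) c = 1 := by
  unfold cj
  calc t ^ q * c * (t ^ q)⁻¹ * (t ^ q * c * (t ^ q)⁻¹) = t ^ q * (c * c) * (t ^ q)⁻¹ := by group
    _ = 1 := by rw [h]; group

/-- commutation of a family from three cases -/
lemma fam_comm {t u c : G} (htu : Commute u t) (h : cj u c = cj t c * cj t⁻¹ c)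
    (hc : ∀ k : Fin 3, Commute c (cj (t ^ (k : ℕ)) c)) (p q : ℤ) :
    Commute (cj (t ^ p) c) (cj (t ^ q) c) := by
  have base : ∀ q : ℤ, 0 ≤ q → q ≤ 2 → Commute (cj (t ^ (0 : ℤ)) c) (cj (t ^ q) c) := by
    intro q h0 h2
    have h3 := hc ⟨q.toNat, by omega⟩
    simp only [zpow_zero, cj, one_mul, inv_one, mul_one] at h3 ⊢
    rw [← zpow_natCast, Int.toNat_of_nonneg h0] at h3
    exact h3
  exact T2 (L := Unit) (L' := Unit) t u (fun _ q => cj (t ^ q) c) (fun _ q => cj (t ^ q) c)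
    (fun _ q => fam_shift t c q) (fun _ q => fam_shift t c q)
    (fun _ q => fam_two htu h q) (fun _ q => fam_two htu h q)
    (fun _ _ q h0 h2 => base q h0 h2) (fun _ _ q h0 h2 => (base q h0 h2).symm) () () p q

namespace BRel

variable {g : Gens G r}

lemma u1t (h : BRel g) : Commute g.u1 g.t := h.tor g.u1 (by simp) g.t (by simp)
lemma u2t (h : BRel g) : Commute g.u2 g.t := h.tor g.u2 (by simp) g.t (by simp)
lemma st (h : BRel g) (i : Fin r) : Commute (g.s i) g.t := (h.tors g.t (by simp) i).symm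

/-- the system of letters `a q = t^q th t^-q`, `b q = t^q et t^-q` -/
def sys (h : BRel g) : T3Sys G Unit where
  τ := g.t
  g2 := g.u1
  g3 := g.u2
  a := fun _ q => cj (g.t ^ q) g.th
  b := fun _ q => cj (g.t ^ q) g.et
  a2 := fun _ q => fam_sq (h.inv g.th (by simp)) q
  b2 := fun _ q => fam_sq (h.inv g.et (by simp)) q
  aτ := fun _ q => fam_shift _ _ q
  bτ := fun _ q => fam_shift _ _ q
  ag2 := fun _ q => fam_two h.u1t (h.u1c g.th (by simp)) q
  bg2 := fun _ q => fam_two h.u1t (h.u1c g.et (by simp)) q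
  ag3 := fun _ q => fam_three h.u2t (h.u2c g.th (by simp)) q
  bg3 := fun _ q => fam_three h.u2t (h.u2c g.et (by simp)) q
  aa := fun _ _ p q => fam_comm h.u1t (h.u1c g.th (by simp)) (h.com g.th (by simp)) p q
  bb := fun _ _ p q => fam_comm h.u1t (h.u1c g.et (by simp)) (h.com g.et (by simp)) p q

lemma sys_P4 (h : BRel g) : h.sys.P 4 := by
  intro m _ _ _ i j k hi hi' hj hj' hk hk'
  have e := fun c hc => h.tr ⟨(i - m).toNat, by omega⟩ ⟨(j - m).toNat, by omega⟩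
    ⟨(k - m).toNat, by omega⟩ c hc
  simp only [← zpow_natCast, Int.toNat_of_nonneg (sub_nonneg.2 hi),
    Int.toNat_of_nonneg (sub_nonneg.2 hj), Int.toNat_of_nonneg (sub_nonneg.2 hk)] at e
  have e1 := e g.th (by simp)
  have e2 := e g.et (by simp)
  show Commute ⁅cj (g.t ^ i) g.th, cj (g.t ^ j) g.et⁆ (cj (g.t ^ k) g.th) ∧
    Commute ⁅cj (g.t ^ i) g.th, cj (g.t ^ j) g.et⁆ (cj (g.t ^ k) g.et)
  rw [fam_conj g.t g.th m i, fam_conj g.t g.et m j, fam_conj g.t g.th m k,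
    fam_conj g.t g.et m k, ← conj_comm_iff]
  exact ⟨(commute_conj_iff _).2 e1, (commute_conj_iff _).2 e2⟩

lemma sys_symm (h : BRel g) (p q : ℤ) : ⁅cj (g.t ^ p) g.th, cj (g.t ^ q) g.et⁆ =
    ⁅cj (g.t ^ q) g.th, cj (g.t ^ p) g.et⁆ := by
  have hm := h.sys.main h.sys_P4
  have key : ∀ p q : ℤ, p ≤ q → q ≤ p + 2 → ⁅cj (g.t ^ p) g.th, cj (g.t ^ q) g.et⁆ =
      ⁅cj (g.t ^ q) g.th, cj (g.t ^ p) g.et⁆ := by
    intro p q h1 h2
    have e := h.sy ⟨(q - p).toNat, by omega⟩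
    simp only [← zpow_natCast, Int.toNat_of_nonneg (sub_nonneg.2 h1)] at e
    rw [fam_conj g.t g.th p p, fam_conj g.t g.et p q, fam_conj g.t g.th p q,
      fam_conj g.t g.et p p, ← conj_comm_iff, ← conj_comm_iff]
    have z : ∀ c : G, cj (g.t ^ (p - p)) c = c := by intro c; simp [cj]
    rw [z, z, e]
  exact T2S (L := Unit) g.t g.u1 (fun _ q => cj (g.t ^ q) g.th) (fun _ q => cj (g.t ^ q) g.et)
    (fun _ q => fam_shift _ _ q) (fun _ q => fam_shift _ _ q)
    (fun _ q => fam_two h.u1t (h.u1c g.th (by simp)) q)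
    (fun _ q => fam_two h.u1t (h.u1c g.et (by simp)) q)
    (fun _ _ _ p q k => (hm () () () p q k).1) (fun _ _ _ p q k => (hm () () () p q k).2)
    (fun _ _ p q hp hp' hq hq' => by
      rcases le_total p q with hpq | hpq
      · exact key p q hpq (by omega)
      · exact (key q p hpq (by omega)).symm) () () p q

theorem core_G0 (h : BRel g) : Core g.G0 := by
  have hm := h.sys.main h.sys_P4
  have c1 : ∀ q : ℤ, (conj2 (g.t ^ q) (g.th, g.et)).1 = cj (g.t ^ q) g.th := fun q => rfl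
  have c2 : ∀ q : ℤ, (conj2 (g.t ^ q) (g.th, g.et)).2 = cj (g.t ^ q) g.et := fun q => rfl
  apply core_closure
  · rintro _ ⟨q, rfl⟩
    exact h.sys.a2 () q
  · rintro _ ⟨q, rfl⟩
    exact h.sys.b2 () q
  · rintro _ ⟨q, rfl⟩ _ ⟨p, rfl⟩
    exact h.sys.aa () () q p
  · rintro _ ⟨q, rfl⟩ _ ⟨p, rfl⟩
    exact h.sys.bb () () q p
  · rintro _ ⟨q, rfl⟩ _ ⟨p, rfl⟩ _ ⟨k, rfl⟩
    exact (hm () () () q p k).1
  · rintro _ ⟨q, rfl⟩ _ ⟨p, rfl⟩ _ ⟨k, rfl⟩
    exact (hm () () () q p k).2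
  · rintro _ ⟨q, rfl⟩ _ ⟨p, rfl⟩
    exact h.sys_symm q p

theorem G0_stable (h : BRel g) : ∀ q ∈ g.TS ∪ {g.t⁻¹}, ∀ y ∈ g.G0, conj2 q y ∈ g.G0 := by
  have gen : ∀ q : ℤ, conj2 (g.t ^ q) (g.th, g.et) ∈ g.G0 := fun q =>
    Subgroup.subset_closure ⟨q, rfl⟩
  intro x hx y hy
  unfold Gens.G0 at hy
  induction hy using Subgroup.closure_induction with
  | mem y hy =>
    obtain ⟨q, rfl⟩ := hy
    rcases hx with (hx | ⟨i, rfl⟩) | hx
    · rcases hx with rfl | rfl | rfl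
      · have : conj2 g.t (conj2 (g.t ^ q) (g.th, g.et)) = conj2 (g.t ^ (q + 1)) (g.th, g.et) := by
          ext
          · exact fam_shift g.t g.th q
          · exact fam_shift g.t g.et q
        rw [this]; exact gen _
      · have : conj2 g.u1 (conj2 (g.t ^ q) (g.th, g.et)) =
            conj2 (g.t ^ (q + 1)) (g.th, g.et) * conj2 (g.t ^ (q - 1)) (g.th, g.et) := by
          ext
          · exact h.sys.ag2 () q
          · exact h.sys.bg2 () q
        rw [this]; exact Subgroup.mul_mem _ (gen _) (gen _)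
      · have : conj2 g.u2 (conj2 (g.t ^ q) (g.th, g.et)) =
            conj2 (g.t ^ (q + 1)) (g.th, g.et) * conj2 (g.t ^ q) (g.th, g.et) *
              conj2 (g.t ^ (q - 1)) (g.th, g.et) := by
          ext
          · exact h.sys.ag3 () q
          · exact h.sys.bg3 () q
        rw [this]; exact Subgroup.mul_mem _ (Subgroup.mul_mem _ (gen _) (gen _)) (gen _)
    · have : conj2 (g.s i) (conj2 (g.t ^ q) (g.th, g.et)) =
          conj2 (g.t ^ q) (g.th, g.et) *
            conj2 (g.t ^ (q + (2 * (i : ℕ) + 3 : ℕ))) (g.th, g.et) := by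
        ext
        · exact fam_s (h.st i) (h.sc g.th (by simp) i) q
        · exact fam_s (h.st i) (h.sc g.et (by simp) i) q
      rw [this]; exact Subgroup.mul_mem _ (gen _) (gen _)
    · rw [Set.mem_singleton_iff] at hx
      subst hx
      have : conj2 g.t⁻¹ (conj2 (g.t ^ q) (g.th, g.et)) = conj2 (g.t ^ (q - 1)) (g.th, g.et) := by
        rw [← conj2_mul]
        congr 2
        rw [show q - 1 = -1 + q by ring, zpow_add, zpow_neg_one]
      rw [this]; exact gen _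
  | one => rw [map_one]; exact Subgroup.one_mem _
  | mul a b _ _ ha hb => rw [map_mul]; exact Subgroup.mul_mem _ ha hb
  | inv a _ ha => rw [map_inv]; exact Subgroup.inv_mem _ ha

theorem TS_com (h : BRel g) : ∀ x ∈ g.TS, ∀ y ∈ g.TS, Commute x y := by
  rintro x (hx | ⟨i, rfl⟩) y (hy | ⟨j, rfl⟩)
  · have hx' : x ∈ [g.t, g.u1, g.u2] := by
      rcases hx with rfl | rfl | rfl <;> simp
    have hy' : y ∈ [g.t, g.u1, g.u2] := by
      rcases hy with rfl | rfl | rfl <;> simp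
    exact h.tor x hx' y hy'
  · have hx' : x ∈ [g.t, g.u1, g.u2] := by
      rcases hx with rfl | rfl | rfl <;> simp
    exact h.tors x hx' j
  · have hy' : y ∈ [g.t, g.u1, g.u2] := by
      rcases hy with rfl | rfl | rfl <;> simp
    exact (h.tors y hy' i).symm
  · exact h.ss i j

theorem TT_com0 (h : BRel g) : ∀ x ∈ g.TT, ∀ y ∈ g.TT, Commute x y := comm_closure h.TS_com

theorem TT_of {x : G} (hx : ∀ q ∈ g.TS, Commute q x) : ∀ q ∈ g.TT, Commute q x := by
  intro q hq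
  unfold Gens.TT at hq
  induction hq using Subgroup.closure_induction with
  | mem s hs => exact hx s hs
  | one => exact Commute.one_left _
  | mul a b _ _ ha hb => exact ha.mul_left hb
  | inv a _ ha => exact ha.inv_left

/-- every `q ∈ TS` other than `t` divides `g0` with stable quotient -/
theorem quot_list (K : Subgroup (G × G)) (T : Subgroup G) (hT : ∀ x ∈ T, ∀ y ∈ T, Commute x y)
    (l : List G) (hl : ∀ x ∈ l, x ∈ MM K T) :
    l.prod ∈ MM K T ∧ ∀ q ∈ l, ∃ q' ∈ MM K T, l.prod = q * q' := by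
  induction l with
  | nil => exact ⟨by simpa using MM.one K T, by simp⟩
  | cons x l ih =>
    obtain ⟨h1, h2⟩ := ih (fun y hy => hl y (List.mem_cons_of_mem _ hy))
    have hx : x ∈ MM K T := hl x List.mem_cons_self
    refine ⟨by rw [List.prod_cons]; exact MM.mul hx h1, ?_⟩
    intro q hq
    rcases List.mem_cons.1 hq with rfl | hq
    · exact ⟨l.prod, h1, List.prod_cons⟩
    · obtain ⟨q', hq', e⟩ := h2 q hq
      refine ⟨x * q', MM.mul hx hq', ?_⟩
      rw [List.prod_cons, e, ← mul_assoc, ← mul_assoc,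
        (hT x hx.1 q (hl q (List.mem_cons_of_mem _ hq)).1).eq]

theorem g0_list (g : Gens G r) : g.g0 = (g.u1 :: g.u2 :: List.ofFn g.s).prod := by
  rw [List.prod_cons, List.prod_cons, Gens.g0, mul_assoc]

theorem reach (h : BRel g) : ∀ y ∈ g.GR, ∃ k : ℕ, conj2 (g.g0 ^ k) y ∈ g.G0 := by
  have hTS : ∀ x ∈ g.TS, x ∈ MM g.G0 g.TT := fun x hx =>
    ⟨Subgroup.subset_closure hx, fun y hy => h.G0_stable x (Or.inl hx) y hy⟩
  have hl : ∀ x ∈ (g.u1 :: g.u2 :: List.ofFn g.s), x ∈ MM g.G0 g.TT := by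
    intro x hx
    rw [List.mem_cons, List.mem_cons, List.mem_ofFn] at hx
    rcases hx with rfl | rfl | ⟨i, rfl⟩
    · exact hTS _ (Or.inl (by simp))
    · exact hTS _ (Or.inl (by simp))
    · exact hTS _ (Or.inr ⟨i, rfl⟩)
  obtain ⟨h1, h2⟩ := quot_list g.G0 g.TT h.TT_com0 _ hl
  rw [← g0_list] at h1 h2
  have hs : ∀ y ∈ g.G0, conj2 g.g0 y ∈ g.G0 := h1.2
  have hcomm : ∀ q ∈ g.TT, ∀ k : ℕ, Commute (g.g0 ^ k) q := fun q hq k =>
    (h.TT_com0 _ h1.1 q hq).pow_left k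
  have hx : (g.th, g.et) ∈ g.G0 := Subgroup.subset_closure ⟨0, by simp⟩
  have main := reach_closure g.G0 g.g0 hs g.TS ?_ ?_ _ hx
  · exact main
  · rintro q hq y ⟨k, hk⟩
    refine ⟨k, ?_⟩
    rw [← conj2_mul, (hcomm q (Subgroup.subset_closure hq) k).eq, conj2_mul]
    exact (hTS q hq).2 _ hk
  · rintro q hq y ⟨k, hk⟩
    have hqT : q ∈ g.TT := Subgroup.subset_closure hq
    by_cases hqt : q = g.t
    · subst hqt
      refine ⟨k, ?_⟩
      rw [← conj2_mul, (hcomm _ (Subgroup.inv_mem _ hqT) k).eq, conj2_mul]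
      exact h.G0_stable _ (Or.inr rfl) _ hk
    · have hql : q ∈ (g.u1 :: g.u2 :: List.ofFn g.s) := by
        rw [List.mem_cons, List.mem_cons, List.mem_ofFn]
        rcases hq with hq | ⟨i, rfl⟩
        · rcases hq with rfl | rfl | rfl
          · exact absurd rfl hqt
          · exact Or.inl rfl
          · exact Or.inr (Or.inl rfl)
        · exact Or.inr (Or.inr ⟨i, rfl⟩)
      obtain ⟨q', hq', e⟩ := h2 q hql
      refine ⟨k + 1, ?_⟩
      have e2 : g.g0 ^ (k + 1) * q⁻¹ = q' * g.g0 ^ k := by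
        rw [(hcomm _ (Subgroup.inv_mem _ hqT) (k + 1)).eq, pow_succ', e]
        rw [mul_assoc q q', inv_mul_cancel_left]
      rw [← conj2_mul, e2, conj2_mul]
      exact hq'.2 _ hk

theorem core (h : BRel g) : Core g.GR := by
  have hTS : ∀ x ∈ g.TS, x ∈ MM g.G0 g.TT := fun x hx =>
    ⟨Subgroup.subset_closure hx, fun y hy => h.G0_stable x (Or.inl hx) y hy⟩
  have hl : ∀ x ∈ (g.u1 :: g.u2 :: List.ofFn g.s), x ∈ MM g.G0 g.TT := by
    intro x hx
    rw [List.mem_cons, List.mem_cons, List.mem_ofFn] at hx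
    rcases hx with rfl | rfl | ⟨i, rfl⟩
    · exact hTS _ (Or.inl (by simp))
    · exact hTS _ (Or.inl (by simp))
    · exact hTS _ (Or.inr ⟨i, rfl⟩)
  have h1 := (quot_list g.G0 g.TT h.TT_com0 _ hl).1
  rw [← g0_list] at h1
  exact core_of_reach g.GR g.G0 g.g0 h1.2 h.reach h.core_G0

theorem e4 (h : BRel g) : E4 g.GR g.d g.sg := by
  have hd : ∀ q ∈ g.TT, Commute q g.d := TT_of (by
    rintro q (hq | ⟨i, rfl⟩)
    · exact (h.dt g.d (by simp) q (by rcases hq with rfl | rfl | rfl <;> simp)).symm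
    · exact (h.dts g.d (by simp) i).symm)
  have hsg : ∀ q ∈ g.TT, Commute q g.sg := TT_of (by
    rintro q (hq | ⟨i, rfl⟩)
    · exact (h.dt g.sg (by simp) q (by rcases hq with rfl | rfl | rfl <;> simp)).symm
    · exact (h.dts g.sg (by simp) i).symm)
  have hcj : ∀ q ∈ g.TT, ∀ x : G, Commute q x → q * x * q⁻¹ = x := fun q _ x hx => by
    rw [hx.eq, mul_inv_cancel_right]
  have hds : ∀ q ∈ g.TT, Commute q ⁅g.d, g.sg⁆ := fun q hq => by
    rw [commutatorElement_def]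
    exact (((hd q hq).mul_right (hsg q hq)).mul_right (hd q hq).inv_right).mul_right
      (hsg q hq).inv_right
  apply e4_closure _ h.core
  · rintro _ ⟨q, hq, rfl⟩
    rw [← hcj q hq g.d (hd q hq)]
    exact (commute_conj_iff q).2 h.dth
  · rintro _ ⟨q, hq, rfl⟩
    rw [← hcj q hq g.sg (hsg q hq)]
    exact (commute_conj_iff q).2 h.sget
  · rintro _ ⟨q, hq, rfl⟩
    rw [sn_conj2]
    have e1 : (conj2 q (g.th, g.et)).1 = q * g.th * q⁻¹ := rfl
    rw [e1]
    nth_rewrite 1 [← hcj q hq g.sg (hsg q hq)]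
    rw [← conj_comm_iff, h.thsg]
    rfl
  · rintro _ ⟨q, hq, rfl⟩
    rw [sn_conj2]
    have e1 : (conj2 q (g.th, g.et)).2 = q * g.et * q⁻¹ := rfl
    rw [e1]
    nth_rewrite 1 [← hcj q hq g.d (hd q hq)]
    rw [← conj_comm_iff, h.det]
    rfl
  · rintro _ ⟨q, hq, rfl⟩
    rw [← hcj q hq _ (hds q hq)]
    exact (commute_conj_iff q).2 (h.sbc g.th (by simp))
  · rintro _ ⟨q, hq, rfl⟩
    rw [← hcj q hq _ (hds q hq)]
    exact (commute_conj_iff q).2 (h.sbc g.et (by simp))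

theorem mem_GR (g : Gens G r) : (g.th, g.et) ∈ g.GR := by
  exact Subgroup.subset_closure ⟨1, Subgroup.one_mem _, by simp⟩

theorem GR_TT (g : Gens G r) : ∀ q ∈ g.TT, ∀ y ∈ g.GR, conj2 q y ∈ g.GR := by
  intro q hq y hy
  unfold Gens.GR at hy
  induction hy using Subgroup.closure_induction with
  | mem y hy =>
    obtain ⟨p, hp, rfl⟩ := hy
    exact Subgroup.subset_closure ⟨q * p, Subgroup.mul_mem _ hq hp, by rw [conj2_mul]⟩
  | one => rw [map_one]; exact Subgroup.one_mem _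
  | mul a b _ _ ha hb => rw [map_mul]; exact Subgroup.mul_mem _ ha hb
  | inv a _ ha => rw [map_inv]; exact Subgroup.inv_mem _ ha

/-- the base engine -/
def eng (h : BRel g) : Eng G where
  Γ := g.GR
  δ := g.d
  ς := g.sg
  th_sq := h.core.th_sq
  et_sq := h.core.et_sq
  th_th := h.core.th_th
  et_et := h.core.et_et
  c_th := h.core.c_th
  c_et := h.core.c_et
  symm := h.core.symm
  δ_sq := h.inv g.d (by simp)
  ς_sq := h.inv g.sg (by simp)
  δ_th := h.e4.δ_th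
  ς_et := h.e4.ς_et
  th_ς := h.e4.th_ς
  δ_et := h.e4.δ_et
  σ_th := h.e4.σ_th
  σ_et := h.e4.σ_et
  σ_δ := h.sbc g.d (by simp)
  σ_ς := h.sbc g.sg (by simp)

end BRel

end Pool.Agent.H86.FS
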