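import Pool.Agent.H86.FS.Defs

/-!
# Class 2 from generators, solvability lemmas

`class2_closure`: if all commutators of elements of `T` commute with all elements of `T`, the same holds for `closure T`.
Proof: (1) fix `x, y ∈ T`; `{z | Commute ⁅x,y⁆ z}` is a subgroup (centralizer), contains `T`. So commutators of generators are central in
`K = closure T`. (2) fix `y ∈ T`; `{x ∈ K | ∀ z ∈ K, Commute ⁅x,y⁆ z}` is closed under products:
`⁅x*x', y⁆ = x * ⁅x', y⁆ * x⁻¹ * ⁅x, y⁆ = ⁅x', y⁆ * ⁅x, y⁆`, and inverses `⁅x⁻¹, y⁆ = x⁻¹ * ⁅x,y⁆⁻¹ * x = ⁅x,y⁆⁻¹`.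
(3) the same in `y`: `⁅x, y*y'⁆ = ⁅x, y⁆ * y * ⁅x, y'⁆ * y⁻¹`.

`bil_closure`: the two-sided version with two sets `S, T`; conclusion also the bimultiplicativity.
Proof: the same inductions (first in `u`, then in `x`, then in `y`).

`class2_solvable`: `derivedSeries K 1` is generated by commutators, which are central in `K`; so it is commutative and
`derivedSeries K 2 = ⊥`.

`solvable_sup`: `K = A ⊔ B`, `A` normalises `B`. `B` (as a subgroup of `K`) is normal in `K`, the quotient is a quotient of `A`.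
E.g. the homomorphism `A →* K ⧸ B'` (`B' = B.subgroupOf K`) is surjective; use `solvable_of_ker_le_range` or
`isSolvable_of_...` / `solvable_of_surjective`.
-/

set_option autoImplicit false

open scoped commutatorElement

namespace Pool.Agent.H86.FS

/-- an element commuting with a set commutes with its closure -/
theorem h5_commute_closure {G : Type*} [Group G] {S : Set G} {g : G} (h : ∀ u ∈ S, Commute g u) :
    ∀ u ∈ Subgroup.closure S, Commute g u := by
  intro u hu
  induction hu using Subgroup.closure_induction with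
  | mem x hx => exact h x hx
  | one => exact Commute.one_right g
  | mul x y _ _ hx hy => exact hx.mul_right hy
  | inv x _ hx => exact hx.inv_right

theorem h5_comm_mul_left {G : Type*} [Group G] {x x' y : G} (h : Commute x ⁅x', y⁆)
    (h2 : Commute ⁅x, y⁆ ⁅x', y⁆) : ⁅x * x', y⁆ = ⁅x, y⁆ * ⁅x', y⁆ := by
  have e : ⁅x * x', y⁆ = x * ⁅x', y⁆ * x⁻¹ * ⁅x, y⁆ := by
    simp only [commutatorElement_def]; group
  rw [e, h.eq, mul_assoc _ x x⁻¹, mul_inv_cancel, mul_one, ← h2.eq]

theorem h5_comm_mul_right {G : Type*} [Group G] {x y y' : G} (h : Commute y ⁅x, y'⁆) :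
    ⁅x, y * y'⁆ = ⁅x, y⁆ * ⁅x, y'⁆ := by
  have e : ⁅x, y * y'⁆ = ⁅x, y⁆ * (y * ⁅x, y'⁆ * y⁻¹) := by
    simp only [commutatorElement_def]; group
  rw [e, h.eq, mul_assoc _ y y⁻¹, mul_inv_cancel, mul_one]

theorem h5_comm_inv_left {G : Type*} [Group G] {x y : G} (h : Commute x ⁅x, y⁆) :
    ⁅x⁻¹, y⁆ = ⁅x, y⁆⁻¹ := by
  have e : ⁅x⁻¹, y⁆ = x⁻¹ * ⁅x, y⁆⁻¹ * x := by
    simp only [commutatorElement_def]; group
  have h' : Commute x⁻¹ ⁅x, y⁆⁻¹ := h.inv_inv
  rw [e, h'.eq, mul_assoc, inv_mul_cancel, mul_one]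

theorem h5_comm_inv_right {G : Type*} [Group G] {x y : G} (h : Commute y ⁅x, y⁆) :
    ⁅x, y⁻¹⁆ = ⁅x, y⁆⁻¹ := by
  have e : ⁅x, y⁻¹⁆ = y⁻¹ * ⁅x, y⁆⁻¹ * y := by
    simp only [commutatorElement_def]; group
  have h' : Commute y⁻¹ ⁅x, y⁆⁻¹ := h.inv_inv
  rw [e, h'.eq, mul_assoc, inv_mul_cancel, mul_one]

theorem h5_comm_mem {G : Type*} [Group G] {K : Subgroup G} {x y : G} (hx : x ∈ K) (hy : y ∈ K) :
    ⁅x, y⁆ ∈ K := by
  rw [commutatorElement_def]
  exact K.mul_mem (K.mul_mem (K.mul_mem hx hy) (K.inv_mem hx)) (K.inv_mem hy)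

theorem bil_closure {G : Type*} [Group G] (S T : Set G)
    (h : ∀ s ∈ S, ∀ t ∈ T, ∀ u ∈ S ∪ T, Commute ⁅s, t⁆ u) :
    (∀ x ∈ Subgroup.closure S, ∀ y ∈ Subgroup.closure T, ∀ u ∈ Subgroup.closure (S ∪ T),
      Commute ⁅x, y⁆ u) ∧
    (∀ x ∈ Subgroup.closure S, ∀ x' ∈ Subgroup.closure S, ∀ y ∈ Subgroup.closure T,
      ⁅x * x', y⁆ = ⁅x, y⁆ * ⁅x', y⁆) ∧
    (∀ x ∈ Subgroup.closure S, ∀ y ∈ Subgroup.closure T, ∀ y' ∈ Subgroup.closure T,
      ⁅x, y * y'⁆ = ⁅x, y⁆ * ⁅x, y'⁆) := by
  have hS : Subgroup.closure S ≤ Subgroup.closure (S ∪ T) :=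
    Subgroup.closure_mono Set.subset_union_left
  have hT : Subgroup.closure T ≤ Subgroup.closure (S ∪ T) :=
    Subgroup.closure_mono Set.subset_union_right
  -- generators
  have g1 : ∀ s ∈ S, ∀ t ∈ T, ∀ u ∈ Subgroup.closure (S ∪ T), Commute ⁅s, t⁆ u :=
    fun s hs t ht => h5_commute_closure (h s hs t ht)
  -- left variable
  have g2 : ∀ x ∈ Subgroup.closure S, ∀ t ∈ T, ∀ u ∈ Subgroup.closure (S ∪ T),
      Commute ⁅x, t⁆ u := by
    intro x hx t ht
    induction hx using Subgroup.closure_induction with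
    | mem x hx => exact g1 x hx t ht
    | one => intro u _; rw [commutatorElement_one_left]; exact Commute.one_left u
    | mul x y hx hy ix iy =>
      intro u hu
      have e : ⁅x * y, t⁆ = ⁅x, t⁆ * ⁅y, t⁆ := by
        apply h5_comm_mul_left (iy x (hS hx)).symm
        apply ix
        exact h5_comm_mem (hS hy) (hT (Subgroup.subset_closure ht))
      rw [e]
      exact (ix u hu).mul_left (iy u hu)
    | inv x hx ix =>
      intro u hu
      rw [h5_comm_inv_left (ix x (hS hx)).symm]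
      exact (ix u hu).inv_left
  have g3 : ∀ x ∈ Subgroup.closure S, ∀ y ∈ Subgroup.closure T, ∀ u ∈ Subgroup.closure (S ∪ T),
      Commute ⁅x, y⁆ u := by
    intro x hx y hy
    induction hy using Subgroup.closure_induction with
    | mem y hy => exact g2 x hx y hy
    | one => intro u _; rw [commutatorElement_one_right]; exact Commute.one_left u
    | mul y y' hy hy' iy iy' =>
      intro u hu
      rw [h5_comm_mul_right (iy' y (hT hy)).symm]
      exact (iy u hu).mul_left (iy' u hu)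
    | inv y hy iy =>
      intro u hu
      rw [h5_comm_inv_right (iy y (hT hy)).symm]
      exact (iy u hu).inv_left
  refine ⟨g3, fun x hx x' hx' y hy => ?_, fun x hx y hy y' hy' => ?_⟩
  · apply h5_comm_mul_left (g3 x' hx' y hy x (hS hx)).symm
    exact g3 x hx y hy _ (h5_comm_mem (hS hx') (hT hy))
  · exact h5_comm_mul_right (g3 x hx y' hy' y (hT hy)).symm

theorem class2_closure {G : Type*} [Group G] (T : Set G)
    (h : ∀ x ∈ T, ∀ y ∈ T, ∀ z ∈ T, Commute ⁅x, y⁆ z) :
    ∀ x ∈ Subgroup.closure T, ∀ y ∈ Subgroup.closure T, ∀ z ∈ Subgroup.closure T,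
      Commute ⁅x, y⁆ z := by
  have := (bil_closure T T (fun s hs t ht u hu => by
    rw [Set.union_self] at hu
    exact h s hs t ht u hu)).1
  rwa [Set.union_self] at this

theorem comm_solvable {G : Type*} [Group G] (K : Subgroup G)
    (h : ∀ x ∈ K, ∀ y ∈ K, Commute x y) : IsSolvable K :=
  isSolvable_of_comm (fun a b => Subtype.ext (h a a.2 b b.2).eq)

theorem class2_solvable {G : Type*} [Group G] (K : Subgroup G)
    (h : ∀ x ∈ K, ∀ y ∈ K, ∀ z ∈ K, Commute ⁅x, y⁆ z) : IsSolvable K := by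
  refine ⟨⟨2, ?_⟩⟩
  rw [derivedSeries_succ, derivedSeries_one, Subgroup.commutator_eq_bot_iff_le_centralizer]
  have hc : commutator K ≤ Subgroup.center K := by
    rw [commutator_def, Subgroup.commutator_le]
    intro x _ y _
    rw [Subgroup.mem_center_iff]
    intro z
    apply Subtype.ext
    exact (h x x.2 y y.2 z z.2).symm.eq
  exact hc.trans (Subgroup.center_le_centralizer _)

theorem solvable_sup {G : Type*} [Group G] (A B : Subgroup G) (hA : IsSolvable A)
    (hB : IsSolvable B) (h : ∀ a ∈ A, ∀ b ∈ B, a * b * a⁻¹ ∈ B) : IsSolvable ↥(A ⊔ B) := by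
  have hAn : A ≤ Subgroup.normalizer (B : Set G) := by
    intro a ha
    rw [Subgroup.mem_normalizer_iff]
    intro b
    refine ⟨fun hb => h a ha b hb, fun hb => ?_⟩
    have := h a⁻¹ (A.inv_mem ha) _ hb
    have e : a⁻¹ * (a * b * a⁻¹) * a⁻¹⁻¹ = b := by group
    rwa [e] at this
  have hBn : B ≤ Subgroup.normalizer (B : Set G) := Subgroup.le_normalizer
  set K := A ⊔ B with hK
  have hKn : K ≤ Subgroup.normalizer (B : Set G) := sup_le hAn hBn
  have hnorm : (B.subgroupOf K).Normal := by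
    refine ⟨fun n hn g => ?_⟩
    have hg := hKn g.2
    rw [Subgroup.mem_normalizer_iff] at hg
    rw [Subgroup.mem_subgroupOf] at hn ⊢
    exact (hg _).1 hn
  have hAK : A ≤ K := le_sup_left
  have hBK : B ≤ K := le_sup_right
  -- solvability of the normal subgroup
  haveI : Group.IsSolvable A := hA
  haveI : Group.IsSolvable B := hB
  haveI s1 : Group.IsSolvable (B.subgroupOf K) := by
    have : Function.Injective ((Subgroup.subgroupOfEquivOfLe hBK).toMonoidHom) :=
      (Subgroup.subgroupOfEquivOfLe hBK).injective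
    exact solvable_of_solvable_injective this
  -- solvability of the quotient
  let f : A →* K ⧸ (B.subgroupOf K) := (QuotientGroup.mk' (B.subgroupOf K)).comp
    (Subgroup.inclusion hAK)
  have hf : Function.Surjective f := by
    intro q
    obtain ⟨k, rfl⟩ := QuotientGroup.mk'_surjective _ q
    have hle : A ⊔ B ≤ (f.range.comap (QuotientGroup.mk' (B.subgroupOf K))).map K.subtype := by
      refine sup_le (fun a ha => ⟨⟨a, hAK ha⟩, ⟨⟨a, ha⟩, rfl⟩, rfl⟩) (fun b hb => ?_)
      refine ⟨⟨b, hBK hb⟩, ⟨1, ?_⟩, rfl⟩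
      rw [map_one, eq_comm, QuotientGroup.mk'_apply, QuotientGroup.eq_one_iff,
        Subgroup.mem_subgroupOf]
      exact hb
    obtain ⟨k', hk', e⟩ := hle k.2
    have : k' = k := Subtype.ext e
    rw [this] at hk'
    exact hk'
  haveI s2 : Group.IsSolvable (K ⧸ (B.subgroupOf K)) := solvable_of_surjective hf
  exact solvable_of_ker_le_range (B.subgroupOf K).subtype (QuotientGroup.mk' (B.subgroupOf K))
    (by rw [QuotientGroup.ker_mk', Subgroup.range_subtype])

end Pool.Agent.H86.FS
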