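import Mathlib

/-!
# Definitions for MP_a4b3b2_al (S02581)
Conventions: `⁅x, y⁆ = x * y * x⁻¹ * y⁻¹`; '`g` acts on `x`' is `g * x * g⁻¹`;
for the base swap `δ` we write `δ * x * δ⁻¹` (called `x'` in the text).
-/

set_option autoImplicit false

open scoped commutatorElement

namespace Pool.Agent.H86.FS

variable {G : Type*} [Group G] {H : Type*} [Group H]

/-- the sign `s_r = [θ_r, η_r]` of a pair `r = (θ_r, η_r)` -/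
def sn (r : G × G) : G := ⁅r.1, r.2⁆

/-- Engine (section 4 of the text). -/
structure Eng (G : Type*) [Group G] where
  Γ : Subgroup (G × G)
  δ : G
  ς : G
  th_sq : ∀ r ∈ Γ, r.1 * r.1 = 1
  et_sq : ∀ r ∈ Γ, r.2 * r.2 = 1
  th_th : ∀ r ∈ Γ, ∀ r' ∈ Γ, Commute r.1 r'.1
  et_et : ∀ r ∈ Γ, ∀ r' ∈ Γ, Commute r.2 r'.2
  c_th : ∀ r ∈ Γ, ∀ r' ∈ Γ, ∀ r'' ∈ Γ, Commute ⁅r.1, r'.2⁆ r''.1
  c_et : ∀ r ∈ Γ, ∀ r' ∈ Γ, ∀ r'' ∈ Γ, Commute ⁅r.1, r'.2⁆ r''.2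
  symm : ∀ r ∈ Γ, ∀ r' ∈ Γ, ⁅r.1, r'.2⁆ = ⁅r'.1, r.2⁆
  δ_sq : δ * δ = 1
  ς_sq : ς * ς = 1
  δ_th : ∀ r ∈ Γ, Commute δ r.1
  ς_et : ∀ r ∈ Γ, Commute ς r.2
  th_ς : ∀ r ∈ Γ, ⁅r.1, ς⁆ = sn r
  δ_et : ∀ r ∈ Γ, ⁅δ, r.2⁆ = sn r
  σ_th : ∀ r ∈ Γ, Commute ⁅δ, ς⁆ r.1
  σ_et : ∀ r ∈ Γ, Commute ⁅δ, ς⁆ r.2
  σ_δ : Commute ⁅δ, ς⁆ δ
  σ_ς : Commute ⁅δ, ς⁆ ς

namespace Eng

/-- the group generated by an engine -/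
def grp (E : Eng G) : Subgroup G :=
  Subgroup.closure ({x | ∃ r ∈ E.Γ, x = r.1 ∨ x = r.2} ∪ {E.δ, E.ς})

/-- generated by the conjugates of `x` under the signs -/
def Px (E : Eng G) (x : G) : Subgroup G :=
  Subgroup.closure {y | ∃ r ∈ E.Γ, y = sn r * x * (sn r)⁻¹}

/-- hypotheses of the M-lemma (section 5) for the element `x` and the doubling element `φ` -/
structure MD (E : Eng G) (φ x : G) : Prop where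
  et : ∀ r ∈ E.Γ, Commute r.2 x
  ς : Commute E.ς x
  σ : ⁅E.δ, E.ς⁆ * x * ⁅E.δ, E.ς⁆⁻¹ = x⁻¹
  swap : Commute x (E.δ * x * E.δ⁻¹)
  th : ∀ r ∈ E.Γ, Commute r.1 (x * (E.δ * x * E.δ⁻¹))
  φΓ : ∀ r ∈ E.Γ, (φ * r.1 * φ⁻¹, φ * r.2 * φ⁻¹) ∈ E.Γ
  φΓ' : ∀ r ∈ E.Γ, (φ⁻¹ * r.1 * φ, φ⁻¹ * r.2 * φ) ∈ E.Γ
  φδ : Commute φ E.δ
  φς : Commute φ E.ς
  φx : φ * x * φ⁻¹ = x * x ∨ (φ * x * φ⁻¹ = x ∧ x ^ 31 = 1)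

/-- `N_0(x)`: generated by the elements `φ⁻ⁿ s_r x s_r⁻¹ φⁿ` -/
def N0 (E : Eng G) (φ x : G) : Subgroup G :=
  Subgroup.closure {y | ∃ n : ℕ, ∃ r ∈ E.Γ, y = (φ⁻¹) ^ n * (sn r * x * (sn r)⁻¹) * φ ^ n}

end Eng

/-- Base level (section 6). -/
structure Base (G : Type*) [Group G] extends Eng G where
  φ : G
  X : G
  Y : G
  φ_th : ∀ r ∈ Γ, Commute φ r.1
  φ_et : ∀ r ∈ Γ, Commute φ r.2
  mX : toEng.MD φ X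
  mY : toEng.MD φ Y
  φX : φ * X * φ⁻¹ = X * X
  φY : Commute φ Y
  Y31 : Y ^ 31 = 1
  XY' : Commute X (δ * Y * δ⁻¹)
  ZX : Commute ⁅X, Y⁆ X
  ZY : Commute ⁅X, Y⁆ Y
  Zs : ∀ r ∈ Γ, Commute ⁅X, Y⁆ (sn r)

namespace Base

/-- the scalar `Z = [X, Y]` -/
def Z (B : Base G) : G := ⁅B.X, B.Y⁆

def NX (B : Base G) : Subgroup G := B.toEng.N0 B.φ B.X
def NY (B : Base G) : Subgroup G := B.toEng.N0 B.φ B.Y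
def L0 (B : Base G) : Subgroup G := B.NX ⊔ B.NY

/-- generators of the group of constants -/
def CstG (B : Base G) : Set G := {y | ∃ n : ℕ, y = (B.φ⁻¹) ^ n * B.X * B.φ ^ n} ∪ {B.Y}
def Cst (B : Base G) : Subgroup G := Subgroup.closure B.CstG

/-- `P_0`: generated by the `L_0`-translates of `c` -/
def P0 (B : Base G) (ψ : G →* MulAut H) (c : H) : Subgroup H :=
  Subgroup.closure {p | ∃ g ∈ B.L0, p = ψ g c}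
/-- the constants `A_c`: generated by the `Cst`-translates of `c` -/
def Ac (B : Base G) (ψ : G →* MulAut H) (c : H) : Subgroup H :=
  Subgroup.closure {p | ∃ g ∈ B.Cst, p = ψ g c}
/-- `P_0 ∩ P_1`, with `P_1 = ψ(δ) P_0` -/
def zz (B : Base G) (ψ : G →* MulAut H) (c : H) : Set H :=
  {h | h ∈ B.P0 ψ c ∧ ∃ q ∈ B.P0 ψ c, h = ψ B.δ q}

/-- `P_0 P_1` -/
def PP (B : Base G) (ψ : G →* MulAut H) (c : H) : Subgroup H :=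
  B.P0 ψ c ⊔ (B.P0 ψ c).map (ψ B.δ).toMonoidHom

/-- local elements -/
def xl (B : Base G) (r : G × G) : G :=
  (B.φ⁻¹ * B.X * B.φ) * (sn r * (B.φ⁻¹ * B.X * B.φ)⁻¹ * (sn r)⁻¹)
def yl (B : Base G) (r : G × G) : G := B.Y ^ 16 * (sn r * (B.Y ^ 16)⁻¹ * (sn r)⁻¹)
def zl (B : Base G) (r : G × G) : G := ⁅B.xl r, B.yl r⁆

/-- the projection `e_r` (given by an explicit formula, `e_r = (Z⁴+Z³+Z²)(z_r - 1)`) -/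
def e (B : Base G) (ψ : G →* MulAut H) (r : G × G) (p : H) : H :=
  ψ (B.Z ^ 4) (ψ (B.zl r) p * p⁻¹) * ψ (B.Z ^ 3) (ψ (B.zl r) p * p⁻¹) *
    ψ (B.Z ^ 2) (ψ (B.zl r) p * p⁻¹)

end Base

/-- hypotheses of Stage V (section 7) -/
structure VData (B : Base G) (ψ : G →* MulAut H) (c : H) : Prop where
  sq : c * c = 1
  hφ : ψ B.φ c = c
  hY : ψ B.Y c = c
  hX' : ψ (B.δ * B.X * B.δ⁻¹) c = c
  hY' : ψ (B.δ * B.Y * B.δ⁻¹) c = c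
  hsn : ∀ r ∈ B.Γ, ψ (sn r) c = c
  het : ∀ r ∈ B.Γ, ψ r.2 c = c
  hς : ψ B.ς c = c
  hσ : ψ ⁅B.δ, B.ς⁆ c = c
  swap : Commute c (ψ B.δ c)
  hth : ∀ r ∈ B.Γ, ψ r.1 (c * ψ B.δ c) = c * ψ B.δ c
  Phi : ψ (B.Z ^ 5) c * ψ (B.Z ^ 2) c * c = 1
  ab : ∀ g ∈ B.Cst, ∀ g' ∈ B.Cst, Commute (ψ g c) (ψ g' c)

/-- conjugation action on pairs -/
def conj2 : G →* MulAut (G × G) where
  toFun g := MulEquiv.prodCongr (MulAut.conj g) (MulAut.conj g)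
  map_one' := by ext x <;> simp [MulEquiv.prodCongr]
  map_mul' g h := by ext x <;> simp [MulEquiv.prodCongr, mul_assoc]

@[simp] lemma conj2_apply (g : G) (x : G × G) :
    conj2 g x = (g * x.1 * g⁻¹, g * x.2 * g⁻¹) := rfl

/-- `x` or `x'` -/
def Eng.sw (E : Eng G) (i : Fin 2) (x : G) : G := E.δ ^ (i : ℕ) * x * (E.δ ^ (i : ℕ))⁻¹

/-- hypotheses of Stage 2 (section 9) -/
structure AB (B : Base G) (a b : G) : Prop where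
  Va : VData B MulAut.conj a
  Vb : VData B MulAut.conj b
  kA : ∀ g₁ ∈ B.Cst, ∀ g₂ ∈ B.Cst, ∀ g₃ ∈ B.Cst, ∀ i j k : Fin 2,
    Commute ⁅B.sw i (g₁ * a * g₁⁻¹), B.sw j (g₂ * b * g₂⁻¹)⁆ (B.sw k (g₃ * a * g₃⁻¹))
  kB : ∀ g₁ ∈ B.Cst, ∀ g₂ ∈ B.Cst, ∀ g₃ ∈ B.Cst, ∀ i j k : Fin 2,
    Commute ⁅B.sw i (g₁ * a * g₁⁻¹), B.sw j (g₂ * b * g₂⁻¹)⁆ (B.sw k (g₃ * b * g₃⁻¹))
  sy : ∀ g₁ ∈ B.Cst, ∀ g₂ ∈ B.Cst, ∀ i j : Fin 2,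
    ⁅B.sw i (g₁ * a * g₁⁻¹), B.sw j (g₂ * b * g₂⁻¹)⁆ =
      ⁅B.sw j (g₂ * a * g₂⁻¹), B.sw i (g₁ * b * g₁⁻¹)⁆

end Pool.Agent.H86.FS
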