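import Pool.Agent.H75.FS.Pre

/-!
# Engines from generators
`Core Γ`: the conditions of `Eng` on `Γ` alone; `E4 Γ δ ς`: the conditions on `Γ`, `δ`, `ς`.
* `Core.sn_mul`: `⁅x x', y y'⁆` (`x = r.1`, `x' = r'.1`, `y = r.2`, `y' = r'.2`) `= s_r ⁅r.1, r'.2⁆ ⁅r'.1, r.2⁆ s_{r'}`, the two middle factors are equal (`symm`) and
  their common value has square `⁅r.1 * r.1, r'.2⁆ = 1` (all commutators `⁅r.1, r'.2⁆` commute with all components).
* `Core.inv`: `r⁻¹ = r`.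
* `core_closure`: `S` a set of pairs with the conditions. `closure S` projects into `closure (Prod.fst '' S)`, `closure (Prod.snd '' S)`.
  Squares and commutation: the first components commute pairwise, so `closure (fst '' S)` is commutative (`Subgroup.closure_induction₂` or
  `Subgroup.closureCommGroupOfComm`), squares multiplicative. `c_th`, `c_et`: `bil_closure` with `S = fst '' S`, `T = snd '' S`. `symm`: fix `r' ∈ S`, the set of
  `r ∈ closure S` with `⁅r.1, r'.2⁆ = ⁅r'.1, r.2⁆` is closed under products (bimultiplicativity from `bil_closure`, values commute) and inverses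
  (`r⁻¹ = r`); then the same in `r'`.
* `e4_closure`: closure induction; `⁅x x', ς⁆ = x ⁅x', ς⁆ x⁻¹ ⁅x, ς⁆ = s_{r'} s_r = sn (r * r')`; `⁅δ, y y'⁆ = ⁅δ, y⁆ y ⁅δ, y'⁆ y⁻¹ = s_r s_{r'}`.
* `core_of_reach`: given finitely many elements of `Γ` conjugate all of them by the same `g ^ k` (`k` large; `hs` makes this monotone) into `Γ0`,
  use `Core Γ0` and conjugate back.
* `reach_closure`: `{y | ∃ k, conj2 (g ^ k) y ∈ Γ0}` is a subgroup (take the maximum of two `k`'s) stable under `conj2 q`, `q ∈ closure Q`, containing `x`.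
-/

set_option autoImplicit false

open scoped commutatorElement

namespace Pool.Agent.H86.FS

open Pool.Agent.H75.FS

variable {G : Type*} [Group G]

structure Core (Γ : Subgroup (G × G)) : Prop where
  th_sq : ∀ r ∈ Γ, r.1 * r.1 = 1
  et_sq : ∀ r ∈ Γ, r.2 * r.2 = 1
  th_th : ∀ r ∈ Γ, ∀ r' ∈ Γ, Commute r.1 r'.1
  et_et : ∀ r ∈ Γ, ∀ r' ∈ Γ, Commute r.2 r'.2
  c_th : ∀ r ∈ Γ, ∀ r' ∈ Γ, ∀ r'' ∈ Γ, Commute ⁅r.1, r'.2⁆ r''.1
  c_et : ∀ r ∈ Γ, ∀ r' ∈ Γ, ∀ r'' ∈ Γ, Commute ⁅r.1, r'.2⁆ r''.2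
  symm : ∀ r ∈ Γ, ∀ r' ∈ Γ, ⁅r.1, r'.2⁆ = ⁅r'.1, r.2⁆

structure E4 (Γ : Subgroup (G × G)) (δ ς : G) : Prop where
  δ_th : ∀ r ∈ Γ, Commute δ r.1
  ς_et : ∀ r ∈ Γ, Commute ς r.2
  th_ς : ∀ r ∈ Γ, ⁅r.1, ς⁆ = sn r
  δ_et : ∀ r ∈ Γ, ⁅δ, r.2⁆ = sn r
  σ_th : ∀ r ∈ Γ, Commute ⁅δ, ς⁆ r.1
  σ_et : ∀ r ∈ Γ, Commute ⁅δ, ς⁆ r.2

theorem Core.pre {Γ : Subgroup (G × G)} (h : Core Γ) : Pre (Γ : Set (G × G)) :=
  ⟨h.th_sq, h.et_sq, h.th_th, h.et_et, h.c_th, h.c_et, h.symm⟩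

theorem Core.ofPre {Γ : Subgroup (G × G)} (h : Pre (Γ : Set (G × G))) : Core Γ :=
  ⟨h.th_sq, h.et_sq, h.th_th, h.et_et, h.c_th, h.c_et, h.symm⟩

theorem Core.sn_mul {Γ : Subgroup (G × G)} (h : Core Γ) {r r' : G × G} (hr : r ∈ Γ) (hr' : r' ∈ Γ) :
    sn (r * r') = sn r * sn r' := by
  exact h.pre.sn_mul hr hr'

theorem Core.inv {Γ : Subgroup (G × G)} (h : Core Γ) {r : G × G} (hr : r ∈ Γ) : r⁻¹ = r := by
  exact h.pre.inv hr

theorem Core.mono {Γ Γ' : Subgroup (G × G)} (h : Core Γ) (hle : Γ' ≤ Γ) : Core Γ' := by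
  exact Core.ofPre (h.pre.mono hle)

theorem core_closure (S : Set (G × G))
    (th_sq : ∀ r ∈ S, r.1 * r.1 = 1) (et_sq : ∀ r ∈ S, r.2 * r.2 = 1)
    (th_th : ∀ r ∈ S, ∀ r' ∈ S, Commute r.1 r'.1)
    (et_et : ∀ r ∈ S, ∀ r' ∈ S, Commute r.2 r'.2)
    (c_th : ∀ r ∈ S, ∀ r' ∈ S, ∀ r'' ∈ S, Commute ⁅r.1, r'.2⁆ r''.1)
    (c_et : ∀ r ∈ S, ∀ r' ∈ S, ∀ r'' ∈ S, Commute ⁅r.1, r'.2⁆ r''.2)
    (symm : ∀ r ∈ S, ∀ r' ∈ S, ⁅r.1, r'.2⁆ = ⁅r'.1, r.2⁆) : Core (Subgroup.closure S) := by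
  exact Core.ofPre (Pre.closure ⟨th_sq, et_sq, th_th, et_et, c_th, c_et, symm⟩)

theorem e4_closure (S : Set (G × G)) (hc : Core (Subgroup.closure S)) (δ ς : G)
    (δ_th : ∀ r ∈ S, Commute δ r.1)
    (ς_et : ∀ r ∈ S, Commute ς r.2)
    (th_ς : ∀ r ∈ S, ⁅r.1, ς⁆ = sn r)
    (δ_et : ∀ r ∈ S, ⁅δ, r.2⁆ = sn r)
    (σ_th : ∀ r ∈ S, Commute ⁅δ, ς⁆ r.1)
    (σ_et : ∀ r ∈ S, Commute ⁅δ, ς⁆ r.2) : E4 (Subgroup.closure S) δ ς := by
  have h1 : ∀ r ∈ Subgroup.closure S, Commute δ r.1 := by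
    intro r hr
    induction hr using Subgroup.closure_induction with
    | mem s hs => exact δ_th s hs
    | one => exact Commute.one_right _
    | mul a b _ _ ha hb => exact ha.mul_right hb
    | inv a _ ha => exact ha.inv_right
  have h2 : ∀ r ∈ Subgroup.closure S, Commute ς r.2 := by
    intro r hr
    induction hr using Subgroup.closure_induction with
    | mem s hs => exact ς_et s hs
    | one => exact Commute.one_right _
    | mul a b _ _ ha hb => exact ha.mul_right hb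
    | inv a _ ha => exact ha.inv_right
  have h3 : ∀ r ∈ Subgroup.closure S, Commute ⁅δ, ς⁆ r.1 := by
    intro r hr
    induction hr using Subgroup.closure_induction with
    | mem s hs => exact σ_th s hs
    | one => exact Commute.one_right _
    | mul a b _ _ ha hb => exact ha.mul_right hb
    | inv a _ ha => exact ha.inv_right
  have h4 : ∀ r ∈ Subgroup.closure S, Commute ⁅δ, ς⁆ r.2 := by
    intro r hr
    induction hr using Subgroup.closure_induction with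
    | mem s hs => exact σ_et s hs
    | one => exact Commute.one_right _
    | mul a b _ _ ha hb => exact ha.mul_right hb
    | inv a _ ha => exact ha.inv_right
  have h5 : ∀ r ∈ Subgroup.closure S, ⁅r.1, ς⁆ = sn r := by
    intro r hr
    induction hr using Subgroup.closure_induction with
    | mem s hs => exact th_ς s hs
    | one => simp [sn]
    | mul a b ha' hb' ha hb =>
      rw [hc.sn_mul ha' hb', Prod.fst_mul,
        cml' (by rw [hb]; exact (hc.pre.sn_comm hb' ha').1.symm), ha, hb]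
      unfold sn
      rw [commutatorElement_def a.1 a.2]
      obtain ⟨k1, k2⟩ := hc.pre.sn_comm hb' ha'
      exact (((k1.mul_right k2).mul_right k1.inv_right).mul_right k2.inv_right).eq
    | inv a ha' ha => rw [hc.inv ha']; exact ha
  have h6 : ∀ r ∈ Subgroup.closure S, ⁅δ, r.2⁆ = sn r := by
    intro r hr
    induction hr using Subgroup.closure_induction with
    | mem s hs => exact δ_et s hs
    | one => simp [sn]
    | mul a b ha' hb' ha hb =>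
      rw [hc.sn_mul ha' hb', Prod.snd_mul,
        cmr' (by rw [hb]; exact (hc.pre.sn_comm hb' ha').2.symm), ha, hb]
    | inv a ha' ha => rw [hc.inv ha']; exact ha
  exact ⟨h1, h2, h5, h6, h3, h4⟩

theorem core_of_reach (Γ Γ0 : Subgroup (G × G)) (g : G) (hs : ∀ y ∈ Γ0, conj2 g y ∈ Γ0)
    (hr : ∀ y ∈ Γ, ∃ k : ℕ, conj2 (g ^ k) y ∈ Γ0) (hc : Core Γ0) : Core Γ := by
  exact Core.ofPre (Pre.reach hc.pre g hs hr)

theorem reach_closure (Γ0 : Subgroup (G × G)) (g : G) (hs : ∀ y ∈ Γ0, conj2 g y ∈ Γ0)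
    (Q : Set G)
    (hq : ∀ q ∈ Q, ∀ y, (∃ k : ℕ, conj2 (g ^ k) y ∈ Γ0) → ∃ k : ℕ, conj2 (g ^ k) (conj2 q y) ∈ Γ0)
    (hq' : ∀ q ∈ Q, ∀ y, (∃ k : ℕ, conj2 (g ^ k) y ∈ Γ0) →
      ∃ k : ℕ, conj2 (g ^ k) (conj2 q⁻¹ y) ∈ Γ0)
    (x : G × G) (hx : x ∈ Γ0) :
    ∀ y ∈ Subgroup.closure {y | ∃ q ∈ Subgroup.closure Q, y = conj2 q x},
      ∃ k : ℕ, conj2 (g ^ k) y ∈ Γ0 := by
  have up : ∀ (y : G × G) (N k : ℕ), conj2 (g ^ N) y ∈ Γ0 → conj2 (g ^ (N + k)) y ∈ Γ0 := by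
    intro y N k h
    induction k with
    | zero => simpa using h
    | succ k ih =>
      have := hs _ ih
      rw [← conj2_mul, ← pow_succ'] at this
      exact this
  have stab : ∀ q ∈ Subgroup.closure Q, ∀ y, (∃ k : ℕ, conj2 (g ^ k) y ∈ Γ0) →
      ∃ k : ℕ, conj2 (g ^ k) (conj2 q y) ∈ Γ0 := by
    intro q hq0
    have : (∀ y, (∃ k : ℕ, conj2 (g ^ k) y ∈ Γ0) → ∃ k : ℕ, conj2 (g ^ k) (conj2 q y) ∈ Γ0) ∧
      (∀ y, (∃ k : ℕ, conj2 (g ^ k) y ∈ Γ0) → ∃ k : ℕ, conj2 (g ^ k) (conj2 q⁻¹ y) ∈ Γ0) := by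
      induction hq0 using Subgroup.closure_induction with
      | mem s hs' => exact ⟨hq s hs', hq' s hs'⟩
      | one => simp
      | mul a b _ _ ha hb =>
        refine ⟨fun y hy => ?_, fun y hy => ?_⟩
        · rw [conj2_mul]; exact ha.1 _ (hb.1 _ hy)
        · rw [mul_inv_rev, conj2_mul]; exact hb.2 _ (ha.2 _ hy)
      | inv a _ ha =>
        refine ⟨ha.2, ?_⟩
        rw [inv_inv]
        exact ha.1
    exact this.1
  intro y hy
  induction hy using Subgroup.closure_induction with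
  | mem s hs' =>
    obtain ⟨q, hq0, rfl⟩ := hs'
    exact stab q hq0 x ⟨0, by simpa using hx⟩
  | one => exact ⟨0, by rw [map_one]; exact Γ0.one_mem⟩
  | mul a b _ _ ha hb =>
    obtain ⟨N, hN⟩ := ha
    obtain ⟨M, hM⟩ := hb
    refine ⟨N + M, ?_⟩
    rw [map_mul]
    refine Γ0.mul_mem (up a N M hN) ?_
    rw [add_comm]
    exact up b M N hM
  | inv a _ ha =>
    obtain ⟨N, hN⟩ := ha
    exact ⟨N, by rw [map_inv]; exact Γ0.inv_mem hN⟩

end Pool.Agent.H86.FS
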