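import Pool.Agent.H93.FS.Ad
import Pool.Agent.H86.FS.Class2
import Pool.Agent.H86.FS.Defs

/-!
# Engine basics
For `r, r' ∈ Γ`, `s_r = sn r = ⁅r.1, r.2⁆`; note `(r * r').1 = r.1 * r'.1`.
* `sn_mul`: expand `⁅r.1 r'.1, r.2 r'.2⁆` with the (central, `c_th`, `c_et`) commutators:
  `= s_r ⁅r.1, r'.2⁆ ⁅r'.1, r.2⁆ s_{r'}`, the two middle factors are equal by `symm` and their common value `c` satisfies
  `c * c = 1` because `r.1 * r.1 = 1` (`⁅r.1 * r.1, r'.2⁆ = c * c`).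
* `sn_sq`: `s_r * s_r = ⁅r.1 * r.1, r.2⁆ = 1`.
* `sn_th`, `sn_et`: from `c_th`, `c_et`. `sn_sn`: from these (`sn r'` is a word in `r'.1`, `r'.2`).
* `δ_et'`: `⁅δ, r.2⁆ = s_r` reads `δ * r.2 * δ⁻¹ = s_r * r.2`. `th_ς'`: `r.1 * ς * r.1⁻¹ = s_r * ς`.
* `sn_δ`: `δ s_r δ⁻¹ = ⁅δ r.1 δ⁻¹, δ r.2 δ⁻¹⁆ = ⁅r.1, s_r r.2⁆ = ⁅r.1, r.2⁆` (`s_r` commutes with `r.1`, `r.2`).
* `sn_ς`: from `th_ς'`: `ς r.1 ς⁻¹ = s_r⁻¹ r.1` up to order (`ς r.1⁻¹ ς⁻¹ = r.1⁻¹ s_r`), `ς` commutes with `r.2`, so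
  `ς s_r ς⁻¹ = ⁅s_r r.1, r.2⁆ = s_r`. Note `s_r⁻¹ = s_r`.
* `δςδ`: `δ * ς * δ⁻¹ = ⁅δ,ς⁆ * ς` is the definition of the commutator.
* `grp_class2`: all commutators of the generators `r.1, r.2, δ, ς` are `1`, `s_r`, `⁅r.1, r'.2⁆`, `⁅δ,ς⁆` or inverses and commute with
  all generators (`⁅r.1, r'.2⁆` with `δ`: `δ⁅r.1, r'.2⁆δ⁻¹ = ⁅r.1, s_{r'} r'.2⁆ = ⁅r.1, r'.2⁆`; with `ς`:
  `⁅s_r r.1, r'.2⁆ = ⁅r.1, r'.2⁆`). Use `class2_closure` (file Class2) — imported there.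
-/

set_option autoImplicit false

open scoped commutatorElement

namespace Pool.Agent.H86.FS

variable {G : Type*} [Group G]

namespace Eng

variable (E : Eng G)

theorem sn_mul {r r' : G × G} (h : r ∈ E.Γ) (h' : r' ∈ E.Γ) : sn (r * r') = sn r * sn r' := by
  exact (Pool.Agent.H93.FS.ofEng E).s_aux ⟨r, h⟩ ⟨r', h'⟩

theorem sn_sq {r : G × G} (h : r ∈ E.Γ) : sn r * sn r = 1 := by
  exact (Pool.Agent.H93.FS.ofEng E).s2 ⟨r, h⟩

theorem sn_inv {r : G × G} (h : r ∈ E.Γ) : (sn r)⁻¹ = sn r := by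
  exact (Pool.Agent.H93.FS.ofEng E).sinv ⟨r, h⟩

theorem sn_th {r r' : G × G} (h : r ∈ E.Γ) (h' : r' ∈ E.Γ) : Commute (sn r) r'.1 := by
  exact (Pool.Agent.H93.FS.ofEng E).sth ⟨r, h⟩ ⟨r', h'⟩

theorem sn_et {r r' : G × G} (h : r ∈ E.Γ) (h' : r' ∈ E.Γ) : Commute (sn r) r'.2 := by
  exact (Pool.Agent.H93.FS.ofEng E).set ⟨r, h⟩ ⟨r', h'⟩

theorem sn_sn {r r' : G × G} (h : r ∈ E.Γ) (h' : r' ∈ E.Γ) : Commute (sn r) (sn r') := by
  exact (Pool.Agent.H93.FS.ofEng E).ss ⟨r, h⟩ ⟨r', h'⟩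

theorem sn_δ {r : G × G} (h : r ∈ E.Γ) : Commute (sn r) E.δ := by
  exact (Pool.Agent.H93.FS.ofEng E).sd ⟨r, h⟩

theorem sn_ς {r : G × G} (h : r ∈ E.Γ) : Commute (sn r) E.ς := by
  exact (Pool.Agent.H93.FS.ofEng E).ssg ⟨r, h⟩

theorem δ_et' {r : G × G} (h : r ∈ E.Γ) : E.δ * r.2 * E.δ⁻¹ = sn r * r.2 := by
  exact (Pool.Agent.H93.FS.ofEng E).cj_d_et ⟨r, h⟩

theorem th_ς' {r : G × G} (h : r ∈ E.Γ) : r.1 * E.ς * r.1⁻¹ = sn r * E.ς := by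
  exact (Pool.Agent.H93.FS.ofEng E).cj_th_sg ⟨r, h⟩

theorem δ_inv : E.δ⁻¹ = E.δ := by
  exact (Pool.Agent.H93.FS.ofEng E).dinv

theorem ς_inv : E.ς⁻¹ = E.ς := by
  exact (Pool.Agent.H93.FS.ofEng E).sginv

theorem grp_class2 : ∀ x ∈ E.grp, ∀ y ∈ E.grp, ∀ z ∈ E.grp, Commute ⁅x, y⁆ z := by
  refine class2_closure _ ?_
  -- central elements
  let C : Subgroup G := Subgroup.centralizer ({x | ∃ r ∈ E.Γ, x = r.1 ∨ x = r.2} ∪ {E.δ, E.ς})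
  have hC : ∀ c : G, (∀ r ∈ E.Γ, Commute c r.1) → (∀ r ∈ E.Γ, Commute c r.2) →
      Commute c E.δ → Commute c E.ς → c ∈ C := by
    intro c h1 h2 h3 h4
    rw [Subgroup.mem_centralizer_iff]
    rintro z (⟨r, hr, rfl | rfl⟩ | rfl | rfl)
    · exact (h1 r hr).symm.eq
    · exact (h2 r hr).symm.eq
    · exact h3.symm.eq
    · exact h4.symm.eq
  have hs : ∀ r ∈ E.Γ, sn r ∈ C := fun r hr =>
    hC _ (fun r' hr' => E.sn_th hr hr') (fun r' hr' => E.sn_et hr hr') (E.sn_δ hr) (E.sn_ς hr)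
  have hσ : ⁅E.δ, E.ς⁆ ∈ C := hC _ E.σ_th E.σ_et E.σ_δ E.σ_ς
  have hb : ∀ r ∈ E.Γ, ∀ r' ∈ E.Γ, ⁅r.1, r'.2⁆ ∈ C := by
    intro r hr r' hr'
    refine hC _ (fun u hu => E.c_th r hr r' hr' u hu) (fun u hu => E.c_et r hr r' hr' u hu) ?_ ?_
    · apply Commute.symm
      apply Pool.Agent.H93.FS.commute_of_cj
      rw [Pool.Agent.H93.FS.cj_comm, Pool.Agent.H93.FS.cj_eq (E.δ_th r hr)]
      have h1 : Pool.Agent.H93.FS.cj E.δ r'.2 = sn r' * r'.2 := E.δ_et' hr'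
      rw [h1, Pool.Agent.H93.FS.comm_mul_right,
        Pool.Agent.H93.FS.comm_eq_one_iff.2 (E.sn_th hr' hr).symm, one_mul]
      apply Pool.Agent.H93.FS.cj_eq
      have e1 := E.sn_th hr' hr
      have e2 := E.sn_et hr' hr'
      rw [commutatorElement_def]
      exact ((e1.mul_right e2).mul_right e1.inv_right).mul_right e2.inv_right
    · apply Commute.symm
      apply Pool.Agent.H93.FS.commute_of_cj
      rw [Pool.Agent.H93.FS.cj_comm, Pool.Agent.H93.FS.cj_eq (E.ς_et r' hr')]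
      have h1 : Pool.Agent.H93.FS.cj E.ς r.1 = sn r * r.1 := by
        have h2 := E.th_ς' hr
        have h3 : E.ς * r.1 = (sn r)⁻¹ * (r.1 * E.ς) := by
          have h4 : r.1 * E.ς = sn r * E.ς * r.1 := by
            rw [← h2]
            group
          rw [h4]
          group
        unfold Pool.Agent.H93.FS.cj
        rw [h3, E.sn_inv hr]
        group
      rw [h1, Pool.Agent.H93.FS.comm_mul_left,
        Pool.Agent.H93.FS.comm_eq_one_iff.2 (E.sn_et hr hr'), mul_one]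
      apply Pool.Agent.H93.FS.cj_eq
      have e1 := E.sn_th hr hr
      have e2 := E.sn_et hr hr'
      rw [commutatorElement_def]
      exact ((e1.mul_right e2).mul_right e1.inv_right).mul_right e2.inv_right
  have key : ∀ x ∈ ({x | ∃ r ∈ E.Γ, x = r.1 ∨ x = r.2} ∪ {E.δ, E.ς} : Set G),
      ∀ y ∈ ({x | ∃ r ∈ E.Γ, x = r.1 ∨ x = r.2} ∪ {E.δ, E.ς} : Set G), ⁅x, y⁆ ∈ C := by
    have one : ∀ x y : G, Commute x y → ⁅x, y⁆ ∈ C := fun x y h => by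
      rw [Pool.Agent.H93.FS.comm_eq_one_iff.2 h]
      exact one_mem C
    have sw : ∀ x y : G, ⁅x, y⁆ ∈ C → ⁅y, x⁆ ∈ C := fun x y h => by
      rw [← Pool.Agent.H93.FS.inv_comm]
      exact inv_mem h
    rintro x (⟨r, hr, rfl | rfl⟩ | rfl | rfl) y (⟨r', hr', rfl | rfl⟩ | rfl | rfl)
    · exact one _ _ (E.th_th r hr r' hr')
    · exact hb r hr r' hr'
    · exact one _ _ (E.δ_th r hr).symm
    · rw [E.th_ς r hr]
      exact hs r hr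
    · exact sw _ _ (hb r' hr' r hr)
    · exact one _ _ (E.et_et r hr r' hr')
    · exact sw _ _ (by rw [E.δ_et r hr]; exact hs r hr)
    · exact one _ _ (E.ς_et r hr).symm
    · exact one _ _ (E.δ_th r' hr')
    · rw [E.δ_et r' hr']
      exact hs r' hr'
    · exact one _ _ (Commute.refl _)
    · exact hσ
    · exact sw _ _ (by rw [E.th_ς r' hr']; exact hs r' hr')
    · exact one _ _ (E.ς_et r' hr')
    · exact sw _ _ hσ
    · exact one _ _ (Commute.refl _)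
  intro x hx y hy z hz
  have := key x hx y hy
  rw [Subgroup.mem_centralizer_iff] at this
  exact (this z hz).symm

end Eng

end Pool.Agent.H86.FS
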