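import Pool.Agent.H75.FS.Words

/-!
# The universal group is finitely presented
There is a finite presentation whose group carries universal generators satisfying `Rels`.

Proof. Let `α = Fin 17 ⊕ Fin r` (or any finite type indexing the generators), `F = FreeGroup α`, `g₀ : Gens F r` the standard generators. Every
field of `Rels` is a finite family of equations between words; for `g : Gens G r` let `R(g) ⊆ G` be the finite set of all
quotients `lhs * rhs⁻¹` (`Commute x y` ↔ `x * y * (y * x)⁻¹ = 1`), e.g. as a union of `Set.range`s over finite index types, or a
function `rel g : ι → G` for a finite type `ι`. Then `Rels g ↔ ∀ i, rel g i = 1` and `rel (g.map f) i = f (rel g i)` for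
homomorphisms `f`. Take the presented group of `Set.range (rel g₀)` on `α`; transport `α` to `Fin m` and `ι` to `Fin k` along `Finite.equivFin`
(`PresentedGroup` of `Fin m`: put `rels i := FreeGroup.map e (rel g₀ (e' i))`; alternatively do everything directly with
`FreeGroup (Fin m)` and `g₀` made of `FreeGroup.of (e _)`). The universal property is `PresentedGroup.toGroup`; `closure = ⊤` is
`PresentedGroup.closure_range_of`.
-/

set_option autoImplicit false

open scoped commutatorElement

namespace Pool.Agent.H86.FS

theorem finPres (r : ℕ) : ∃ (m k : ℕ) (rels : Fin k → FreeGroup (Fin m))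
    (g : Gens (PresentedGroup (Set.range rels)) r), Rels g ∧
    Subgroup.closure g.set = ⊤ ∧
    ∀ (G' : Type) [Group G'] (g' : Gens G' r), Rels g' →
      ∃ f : PresentedGroup (Set.range rels) →* G', g.map f = g' := by
  exact Pool.Agent.H75.FS.finPres' r

end Pool.Agent.H86.FS
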