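import Pool.Agent.H86.FS.LT

/-!
# The base facts for Stage 2 (from (R13), (R14))
* `tri`: `T3Sys` with labels `(al, ρ, k) : Fin 2 × Fin 31 × Fin 31`, `a l q := g.lt g.a al (31 q + ρ) k`, same for `b`, `τ := g.XX ^ 31`, `g2 := J1`, `g3 := J2`
  (`lt_XX`, `lt_J1`, `lt_J2`, `lt_sq`, `lt_comm`; `31 (q ± 1) + ρ = (31 q + ρ) ± 31`). `S.P 4`: conjugate by `τ^(-m)` to indices `0 ≤ q ≤ 4`, i.e. exponents `0 ≤ i ≤ 154`: (R13).
  Every integer is `31 q + ρ`; `k` only matters mod 31 (`lt_mod`).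
* `sym`: T2S with the same families; `0 ≤ q ≤ 2`: exponents `0 ≤ i ≤ 92`: (R14) with `(al, i, k)`, `(be, j, k')`.
* `AB`: for `q₁ q₂ q₃ ∈ Cst` take `n` large and conjugate everything by `ph^n` (`cst_lt`): letters with integer exponents.
  (`cst_lt` gives the SAME `i k` for `c = a` and `c = b`: needed for `sy`.)
-/

set_option autoImplicit false

open scoped commutatorElement

namespace Pool.Agent.H86.FS

open Pool.Agent.H75.FS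

variable {G : Type*} [Group G] {r : ℕ}

lemma cj_mul' (x y z : G) : cj (x * y) z = cj x (cj y z) := by
  unfold cj; group

lemma CRel.lt_XXz {g : Gens G r} {c : G} (h : BRel g) (hc : CRel g c) (al : Fin 2) (i k : ℤ)
    (n : ℤ) : cj (g.XX ^ n) (g.lt c al i k) = g.lt c al (i + n) k := by
  have hinv : ∀ j : ℤ, cj (g.XX)⁻¹ (g.lt c al j k) = g.lt c al (j - 1) k := by
    intro j
    have := CRel.lt_XX h hc al (j - 1) k
    rw [sub_add_cancel] at this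
    rw [← this, ← cj_mul', inv_mul_cancel]
    simp [cj]
  induction n using Int.induction_on generalizing i with
  | zero => simp [cj]
  | succ n ih =>
    rw [zpow_add, zpow_one, cj_mul', CRel.lt_XX h hc, ih]
    congr 1; ring
  | pred n ih =>
    rw [sub_eq_add_neg, zpow_add, zpow_neg_one, cj_mul', hinv, ih]
    congr 1; ring

lemma Gens.letter_lt (g : Gens G r) (c : G) (al : Fin 2) (i k : ℕ) :
    g.letter c al i k = g.lt c al i k := by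
  unfold Gens.letter Gens.lt
  rw [zpow_natCast, zpow_natCast]

namespace Rels

variable {g : Gens G r}

/-- labels -/
abbrev Lab := Fin 2 × Fin 31 × Fin 31

/-- the letters `c` with label `l` and index `q` -/
def lf (g : Gens G r) (c : G) (l : Lab) (q : ℤ) : G :=
  g.lt c l.1 (31 * q + (l.2.1 : ℕ)) (l.2.2 : ℕ)

lemma lf_τ {c : G} (h : BRel g) (hc : CRel g c) (l : Lab) (q : ℤ) :
    g.XX ^ 31 * lf g c l q * (g.XX ^ 31)⁻¹ = lf g c l (q + 1) := by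
  have := CRel.lt_XXz h hc l.1 (31 * q + (l.2.1 : ℕ)) (l.2.2 : ℕ) 31
  unfold lf
  rw [show 31 * (q + 1) + ((l.2.1 : ℕ) : ℤ) = 31 * q + (l.2.1 : ℕ) + 31 by ring, ← this,
    zpow_ofNat]

lemma lf_J1 {c : G} (h : BRel g) (hc : CRel g c) (l : Lab) (q : ℤ) :
    g.J1 * lf g c l q * g.J1⁻¹ = lf g c l (q + 1) * lf g c l (q - 1) := by
  have := CRel.lt_J1 h hc l.1 (31 * q + (l.2.1 : ℕ)) (l.2.2 : ℕ)
  unfold lf
  rw [show 31 * (q + 1) + ((l.2.1 : ℕ) : ℤ) = 31 * q + (l.2.1 : ℕ) + 31 by ring,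
    show 31 * (q - 1) + ((l.2.1 : ℕ) : ℤ) = 31 * q + (l.2.1 : ℕ) - 31 by ring, ← this]

lemma lf_J2 {c : G} (h : BRel g) (hc : CRel g c) (l : Lab) (q : ℤ) :
    g.J2 * lf g c l q * g.J2⁻¹ = lf g c l (q + 1) * lf g c l q * lf g c l (q - 1) := by
  have := CRel.lt_J2 h hc l.1 (31 * q + (l.2.1 : ℕ)) (l.2.2 : ℕ)
  unfold lf
  rw [show 31 * (q + 1) + ((l.2.1 : ℕ) : ℤ) = 31 * q + (l.2.1 : ℕ) + 31 by ring,
    show 31 * (q - 1) + ((l.2.1 : ℕ) : ℤ) = 31 * q + (l.2.1 : ℕ) - 31 by ring, ← this]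

lemma lf_conj {c : G} (h : BRel g) (hc : CRel g c) (l : Lab) (m q : ℤ) :
    lf g c l q = g.XX ^ (31 * m) * lf g c l (q - m) * (g.XX ^ (31 * m))⁻¹ := by
  have := CRel.lt_XXz h hc l.1 (31 * (q - m) + (l.2.1 : ℕ)) (l.2.2 : ℕ) (31 * m)
  unfold lf
  rw [show 31 * q + ((l.2.1 : ℕ) : ℤ) = 31 * (q - m) + (l.2.1 : ℕ) + 31 * m by ring, ← this]

/-- the system of letters -/
def sysAB (h : Rels g) : T3Sys G Lab where
  τ := g.XX ^ 31
  g2 := g.J1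
  g3 := g.J2
  a := lf g g.a
  b := lf g g.b
  a2 := fun _ _ => CRel.lt_sq h.ca _ _ _
  b2 := fun _ _ => CRel.lt_sq h.cb _ _ _
  aτ := lf_τ h.base h.ca
  bτ := lf_τ h.base h.cb
  ag2 := lf_J1 h.base h.ca
  bg2 := lf_J1 h.base h.cb
  ag3 := lf_J2 h.base h.ca
  bg3 := lf_J2 h.base h.cb
  aa := fun _ _ _ _ => CRel.lt_comm h.base h.ca _ _ _ _ _ _
  bb := fun _ _ _ _ => CRel.lt_comm h.base h.cb _ _ _ _ _ _

/-- letters in the window are letters of the presentation -/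
lemma lf_letter (c : G) (l : Lab) (q : ℤ) (h0 : 0 ≤ q) :
    lf g c l q = g.letter c l.1 (31 * q + (l.2.1 : ℕ)).toNat (l.2.2 : ℕ) := by
  rw [Gens.letter_lt, Int.toNat_of_nonneg (by positivity)]
  rfl

lemma sysAB_P4 (h : Rels g) : h.sysAB.P 4 := by
  intro m l l' l'' i j k hi hi' hj hj' hk hk'
  have b1 : (31 * (i - m) + ((l.2.1 : ℕ) : ℤ)).toNat < 155 := by
    have := l.2.1.isLt; omega
  have b2 : (31 * (j - m) + ((l'.2.1 : ℕ) : ℤ)).toNat < 155 := by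
    have := l'.2.1.isLt; omega
  have b3 : (31 * (k - m) + ((l''.2.1 : ℕ) : ℤ)).toNat < 155 := by
    have := l''.2.1.isLt; omega
  have e := fun c hc => h.top.tr l.1 l'.1 l''.1 ⟨_, b1⟩ ⟨_, b2⟩ ⟨_, b3⟩ l.2.2 l'.2.2 l''.2.2 c hc
  simp only [← lf_letter _ _ _ (sub_nonneg.2 hi), ← lf_letter _ _ _ (sub_nonneg.2 hj),
    ← lf_letter _ _ _ (sub_nonneg.2 hk)] at e
  have e1 := e g.a (by simp)
  have e2 := e g.b (by simp)
  show Commute ⁅lf g g.a l i, lf g g.b l' j⁆ (lf g g.a l'' k) ∧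
    Commute ⁅lf g g.a l i, lf g g.b l' j⁆ (lf g g.b l'' k)
  rw [lf_conj h.base h.ca l m i, lf_conj h.base h.cb l' m j, lf_conj h.base h.ca l'' m k,
    lf_conj h.base h.cb l'' m k, ← conj_comm_iff]
  exact ⟨(commute_conj_iff _).2 e1, (commute_conj_iff _).2 e2⟩

lemma lf_surj (h : BRel g) (al : Fin 2) (i k : ℤ) : ∃ (l : Lab) (q : ℤ), ∀ c : G,
    g.lt c al i k = lf g c l q := by
  have h1 : 0 ≤ i % 31 := Int.emod_nonneg _ (by norm_num)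
  have h2 : i % 31 < 31 := Int.emod_lt_of_pos _ (by norm_num)
  have h3 : 0 ≤ k % 31 := Int.emod_nonneg _ (by norm_num)
  have h4 : k % 31 < 31 := Int.emod_lt_of_pos _ (by norm_num)
  refine ⟨(al, ⟨(i % 31).toNat, by omega⟩, ⟨(k % 31).toNat, by omega⟩), i / 31, fun c => ?_⟩
  rw [CRel.lt_mod h]
  unfold lf
  simp only [Int.toNat_of_nonneg h1, Int.toNat_of_nonneg h3]
  rw [Int.mul_ediv_add_emod]

theorem tri (h : Rels g) (al be ga : Fin 2) (i j l k k' k'' : ℤ) :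
    Commute ⁅g.lt g.a al i k, g.lt g.b be j k'⁆ (g.lt g.a ga l k'') ∧
    Commute ⁅g.lt g.a al i k, g.lt g.b be j k'⁆ (g.lt g.b ga l k'') := by
  obtain ⟨l1, q1, e1⟩ := lf_surj h.base al i k
  obtain ⟨l2, q2, e2⟩ := lf_surj h.base be j k'
  obtain ⟨l3, q3, e3⟩ := lf_surj h.base ga l k''
  rw [e1, e2, e3, e3]
  exact h.sysAB.main h.sysAB_P4 l1 l2 l3 q1 q2 q3

theorem sym (h : Rels g) (al be : Fin 2) (i j k k' : ℤ) :
    ⁅g.lt g.a al i k, g.lt g.b be j k'⁆ = ⁅g.lt g.a be j k', g.lt g.b al i k⁆ := by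
  have hm := h.sysAB.main h.sysAB_P4
  obtain ⟨l1, q1, e1⟩ := lf_surj h.base al i k
  obtain ⟨l2, q2, e2⟩ := lf_surj h.base be j k'
  rw [e1, e2, e2, e1]
  refine T2S (L := Lab) (g.XX ^ 31) g.J1 (lf g g.a) (lf g g.b) (lf_τ h.base h.ca)
    (lf_τ h.base h.cb) (lf_J1 h.base h.ca) (lf_J1 h.base h.cb)
    (fun l l' l'' p q k => (hm l l' l'' p q k).1) (fun l l' l'' p q k => (hm l l' l'' p q k).2)
    ?_ l1 l2 q1 q2
  intro l l' p q hp hp' hq hq'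
  have b1 : (31 * p + ((l.2.1 : ℕ) : ℤ)).toNat < 93 := by
    have := l.2.1.isLt; omega
  have b2 : (31 * q + ((l'.2.1 : ℕ) : ℤ)).toNat < 93 := by
    have := l'.2.1.isLt; omega
  have e := h.top.sy l.1 l'.1 ⟨_, b1⟩ ⟨_, b2⟩ l.2.2 l'.2.2
  simp only [← lf_letter _ _ _ hp, ← lf_letter _ _ _ hq] at e
  exact e

theorem AB (h : Rels g) : AB h.base.B g.a g.b := by
  have key : ∀ q₁ ∈ h.base.B.Cst, ∀ q₂ ∈ h.base.B.Cst, ∀ q₃ ∈ h.base.B.Cst, ∃ n : ℕ,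
      ∃ i₁ k₁ i₂ k₂ i₃ k₃ : ℤ, ∀ c : G, CRel g c → ∀ al : Fin 2,
      cj (g.ph ^ n) (h.base.B.sw al (q₁ * c * q₁⁻¹)) = g.lt c al i₁ k₁ ∧
      cj (g.ph ^ n) (h.base.B.sw al (q₂ * c * q₂⁻¹)) = g.lt c al i₂ k₂ ∧
      cj (g.ph ^ n) (h.base.B.sw al (q₃ * c * q₃⁻¹)) = g.lt c al i₃ k₃ := by
    intro q₁ h₁ q₂ h₂ q₃ h₃
    obtain ⟨N₁, hN₁⟩ := CRel.cst_lt h.base h₁
    obtain ⟨N₂, hN₂⟩ := CRel.cst_lt h.base h₂
    obtain ⟨N₃, hN₃⟩ := CRel.cst_lt h.base h₃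
    obtain ⟨i₁, k₁, e₁⟩ := hN₁ (N₁ + N₂ + N₃) (by omega)
    obtain ⟨i₂, k₂, e₂⟩ := hN₂ (N₁ + N₂ + N₃) (by omega)
    obtain ⟨i₃, k₃, e₃⟩ := hN₃ (N₁ + N₂ + N₃) (by omega)
    exact ⟨N₁ + N₂ + N₃, i₁, k₁, i₂, k₂, i₃, k₃, fun c hc al => ⟨e₁ c hc al, e₂ c hc al,
      e₃ c hc al⟩⟩
  refine ⟨CRel.vdata h.base h.ca, CRel.vdata h.base h.cb, ?_, ?_, ?_⟩
  · intro q₁ h₁ q₂ h₂ q₃ h₃ i j k
    obtain ⟨n, i₁, k₁, i₂, k₂, i₃, k₃, e⟩ := key q₁ h₁ q₂ h₂ q₃ h₃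
    rw [← commute_conj_iff (g.ph ^ n), conj_comm_iff]
    have e1 := (e g.a h.ca i).1
    have e2 := (e g.b h.cb j).2.1
    have e3 := (e g.a h.ca k).2.2
    unfold cj at e1 e2 e3
    rw [e1, e2, e3]
    exact (h.tri _ _ _ _ _ _ _ _ _).1
  · intro q₁ h₁ q₂ h₂ q₃ h₃ i j k
    obtain ⟨n, i₁, k₁, i₂, k₂, i₃, k₃, e⟩ := key q₁ h₁ q₂ h₂ q₃ h₃
    rw [← commute_conj_iff (g.ph ^ n), conj_comm_iff]
    have e1 := (e g.a h.ca i).1
    have e2 := (e g.b h.cb j).2.1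
    have e3 := (e g.b h.cb k).2.2
    unfold cj at e1 e2 e3
    rw [e1, e2, e3]
    exact (h.tri _ _ _ _ _ _ _ _ _).2
  · intro q₁ h₁ q₂ h₂ i j
    obtain ⟨n, i₁, k₁, i₂, k₂, i₃, k₃, e⟩ := key q₁ h₁ q₂ h₂ q₁ h₁
    apply mul_left_cancel (a := g.ph ^ n)
    apply mul_right_cancel (b := (g.ph ^ n)⁻¹)
    rw [conj_comm_iff, conj_comm_iff]
    have e1 := (e g.a h.ca i).1
    have e2 := (e g.b h.cb j).2.1
    have e3 := (e g.a h.ca j).2.1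
    have e4 := (e g.b h.cb i).1
    unfold cj at e1 e2 e3 e4
    rw [e1, e2, e3, e4]
    exact h.sym _ _ _ _ _ _

end Rels

end Pool.Agent.H86.FS
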