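import Pool.Agent.H86.FS.MLc

/-!
# The function group `L_0`, part a
`NX = N0(X)`, `NY = N0(Y)`, `L0 = NX ⊔ NY`. All facts of the M-lemma are available for `B.mX`, `B.mY`.
* `NX_NY'`: `y ∈ NX` commutes with `δ z δ⁻¹`, `z ∈ NY`: `X` commutes with `Y' = δ Y δ⁻¹`; conjugate by `r.2` (fixes `X`; `r.2 Y' r.2⁻¹ = s_r Y' s_r⁻¹`):
  `X` commutes with `s_r Y' s_r⁻¹`; conjugate by `s_{r'}`: `s_{r'} X s_{r'}⁻¹` commutes with all `s_r Y' s_r⁻¹` (`sn_mul`). `φ` commutes with `Γ`, `δ`, `Y`: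
  conjugating by `φ⁻ⁿ`: `φ⁻ⁿ(s_{r'} X s_{r'}⁻¹)φⁿ` commutes with `φ⁻ⁿ(s_r Y' s_r⁻¹)φⁿ = s_r Y' s_r⁻¹`. All generators of `NY` are `s_r Y s_r⁻¹`.
* `L0_swap`: generators: `NX`–`NX`, `NY`–`NY` (`N0_swap`), `NX`–`NY'`, and `NY`–`NX'` (conjugate the third by `δ`).
* `L0_sn, L0_φ, L0_φ', L0_et, L0_ς`: from the M-lemma.
* `L0_th`: `r.1` commutes with `g * δ g δ⁻¹` for `g ∈ L0`: true on `NX`, `NY` (`N0_th`), multiplicative because of `L0_swap`, inverses.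
* `L0_split`: `r.1 g r.1⁻¹ = g0 * δ g1 δ⁻¹`, `g0, g1 ∈ L0`: true on `NX`, `NY` (`N0_split`), multiplicative by `L0_swap`.
* `Z_mem`, `Z_L0`: `Z` commutes with `X`, `Y`, `s_r`, hence with `s_r X s_r⁻¹`, `s_r Y s_r⁻¹`; `φ Z φ⁻¹ = ⁅X², Y⁆ = Z²` (`Z` central in `⟨X,Y⟩`), so
  `φⁿ Z φ⁻ⁿ = Z^(2^n)` commutes with `s_r X s_r⁻¹`, i.e. `Z` commutes with `φ⁻ⁿ (s_r X s_r⁻¹) φⁿ`. `Z_L1`: `Z ∈ L0`, `L0_swap`.
* `Z31`: `Z^31 = ⁅X, Y^31⁆ = 1` (`⁅X, Y^n⁆ = Z^n` as `Z` commutes with `Y`).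
-/

set_option autoImplicit false

open scoped commutatorElement

namespace Pool.Agent.H86.FS

variable {G : Type*} [Group G]

namespace Base

variable (B : Base G)

open Pool.Agent.H93.FS in
theorem φ_sn {r : G × G} (hr : r ∈ B.Γ) : Commute B.φ (sn r) := by
  have h1 := B.φ_th r hr
  have h2 := B.φ_et r hr
  unfold sn
  rw [commutatorElement_def]
  exact ((h1.mul_right h2).mul_right h1.inv_right).mul_right h2.inv_right

open Pool.Agent.H93.FS in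
theorem NX_eq : B.NX = Subgroup.closure
    {y | ∃ n : ℕ, ∃ r ∈ B.Γ, y = cj (sn r) (cj (B.φ⁻¹ ^ n) B.X)} := by
  unfold NX Eng.N0
  congr 1
  ext y
  constructor
  · rintro ⟨n, r, hr, rfl⟩
    refine ⟨n, r, hr, ?_⟩
    rw [cj_cj, ← ((B.φ_sn hr).inv_left.pow_left n).eq, ← cj_cj]
    simp [cj]
  · rintro ⟨n, r, hr, rfl⟩
    refine ⟨n, r, hr, ?_⟩
    rw [cj_cj, ← ((B.φ_sn hr).inv_left.pow_left n).eq, ← cj_cj]
    simp [cj]

open Pool.Agent.H93.FS in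
theorem NY_eq : B.NY = Subgroup.closure {y | ∃ r ∈ B.Γ, y = cj (sn r) B.Y} := by
  unfold NY Eng.N0
  congr 1
  ext y
  have key : ∀ (n : ℕ) (r : G × G), r ∈ B.Γ →
      (B.φ⁻¹) ^ n * (sn r * B.Y * (sn r)⁻¹) * B.φ ^ n = cj (sn r) B.Y := by
    intro n r hr
    have h1 : Commute (B.φ⁻¹ ^ n) (cj (sn r) B.Y) := by
      refine Commute.pow_left (Commute.inv_left ?_) n
      unfold cj
      exact ((B.φ_sn hr).mul_right B.φY).mul_right (B.φ_sn hr).inv_right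
    have h2 : (B.φ⁻¹) ^ n * (sn r * B.Y * (sn r)⁻¹) * B.φ ^ n = cj (B.φ⁻¹ ^ n) (cj (sn r) B.Y) := by
      simp [cj]
    rw [h2, cj_eq h1]
  constructor
  · rintro ⟨n, r, hr, rfl⟩
    exact ⟨r, hr, key n r hr⟩
  · rintro ⟨r, hr, rfl⟩
    exact ⟨0, r, hr, (key 0 r hr).symm⟩

open Pool.Agent.H93.FS in
theorem X_Y'_sn {r : G × G} (hr : r ∈ B.Γ) : Commute B.X (cj (sn r) (cj B.δ B.Y)) := by
  obtain ⟨t, T, t0, hN⟩ := exists_tower B.mY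
  have h1 := commute_cj r.2 B.XY'
  rw [cj_eq (B.mX.et r hr)] at h1
  have h2 := T.et_d 0 ⟨r, hr⟩
  rw [t0] at h2
  have h3 : cj r.2 (B.δ * B.Y * B.δ⁻¹) = cj (sn r) (cj B.δ B.Y) := h2
  rwa [h3] at h1

open Pool.Agent.H93.FS in
theorem NX_NY' {y z : G} (hy : y ∈ B.NX) (hz : z ∈ B.NY) : Commute y (cj B.δ z) := by
  rw [NX_eq] at hy
  rw [NY_eq] at hz
  have h1 : ∀ x' ∈ {y | ∃ r ∈ B.Γ, y = cj (sn r) B.Y}, Commute y (cj B.δ x') := by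
    rintro _ ⟨u, hu, rfl⟩
    refine (commute_of_gen ?_ hy).symm
    rintro _ ⟨n, r, hr, rfl⟩
    apply Commute.symm
    have h2 : cj B.δ (cj (sn u) B.Y) = cj (sn u) (cj B.δ B.Y) := by
      rw [cj_cj, ← (B.sn_δ hu).eq, ← cj_cj]
    have h3 := commute_cj (B.φ⁻¹ ^ n) (B.X_Y'_sn (mul_mem hr hu))
    have h4 : Commute (B.φ⁻¹ ^ n) (cj (sn (r * u)) (cj B.δ B.Y)) := by
      refine Commute.pow_left (Commute.inv_left ?_) n
      have e1 := B.φ_sn (mul_mem hr hu)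
      have e2 := B.mX.φδ
      unfold cj
      exact (e1.mul_right ((e2.mul_right B.φY).mul_right e2.inv_right)).mul_right e1.inv_right
    rw [cj_eq h4, B.sn_mul hr hu, ← cj_cj] at h3
    have h5 := commute_cj (sn r) h3
    rw [cj_cj (sn r) (sn r), B.sn_sq hr, cj_one_left] at h5
    rw [h2]
    exact h5
  have h6 := commute_of_gen (S := {y | ∃ r ∈ B.Γ, y = cj (sn r) B.Y}) (z := cj B.δ⁻¹ y) (by
    intro x hx
    have h7 := commute_cj B.δ⁻¹ (h1 x hx)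
    rwa [cj_cj, inv_mul_cancel, cj_one_left] at h7) hz
  have h8 := commute_cj B.δ h6
  rwa [cj_cj, mul_inv_cancel, cj_one_left] at h8

theorem L0_eq : B.L0 = Subgroup.closure ((B.NX : Set G) ∪ (B.NY : Set G)) :=
  Subgroup.sup_eq_closure _ _

theorem Z_Xφ (n : ℕ) : Commute (B.φ ^ n * B.Z * (B.φ ^ n)⁻¹) B.X ∧
    Commute (B.φ ^ n * B.Z * (B.φ ^ n)⁻¹) B.Y ∧
    ∀ r ∈ B.Γ, Commute (B.φ ^ n * B.Z * (B.φ ^ n)⁻¹) (sn r) := by
  have h1 : ∀ m : ℕ, ∃ k : ℕ, B.φ ^ m * B.Z * (B.φ ^ m)⁻¹ = B.Z ^ k := by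
    intro m
    induction m with
    | zero => exact ⟨1, by simp⟩
    | succ m ih =>
      obtain ⟨k, hk⟩ := ih
      have h2 : B.φ * B.Z * B.φ⁻¹ = B.Z * B.Z := by
        have h3 : B.φ * B.Z * B.φ⁻¹ = ⁅B.φ * B.X * B.φ⁻¹, B.φ * B.Y * B.φ⁻¹⁆ :=
          Pool.Agent.H93.FS.cj_comm B.φ B.X B.Y
        have h4 : B.φ * B.Y * B.φ⁻¹ = B.Y := Pool.Agent.H93.FS.cj_eq B.φY
        rw [h3, h4, B.φX, Pool.Agent.H93.FS.comm_mul_left, Pool.Agent.H93.FS.cj_eq B.ZX.symm]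
        rfl
      refine ⟨k + k, ?_⟩
      have h5 : B.φ ^ (m + 1) * B.Z * (B.φ ^ (m + 1))⁻¹ =
          B.φ * (B.φ ^ m * B.Z * (B.φ ^ m)⁻¹) * B.φ⁻¹ := by
        rw [pow_succ', mul_inv_rev]
        group
      rw [h5, hk]
      have h6 : B.φ * B.Z ^ k * B.φ⁻¹ = (B.φ * B.Z * B.φ⁻¹) ^ k :=
        Pool.Agent.H93.FS.cj_pow B.φ B.Z k
      rw [h6, h2, (Commute.refl B.Z).mul_pow, pow_add]
  obtain ⟨k, hk⟩ := h1 n
  rw [hk]
  exact ⟨B.ZX.pow_left k, B.ZY.pow_left k, fun r hr => (B.Zs r hr).pow_left k⟩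

theorem L0_swap {g h : G} (hg : g ∈ B.L0) (hh : h ∈ B.L0) : Commute g (B.δ * h * B.δ⁻¹) := by
  have hX : ∀ z ∈ B.NX, Commute g (Pool.Agent.H93.FS.cj B.δ z) := by
    intro z hz
    refine (Pool.Agent.H93.FS.commute_of_sup ?_ ?_ hg).symm
    · intro y hy
      exact (B.mX.N0_swap hy hz).symm
    · intro y hy
      have h1 := Pool.Agent.H93.FS.commute_cj B.δ (B.NX_NY' hz hy)
      rw [Pool.Agent.H93.FS.cj_cj, B.δ_sq, Pool.Agent.H93.FS.cj_one_left] at h1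
      exact h1
  have hY : ∀ z ∈ B.NY, Commute g (Pool.Agent.H93.FS.cj B.δ z) := by
    intro z hz
    refine (Pool.Agent.H93.FS.commute_of_sup ?_ ?_ hg).symm
    · intro y hy
      exact (B.NX_NY' hy hz).symm
    · intro y hy
      exact (B.mY.N0_swap hy hz).symm
  have h2 : Commute (Pool.Agent.H93.FS.cj B.δ g) h := by
    refine Pool.Agent.H93.FS.commute_of_sup ?_ ?_ hh
    · intro x hx
      have h1 := Pool.Agent.H93.FS.commute_cj B.δ (hX x hx)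
      rwa [Pool.Agent.H93.FS.cj_cj B.δ B.δ, B.δ_sq, Pool.Agent.H93.FS.cj_one_left] at h1
    · intro x hx
      have h1 := Pool.Agent.H93.FS.commute_cj B.δ (hY x hx)
      rwa [Pool.Agent.H93.FS.cj_cj B.δ B.δ, B.δ_sq, Pool.Agent.H93.FS.cj_one_left] at h1
  have h3 := Pool.Agent.H93.FS.commute_cj B.δ h2
  rwa [Pool.Agent.H93.FS.cj_cj B.δ B.δ, B.δ_sq, Pool.Agent.H93.FS.cj_one_left] at h3

theorem L0_sn {r : G × G} (hr : r ∈ B.Γ) {g : G} (hg : g ∈ B.L0) :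
    sn r * g * (sn r)⁻¹ ∈ B.L0 := by
  refine Pool.Agent.H93.FS.cj_mem_of_sup (sn r) ?_ ?_ hg
  · intro x hx
    exact Subgroup.mem_sup_left (B.mX.N0_sn hr hx)
  · intro x hx
    exact Subgroup.mem_sup_right (B.mY.N0_sn hr hx)

theorem L0_φ {g : G} (hg : g ∈ B.L0) : B.φ * g * B.φ⁻¹ ∈ B.L0 := by
  refine Pool.Agent.H93.FS.cj_mem_of_sup B.φ ?_ ?_ hg
  · intro x hx
    exact Subgroup.mem_sup_left (B.mX.N0_φ hx)
  · intro x hx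
    exact Subgroup.mem_sup_right (B.mY.N0_φ hx)

theorem L0_φ' {g : G} (hg : g ∈ B.L0) : B.φ⁻¹ * g * B.φ ∈ B.L0 := by
  have h1 : Pool.Agent.H93.FS.cj B.φ⁻¹ g ∈ B.L0 := by
    refine Pool.Agent.H93.FS.cj_mem_of_sup B.φ⁻¹ ?_ ?_ hg
    · intro x hx
      have : B.φ⁻¹ * x * B.φ ∈ B.NX := B.mX.N0_φ' hx
      refine Subgroup.mem_sup_left ?_
      simpa [Pool.Agent.H93.FS.cj] using this
    · intro x hx
      have : B.φ⁻¹ * x * B.φ ∈ B.NY := B.mY.N0_φ' hx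
      refine Subgroup.mem_sup_right ?_
      simpa [Pool.Agent.H93.FS.cj] using this
  simpa [Pool.Agent.H93.FS.cj] using h1

theorem L0_et {r : G × G} (hr : r ∈ B.Γ) {g : G} (hg : g ∈ B.L0) : Commute r.2 g := by
  exact Pool.Agent.H93.FS.commute_of_sup (fun x hx => B.mX.N0_et hr hx)
    (fun x hx => B.mY.N0_et hr hx) hg

theorem L0_ς {g : G} (hg : g ∈ B.L0) : Commute B.ς g := by
  exact Pool.Agent.H93.FS.commute_of_sup (fun x hx => B.mX.N0_ς hx)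
    (fun x hx => B.mY.N0_ς hx) hg

theorem L0_th {r : G × G} (hr : r ∈ B.Γ) {g : G} (hg : g ∈ B.L0) :
    Commute r.1 (g * (B.δ * g * B.δ⁻¹)) := by
  rw [L0_eq] at hg
  induction hg using Subgroup.closure_induction with
  | mem g hg =>
    rcases hg with hg | hg
    · exact B.mX.N0_th hr hg
    · exact B.mY.N0_th hr hg
  | one => simp
  | mul g k hg hk ihg ihk =>
    rw [← L0_eq] at hg hk
    have h1 : g * k * (B.δ * (g * k) * B.δ⁻¹) =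
        (g * (B.δ * g * B.δ⁻¹)) * (k * (B.δ * k * B.δ⁻¹)) := by
      have h2 : B.δ * (g * k) * B.δ⁻¹ = (B.δ * g * B.δ⁻¹) * (B.δ * k * B.δ⁻¹) := by group
      rw [h2, (B.L0_swap hk hg).mul_mul_mul_comm]
    rw [h1]
    exact ihg.mul_right ihk
  | inv g hg ih =>
    rw [← L0_eq] at hg
    have h1 : g⁻¹ * (B.δ * g⁻¹ * B.δ⁻¹) = (g * (B.δ * g * B.δ⁻¹))⁻¹ := by
      have h2 : B.δ * g⁻¹ * B.δ⁻¹ = (B.δ * g * B.δ⁻¹)⁻¹ := by group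
      rw [h2, (B.L0_swap hg hg).eq, mul_inv_rev (B.δ * g * B.δ⁻¹) g]
    rw [h1]
    exact ih.inv_right

theorem L0_split {r : G × G} (hr : r ∈ B.Γ) {g : G} (hg : g ∈ B.L0) :
    ∃ g0 ∈ B.L0, ∃ g1 ∈ B.L0, r.1 * g * r.1⁻¹ = g0 * (B.δ * g1 * B.δ⁻¹) := by
  rw [L0_eq] at hg
  induction hg using Subgroup.closure_induction with
  | mem g hg =>
    rcases hg with hg | hg
    · obtain ⟨w, hw, -, h⟩ := B.mX.N0_split hr hg
      have hs := B.mX.N0_sn hr hw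
      exact ⟨_, Subgroup.mem_sup_left (mul_mem hw hs), _,
        Subgroup.mem_sup_left (mul_mem hw (inv_mem hs)), h⟩
    · obtain ⟨w, hw, -, h⟩ := B.mY.N0_split hr hg
      have hs := B.mY.N0_sn hr hw
      exact ⟨_, Subgroup.mem_sup_right (mul_mem hw hs), _,
        Subgroup.mem_sup_right (mul_mem hw (inv_mem hs)), h⟩
  | one => exact ⟨1, one_mem _, 1, one_mem _, by simp⟩
  | mul g k hg hk ihg ihk =>
    obtain ⟨g0, hg0, g1, hg1, h1⟩ := ihg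
    obtain ⟨k0, hk0, k1, hk1, h2⟩ := ihk
    refine ⟨g0 * k0, mul_mem hg0 hk0, g1 * k1, mul_mem hg1 hk1, ?_⟩
    have h3 : r.1 * (g * k) * r.1⁻¹ = (r.1 * g * r.1⁻¹) * (r.1 * k * r.1⁻¹) := by group
    have h4 : B.δ * (g1 * k1) * B.δ⁻¹ = (B.δ * g1 * B.δ⁻¹) * (B.δ * k1 * B.δ⁻¹) := by group
    rw [h3, h1, h2, h4, ((B.L0_swap hk0 hg1).symm).mul_mul_mul_comm]
  | inv g hg ih =>
    obtain ⟨g0, hg0, g1, hg1, h1⟩ := ih
    refine ⟨g0⁻¹, inv_mem hg0, g1⁻¹, inv_mem hg1, ?_⟩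
    have h3 : r.1 * g⁻¹ * r.1⁻¹ = (r.1 * g * r.1⁻¹)⁻¹ := by group
    have h4 : B.δ * g1⁻¹ * B.δ⁻¹ = (B.δ * g1 * B.δ⁻¹)⁻¹ := by group
    rw [h3, h1, h4, (B.L0_swap hg0 hg1).eq, mul_inv_rev (B.δ * g1 * B.δ⁻¹) g0]

theorem Z_mem : B.Z ∈ B.L0 := by
  have hX : B.X ∈ B.L0 := Subgroup.mem_sup_left B.mX.mem
  have hY : B.Y ∈ B.L0 := Subgroup.mem_sup_right B.mY.mem
  unfold Z
  rw [commutatorElement_def]
  exact mul_mem (mul_mem (mul_mem hX hY) (inv_mem hX)) (inv_mem hY)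

theorem Z_L0 {g : G} (hg : g ∈ B.L0) : Commute B.Z g := by
  refine Pool.Agent.H93.FS.commute_of_sup ?_ ?_ hg
  · intro x hx
    refine Pool.Agent.H93.FS.commute_of_gen ?_ hx
    rintro _ ⟨n, r, hr, rfl⟩
    obtain ⟨h1, h2, h3⟩ := B.Z_Xφ n
    have h4 : Commute (B.φ ^ n * B.Z * (B.φ ^ n)⁻¹) (sn r * B.X * (sn r)⁻¹) :=
      ((h3 r hr).mul_right h1).mul_right (h3 r hr).inv_right
    have h5 := Pool.Agent.H93.FS.commute_cj (B.φ⁻¹ ^ n) h4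
    convert h5 using 1
    · simp only [Pool.Agent.H93.FS.cj, inv_pow]
      group
    · simp only [Pool.Agent.H93.FS.cj, inv_pow, inv_inv]
  · intro x hx
    rw [NY_eq] at hx
    refine Pool.Agent.H93.FS.commute_of_gen ?_ hx
    rintro _ ⟨r, hr, rfl⟩
    exact ((B.Zs r hr).mul_right B.ZY).mul_right (B.Zs r hr).inv_right

theorem Z_L1 {g : G} (hg : g ∈ B.L0) : Commute B.Z (B.δ * g * B.δ⁻¹) := by
  exact B.L0_swap B.Z_mem hg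

theorem Z_sn {r : G × G} (hr : r ∈ B.Γ) : Commute B.Z (sn r) := B.Zs r hr

theorem Z_φ : B.φ * B.Z * B.φ⁻¹ = B.Z * B.Z := by
  have h3 : B.φ * B.Z * B.φ⁻¹ = ⁅B.φ * B.X * B.φ⁻¹, B.φ * B.Y * B.φ⁻¹⁆ :=
    Pool.Agent.H93.FS.cj_comm B.φ B.X B.Y
  have h4 : B.φ * B.Y * B.φ⁻¹ = B.Y := Pool.Agent.H93.FS.cj_eq B.φY
  rw [h3, h4, B.φX, Pool.Agent.H93.FS.comm_mul_left, Pool.Agent.H93.FS.cj_eq B.ZX.symm]
  rfl

theorem Z31 : B.Z ^ 31 = 1 := by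
  have h1 : ∀ n : ℕ, ⁅B.X, B.Y ^ n⁆ = B.Z ^ n := by
    intro n
    induction n with
    | zero => simp
    | succ n ih =>
      rw [pow_succ, Pool.Agent.H93.FS.comm_mul_right, ih,
        Pool.Agent.H93.FS.cj_eq (B.ZY.symm.pow_left n), pow_succ]
      rfl
  rw [← h1, B.Y31]
  simp

end Base

end Pool.Agent.H86.FS
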