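import Pool.Agent.H86.FS.LFc
import Pool.Agent.H86.FS.Class2

/-!
# The function group `L_0`, part b: class 2 (may use `L0_gen`, `Cst_L0` of LFc)
`C1 := {q ∈ NY | ∀ a ∈ S, ∀ k ∈ L0, Commute ⁅a, q⁆ k}`, `S = {φ⁻ⁿ X φⁿ : n}`.
* `C1` is a subgroup (inside `NY`): `⁅a, q q'⁆ = ⁅a,q⁆ * q ⁅a,q'⁆ q⁻¹ = ⁅a,q⁆ * ⁅a,q'⁆` (values central in `L0`), inverses similarly.
* `Y ∈ C1`: `⁅φ⁻ⁿ X φⁿ, Y⁆ = φ⁻ⁿ Z φⁿ`, commutes with `L0` because `φⁿ` normalises `L0` and `Z` commutes with `L0`.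
* `q ∈ C1 → s_r q s_r⁻¹ ∈ C1`: let `w ∈ NY`, `w * w = q` with `r.1 q r.1⁻¹ = q0 * δ q1 δ⁻¹`, `q0 = w * s_r w s_r⁻¹`, `q1 = w (s_r w s_r⁻¹)⁻¹` (`N0_split`).
  For `a ∈ S`, `a' = δ a δ⁻¹`: `a a'` commutes with `r.1` (`N0_th`); `a'` commutes with `q` (`L0_swap`), so `⁅a a', q⁆ = ⁅a, q⁆` commutes with `L0` and (being
  in `L0`) with `δ L0 δ⁻¹`. Conjugation by `r.1` preserves `L0 · δ L0 δ⁻¹` (`L0_split` and its `δ`-conjugate, `δ` commutes with `r.1`; `r.1⁻¹ = r.1`), so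
  `⁅a a', q0 q1'⁆` commutes with `L0` and `δ L0 δ⁻¹`; it equals `⁅a, q0⁆ * ⁅a', q1'⁆` and the second factor (in `δ L0 δ⁻¹`) commutes with `L0`. So
  `⁅a, q0⁆` commutes with `L0`: `q0 ∈ C1`. As `NY` is commutative, `q0 * q0 = q * s_r q s_r⁻¹`, so `s_r q s_r⁻¹ = q0² q⁻¹ ∈ C1`.
* `NY` is generated by the `s_r Y s_r⁻¹` (`φ` commutes with `Γ` and `Y`), so `C1 = NY`.
* For `a ∈ S`, `q ∈ NY`: `⁅s_r a s_r⁻¹, q⁆ = s_r ⁅a, s_r⁻¹ q s_r⁆ s_r⁻¹` commutes with `L0`. `NX` is generated by the `s_r a s_r⁻¹`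
  (`φ⁻ⁿ(s_r X s_r⁻¹)φⁿ = s_r (φ⁻ⁿ X φⁿ) s_r⁻¹`). So the commutators of elements of the generating set `NX ∪ NY` of `L0` are central:
  use `bil_closure` for `⁅NX, NY⁆`, commutativity of `NX`, `NY`, and `class2_closure`.
-/

set_option autoImplicit false

open scoped commutatorElement

namespace Pool.Agent.H86.FS

variable {G : Type*} [Group G]

namespace Base

variable (B : Base G)

theorem Dn_mem (n : ℕ) : B.Dn n ∈ B.L0 :=
  B.Cst_L0 (Subgroup.subset_closure (Or.inl ⟨n, B.Dn_eq n⟩))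

theorem Dn_Y (n : ℕ) : ∃ c : ℕ, ⁅B.Dn n, B.Y⁆ = B.Z ^ c := by
  induction n with
  | zero =>
    refine ⟨1, ?_⟩
    simp only [Dn, pow_zero, Pool.Agent.H93.FS.cj_one_left, pow_one]
    rfl
  | succ n ih =>
    obtain ⟨c, hc⟩ := ih
    refine ⟨16 * c, ?_⟩
    have h1 : ⁅B.Dn (n + 1), B.Y⁆ = Pool.Agent.H93.FS.cj B.φ⁻¹ ⁅B.Dn n, B.Y⁆ := by
      rw [Pool.Agent.H93.FS.cj_comm, Pool.Agent.H93.FS.cj_eq B.φY.inv_left, ← B.φ_Dn]
      simp [Pool.Agent.H93.FS.cj]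
    have h2 : Pool.Agent.H93.FS.cj B.φ⁻¹ B.Z = B.Z ^ 16 := by
      rw [← B.φZ']
      simp [Pool.Agent.H93.FS.cj]
    rw [h1, hc, Pool.Agent.H93.FS.cj_pow, h2, ← pow_mul]

/-- `q` has central commutators with the roots of `X` -/
def C1 (q : G) : Prop := ∀ n, ∀ k ∈ B.L0, Commute ⁅B.Dn n, q⁆ k

open Pool.Agent.H93.FS in
theorem C1_mul {q q' : G} (hq : q ∈ B.L0) (h : B.C1 q) (h' : B.C1 q') : B.C1 (q * q') := by
  intro n k hk
  rw [Pool.Agent.H93.FS.comm_mul_right, cj_eq (h' n q hq).symm]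
  exact (h n k hk).mul_left (h' n k hk)

open Pool.Agent.H93.FS in
theorem C1_inv {q : G} (hq : q ∈ B.L0) (h : B.C1 q) : B.C1 q⁻¹ := by
  intro n k hk
  have h1 : ⁅B.Dn n, q⁻¹⁆ = (⁅B.Dn n, q⁆)⁻¹ := by
    have h2 := Pool.Agent.H93.FS.comm_mul_right (B.Dn n) q q⁻¹
    have h3 : cj q ⁅B.Dn n, q⁻¹⁆ = (⁅B.Dn n, q⁆)⁻¹ := by
      rw [mul_inv_cancel] at h2
      have h4 : ⁅B.Dn n, (1 : G)⁆ = 1 := by simp
      rw [h4] at h2
      exact eq_inv_of_mul_eq_one_right h2.symm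
    have h5 : cj q⁻¹ (cj q ⁅B.Dn n, q⁻¹⁆) = ⁅B.Dn n, q⁻¹⁆ := by
      rw [cj_cj, inv_mul_cancel, cj_one_left]
    rw [← h5, h3]
    exact cj_eq ((h n q hq).symm.inv_left.inv_right)
  rw [h1]
  exact (h n k hk).inv_left

open Pool.Agent.H93.FS in
theorem C1_sY {r : G × G} (hr : r ∈ B.Γ) : B.C1 (cj (sn r) B.Y) := by
  have hYm : B.Y ∈ B.L0 := Subgroup.mem_sup_right B.mY.mem
  have hCY : B.C1 B.Y := by
    intro n k hk
    obtain ⟨c, hc⟩ := B.Dn_Y n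
    rw [hc]
    exact (B.Z_L0 hk).pow_left c
  obtain ⟨w, hw, hww, hsp⟩ := B.mY.N0_split hr B.mY.mem
  have hsw := B.mY.N0_sn hr hw
  have hwL : w ∈ B.L0 := Subgroup.mem_sup_right hw
  have hswL : sn r * w * (sn r)⁻¹ ∈ B.L0 := Subgroup.mem_sup_right hsw
  set q0 := w * (sn r * w * (sn r)⁻¹) with hq0
  set q1 := w * (sn r * w * (sn r)⁻¹)⁻¹ with hq1
  have hq0L : q0 ∈ B.L0 := mul_mem hwL hswL
  have hq1L : q1 ∈ B.L0 := mul_mem hwL (inv_mem hswL)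
  have hC0 : B.C1 q0 := by
    intro n k hk
    set a := B.Dn n with ha
    have haL : a ∈ B.L0 := B.Dn_mem n
    obtain ⟨c, hc⟩ := B.Dn_Y n
    have hth : Commute r.1 (a * cj B.δ a) := B.L0_th hr haL
    -- `⁅a a', Y⁆ = Z ^ c`
    have e1 : ⁅a * cj B.δ a, B.Y⁆ = B.Z ^ c := by
      have c0 : Commute B.Y (cj B.δ a) := B.L0_swap hYm haL
      rw [Pool.Agent.H93.FS.comm_mul_left, comm_eq_one_iff.2 c0.symm, cj_one_right, one_mul, hc]
    have e2 : ⁅a * cj B.δ a, q0 * cj B.δ q1⁆ = cj r.1 (B.Z ^ c) := by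
      rw [← e1, cj_comm, cj_eq hth]
      congr 1
      exact hsp.symm
    have e3 : ⁅a * cj B.δ a, q0 * cj B.δ q1⁆ = ⁅a, q0⁆ * cj B.δ ⁅a, q1⁆ := by
      have c1 : Commute a (cj B.δ q1) := B.L0_swap haL hq1L
      have c2 : Commute q0 (cj B.δ a) := B.L0_swap hq0L haL
      have c3 : Commute q0 (cj B.δ q1) := B.L0_swap hq0L hq1L
      have c4 : Commute a (cj B.δ a) := B.L0_swap haL haL
      rw [Pool.Agent.H93.FS.comm_mul_left, Pool.Agent.H93.FS.comm_mul_right a, Pool.Agent.H93.FS.comm_mul_right (cj B.δ a),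
        comm_eq_one_iff.2 c1, comm_eq_one_iff.2 c2.symm, cj_one_right, one_mul, mul_one, cj_cj,
        cj_comm B.δ]
      have c5 : Commute (a * q0) ⁅cj B.δ a, cj B.δ q1⁆ := by
        have f1 : Commute (a * q0) (cj B.δ a) := c4.mul_left c2
        have f2 : Commute (a * q0) (cj B.δ q1) := c1.mul_left c3
        rw [commutatorElement_def]
        exact ((f1.mul_right f2).mul_right f1.inv_right).mul_right f2.inv_right
      rw [cj_eq c5]
      have c6 : Commute ⁅cj B.δ a, cj B.δ q1⁆ ⁅a, q0⁆ := by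
        have g1 : Commute ⁅cj B.δ a, cj B.δ q1⁆ a := by
          rw [commutatorElement_def]
          exact ((c4.symm.mul_left c1.symm).mul_left c4.symm.inv_left).mul_left c1.symm.inv_left
        have g2 : Commute ⁅cj B.δ a, cj B.δ q1⁆ q0 := by
          rw [commutatorElement_def]
          exact ((c2.symm.mul_left c3.symm).mul_left c2.symm.inv_left).mul_left c3.symm.inv_left
        rw [commutatorElement_def a]
        exact ((g1.mul_right g2).mul_right g1.inv_right).mul_right g2.inv_right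
      exact c6.eq
    -- `cj r.1 (Z ^ c)` commutes with `L0`
    have e4 : Commute (cj r.1 (B.Z ^ c)) k := by
      obtain ⟨k0, hk0, k1, hk1, hk01⟩ := B.L0_split hr hk
      have f1 : Commute (B.Z ^ c) (r.1 * k * r.1⁻¹) := by
        rw [hk01]
        exact ((B.Z_L0 hk0).mul_right (B.Z_L1 hk1)).pow_left c
      have f2 := commute_cj r.1 f1
      have f3 : cj r.1 (r.1 * k * r.1⁻¹) = k := by
        show cj r.1 (cj r.1 k) = k
        rw [cj_cj, B.th_sq r hr, cj_one_left]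
      rwa [f3] at f2
    have e5 : Commute (cj B.δ ⁅a, q1⁆) k := by
      refine (B.L0_swap hk ?_).symm
      rw [commutatorElement_def]
      exact mul_mem (mul_mem (mul_mem haL hq1L) (inv_mem haL)) (inv_mem hq1L)
    have e6 : ⁅a, q0⁆ = cj r.1 (B.Z ^ c) * (cj B.δ ⁅a, q1⁆)⁻¹ := by
      rw [← e2, e3, mul_inv_cancel_right]
    rw [e6]
    exact e4.mul_left e5.inv_left
  have h1 : cj (sn r) B.Y = (q0 * q0) * B.Y⁻¹ := by
    have hc := B.mY.N0_comm hw hsw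
    have h2 : cj (sn r) B.Y = (sn r * w * (sn r)⁻¹) * (sn r * w * (sn r)⁻¹) := by
      rw [← hww]
      show cj (sn r) (w * w) = cj (sn r) w * cj (sn r) w
      rw [cj_mul]
    have h3 : q0 * q0 = (w * w) * ((sn r * w * (sn r)⁻¹) * (sn r * w * (sn r)⁻¹)) :=
      hc.symm.mul_mul_mul_comm _ _
    have h4 : Commute (w * w) ((sn r * w * (sn r)⁻¹) * (sn r * w * (sn r)⁻¹)) :=
      (hc.mul_right hc).mul_left (hc.mul_right hc)
    rw [h3, h4.eq, h2, hww, mul_inv_cancel_right]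
  rw [h1]
  exact B.C1_mul (mul_mem hq0L hq0L) (B.C1_mul hq0L hC0 hC0) (B.C1_inv hYm hCY)

open Pool.Agent.H93.FS in
theorem C1_NY {q : G} (hq : q ∈ B.NY) : B.C1 q := by
  have hle : ∀ q ∈ Subgroup.closure {y | ∃ r ∈ B.Γ, y = cj (sn r) B.Y}, q ∈ B.L0 := by
    intro q hq
    rw [← NY_eq] at hq
    exact Subgroup.mem_sup_right hq
  rw [NY_eq] at hq
  induction hq using Subgroup.closure_induction with
  | mem y hy =>
    obtain ⟨r, hr, rfl⟩ := hy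
    exact B.C1_sY hr
  | one =>
    intro n k _
    simp
  | mul y z hy hz ihy ihz => exact B.C1_mul (hle y hy) ihy ihz
  | inv y hy ih => exact B.C1_inv (hle y hy) ih

open Pool.Agent.H93.FS in
theorem NX_NY_central {g q k : G} (hg : g ∈ B.NX) (hq : q ∈ B.NY) (hk : k ∈ B.L0) :
    Commute ⁅g, q⁆ k := by
  have hle : ∀ q ∈ Subgroup.closure {y | ∃ n : ℕ, ∃ r ∈ B.Γ, y = cj (sn r) (cj (B.φ⁻¹ ^ n) B.X)},
      q ∈ B.L0 := by
    intro q hq
    rw [← NX_eq] at hq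
    exact Subgroup.mem_sup_left hq
  rw [NX_eq] at hg
  have hqL : q ∈ B.L0 := Subgroup.mem_sup_right hq
  induction hg using Subgroup.closure_induction generalizing k with
  | mem y hy =>
    obtain ⟨n, r, hr, rfl⟩ := hy
    have h1 : ⁅cj (sn r) (cj (B.φ⁻¹ ^ n) B.X), q⁆ = cj (sn r) ⁅B.Dn n, cj (sn r) q⁆ := by
      rw [cj_comm, cj_cj (sn r) (sn r), B.sn_sq hr, cj_one_left]
      rfl
    have h2 : k = cj (sn r) (cj (sn r) k) := by rw [cj_cj, B.sn_sq hr, cj_one_left]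
    rw [h1, h2]
    exact commute_cj _ (B.C1_NY (B.mY.N0_sn hr hq) n _ (B.L0_sn hr hk))
  | one => simp
  | mul y z hy hz ihy ihz =>
    rw [Pool.Agent.H93.FS.comm_mul_left, cj_eq (ihz (hle y hy)).symm]
    exact (ihz hk).mul_left (ihy hk)
  | inv y hy ih =>
    have hyL := hle y hy
    have h1 : ⁅y⁻¹, q⁆ = (⁅y, q⁆)⁻¹ := by
      have h2 := Pool.Agent.H93.FS.comm_mul_left y y⁻¹ q
      rw [mul_inv_cancel] at h2
      have h4 : ⁅(1 : G), q⁆ = 1 := by simp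
      rw [h4] at h2
      have h3 : cj y ⁅y⁻¹, q⁆ = (⁅y, q⁆)⁻¹ := eq_inv_of_mul_eq_one_left h2.symm
      have h5 : cj y⁻¹ (cj y ⁅y⁻¹, q⁆) = ⁅y⁻¹, q⁆ := by
        rw [cj_cj, inv_mul_cancel, cj_one_left]
      rw [← h5, h3]
      exact cj_eq ((ih hyL).symm.inv_left.inv_right)
    rw [h1]
    exact (ih hk).inv_left

theorem L0_class2 : ∀ x ∈ B.L0, ∀ y ∈ B.L0, ∀ z ∈ B.L0, Commute ⁅x, y⁆ z := by
  rw [L0_eq]
  refine class2_closure _ ?_
  have hL : ∀ z ∈ (B.NX : Set G) ∪ (B.NY : Set G), z ∈ B.L0 := by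
    rintro z (hz | hz)
    · exact Subgroup.mem_sup_left hz
    · exact Subgroup.mem_sup_right hz
  intro x hx y hy z hz
  have hzL := hL z hz
  rcases hx with hx | hx <;> rcases hy with hy | hy
  · rw [Pool.Agent.H93.FS.comm_eq_one_iff.2 (B.mX.N0_comm hx hy)]
    exact Commute.one_left z
  · exact B.NX_NY_central hx hy hzL
  · rw [← Pool.Agent.H93.FS.inv_comm]
    exact (B.NX_NY_central hy hx hzL).inv_left
  · rw [Pool.Agent.H93.FS.comm_eq_one_iff.2 (B.mY.N0_comm hx hy)]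
    exact Commute.one_left z

end Base

end Pool.Agent.H86.FS
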