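import Pool.Agent.H86.FS.LFa

/-!
# Constants and generators of `L_0`
* `L0_gen`: `L0 = closure {s_r g s_r⁻¹ | r ∈ Γ, g ∈ CstG}`, because `φ` commutes with `Γ`: `φ⁻ⁿ(s_r X s_r⁻¹)φⁿ = s_r (φ⁻ⁿ X φⁿ) s_r⁻¹`,
  `φ⁻ⁿ(s_r Y s_r⁻¹)φⁿ = s_r Y s_r⁻¹`.
* `Cst_L0`: `Cst ≤ L0` (`r = 1`, `sn 1 = 1`).
* `X_mem ...`: obvious. `Z_Cst`: `Z = ⁅X,Y⁆ ∈ Cst`.
* `φZ'`: `φ⁻¹ Z φ = Z^16` since `φ Z^16 φ⁻¹ = Z^32 = Z`.
* `Cst_nf`: every `g ∈ Cst` is `(φ⁻¹)^n * X^i * φ^n * Z^j * Y^k` with `n : ℕ`, `i j k : ℤ`. Proof: closure induction; the set of these elements is closed under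
  multiplication (on the left, say) by generators and their inverses: `Z` commutes with everything in `Cst`;
  `Y * (φ⁻ⁿ X^i φⁿ) * Y⁻¹ = φ⁻ⁿ (Y X^i Y⁻¹) φⁿ = φ⁻ⁿ X^i φⁿ * φ⁻ⁿ Z^(-i) φⁿ` (`Y X Y⁻¹ = Z⁻¹ X`), and `φ⁻ⁿ Z^(-i) φⁿ` is a power of `Z`;
  `(φ⁻ᵐ X^j φᵐ)(φ⁻ⁿ X^i φⁿ)`: bring to a common `n` with `φ⁻ⁿ X^i φⁿ = φ⁻ᵐ X^(i 2^(m-n)) φᵐ` for `m ≥ n` (from `φ X φ⁻¹ = X²`).
* `Cst_φ`: `φ⁻¹ g φ ∈ Cst` and `φ g φ⁻¹ ∈ Cst`.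
* `Cst_th`: `r.1` commutes with `g * δ g δ⁻¹`: special case of `L0_th`.
-/

set_option autoImplicit false

open scoped commutatorElement

namespace Pool.Agent.H86.FS

variable {G : Type*} [Group G]

namespace Base

variable (B : Base G)

/-- `φ⁻ⁿ X φⁿ` -/
def Dn (n : ℕ) : G := Pool.Agent.H93.FS.cj (B.φ⁻¹ ^ n) B.X

theorem Dn_eq (n : ℕ) : B.Dn n = (B.φ⁻¹) ^ n * B.X * B.φ ^ n := by
  simp [Dn, Pool.Agent.H93.FS.cj]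

open Pool.Agent.H93.FS in
theorem Dn_sq (n : ℕ) : B.Dn (n + 1) ^ 2 = B.Dn n := by
  have h1 : cj B.φ⁻¹ (B.X ^ 2) = B.X := by
    have h2 := B.φX
    rw [pow_two, ← h2]
    simp [cj, mul_assoc]
  unfold Dn
  rw [← cj_pow, pow_succ, ← cj_cj, h1]

theorem Dn_pow (n m : ℕ) : B.Dn (n + m) ^ (2 ^ m) = B.Dn n := by
  induction m with
  | zero => simp
  | succ m ih => rw [pow_succ', pow_mul, ← add_assoc, B.Dn_sq, ih]

open Pool.Agent.H93.FS in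
theorem φ_Dn (n : ℕ) : B.φ⁻¹ * B.Dn n * B.φ = B.Dn (n + 1) := by
  have h1 : B.φ⁻¹ * B.Dn n * B.φ = cj B.φ⁻¹ (B.Dn n) := by simp [cj]
  rw [h1]
  unfold Dn
  rw [cj_cj, ← pow_succ']

theorem L0_gen : B.L0 =
    Subgroup.closure {y | ∃ r ∈ B.Γ, ∃ g ∈ B.CstG, y = sn r * g * (sn r)⁻¹} := by
  open Pool.Agent.H93.FS in
  apply le_antisymm
  · refine sup_le ?_ ?_
    · rw [NX_eq]
      refine (Subgroup.closure_le _).2 ?_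
      rintro _ ⟨n, r, hr, rfl⟩
      refine Subgroup.subset_closure ⟨r, hr, B.Dn n, Or.inl ⟨n, B.Dn_eq n⟩, rfl⟩
    · rw [NY_eq]
      refine (Subgroup.closure_le _).2 ?_
      rintro _ ⟨r, hr, rfl⟩
      exact Subgroup.subset_closure ⟨r, hr, B.Y, Or.inr rfl, rfl⟩
  · refine (Subgroup.closure_le _).2 ?_
    rintro _ ⟨r, hr, g, (⟨n, rfl⟩ | rfl), rfl⟩
    · refine Subgroup.mem_sup_left ?_
      rw [NX_eq, ← Dn_eq]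
      exact Subgroup.subset_closure ⟨n, r, hr, rfl⟩
    · refine Subgroup.mem_sup_right ?_
      rw [NY_eq]
      exact Subgroup.subset_closure ⟨r, hr, rfl⟩

theorem Cst_L0 : B.Cst ≤ B.L0 := by
  refine (Subgroup.closure_le _).2 ?_
  intro g hg
  rw [L0_gen]
  refine Subgroup.subset_closure ⟨1, one_mem _, g, hg, ?_⟩
  simp [sn]

theorem X_Cst : B.X ∈ B.Cst := by
  exact Subgroup.subset_closure (Or.inl ⟨0, by simp⟩)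

theorem X2_Cst : B.φ⁻¹ * B.X * B.φ ∈ B.Cst := by
  exact Subgroup.subset_closure (Or.inl ⟨1, by simp⟩)

theorem Y_Cst : B.Y ∈ B.Cst := by
  exact Subgroup.subset_closure (Or.inr rfl)

theorem Z_Cst : B.Z ∈ B.Cst := by
  have hX := B.X_Cst
  have hY := B.Y_Cst
  unfold Z
  rw [commutatorElement_def]
  exact mul_mem (mul_mem (mul_mem hX hY) (inv_mem hX)) (inv_mem hY)

theorem φZ' : B.φ⁻¹ * B.Z * B.φ = B.Z ^ 16 := by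
  open Pool.Agent.H93.FS in
  have h1 : cj B.φ (B.Z ^ 16) = B.Z := by
    have h2 : cj B.φ B.Z = B.Z * B.Z := B.Z_φ
    rw [cj_pow, h2, (Commute.refl B.Z).mul_pow, ← pow_add]
    have h3 : B.Z ^ (16 + 16) = B.Z ^ 31 * B.Z := by rw [← pow_succ]
    rw [h3, B.Z31, one_mul]
  have h4 : B.φ⁻¹ * B.Z * B.φ = Pool.Agent.H93.FS.cj B.φ⁻¹ B.Z := by
    simp [Pool.Agent.H93.FS.cj]
  rw [h4]
  nth_rewrite 1 [← h1]
  rw [Pool.Agent.H93.FS.cj_cj, inv_mul_cancel, Pool.Agent.H93.FS.cj_one_left]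

theorem Cst_nf {g : G} (hg : g ∈ B.Cst) : ∃ (n : ℕ) (i j k : ℤ),
    g = (B.φ⁻¹) ^ n * B.X ^ i * B.φ ^ n * B.Z ^ j * B.Y ^ k := by
  have hZd : ∀ n : ℕ, ∃ c : ℕ, ⁅B.Dn n, B.Y⁆ = B.Z ^ c := by
    intro n
    induction n with
    | zero =>
      refine ⟨1, ?_⟩
      simp only [Dn, pow_zero, Pool.Agent.H93.FS.cj_one_left, pow_one]
      rfl
    | succ n ih =>
      obtain ⟨c, hc⟩ := ih
      refine ⟨16 * c, ?_⟩
      have h1 : ⁅B.Dn (n + 1), B.Y⁆ = Pool.Agent.H93.FS.cj B.φ⁻¹ ⁅B.Dn n, B.Y⁆ := by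
        rw [Pool.Agent.H93.FS.cj_comm, Pool.Agent.H93.FS.cj_eq B.φY.inv_left, ← B.φ_Dn]
        simp [Pool.Agent.H93.FS.cj]
      have h2 : Pool.Agent.H93.FS.cj B.φ⁻¹ B.Z = B.Z ^ 16 := by
        rw [← B.φZ']
        simp [Pool.Agent.H93.FS.cj]
      rw [h1, hc, Pool.Agent.H93.FS.cj_pow, h2, ← pow_mul]
  have hZD : ∀ n : ℕ, Commute B.Z (B.Dn n) := fun n =>
    B.Z_L0 (B.Cst_L0 (Subgroup.subset_closure (Or.inl ⟨n, B.Dn_eq n⟩)))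
  have hYD : ∀ n : ℕ, ∃ c : ℤ, ∀ i : ℤ, B.Y * B.Dn n ^ i = B.Dn n ^ i * B.Z ^ (c * i) * B.Y ∧
      B.Y⁻¹ * B.Dn n ^ i = B.Dn n ^ i * B.Z ^ (- c * i) * B.Y⁻¹ := by
    intro n
    obtain ⟨c, hc⟩ := hZd n
    refine ⟨-c, fun i => ?_⟩
    have h1 : Pool.Agent.H93.FS.cj B.Y (B.Dn n) = B.Dn n * B.Z ^ (-(c : ℤ)) := by
      have h2 : ⁅B.Y, B.Dn n⁆ = B.Z ^ (-(c : ℤ)) := by
        rw [← Pool.Agent.H93.FS.inv_comm, hc, zpow_neg, zpow_natCast]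
      have h3 : Pool.Agent.H93.FS.cj B.Y (B.Dn n) = ⁅B.Y, B.Dn n⁆ * B.Dn n := by
        rw [commutatorElement_def]
        simp [Pool.Agent.H93.FS.cj]
      rw [h3, h2, ((hZD n).zpow_left _).eq]
    have h4 : Pool.Agent.H93.FS.cj B.Y⁻¹ (B.Dn n) = B.Dn n * B.Z ^ (c : ℤ) := by
      have h5 : Pool.Agent.H93.FS.cj B.Y (B.Dn n * B.Z ^ (c : ℤ)) = B.Dn n := by
        have h7 : Commute B.Y (B.Z ^ (c : ℤ)) := Commute.zpow_right (B.ZY.symm : Commute B.Y B.Z) _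
        rw [Pool.Agent.H93.FS.cj_mul, h1, Pool.Agent.H93.FS.cj_eq h7, mul_assoc, ← zpow_add]
        simp
      rw [← h5]
      rw [Pool.Agent.H93.FS.cj_cj, inv_mul_cancel, Pool.Agent.H93.FS.cj_one_left, h5]
    have hz : ∀ (g : G) (i : ℤ), Pool.Agent.H93.FS.cj g (B.Dn n ^ i) =
        Pool.Agent.H93.FS.cj g (B.Dn n) ^ i := fun g i => map_zpow (MulAut.conj g) _ i
    have hm : ∀ (c i : ℤ), (B.Dn n * B.Z ^ c) ^ i = B.Dn n ^ i * B.Z ^ (c * i) := by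
      intro c i
      rw [((hZD n).symm.zpow_right c).mul_zpow, ← zpow_mul]
    constructor
    · have h6 : B.Y * B.Dn n ^ i = Pool.Agent.H93.FS.cj B.Y (B.Dn n ^ i) * B.Y := by
        simp [Pool.Agent.H93.FS.cj]
      rw [h6, hz, h1, hm]
    · have h6 : B.Y⁻¹ * B.Dn n ^ i = Pool.Agent.H93.FS.cj B.Y⁻¹ (B.Dn n ^ i) * B.Y⁻¹ := by
        simp [Pool.Agent.H93.FS.cj]
      rw [h6, hz, h4, hm, neg_neg]
  have hDD : ∀ (n m : ℕ) (e i : ℤ), ∃ (N : ℕ) (l : ℤ),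
      B.Dn n ^ e * B.Dn m ^ i = B.Dn N ^ l := by
    intro n m e i
    refine ⟨n + m, 2 ^ m * e + 2 ^ n * i, ?_⟩
    have h1 : B.Dn n = B.Dn (n + m) ^ ((2 : ℤ) ^ m) := by
      rw [← B.Dn_pow n m]
      norm_cast
    have h2 : B.Dn m = B.Dn (n + m) ^ ((2 : ℤ) ^ n) := by
      rw [← B.Dn_pow m n, add_comm n m]
      norm_cast
    rw [zpow_add, zpow_mul, zpow_mul, ← h1, ← h2]
  have hform : ∀ (n : ℕ) (i j k : ℤ), (B.φ⁻¹) ^ n * B.X ^ i * B.φ ^ n * B.Z ^ j * B.Y ^ k =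
      B.Dn n ^ i * B.Z ^ j * B.Y ^ k := by
    intro n i j k
    have h1 : B.Dn n ^ i = (B.φ⁻¹) ^ n * B.X ^ i * B.φ ^ n := by
      have : B.Dn n ^ i = Pool.Agent.H93.FS.cj (B.φ⁻¹ ^ n) (B.X ^ i) :=
        (map_zpow (MulAut.conj (B.φ⁻¹ ^ n)) _ i).symm
      rw [this]
      simp [Pool.Agent.H93.FS.cj]
    rw [h1]
  suffices h : ∃ (n : ℕ) (i j k : ℤ), g = B.Dn n ^ i * B.Z ^ j * B.Y ^ k by
    obtain ⟨n, i, j, k, h⟩ := h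
    exact ⟨n, i, j, k, by rw [hform, h]⟩
  have hX : ∀ (n : ℕ) (e : ℤ) (h : G), (∃ (n : ℕ) (i j k : ℤ), h = B.Dn n ^ i * B.Z ^ j * B.Y ^ k) →
      ∃ (n' : ℕ) (i j k : ℤ), B.Dn n ^ e * h = B.Dn n' ^ i * B.Z ^ j * B.Y ^ k := by
    rintro n e _ ⟨m, i, j, k, rfl⟩
    obtain ⟨N, l, hl⟩ := hDD n m e i
    exact ⟨N, l, j, k, by rw [← mul_assoc, ← mul_assoc, hl]⟩
  refine Subgroup.closure_induction_left (p := fun g _ => ∃ (n : ℕ) (i j k : ℤ),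
    g = B.Dn n ^ i * B.Z ^ j * B.Y ^ k) ?_ ?_ ?_ hg
  · exact ⟨0, 0, 0, 0, by simp⟩
  · rintro x hx y _ ih
    rcases hx with ⟨n, rfl⟩ | rfl
    · have := hX n 1 y ih
      rwa [zpow_one, Dn_eq] at this
    · obtain ⟨n, i, j, k, rfl⟩ := ih
      obtain ⟨c, hc⟩ := hYD n
      refine ⟨n, i, c * i + j, 1 + k, ?_⟩
      rw [← mul_assoc, ← mul_assoc, (hc i).1, zpow_add, zpow_add, zpow_one]
      have h1 := (B.ZY.zpow_left j).eq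
      calc B.Dn n ^ i * B.Z ^ (c * i) * B.Y * B.Z ^ j * B.Y ^ k
          = B.Dn n ^ i * B.Z ^ (c * i) * (B.Y * B.Z ^ j) * B.Y ^ k := by group
        _ = B.Dn n ^ i * B.Z ^ (c * i) * (B.Z ^ j * B.Y) * B.Y ^ k := by
          have h1 : B.Z ^ j * B.Y = B.Y * B.Z ^ j := (Commute.zpow_left B.ZY j).eq
          rw [h1]
        _ = B.Dn n ^ i * (B.Z ^ (c * i) * B.Z ^ j) * (B.Y * B.Y ^ k) := by group
  · rintro x hx y _ ih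
    rcases hx with ⟨n, rfl⟩ | rfl
    · have := hX n (-1) y ih
      rwa [zpow_neg_one, Dn_eq] at this
    · obtain ⟨n, i, j, k, rfl⟩ := ih
      obtain ⟨c, hc⟩ := hYD n
      refine ⟨n, i, -c * i + j, -1 + k, ?_⟩
      rw [← mul_assoc, ← mul_assoc, (hc i).2, zpow_add, zpow_add, zpow_neg_one]
      calc B.Dn n ^ i * B.Z ^ (-c * i) * B.Y⁻¹ * B.Z ^ j * B.Y ^ k
          = B.Dn n ^ i * B.Z ^ (-c * i) * (B.Y⁻¹ * B.Z ^ j) * B.Y ^ k := by group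
        _ = B.Dn n ^ i * B.Z ^ (-c * i) * (B.Z ^ j * B.Y⁻¹) * B.Y ^ k := by
          have h1 : B.Z ^ j * B.Y⁻¹ = B.Y⁻¹ * B.Z ^ j :=
            (Commute.inv_right (Commute.zpow_left B.ZY j)).eq
          rw [h1]
        _ = B.Dn n ^ i * (B.Z ^ (-c * i) * B.Z ^ j) * (B.Y⁻¹ * B.Y ^ k) := by group

theorem Cst_φ {g : G} (hg : g ∈ B.Cst) : B.φ * g * B.φ⁻¹ ∈ B.Cst := by
  refine Pool.Agent.H93.FS.cj_mem_of_gen B.φ ?_ hg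
  rintro _ (⟨n, rfl⟩ | rfl)
  · rcases n with _ | n
    · have h1 : Pool.Agent.H93.FS.cj B.φ ((B.φ⁻¹) ^ 0 * B.X * B.φ ^ 0) = B.X * B.X := by
        rw [← B.φX]
        simp [Pool.Agent.H93.FS.cj]
      rw [h1]
      exact mul_mem B.X_Cst B.X_Cst
    · refine Subgroup.subset_closure (Or.inl ⟨n, ?_⟩)
      simp only [Pool.Agent.H93.FS.cj]
      rw [pow_succ', pow_succ]
      group
  · rw [Pool.Agent.H93.FS.cj_eq B.φY]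
    exact B.Y_Cst

theorem Cst_φ' {g : G} (hg : g ∈ B.Cst) : B.φ⁻¹ * g * B.φ ∈ B.Cst := by
  have h1 : Pool.Agent.H93.FS.cj B.φ⁻¹ g ∈ B.Cst := by
    refine Pool.Agent.H93.FS.cj_mem_of_gen B.φ⁻¹ ?_ hg
    rintro _ (⟨n, rfl⟩ | rfl)
    · refine Subgroup.subset_closure (Or.inl ⟨n + 1, ?_⟩)
      simp only [Pool.Agent.H93.FS.cj]
      rw [pow_succ', pow_succ]
      group
    · rw [Pool.Agent.H93.FS.cj_eq B.φY.inv_left]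
      exact B.Y_Cst
  simpa [Pool.Agent.H93.FS.cj] using h1

end Base

end Pool.Agent.H86.FS
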