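import Pool.Agent.H86.FS.BB
import Pool.Agent.H86.FS.LFc

/-!
# Letters and Stage V data for `c = a, b` (from (R12))
`g.lt c al i k := (d^al X^i Z^k) c (..)⁻¹`, `i k : ℤ`.
Basic facts (for the group `G` with `BRel g`, and `c` with `CRel g c`); write `X' = d X d⁻¹`, `Y' = d Y d⁻¹`.
* `X'` commutes with `X`, `Y` (R8, R10: `Commute X Y'` conjugated by `d`), hence with `Z`; `Z` commutes with `X`, `Y`; `Z^31 = 1`.
* `lt_X`: `X X'` maps `lt c al i k` to `lt c al (i+1) k` (`al = 0`: `X'` commutes with `X, Z` and fixes `c`; `al = 1`: `d⁻¹(X X')d = X' X`).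
* `lt_J1`, `lt_J2`: `J1`, `J2` commute with `d, X, Z`; R12.
* `lt_comm`: `Commute (lt c al i k) (lt c be j l)`. `al ≠ be`: `Commute c (d c d⁻¹)` (R12 swap); `X' , Z' := d Z d⁻¹` fix `c`, commute with `X`, `Z`; so
  `X^i Z^k c (..)⁻¹` commutes with `X'^j Z'^l (d c d⁻¹) (..)⁻¹`. `al = be`: WLOG `al = 0`; T2 with labels `(ρ, k) : Fin 31 × Fin 31`,
  `a (ρ,k) q := lt c 0 (31 q + ρ) k`, `τ := X^31` (or `(X X')^31`), `γ := J1`; `base`: difference of the `X`-exponents is between `-92` and `92`; conjugate to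
  the form `Commute c (lt c 0 i k)`, `0 ≤ i ≤ 92` (`lett`), `k` mod 31.
* `lt_inv`: square is 1.
* `cst_lt`: for `q ∈ Cst` and all large `n`: `ph^n (q c q⁻¹) ph^(-n)` is a letter `lt c 0 i k`: `Cst_nf`: `q = ph⁻ⁿ X^i phⁿ Z^j Y^k`; `Y`, `ph` fix `c`,
  `ph^n Z^j ph^(-n) = Z^(2^n j)`, `ph X ph⁻¹ = X²`. With `ph d = d ph` also `ph^n (B.sw al (q c q⁻¹)) ph^(-n) = lt c al i k`.
* `vdata`: fields: `hsn`: `sn` is multiplicative on `GR` (`Core.sn_mul`), `c` commutes with `q rho q⁻¹`. `het`: closure induction. `hth`: `q ∈ TT` commutes with `c`, `d`;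
  closure induction over `GR`. `ab`: `cst_lt`, `lt_comm`.
-/

set_option autoImplicit false
set_option linter.unusedVariables false

open scoped commutatorElement

namespace Pool.Agent.H86.FS

variable {G : Type*} [Group G] {r : ℕ}

/-- letters with integer exponents -/
def Gens.lt (g : Gens G r) (c : G) (al : Fin 2) (i k : ℤ) : G :=
  cj (g.d ^ (al : ℕ) * g.X ^ i * g.Z ^ k) c

namespace H58

open Pool.Agent.H75.FS

lemma cj_mul (x y c : G) : cj (x * y) c = cj x (cj y c) := by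
  simp only [cj]; group

lemma cj_of (x c : G) (h : Commute x c) : cj x c = c := by
  simp only [cj]; rw [h.eq, mul_inv_cancel_right]

lemma cj_swap {x y : G} (h : Commute x y) (c : G) : cj x (cj y c) = cj y (cj x c) := by
  rw [← cj_mul, ← cj_mul, h.eq]

lemma cj_prod (x a b : G) : cj x (a * b) = cj x a * cj x b := by
  simp only [cj]; group

lemma cj_comm {a b : G} (x : G) (h : Commute a b) : Commute (cj x a) (cj x b) :=
  (commute_conj_iff x).2 h

end H58

namespace BRel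

open H58

variable {g : Gens G r}

lemma h58_dd (h : BRel g) : g.d * g.d = 1 := h.inv g.d (by simp)

lemma h58_ZX (h : BRel g) : Commute g.Z g.X := h.Zc g.X (by simp)
lemma h58_ZY (h : BRel g) : Commute g.Z g.Y := h.Zc g.Y (by simp)
lemma h58_Z31 (h : BRel g) : g.Z ^ 31 = 1 := h.B.Z31

lemma h58_dcj (h : BRel g) (x : G) : cj g.d (cj g.d x) = x := by
  rw [← cj_mul, h.h58_dd, cj_of 1 x (Commute.one_left x)]

lemma h58_X'X (h : BRel g) : Commute (cj g.d g.X) g.X := (h.XYd g.X (by simp)).symm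
lemma h58_X'Y (h : BRel g) : Commute (cj g.d g.X) g.Y := by
  have := cj_comm g.d h.XY'
  rwa [h.h58_dcj] at this
lemma h58_X'Z (h : BRel g) : Commute (cj g.d g.X) g.Z := by
  have h1 := h.h58_X'X
  have h2 := h.h58_X'Y
  unfold Gens.Z
  rw [commutatorElement_def]
  exact ((h1.mul_right h2).mul_right h1.inv_right).mul_right h2.inv_right
lemma h58_Y'X (h : BRel g) : Commute (cj g.d g.Y) g.X := h.XY'.symm
lemma h58_Y'Y (h : BRel g) : Commute (cj g.d g.Y) g.Y := (h.XYd g.Y (by simp)).symm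

lemma h58_phZ (h : BRel g) : cj g.ph g.Z = g.Z * g.Z := by
  have := h.B.Z_φ
  exact this

/-- `ph^n X^i ph^-n = X^(i 2^n)` -/
lemma h58_phX (h : BRel g) (n : ℕ) (i : ℤ) : cj (g.ph ^ n) (g.X ^ i) = g.X ^ (i * 2 ^ n) := by
  have h1 : ∀ i : ℤ, cj g.ph (g.X ^ i) = g.X ^ (i * 2) := by
    intro i
    have : cj g.ph (g.X ^ i) = (cj g.ph g.X) ^ i := map_zpow (MulAut.conj g.ph) g.X i
    rw [this, h.phX, ← pow_two, ← zpow_natCast, ← zpow_mul]
    congr 1
    push_cast; ring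
  induction n with
  | zero => simp [cj]
  | succ n ih =>
    rw [pow_succ', cj_mul, ih, h1, pow_succ]
    congr 1
    ring

lemma h58_phZn (h : BRel g) (n : ℕ) (i : ℤ) : cj (g.ph ^ n) (g.Z ^ i) = g.Z ^ (i * 2 ^ n) := by
  have h1 : ∀ i : ℤ, cj g.ph (g.Z ^ i) = g.Z ^ (i * 2) := by
    intro i
    have : cj g.ph (g.Z ^ i) = (cj g.ph g.Z) ^ i := map_zpow (MulAut.conj g.ph) g.Z i
    rw [this, h.h58_phZ, ← pow_two, ← zpow_natCast, ← zpow_mul]
    congr 1
    push_cast; ring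
  induction n with
  | zero => simp [cj]
  | succ n ih =>
    rw [pow_succ', cj_mul, ih, h1, pow_succ]
    congr 1
    ring

end BRel

namespace CRel

open H58 Pool.Agent.H75.FS

variable {g : Gens G r} {c : G}

lemma h58_c (hc : CRel g c) : Commute (cj g.d g.X) c := (hc.com _ (by simp)).symm
lemma h58_cY (hc : CRel g c) : Commute (cj g.d g.Y) c := (hc.com _ (by simp)).symm
lemma h58_cZ (hc : CRel g c) : Commute (cj g.d g.Z) c := by
  have h1 := hc.h58_c
  have h2 := hc.h58_cY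
  have e : cj g.d g.Z = ⁅cj g.d g.X, cj g.d g.Y⁆ := by
    simp only [cj, Gens.Z, commutatorElement_def]; group
  rw [e, commutatorElement_def]
  exact ((h1.mul_left h2).mul_left h1.inv_left).mul_left h2.inv_left

theorem TT_c (hc : CRel g c) : ∀ q ∈ g.TT, Commute q c := by
  refine BRel.TT_of ?_
  rintro p (hp | ⟨i, rfl⟩)
  · rcases hp with rfl | rfl | rfl
    · exact (hc.com _ (by simp)).symm
    · exact (hc.com _ (by simp)).symm
    · exact (hc.com _ (by simp)).symm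
  · exact (hc.coms i).symm

theorem lt_mod (h : BRel g) (c : G) (al : Fin 2) (i k : ℤ) :
    g.lt c al i k = g.lt c al i (k % 31) := by
  have e : g.Z ^ k = g.Z ^ (k % 31) := by
    conv_lhs => rw [← Int.emod_add_mul_ediv k 31, zpow_add, zpow_mul]
    have : g.Z ^ (31 : ℤ) = 1 := by
      have := h.h58_Z31
      rw [← zpow_natCast] at this
      exact_mod_cast this
    rw [this, one_zpow, mul_one]
  unfold Gens.lt
  rw [e]

theorem lt_XX (h : BRel g) (hc : CRel g c) (al : Fin 2) (i k : ℤ) :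
    cj g.XX (g.lt c al i k) = g.lt c al (i + 1) k := by
  have hd : Commute g.XX g.d := by
    have e : cj g.d g.XX = g.XX := by
      unfold Gens.XX
      rw [cj_prod, h.h58_dcj, h.h58_X'X.eq]
    have : g.d * g.XX * g.d⁻¹ * g.d = g.XX * g.d := by
      change cj g.d g.XX * g.d = g.XX * g.d
      rw [e]
    rw [inv_mul_cancel_right] at this
    exact this.symm
  have hd' : Commute g.XX (g.d ^ (al : ℕ)) := hd.pow_right _
  unfold Gens.lt
  rw [← cj_mul]
  have e1 : g.XX * (g.d ^ (al : ℕ) * g.X ^ i * g.Z ^ k) =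
      g.d ^ (al : ℕ) * g.X ^ (i + 1) * g.Z ^ k * cj g.d g.X := by
    have c1 : Commute (cj g.d g.X) (g.X ^ i) := h.h58_X'X.zpow_right i
    have c2 : Commute (cj g.d g.X) (g.Z ^ k) := h.h58_X'Z.zpow_right k
    have c3 : Commute (cj g.d g.X) (g.X ^ i * g.Z ^ k) := c1.mul_right c2
    calc g.XX * (g.d ^ (al : ℕ) * g.X ^ i * g.Z ^ k)
        = g.XX * g.d ^ (al : ℕ) * (g.X ^ i * g.Z ^ k) := by simp only [mul_assoc]
      _ = g.d ^ (al : ℕ) * g.XX * (g.X ^ i * g.Z ^ k) := by rw [hd'.eq]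
      _ = g.d ^ (al : ℕ) * g.X * (cj g.d g.X * (g.X ^ i * g.Z ^ k)) := by
          unfold Gens.XX; simp only [mul_assoc]
      _ = g.d ^ (al : ℕ) * (g.X * g.X ^ i) * g.Z ^ k * cj g.d g.X := by
          rw [c3.eq]; simp only [mul_assoc]
      _ = _ := by rw [← zpow_one_add, add_comm 1 i]
  rw [e1, cj_mul _ (cj g.d g.X), cj_of _ _ hc.h58_c]

theorem lt_sq (hc : CRel g c) (al : Fin 2) (i k : ℤ) : g.lt c al i k * g.lt c al i k = 1 := by
  unfold Gens.lt
  rw [← cj_prod, hc.sq]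
  simp [cj]

lemma h58_J (h : BRel g) (hc : CRel g c) {J : G} (hJ : J ∈ [g.J1, g.J2]) (al : Fin 2)
    (i k : ℤ) : cj J (g.lt c al i k) = cj (g.d ^ (al : ℕ) * g.X ^ i * g.Z ^ k) (cj J c) := by
  have jd : Commute J g.d := h.Jc J hJ g.d (by simp)
  have jX : Commute J g.X := h.Jc J hJ g.X (by simp)
  have jY : Commute J g.Y := h.Jc J hJ g.Y (by simp)
  have jZ : Commute J g.Z := by
    unfold Gens.Z
    rw [commutatorElement_def]
    exact ((jX.mul_right jY).mul_right jX.inv_right).mul_right jY.inv_right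
  unfold Gens.lt
  exact cj_swap (((jd.pow_right _).mul_right (jX.zpow_right i)).mul_right (jZ.zpow_right k)) c

lemma h58_shift (h : BRel g) (c : G) (al : Fin 2) (i k j : ℤ) :
    cj (g.d ^ (al : ℕ) * g.X ^ i * g.Z ^ k) (cj (g.X ^ j) c) = g.lt c al (i + j) k := by
  unfold Gens.lt
  rw [← cj_mul]
  have c1 : g.Z ^ k * g.X ^ j = g.X ^ j * g.Z ^ k :=
    ((h.h58_ZX.zpow_left k).zpow_right j).eq
  have e : g.d ^ (al : ℕ) * g.X ^ i * g.Z ^ k * g.X ^ j =
      g.d ^ (al : ℕ) * g.X ^ (i + j) * g.Z ^ k := by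
    rw [mul_assoc (g.d ^ (al : ℕ) * g.X ^ i), c1, zpow_add]
    simp only [mul_assoc]
  rw [e]

theorem lt_J1 (h : BRel g) (hc : CRel g c) (al : Fin 2) (i k : ℤ) :
    cj g.J1 (g.lt c al i k) = g.lt c al (i + 31) k * g.lt c al (i - 31) k := by
  have e : g.X ^ 31 = g.X ^ (31 : ℤ) := by exact_mod_cast (zpow_natCast g.X 31).symm
  have e' : (g.X ^ 31)⁻¹ = g.X ^ (-31 : ℤ) := by rw [e, ← zpow_neg]
  rw [h58_J h hc (by simp), hc.J1, cj_prod, e', e, h58_shift h, h58_shift h]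
  rfl

theorem lt_J2 (h : BRel g) (hc : CRel g c) (al : Fin 2) (i k : ℤ) :
    cj g.J2 (g.lt c al i k) = g.lt c al (i + 31) k * g.lt c al i k * g.lt c al (i - 31) k := by
  have e : g.X ^ 31 = g.X ^ (31 : ℤ) := by exact_mod_cast (zpow_natCast g.X 31).symm
  have e' : (g.X ^ 31)⁻¹ = g.X ^ (-31 : ℤ) := by rw [e, ← zpow_neg]
  rw [h58_J h hc (by simp), hc.J2, cj_prod, cj_prod, e', e, h58_shift h, h58_shift h]
  rfl

/-- different `al` -/
lemma h58_diff (h : BRel g) (hc : CRel g c) (i k j l : ℤ) :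
    Commute (g.lt c 0 i k) (g.lt c 1 j l) := by
  have e0 : g.lt c 0 i k = cj (g.X ^ i * g.Z ^ k) c := by simp [Gens.lt]
  have e1 : g.lt c 1 j l = cj (cj g.d (g.X ^ j * g.Z ^ l)) (cj g.d c) := by
    have : g.lt c 1 j l = cj (g.d * (g.X ^ j * g.Z ^ l)) c := by
      simp [Gens.lt, mul_assoc]
    rw [this]
    simp only [cj]; group
  have ep : cj g.d (g.X ^ j * g.Z ^ l) = (cj g.d g.X) ^ j * (cj g.d g.Z) ^ l := by
    rw [cj_prod]
    have a1 : cj g.d (g.X ^ j) = (cj g.d g.X) ^ j := map_zpow (MulAut.conj g.d) g.X j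
    have a2 : cj g.d (g.Z ^ l) = (cj g.d g.Z) ^ l := map_zpow (MulAut.conj g.d) g.Z l
    rw [a1, a2]
  -- `v` fixes `c`
  have vc : Commute (cj g.d (g.X ^ j * g.Z ^ l)) c := by
    rw [ep]
    exact (hc.h58_c.zpow_left j).mul_left (hc.h58_cZ.zpow_left l)
  -- `u` fixes `c'`
  have uc : Commute (g.X ^ i * g.Z ^ k) (cj g.d c) := by
    have b1 : Commute g.X (cj g.d c) := by
      have := cj_comm g.d hc.h58_c
      rwa [h.h58_dcj] at this
    have b2 : Commute g.Z (cj g.d c) := by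
      have := cj_comm g.d hc.h58_cZ
      rwa [h.h58_dcj] at this
    exact (b1.zpow_left i).mul_left (b2.zpow_left k)
  -- `u` and `v` commute
  have X'Z : Commute (cj g.d g.X) g.Z := h.h58_X'Z
  have Z'X : Commute (cj g.d g.Z) g.X := by
    have := cj_comm g.d X'Z
    rw [h.h58_dcj] at this
    exact this.symm
  have Z'Z : Commute (cj g.d g.Z) g.Z := by
    have Y'Z : Commute (cj g.d g.Y) g.Z := by
      have h1 := h.h58_Y'X
      have h2 := h.h58_Y'Y
      unfold Gens.Z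
      rw [commutatorElement_def]
      exact ((h1.mul_right h2).mul_right h1.inv_right).mul_right h2.inv_right
    have e : cj g.d g.Z = ⁅cj g.d g.X, cj g.d g.Y⁆ := by
      simp only [cj, Gens.Z, commutatorElement_def]; group
    rw [e, commutatorElement_def]
    exact ((X'Z.mul_left Y'Z).mul_left X'Z.inv_left).mul_left Y'Z.inv_left
  have uv : Commute (g.X ^ i * g.Z ^ k) (cj g.d (g.X ^ j * g.Z ^ l)) := by
    rw [ep]
    refine Commute.mul_left ?_ ?_
    · exact ((h.h58_X'X.symm.zpow_zpow i j).mul_right (Z'X.symm.zpow_zpow i l))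
    · exact ((X'Z.symm.zpow_zpow k j).mul_right (Z'Z.symm.zpow_zpow k l))
  rw [e0, e1]
  have key := cj_comm ((g.X ^ i * g.Z ^ k) * cj g.d (g.X ^ j * g.Z ^ l)) hc.swap
  rw [cj_mul _ _ c, cj_of _ c vc, uv.eq, cj_mul _ _ (cj g.d c), cj_of _ _ uc] at key
  exact key

lemma h58_base0 (h : BRel g) (hc : CRel g c) (n : ℕ) (hn : n < 93) (k : ℤ) :
    Commute c (g.lt c 0 n k) := by
  rw [lt_mod h c 0 n k]
  have h1 := Int.emod_nonneg k (by norm_num : (31 : ℤ) ≠ 0)
  have h2 := Int.emod_lt_of_pos k (by norm_num : (0 : ℤ) < 31)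
  obtain ⟨m, hm⟩ := Int.eq_ofNat_of_zero_le h1
  rw [hm]
  have hm2 : m < 31 := by omega
  have := hc.lett ⟨n, hn⟩ ⟨m, hm2⟩
  simpa [Gens.lt] using this

lemma h58_rel (h : BRel g) (c : G) (i k j l : ℤ) :
    Commute (g.lt c 0 i k) (g.lt c 0 j l) ↔ Commute c (g.lt c 0 (j - i) (l - k)) := by
  have e1 : g.lt c 0 i k = cj (g.X ^ i * g.Z ^ k) c := by simp [Gens.lt]
  have e2 : g.lt c 0 j l = cj (g.X ^ i * g.Z ^ k) (g.lt c 0 (j - i) (l - k)) := by
    have e3 : g.X ^ j * g.Z ^ l = (g.X ^ i * g.Z ^ k) * (g.X ^ (j - i) * g.Z ^ (l - k)) := by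
      have cz : g.Z ^ k * g.X ^ (j - i) = g.X ^ (j - i) * g.Z ^ k :=
        ((h.h58_ZX.zpow_left k).zpow_right (j - i)).eq
      calc g.X ^ j * g.Z ^ l = (g.X ^ i * g.X ^ (j - i)) * (g.Z ^ k * g.Z ^ (l - k)) := by
            rw [← zpow_add, ← zpow_add]; congr 2 <;> ring
        _ = g.X ^ i * (g.X ^ (j - i) * g.Z ^ k) * g.Z ^ (l - k) := by simp only [mul_assoc]
        _ = _ := by rw [← cz]; simp only [mul_assoc]
    have e4 : g.lt c 0 j l = cj (g.X ^ j * g.Z ^ l) c := by simp [Gens.lt]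
    have e5 : g.lt c 0 (j - i) (l - k) = cj (g.X ^ (j - i) * g.Z ^ (l - k)) c := by
      simp [Gens.lt]
    rw [e4, e5, ← cj_mul, e3]
  rw [e1, e2]
  exact commute_conj_iff _

lemma h58_base (h : BRel g) (hc : CRel g c) (n k : ℤ) (h1 : -92 ≤ n) (h2 : n ≤ 92) :
    Commute c (g.lt c 0 n k) := by
  rcases le_total 0 n with hn | hn
  · obtain ⟨m, rfl⟩ := Int.eq_ofNat_of_zero_le hn
    exact h58_base0 h hc m (by omega) k
  · obtain ⟨m, hm⟩ := Int.eq_ofNat_of_zero_le (show 0 ≤ -n by omega)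
    have e : Commute c (g.lt c 0 m (-k)) := h58_base0 h hc m (by omega) (-k)
    have e0 : g.lt c 0 0 0 = c := by simp [Gens.lt, cj]
    have a1 := (h58_rel h c n k 0 0).2 (by
      rw [show (0 : ℤ) - n = (m : ℤ) by omega, zero_sub]; exact e)
    rw [e0] at a1
    exact a1.symm

lemma h58_same0 (h : BRel g) (hc : CRel g c) (i k j l : ℤ) :
    Commute (g.lt c 0 i k) (g.lt c 0 j l) := by
  have e31 : g.X ^ 31 = g.X ^ (31 : ℤ) := by exact_mod_cast (zpow_natCast g.X 31).symm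
  have sh : ∀ (ρ : Fin 31) (k q : ℤ), g.X ^ 31 * g.lt c 0 (31 * q + ρ) k * (g.X ^ 31)⁻¹ =
      g.lt c 0 (31 * (q + 1) + ρ) k := by
    intro ρ k q
    have e : cj (g.X ^ (31 : ℤ)) (g.lt c 0 (31 * q + ρ) k) = g.lt c 0 (31 * (q + 1) + ρ) k := by
      have e4 : ∀ n : ℤ, g.lt c 0 n k = cj (g.X ^ n * g.Z ^ k) c := by
        intro n; simp [Gens.lt]
      rw [e4, e4, ← cj_mul, ← mul_assoc, ← zpow_add]
      congr 3
      ring
    rw [e31]
    exact e
  have gm : ∀ (ρ : Fin 31) (k q : ℤ), g.J1 * g.lt c 0 (31 * q + ρ) k * g.J1⁻¹ =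
      g.lt c 0 (31 * (q + 1) + ρ) k * g.lt c 0 (31 * (q - 1) + ρ) k := by
    intro ρ k q
    have := lt_J1 h hc 0 (31 * q + ρ) k
    rw [show 31 * (q + 1) + (ρ : ℤ) = 31 * q + ρ + 31 by ring,
      show 31 * (q - 1) + (ρ : ℤ) = 31 * q + ρ - 31 by ring]
    exact this
  have main := T2 (L := Fin 31 × ℤ) (L' := Fin 31 × ℤ) (g.X ^ 31) g.J1
    (fun l q => g.lt c 0 (31 * q + l.1) l.2) (fun l q => g.lt c 0 (31 * q + l.1) l.2)
    (fun l q => sh l.1 l.2 q) (fun l q => sh l.1 l.2 q)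
    (fun l q => gm l.1 l.2 q) (fun l q => gm l.1 l.2 q)
    (fun l l' q h0 h1 => by
      rw [h58_rel h c]
      have a1 := l.1.2
      have a2 := l'.1.2
      exact h58_base h hc _ _ (by omega) (by omega))
    (fun l l' q h0 h1 => by
      rw [h58_rel h c]
      have a1 := l.1.2
      have a2 := l'.1.2
      exact h58_base h hc _ _ (by omega) (by omega))
  have dec : ∀ n : ℤ, ∃ (ρ : Fin 31) (q : ℤ), n = 31 * q + ρ := by
    intro n
    have h1 := Int.emod_nonneg n (by norm_num : (31 : ℤ) ≠ 0)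
    have h2 := Int.emod_lt_of_pos n (by norm_num : (0 : ℤ) < 31)
    obtain ⟨m, hm⟩ := Int.eq_ofNat_of_zero_le h1
    refine ⟨⟨m, by omega⟩, n / 31, ?_⟩
    have := Int.emod_add_mul_ediv n 31
    simp only
    omega
  obtain ⟨ρ, q, rfl⟩ := dec i
  obtain ⟨ρ', q', rfl⟩ := dec j
  exact main (ρ, k) (ρ', l) q q'

theorem lt_comm (h : BRel g) (hc : CRel g c) (al be : Fin 2) (i k j l : ℤ) :
    Commute (g.lt c al i k) (g.lt c be j l) := by
  have e1 : ∀ i k : ℤ, g.lt c 1 i k = cj g.d (g.lt c 0 i k) := by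
    intro i k
    have a : g.lt c 1 i k = cj (g.d * (g.X ^ i * g.Z ^ k)) c := by simp [Gens.lt, mul_assoc]
    have b : g.lt c 0 i k = cj (g.X ^ i * g.Z ^ k) c := by simp [Gens.lt]
    rw [a, b, cj_mul]
  have h0 := h58_same0 h hc
  have hd := h58_diff h hc
  fin_cases al <;> fin_cases be
  · exact h0 i k j l
  · exact hd i k j l
  · exact (hd j l i k).symm
  · change Commute (g.lt c 1 i k) (g.lt c 1 j l)
    rw [e1, e1]
    exact cj_comm _ (h0 i k j l)

theorem cst_lt (h : BRel g) {q : G} (hq : q ∈ h.B.Cst) :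
    ∃ N : ℕ, ∀ n : ℕ, N ≤ n → ∃ i k : ℤ, ∀ c : G, CRel g c → ∀ al : Fin 2,
      cj (g.ph ^ n) (h.B.sw al (q * c * q⁻¹)) = g.lt c al i k := by
  obtain ⟨N, i, j, k, e⟩ := h.B.Cst_nf hq
  refine ⟨N, fun n hn => ⟨i * 2 ^ (n - N), j * 2 ^ n, fun c hc al => ?_⟩⟩
  change q = (g.ph⁻¹) ^ N * g.X ^ i * g.ph ^ N * g.Z ^ j * g.Y ^ k at e
  have phc : Commute g.ph c := (hc.com _ (by simp)).symm
  have Yc : Commute g.Y c := (hc.com _ (by simp)).symm
  have phd : Commute (g.ph ^ n) (g.d ^ (al : ℕ)) :=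
    ((h.ph g.d (by simp)).pow_left n).pow_right _
  have e1 : g.ph ^ n * q = g.X ^ (i * 2 ^ (n - N)) * g.Z ^ (j * 2 ^ n) * (g.ph ^ n * g.Y ^ k) := by
    have a1 := h.h58_phX (n - N) i
    have a2 := h.h58_phZn n j
    rw [← a1, ← a2, e]
    have a3 : g.ph ^ n = g.ph ^ (n - N) * g.ph ^ N := by
      rw [← pow_add, Nat.sub_add_cancel hn]
    simp only [cj, inv_pow]
    rw [a3]
    group
  have e2 : cj (g.ph ^ n) (q * c * q⁻¹) = cj (g.X ^ (i * 2 ^ (n - N)) * g.Z ^ (j * 2 ^ n)) c := by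
    change cj (g.ph ^ n) (cj q c) = _
    rw [← cj_mul, e1, cj_mul _ (g.ph ^ n * g.Y ^ k),
      cj_of _ _ ((phc.pow_left n).mul_left (Yc.zpow_left k))]
  change cj (g.ph ^ n) (cj (g.d ^ (al : ℕ)) (q * c * q⁻¹)) = _
  rw [cj_swap phd, e2, ← cj_mul]
  unfold Gens.lt
  rw [mul_assoc]

theorem vdata (h : BRel g) (hc : CRel g c) : VData h.B MulAut.conj c := by
  have hT : ∀ q ∈ g.TT, Commute q c := hc.TT_c
  have hTd : ∀ q ∈ g.TT, Commute q (c * cj g.d c) := fun q hq => by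
    have h1 := h.TT_com q hq g.d (by simp)
    have h2 := hT q hq
    exact h2.mul_right ((h1.mul_right h2).mul_right h1.inv_right)
  have fx : ∀ {x : G}, Commute x c → MulAut.conj x c = c := fun {x} hx => by
    rw [MulAut.conj_apply]
    exact cj_of x c hx
  exact
    { sq := hc.sq
      hφ := fx (hc.com _ (by simp)).symm
      hY := fx (hc.com _ (by simp)).symm
      hX' := fx hc.h58_c
      hY' := fx hc.h58_cY
      hsn := fun y hy => fx (h.GR_sn hT (hc.com g.rho (by simp)).symm y hy)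
      het := fun y hy => fx (BRel.GR_snd hT (hc.com g.et (by simp)).symm y hy)
      hς := fx (hc.com _ (by simp)).symm
      hσ := fx (hc.com g.sb (by simp)).symm
      swap := hc.swap
      hth := fun y hy => by
        have := BRel.GR_fst hTd hc.cth y hy
        change MulAut.conj y.1 (c * cj g.d c) = c * cj g.d c
        rw [MulAut.conj_apply]
        exact cj_of _ _ this
      Phi := hc.Phi
      ab := fun q hq q' hq' => by
        obtain ⟨N, hN⟩ := cst_lt h hq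
        obtain ⟨N', hN'⟩ := cst_lt h hq'
        obtain ⟨i, k, e⟩ := hN (N + N') (by omega)
        obtain ⟨i', k', e'⟩ := hN' (N + N') (by omega)
        have e := e c hc 0
        have e' := e' c hc 0
        have key : Commute (cj (g.ph ^ (N + N')) (h.B.sw 0 (q * c * q⁻¹)))
            (cj (g.ph ^ (N + N')) (h.B.sw 0 (q' * c * q'⁻¹))) := by
          rw [e, e']
          exact lt_comm h hc 0 0 i k i' k'
        have key2 := (commute_conj_iff _).1 key
        simpa [Eng.sw, MulAut.conj_apply] using key2 }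

end CRel

end Pool.Agent.H86.FS
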