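import Pool.Agent.H86.FS.EngB

/-!
# M-lemma, part a (one generator `x`, before taking roots)
`P0 = E.Px x = closure {s_r x s_r⁻¹}`, `x' := δ x δ⁻¹`, `P1 := δ P0 δ⁻¹`.

* `Px_et`: `r.2` commutes with `x` (`h.et`) and with `s_{r'}`, so with all of `P0`.
* `et_x'`: `r.2 * x' * r.2⁻¹ = δ (δ⁻¹ r.2 δ) x (δ⁻¹ r.2 δ)⁻¹ δ⁻¹ = δ (s_r r.2) x (s_r r.2)⁻¹ δ⁻¹ = s_r x' s_r⁻¹`
  (`δ⁻¹ = δ`, `δ r.2 δ⁻¹ = s_r r.2`, `r.2` fixes `x`, `s_r` commutes with `δ`).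
* `Px_swap`: `[x, x'] = 1` (`h.swap`); conjugate by `r.2`: `x` commutes with `s_r x' s_r⁻¹`; conjugate by `s_{r'}`:
  `s_{r'} x s_{r'}⁻¹` commutes with `s_{r'} s_r x' (..)⁻¹` where `s_{r'} s_r = s_{r' r}` runs over all `s_{r''}`. So the generators of
  `P0` commute with those of `P1` (`δ s_r x s_r⁻¹ δ⁻¹ = s_r x' s_r⁻¹`).
* `sq`: put `y := s_r x s_r⁻¹`, `y' := δ y δ⁻¹ = s_r x' s_r⁻¹`, `k := ⁅x, y⁆`.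
  `ς` fixes `x`; `ς x' ς⁻¹ = x'⁻¹`: `ς = δ (δ⁻¹ ς δ) δ⁻¹` and `δ⁻¹ς δ = δ ς δ⁻¹ = ⁅δ,ς⁆ ς`, so `ς x' ς⁻¹ = δ (⁅δ,ς⁆ ς) x (..)⁻¹ δ⁻¹ =
  δ x⁻¹ δ⁻¹`. So `ς (x x') ς⁻¹ = x x'⁻¹`, which commutes with `x x'`. Conjugate by `r.1` (fixes `x x'` by `h.th`; `r.1 ς r.1⁻¹ = s_r ς`):
  `x x'` commutes with `s_r (x x'⁻¹) s_r⁻¹ = y y'⁻¹`. As `P0` and `P1` commute elementwise:
  `1 = ⁅x x', y y'⁻¹⁆ = ⁅x, y⁆ * ⁅x', y'⁻¹⁆`. So `k = ⁅x', y'⁻¹⁆⁻¹ ∈ P0 ∩ P1`, hence `k` commutes with `P1` and with `P0`.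
  `r'.2` fixes `k` (`k ∈ P0`); on `P1` it acts as `s_{r'}` (by `et_x'`, multiplicatively), so `s_{r'} k s_{r'}⁻¹ = k`. But
  `s_r k s_r⁻¹ = ⁅s_r x s_r⁻¹, s_r y s_r⁻¹⁆ = ⁅y, x⁆ = k⁻¹`. So `k = k⁻¹`.
* `Px_comm_odd`: if `x ^ 31 = 1`: `k` commutes with `x` and `y`, `k^31 = ⁅x^31, y⁆ = 1`, `k^2 = 1`, so `k = 1`; the generators commute:
  `⁅s_r x s_r⁻¹, s_{r'} x s_{r'}⁻¹⁆ = s_r ⁅x, s_{r r'} x s_{r r'}⁻¹⁆ s_r⁻¹`.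
-/

set_option autoImplicit false

open scoped commutatorElement

namespace Pool.Agent.H86.FS

variable {G : Type*} [Group G]

namespace Eng

variable {E : Eng G} {φ x : G}

open Pool.Agent.H93.FS in
theorem Px_le_N0 (E : Eng G) (φ x : G) : E.Px x ≤ E.N0 φ x := by
  refine (Subgroup.closure_le _).2 ?_
  rintro _ ⟨r, hr, rfl⟩
  exact Subgroup.subset_closure ⟨0, r, hr, by simp⟩

theorem MD.Px_et (h : E.MD φ x) {r : G × G} (hr : r ∈ E.Γ) {y : G} (hy : y ∈ E.Px x) :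
    Commute r.2 y := by
  obtain ⟨t, T, t0, hN⟩ := Pool.Agent.H93.FS.exists_tower h
  have h1 := Px_le_N0 E φ x hy
  rw [← hN] at h1
  exact T.et0 ⟨r, hr⟩ h1

theorem MD.Px_swap (h : E.MD φ x) {y z : G} (hy : y ∈ E.Px x) (hz : z ∈ E.Px x) :
    Commute y (E.δ * z * E.δ⁻¹) := by
  obtain ⟨t, T, t0, hN⟩ := Pool.Agent.H93.FS.exists_tower h
  have h1 := Px_le_N0 E φ x hy
  have h2 := Px_le_N0 E φ x hz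
  rw [← hN] at h1 h2
  exact T.c01 h1 (Pool.Agent.H93.FS.Tower.d_mem h2)

theorem MD.sq (h : E.MD φ x) {r : G × G} (hr : r ∈ E.Γ) :
    ⁅x, sn r * x * (sn r)⁻¹⁆ * ⁅x, sn r * x * (sn r)⁻¹⁆ = 1 ∧
    ∀ y ∈ E.Px x, Commute ⁅x, sn r * x * (sn r)⁻¹⁆ y := by
  obtain ⟨t, T, t0, hN⟩ := Pool.Agent.H93.FS.exists_tower h
  have h1 : x ∈ Pool.Agent.H93.FS.Tower.N0 (Pool.Agent.H93.FS.ofEng E) t := by
    rw [← t0]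
    exact Pool.Agent.H93.FS.Tower.mem' 0
  have h3 := T.c00 h1 (Pool.Agent.H93.FS.Tower.s_mem (E := Pool.Agent.H93.FS.ofEng E) ⟨r, hr⟩ h1)
  have h2 : ⁅x, sn r * x * (sn r)⁻¹⁆ = 1 := Pool.Agent.H93.FS.comm_eq_one_iff.2 h3
  rw [h2]
  exact ⟨one_mul 1, fun y _ => Commute.one_left y⟩

theorem MD.Px_comm_odd (h : E.MD φ x) (hx : x ^ 31 = 1) {y z : G} (hy : y ∈ E.Px x)
    (hz : z ∈ E.Px x) : Commute y z := by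
  obtain ⟨t, T, t0, hN⟩ := Pool.Agent.H93.FS.exists_tower h
  have h1 := Px_le_N0 E φ x hy
  have h2 := Px_le_N0 E φ x hz
  rw [← hN] at h1 h2
  exact T.c00 h1 h2

theorem Px_sn (E : Eng G) (x : G) {r : G × G} (hr : r ∈ E.Γ) {y : G} (hy : y ∈ E.Px x) :
    sn r * y * (sn r)⁻¹ ∈ E.Px x := by
  refine Pool.Agent.H93.FS.cj_mem_of_gen (sn r) ?_ hy
  rintro _ ⟨u, hu, rfl⟩
  refine Subgroup.subset_closure ⟨r * u, mul_mem hr hu, ?_⟩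
  rw [E.sn_mul hr hu]
  simp only [Pool.Agent.H93.FS.cj]
  group

theorem MD.ς_x' (h : E.MD φ x) : E.ς * (E.δ * x * E.δ⁻¹) * E.ς⁻¹ = (E.δ * x * E.δ⁻¹)⁻¹ := by
  obtain ⟨t, T, t0, hN⟩ := Pool.Agent.H93.FS.exists_tower h
  have h1 := T.sg_d 0
  rw [t0] at h1
  exact h1

end Eng

end Pool.Agent.H86.FS
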