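import Pool.Agent.H86.FS.MLa

/-!
# M-lemma, part b: `N_0(x)` is commutative
`N0 = closure {φ⁻ⁿ (s_r x s_r⁻¹) φⁿ}`.
* `φ_Px`: `φ (s_r x s_r⁻¹) φ⁻¹ = s_{φr} (φ x φ⁻¹) s_{φr}⁻¹ ∈ P0` (`φr = (φ r.1 φ⁻¹, φ r.2 φ⁻¹) ∈ Γ`, `φ x φ⁻¹ = x²` or `x`), so `φ P0 φ⁻¹ ≤ P0`.
* `N0_to_Px`: for `y ∈ N0` there is `N` with `φ^k y φ^(-k) ∈ P0` for all `k ≥ N` (closure induction).
* `N0_swap`: take `k` large for `y` and `z`: `φ^k` commutes with `δ`, use `Px_swap` and conjugate back.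
* `N0_et`, `N0_ς`: `r.2` commutes with `φ⁻ⁿ g φⁿ`, `g = s_{r'} x s_{r'}⁻¹`, iff `φⁿ r.2 φ⁻ⁿ` commutes with `g`, and `φⁿ r.2 φ⁻ⁿ` is again the second
  component of an element of `Γ`; `Px_et`. `ς` commutes with `x`, `s_r`, `φ`.
* `N0_σ`: `σ = ⁅δ,ς⁆` inverts `x`, commutes with `s_r` and `φ`, so it inverts the generators; `N0` is commutative.
* `N0_comm`. Case `φ x φ⁻¹ = x`, `x^31 = 1`: `P0` is commutative (`Px_comm_odd`), use `N0_to_Px`.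
  Case `φ x φ⁻¹ = x²`: show that `k_r = ⁅x, s_r x s_r⁻¹⁆ = 1` for all `r ∈ Γ`: let `y = φ⁻¹ x φ`, so `y * y = x` (conjugate `φxφ⁻¹ = x x` by `φ⁻¹`).
  `k := ⁅y, s_r y s_r⁻¹⁆ = φ⁻¹ ⁅x, s_{φr} x s_{φr}⁻¹⁆ φ`, so by `MD.sq` `k*k = 1` and `k` commutes with `y` and `s_r y s_r⁻¹`
  (both in `φ⁻¹ P0 φ`). `k_r = ⁅y², (s_r y s_r⁻¹)²⁆ = k⁴ = 1`. So the generators of `P0` commute, `P0` is commutative, `N0_to_Px`.
-/

set_option autoImplicit false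

open scoped commutatorElement

namespace Pool.Agent.H86.FS

variable {G : Type*} [Group G]

namespace Eng

variable {E : Eng G} {φ x : G}

theorem MD.φ_Px (h : E.MD φ x) {y : G} (hy : y ∈ E.Px x) : φ * y * φ⁻¹ ∈ E.Px x := by
  refine Pool.Agent.H93.FS.cj_mem_of_gen φ ?_ hy
  rintro _ ⟨r, hr, rfl⟩
  have h1 : Pool.Agent.H93.FS.cj φ (sn r * x * (sn r)⁻¹) =
      sn (φ * r.1 * φ⁻¹, φ * r.2 * φ⁻¹) * (φ * x * φ⁻¹) *
        (sn (φ * r.1 * φ⁻¹, φ * r.2 * φ⁻¹))⁻¹ := by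
    have h2 : sn (φ * r.1 * φ⁻¹, φ * r.2 * φ⁻¹) = φ * sn r * φ⁻¹ :=
      Pool.Agent.H93.FS.sn_cj φ r
    rw [h2]
    simp only [Pool.Agent.H93.FS.cj]
    group
  rw [h1]
  have h3 : sn (φ * r.1 * φ⁻¹, φ * r.2 * φ⁻¹) * x *
      (sn (φ * r.1 * φ⁻¹, φ * r.2 * φ⁻¹))⁻¹ ∈ E.Px x :=
    Subgroup.subset_closure ⟨_, h.φΓ r hr, rfl⟩
  rcases h.φx with hx | ⟨hx, -⟩
  · rw [hx]
    have h4 := mul_mem h3 h3
    convert h4 using 1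
    group
  · rw [hx]
    exact h3

theorem MD.φ_Px_iter (h : E.MD φ x) {y : G} (hy : y ∈ E.Px x) (n : ℕ) :
    φ ^ n * y * (φ ^ n)⁻¹ ∈ E.Px x := by
  induction n with
  | zero => simpa using hy
  | succ n ih =>
    have h1 := h.φ_Px ih
    have h2 : φ * (φ ^ n * y * (φ ^ n)⁻¹) * φ⁻¹ = φ ^ (n + 1) * y * (φ ^ (n + 1))⁻¹ := by
      rw [pow_succ', mul_inv_rev]
      group
    rwa [h2] at h1

theorem MD.N0_to_Px (h : E.MD φ x) {y : G} (hy : y ∈ E.N0 φ x) :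
    ∃ N : ℕ, ∀ k : ℕ, N ≤ k → φ ^ k * y * (φ ^ k)⁻¹ ∈ E.Px x := by
  induction hy using Subgroup.closure_induction with
  | mem y hy =>
    obtain ⟨n, r, hr, rfl⟩ := hy
    refine ⟨n, fun k hk => ?_⟩
    obtain ⟨m, rfl⟩ := Nat.exists_eq_add_of_le hk
    have h1 : φ ^ (n + m) * ((φ⁻¹) ^ n * (sn r * x * (sn r)⁻¹) * φ ^ n) * (φ ^ (n + m))⁻¹ =
        φ ^ m * (sn r * x * (sn r)⁻¹) * (φ ^ m)⁻¹ := by
      rw [add_comm n m, pow_add, mul_inv_rev, inv_pow]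
      group
    rw [h1]
    exact h.φ_Px_iter (Subgroup.subset_closure ⟨r, hr, rfl⟩) m
  | one => exact ⟨0, fun k _ => by simp⟩
  | mul y z _ _ ihy ihz =>
    obtain ⟨N, hN⟩ := ihy
    obtain ⟨M, hM⟩ := ihz
    refine ⟨max N M, fun k hk => ?_⟩
    have h1 := mul_mem (hN k ((le_max_left _ _).trans hk)) (hM k ((le_max_right _ _).trans hk))
    convert h1 using 1
    group
  | inv y _ ih =>
    obtain ⟨N, hN⟩ := ih
    refine ⟨N, fun k hk => ?_⟩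
    have h1 := inv_mem (hN k hk)
    convert h1 using 1
    group

theorem MD.N0_swap (h : E.MD φ x) {y z : G} (hy : y ∈ E.N0 φ x) (hz : z ∈ E.N0 φ x) :
    Commute y (E.δ * z * E.δ⁻¹) := by
  obtain ⟨t, T, t0, hN⟩ := Pool.Agent.H93.FS.exists_tower h
  rw [← hN] at hy hz
  exact T.c01 hy (Pool.Agent.H93.FS.Tower.d_mem hz)

theorem MD.N0_et (h : E.MD φ x) {r : G × G} (hr : r ∈ E.Γ) {y : G} (hy : y ∈ E.N0 φ x) :
    Commute r.2 y := by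
  obtain ⟨t, T, t0, hN⟩ := Pool.Agent.H93.FS.exists_tower h
  rw [← hN] at hy
  exact T.et0 ⟨r, hr⟩ hy

theorem MD.N0_ς (h : E.MD φ x) {y : G} (hy : y ∈ E.N0 φ x) : Commute E.ς y := by
  obtain ⟨t, T, t0, hN⟩ := Pool.Agent.H93.FS.exists_tower h
  rw [← hN] at hy
  exact T.sg0 hy

theorem MD.N0_comm (h : E.MD φ x) {y z : G} (hy : y ∈ E.N0 φ x) (hz : z ∈ E.N0 φ x) :
    Commute y z := by
  obtain ⟨t, T, t0, hN⟩ := Pool.Agent.H93.FS.exists_tower h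
  rw [← hN] at hy hz
  exact T.c00 hy hz

end Eng

end Pool.Agent.H86.FS
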