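import Pool.Agent.H86.FS.MLb

/-!
# M-lemma, part c: further properties of `N_0(x)`
* `mem`: `n = 0`, `r = 1` (`sn 1 = 1`).
* `N0_sn`: `s_r (φ⁻ⁿ g φⁿ) s_r⁻¹ = φ⁻ⁿ (s_{φⁿ r} g s_{φⁿ r}⁻¹) φⁿ`, where `φⁿ r := (φⁿ r.1 φ⁻ⁿ, ..) ∈ Γ`.
* `N0_φ`, `N0_φ'`: `φ⁻¹` shifts `n`; for `φ`: `n ≥ 1` is clear, `n = 0`: `φ (s_r x s_r⁻¹) φ⁻¹ = s_{φ r} x^(1 or 2) s_{φ r}⁻¹`.
* `N0_σ`: `σ = ⁅δ,ς⁆` commutes with `s_r`, `φ`, inverts `x`; on the commutative group `N0` it is then inversion.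
* `N0_sqrt`: in the commutative group `N0` the set of squares of elements of `N0` is a subgroup; every generator `φ⁻ⁿ g φⁿ` is a square: if
  `φxφ⁻¹ = x²` it is the square of `φ⁻⁽ⁿ⁺¹⁾ (s_{φ r} x s_{φ r}⁻¹) φⁿ⁺¹` with suitable pair (`g = s_r x s_r⁻¹`, `φ⁻¹ (s_{φr} x s_{φr}⁻¹) φ
  = s_r (φ⁻¹xφ) s_r⁻¹` and `(φ⁻¹xφ)² = x`); if `x^31 = 1` the generator has order dividing 31 and is the square of its 16th power.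
* `N0_th`: `r.1` commutes with `y * δ y δ⁻¹`: for the generator `y = φ⁻ⁿ (s_{r'} x s_{r'}⁻¹) φⁿ`: conjugating by `φⁿ` (which permutes `Γ`) it is enough
  that `r.1` commutes with `s_{r'} (x x') s_{r'}⁻¹`: `h.th`, `sn_th`. Multiplicativity: `(y z)(yz)' = (y y')(z z')` by `N0_swap`.
* `N0_F`: `r.1 (y*y) r.1⁻¹ = (y * s_r y s_r⁻¹) * δ (y * (s_r y s_r⁻¹)⁻¹) δ⁻¹`. `y*y = (y y')(y y'⁻¹)` with `y' = δ y δ⁻¹` (commuting). The first factor is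
  fixed by `r.1` (`N0_th`). The second is `ς (y y') ς⁻¹` (`ς` fixes `y`; `ς y' ς⁻¹ = y'⁻¹`: `δ⁻¹ςδ = ⁅δ,ς⁆ς`, `N0_σ`). So
  `r.1 (y y'⁻¹) r.1⁻¹ = (s_r ς)(y y')(s_r ς)⁻¹ = s_r (y y'⁻¹) s_r⁻¹ = (s_r y s_r⁻¹) (δ (s_r y s_r⁻¹) δ⁻¹)⁻¹`. Reorder (everything commutes).
* `N0_split`: with `y = w * w` (`N0_sqrt`), `N0_F` for `w`: `r.1 y r.1⁻¹ = y0 * δ y1 δ⁻¹`, `y0 = w * s_r w s_r⁻¹`, `y1 = w * (s_r w s_r⁻¹)⁻¹`.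
-/

set_option autoImplicit false

open scoped commutatorElement

namespace Pool.Agent.H86.FS

variable {G : Type*} [Group G]

namespace Eng

variable {E : Eng G} {φ x : G}

theorem MD.mem (h : E.MD φ x) : x ∈ E.N0 φ x := by
  refine Subgroup.subset_closure ⟨0, 1, one_mem _, ?_⟩
  simp [sn]

theorem MD.N0_sn (h : E.MD φ x) {r : G × G} (hr : r ∈ E.Γ) {y : G} (hy : y ∈ E.N0 φ x) :
    sn r * y * (sn r)⁻¹ ∈ E.N0 φ x := by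
  obtain ⟨t, T, t0, hN⟩ := Pool.Agent.H93.FS.exists_tower h
  rw [← hN] at hy ⊢
  exact Pool.Agent.H93.FS.Tower.s_mem ⟨r, hr⟩ hy

theorem MD.N0_φ (h : E.MD φ x) {y : G} (hy : y ∈ E.N0 φ x) : φ * y * φ⁻¹ ∈ E.N0 φ x := by
  refine Pool.Agent.H93.FS.cj_mem_of_gen φ ?_ hy
  rintro _ ⟨n, r, hr, rfl⟩
  rcases n with _ | n
  · have h1 := Px_le_N0 E φ x (h.φ_Px (Subgroup.subset_closure ⟨r, hr, rfl⟩ :
      sn r * x * (sn r)⁻¹ ∈ E.Px x))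
    convert h1 using 1
    simp [Pool.Agent.H93.FS.cj]
  · refine Subgroup.subset_closure ⟨n, r, hr, ?_⟩
    simp only [Pool.Agent.H93.FS.cj]
    rw [pow_succ', pow_succ]
    group

theorem MD.N0_φ' (h : E.MD φ x) {y : G} (hy : y ∈ E.N0 φ x) : φ⁻¹ * y * φ ∈ E.N0 φ x := by
  have h1 : Pool.Agent.H93.FS.cj φ⁻¹ y ∈ E.N0 φ x := by
    refine Pool.Agent.H93.FS.cj_mem_of_gen φ⁻¹ ?_ hy
    rintro _ ⟨n, r, hr, rfl⟩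
    refine Subgroup.subset_closure ⟨n + 1, r, hr, ?_⟩
    simp only [Pool.Agent.H93.FS.cj]
    rw [pow_succ', pow_succ, inv_inv]
    group
  simpa [Pool.Agent.H93.FS.cj] using h1

theorem MD.N0_σ (h : E.MD φ x) {y : G} (hy : y ∈ E.N0 φ x) :
    ⁅E.δ, E.ς⁆ * y * ⁅E.δ, E.ς⁆⁻¹ = y⁻¹ := by
  obtain ⟨t, T, t0, hN⟩ := Pool.Agent.H93.FS.exists_tower h
  rw [← hN] at hy
  exact T.sb0 hy

theorem MD.N0_ς' (h : E.MD φ x) {y : G} (hy : y ∈ E.N0 φ x) :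
    E.ς * (E.δ * y * E.δ⁻¹) * E.ς⁻¹ = (E.δ * y * E.δ⁻¹)⁻¹ := by
  obtain ⟨t, T, t0, hN⟩ := Pool.Agent.H93.FS.exists_tower h
  rw [← hN] at hy
  exact T.sg1 (Pool.Agent.H93.FS.Tower.d_mem hy)

theorem MD.N0_sqrt (h : E.MD φ x) {y : G} (hy : y ∈ E.N0 φ x) : ∃ w ∈ E.N0 φ x, w * w = y := by
  obtain ⟨t, T, t0, hN⟩ := Pool.Agent.H93.FS.exists_tower h
  rw [← hN] at hy ⊢
  exact T.sqrt hy

theorem MD.N0_th (h : E.MD φ x) {r : G × G} (hr : r ∈ E.Γ) {y : G} (hy : y ∈ E.N0 φ x) :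
    Commute r.1 (y * (E.δ * y * E.δ⁻¹)) := by
  obtain ⟨t, T, t0, hN⟩ := Pool.Agent.H93.FS.exists_tower h
  rw [← hN] at hy
  exact Pool.Agent.H93.FS.commute_of_cj (T.F1 ⟨r, hr⟩ hy)

theorem MD.N0_F (h : E.MD φ x) {r : G × G} (hr : r ∈ E.Γ) {y : G} (hy : y ∈ E.N0 φ x) :
    r.1 * (y * y) * r.1⁻¹ =
      (y * (sn r * y * (sn r)⁻¹)) * (E.δ * (y * (sn r * y * (sn r)⁻¹)⁻¹) * E.δ⁻¹) := by
  obtain ⟨t, T, t0, hN⟩ := Pool.Agent.H93.FS.exists_tower h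
  rw [← hN] at hy
  have h1 := T.F ⟨r, hr⟩ hy
  have h2 : Pool.Agent.H93.FS.cj E.δ (y * (sn r * y * (sn r)⁻¹)⁻¹) =
      Pool.Agent.H93.FS.cj E.δ y * (Pool.Agent.H93.FS.cj (sn r) (Pool.Agent.H93.FS.cj E.δ y))⁻¹ := by
    rw [Pool.Agent.H93.FS.cj_mul, Pool.Agent.H93.FS.cj_inv, Pool.Agent.H93.FS.cj_cj (sn r),
      (E.sn_δ hr).eq, ← Pool.Agent.H93.FS.cj_cj]
    rfl
  show Pool.Agent.H93.FS.cj r.1 (y * y) = (y * Pool.Agent.H93.FS.cj (sn r) y) *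
    Pool.Agent.H93.FS.cj E.δ (y * (sn r * y * (sn r)⁻¹)⁻¹)
  rw [h2]
  exact h1

theorem MD.N0_split (h : E.MD φ x) {r : G × G} (hr : r ∈ E.Γ) {y : G} (hy : y ∈ E.N0 φ x) :
    ∃ w ∈ E.N0 φ x, w * w = y ∧ r.1 * y * r.1⁻¹ =
      (w * (sn r * w * (sn r)⁻¹)) * (E.δ * (w * (sn r * w * (sn r)⁻¹)⁻¹) * E.δ⁻¹) := by
  obtain ⟨w, hw, hww⟩ := h.N0_sqrt hy
  refine ⟨w, hw, hww, ?_⟩
  rw [← hww]
  exact h.N0_F hr hw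

end Eng

end Pool.Agent.H86.FS
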