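import Pool.Agent.H86.FS.Rels
import Pool.Agent.H85.MG.Free4

/-!
# The model (sections 2 and 11)
-/

set_option autoImplicit false

open scoped commutatorElement

namespace Pool.Agent.H86.FS

theorem model (r : ℕ) : ∃ (G' : Type) (_ : Group G') (g' : Gens G' r), Rels g' ∧
    ∀ w : FreeGroup (Fin r), FreeGroup.lift g'.xi w = 1 → w ∈ derivedSeries (FreeGroup (Fin r)) 3 :=
  Pool.Agent.H85.MG.model r

end Pool.Agent.H86.FS
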