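import Pool.Agent.H86.FS.SOc

/-!
# Claim B
`K = NM ⊔ (NXX ⊔ TT)`, `NXX := NX ⊔ d NX d⁻¹`.
-/

set_option autoImplicit false

open scoped commutatorElement

namespace Pool.Agent.H86.FS

/-- elements of `N ⊔ C` are products if `C` normalises `N` -/
theorem h5_mem_sup {G : Type*} [Group G] {N C : Subgroup G} (hN : Nrm C N) {x : G}
    (hx : x ∈ N ⊔ C) : ∃ n ∈ N, ∃ c ∈ C, x = n * c := by
  let K : Subgroup G :=
    { carrier := {x | ∃ n ∈ N, ∃ c ∈ C, x = n * c}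
      mul_mem' := by
        rintro x y ⟨n, hn, c, hc, rfl⟩ ⟨n', hn', c', hc', rfl⟩
        refine ⟨n * (c * n' * c⁻¹), mul_mem hn (hN c hc n' hn'), c * c', mul_mem hc hc', ?_⟩
        group
      one_mem' := ⟨1, one_mem _, 1, one_mem _, by simp⟩
      inv_mem' := by
        rintro x ⟨n, hn, c, hc, rfl⟩
        refine ⟨c⁻¹ * n⁻¹ * c⁻¹⁻¹, hN _ (inv_mem hc) _ (inv_mem hn), c⁻¹, inv_mem hc, ?_⟩
        group }
  have hle : N ⊔ C ≤ K :=
    sup_le (fun n hn => ⟨n, hn, 1, one_mem _, by simp⟩) (fun c hc => ⟨1, one_mem _, c, hc, by simp⟩)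
  exact hle hx

theorem h5_comm_sup {G : Type*} [Group G] {N C : Subgroup G} (hN : Nrm C N)
    (hC : ∀ x ∈ C, ∀ y ∈ C, Commute x y) {x y : G} (hx : x ∈ N ⊔ C) (hy : y ∈ N ⊔ C) :
    ⁅x, y⁆ ∈ N := by
  obtain ⟨n, hn, c, hc, rfl⟩ := h5_mem_sup hN hx
  obtain ⟨n', hn', c', hc', rfl⟩ := h5_mem_sup hN hy
  have e : ⁅n * c, n' * c'⁆ = n * (c * n' * c⁻¹) * ((c * c' * c⁻¹) * n⁻¹ * c'⁻¹) * n'⁻¹ := by
    simp only [commutatorElement_def]; group
  have e2 : c * c' * c⁻¹ = c' := by rw [(hC c hc c' hc').eq, mul_inv_cancel_right]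
  rw [e, e2]
  exact mul_mem (mul_mem (mul_mem hn (hN c hc n' hn')) (hN c' hc' _ (inv_mem hn))) (inv_mem hn')

theorem derived3 {G : Type*} [Group G] (A B C : Subgroup G)
    (hA : ∀ x ∈ A, ∀ y ∈ A, Commute x y) (hB : ∀ x ∈ B, ∀ y ∈ B, Commute x y)
    (hC : ∀ x ∈ C, ∀ y ∈ C, Commute x y) (hAB : Nrm B A) (hAC : Nrm C A) (hBC : Nrm C B)
    {F : Type*} [Group F] (f : F →* G) (hf : ∀ x, f x ∈ A ⊔ (B ⊔ C)) :
    ∀ w ∈ derivedSeries F 3, f w = 1 := by
  have hN : Nrm C (A ⊔ B) := by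
    intro c hc x hx
    obtain ⟨a, ha, b, hb, rfl⟩ := h5_mem_sup hAB hx
    have e : c * (a * b) * c⁻¹ = (c * a * c⁻¹) * (c * b * c⁻¹) := by group
    rw [e]
    exact mul_mem ((le_sup_left : A ≤ A ⊔ B) (hAC c hc a ha))
      ((le_sup_right : B ≤ A ⊔ B) (hBC c hc b hb))
  have d1 : derivedSeries F 1 ≤ (A ⊔ B).comap f := by
    rw [derivedSeries_one, commutator_def, Subgroup.commutator_le]
    intro x _ y _
    rw [Subgroup.mem_comap, map_commutatorElement]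
    have hx := hf x
    have hy := hf y
    rw [← sup_assoc] at hx hy
    exact h5_comm_sup hN hC hx hy
  have d2 : derivedSeries F 2 ≤ A.comap f := by
    rw [derivedSeries_succ, Subgroup.commutator_le]
    intro x hx y hy
    rw [Subgroup.mem_comap, map_commutatorElement]
    exact h5_comm_sup hAB hB (d1 hx) (d1 hy)
  have d3 : derivedSeries F 3 ≤ (⊥ : Subgroup G).comap f := by
    rw [derivedSeries_succ, Subgroup.commutator_le]
    intro x hx y hy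
    rw [Subgroup.mem_comap, map_commutatorElement, Subgroup.mem_bot,
      commutatorElement_eq_one_iff_commute]
    exact hA _ (d2 hx) _ (d2 hy)
  intro w hw
  have := d3 hw
  rwa [Subgroup.mem_comap, Subgroup.mem_bot] at this

variable {G : Type*} [Group G] {r : ℕ}

namespace Rels

variable {g : Gens G r}

/-- `NX ⊔ d NX d⁻¹` -/
def NXX (h : Rels g) : Subgroup G :=
  h.base.B.NX ⊔ (h.base.B.NX).map (MulAut.conj g.d).toMonoidHom

theorem NX_NXX (h : Rels g) {x : G} (hx : x ∈ h.base.B.NX) : x ∈ h.NXX :=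
  (le_sup_left : _ ≤ h.NXX) hx

theorem NX_NXX' (h : Rels g) {x : G} (hx : x ∈ h.base.B.NX) : g.d * x * g.d⁻¹ ∈ h.NXX :=
  (le_sup_right : _ ≤ h.NXX) ⟨x, hx, rfl⟩

theorem NXX_QQ (h : Rels g) : h.NXX ≤ g.QQ := by
  refine le_trans ?_ h.le_QQ.2.2.2
  have hL : h.base.B.NX ≤ h.base.B.L0 := le_sup_left
  exact sup_le_sup hL (Subgroup.map_mono hL)

theorem QQ_set (g : Gens G r) : g.QQ ≤ Subgroup.closure g.set := by
  refine Subgroup.closure_mono ?_
  rintro x (hx | hx)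
  · refine Or.inl ?_
    simp only [Set.mem_insert_iff, Set.mem_singleton_iff] at hx ⊢
    tauto
  · exact Or.inr hx

theorem NXX_comm (h : Rels g) : ∀ x ∈ h.NXX, ∀ y ∈ h.NXX, Commute x y := by
  have hX := h.base.B.mX
  have e : h.NXX = Subgroup.closure ((h.base.B.NX : Set G) ∪
      ((MulAut.conj g.d).toMonoidHom '' (h.base.B.NX : Set G))) := by
    apply le_antisymm
    · refine sup_le (fun x hx => Subgroup.subset_closure (Or.inl hx)) ?_
      rintro x ⟨y, hy, rfl⟩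
      exact Subgroup.subset_closure (Or.inr ⟨y, hy, rfl⟩)
    · refine (Subgroup.closure_le _).2 ?_
      rintro x (hx | ⟨y, hy, rfl⟩)
      · exact h.NX_NXX hx
      · exact h.NX_NXX' hy
  rw [e]
  apply comm_closure86
  rintro x (hx | ⟨x, hx, rfl⟩) y (hy | ⟨y, hy, rfl⟩)
  · exact hX.N0_comm hx hy
  · exact hX.N0_swap hx hy
  · exact (hX.N0_swap hy hx).symm
  · exact (hX.N0_comm hx hy).map _

/-- `TT` normalises `NX` -/
theorem TT_NX (h : Rels g) : ∀ q ∈ g.TT, ∀ x ∈ h.base.B.NX, q * x * q⁻¹ ∈ h.base.B.NX := by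
  intro q hq x hx
  have hφ : Commute q g.ph := h.base.TT_com q hq g.ph (by simp)
  have hX : Commute q g.X := h.base.TT_com q hq g.X (by simp)
  have hle : h.base.B.NX ≤ (h.base.B.NX).comap (MulAut.conj q).toMonoidHom := by
    refine (Subgroup.closure_le _).2 ?_
    rintro y ⟨n, s, hs, rfl⟩
    refine Subgroup.subset_closure ⟨n, conj2 q s, BRel.GR_TT g q hq s hs, ?_⟩
    rw [sn_conj2]
    change q * ((g.ph⁻¹) ^ n * (sn s * g.X * (sn s)⁻¹) * g.ph ^ n) * q⁻¹ =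
      (g.ph⁻¹) ^ n * (q * sn s * q⁻¹ * g.X * (q * sn s * q⁻¹)⁻¹) * g.ph ^ n
    have e1 : q * (g.ph⁻¹) ^ n = (g.ph⁻¹) ^ n * q := (hφ.inv_right.pow_right n).eq
    have e2 : g.ph ^ n * q⁻¹ = q⁻¹ * g.ph ^ n := (hφ.inv_left.pow_right n).symm.eq
    have e3 : q⁻¹ * g.X * q = g.X := by rw [hX.inv_left.eq, inv_mul_cancel_right]
    calc q * ((g.ph⁻¹) ^ n * (sn s * g.X * (sn s)⁻¹) * g.ph ^ n) * q⁻¹
        = (q * (g.ph⁻¹) ^ n) * (sn s * g.X * (sn s)⁻¹) * (g.ph ^ n * q⁻¹) := by group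
      _ = ((g.ph⁻¹) ^ n * q) * (sn s * g.X * (sn s)⁻¹) * (q⁻¹ * g.ph ^ n) := by rw [e1, e2]
      _ = (g.ph⁻¹) ^ n * q * (sn s * (q⁻¹ * g.X * q) * (sn s)⁻¹) * (q⁻¹ * g.ph ^ n) := by
          rw [e3]
      _ = _ := by group
  exact hle hx

theorem TT_NXX (h : Rels g) : Nrm g.TT h.NXX := by
  intro q hq x hx
  have hd : Commute q g.d := h.base.TT_com q hq g.d (by simp)
  have hle : h.NXX ≤ (h.NXX).comap (MulAut.conj q).toMonoidHom := by
    refine sup_le (fun y hy => h.NX_NXX (h.TT_NX q hq y hy)) ?_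
    rintro y ⟨z, hz, rfl⟩
    have e : q * (g.d * z * g.d⁻¹) * q⁻¹ = g.d * (q * z * q⁻¹) * g.d⁻¹ := by
      calc q * (g.d * z * g.d⁻¹) * q⁻¹ = (q * g.d) * z * (q * g.d)⁻¹ := by group
        _ = (g.d * q) * z * (g.d * q)⁻¹ := by rw [hd.eq]
        _ = _ := by group
    change q * (g.d * z * g.d⁻¹) * q⁻¹ ∈ h.NXX
    rw [e]
    exact h.NX_NXX' (h.TT_NX q hq z hz)
  exact hle hx

theorem XX_mem (h : Rels g) : g.XX ∈ h.NXX :=
  mul_mem (h.NX_NXX h.base.B.mX.mem) (h.NX_NXX' h.base.B.mX.mem)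

theorem rho_XX (h : Rels g) : cj g.rho g.XX ∈ h.NXX := by
  have hr : (g.th, g.et) ∈ h.base.B.Γ := BRel.mem_GR g
  have h1 : g.rho * g.X * g.rho⁻¹ ∈ h.base.B.NX :=
    h.base.B.mX.N0_sn hr h.base.B.mX.mem
  have h2 : Commute g.rho g.d := h.base.B.toEng.sn_δ hr
  have e : cj g.rho g.XX = (g.rho * g.X * g.rho⁻¹) * (g.d * (g.rho * g.X * g.rho⁻¹) * g.d⁻¹) := by
    have e2 : g.d * (g.rho * g.X * g.rho⁻¹) * g.d⁻¹ = g.rho * (g.d * g.X * g.d⁻¹) * g.rho⁻¹ := by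
      calc g.d * (g.rho * g.X * g.rho⁻¹) * g.d⁻¹
          = (g.d * g.rho) * g.X * (g.d * g.rho)⁻¹ := by group
        _ = (g.rho * g.d) * g.X * (g.rho * g.d)⁻¹ := by rw [h2.eq]
        _ = _ := by group
    rw [e2]
    simp only [cj, Gens.XX]
    group
  rw [e]
  exact mul_mem (h.NX_NXX h1) (h.NX_NXX' h1)

theorem t_TT (g : Gens G r) : g.t ∈ g.TT :=
  Subgroup.subset_closure (Or.inl (by simp))

theorem s_TT (g : Gens G r) (i : Fin r) : g.s i ∈ g.TT :=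
  Subgroup.subset_closure (Or.inr ⟨i, rfl⟩)

theorem bi_mem (h : Rels g) (i : Fin r) : g.bi i ∈ h.NXX :=
  h.TT_NXX _ (pow_mem (t_TT g) _) _ (mul_mem h.XX_mem (inv_mem h.rho_XX))

theorem h5_cj_mem {K : Subgroup G} {x y : G} (hx : x ∈ K) (hy : y ∈ K) : cj x y ∈ K :=
  mul_mem (mul_mem hx hy) (inv_mem hx)

theorem set_mem (g : Gens G r) {x : G} (hx : x ∈ g.set) : x ∈ Subgroup.closure g.set :=
  Subgroup.subset_closure hx

theorem mi_mem (h : Rels g) (i : Fin r) : g.mi i ∈ h.NM := by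
  refine h.NM_norm _ ?_ _ h.m_NM
  have hQ : h.NXX ≤ Subgroup.closure g.set := h.NXX_QQ.trans (QQ_set g)
  have hX := hQ h.XX_mem
  have hb := hQ (h.bi_mem i)
  have ha : g.a ∈ Subgroup.closure g.set := set_mem g (Or.inl (by simp))
  have hb' : g.b ∈ Subgroup.closure g.set := set_mem g (Or.inl (by simp))
  have hd : g.d ∈ Subgroup.closure g.set := set_mem g (Or.inl (by simp))
  have hAA : g.AA ∈ Subgroup.closure g.set := mul_mem ha (h5_cj_mem hd ha)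
  have hBB : g.BB ∈ Subgroup.closure g.set := mul_mem hb' (h5_cj_mem hd hb')
  have hA : g.Ai i ∈ Subgroup.closure g.set :=
    mul_mem (mul_mem hAA (h5_cj_mem hX hAA)) (h5_cj_mem hb hAA)
  have hB : g.Bi i ∈ Subgroup.closure g.set :=
    mul_mem (mul_mem hBB (h5_cj_mem hX hBB)) (h5_cj_mem hb hBB)
  rw [commutatorElement_def]
  exact mul_mem (mul_mem (mul_mem hA hB) (inv_mem hA)) (inv_mem hB)

theorem xi_mem (h : Rels g) (i : Fin r) : g.xi i ∈ h.NM ⊔ (h.NXX ⊔ g.TT) := by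
  refine mul_mem (mul_mem ?_ ?_) ?_
  · exact (le_sup_left : h.NM ≤ _) (h.mi_mem i)
  · exact (le_sup_right : h.NXX ⊔ g.TT ≤ _) ((le_sup_left : h.NXX ≤ _) (h.bi_mem i))
  · exact (le_sup_right : h.NXX ⊔ g.TT ≤ _) ((le_sup_right : g.TT ≤ _) (s_TT g i))

theorem TT_set (g : Gens G r) : g.TT ≤ Subgroup.closure g.set := by
  refine Subgroup.closure_mono ?_
  rintro x (hx | hx)
  · refine Or.inl ?_
    simp only [Set.mem_insert_iff, Set.mem_singleton_iff] at hx ⊢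
    tauto
  · exact Or.inr hx

end Rels

theorem derived_of_rels {G : Type*} [Group G] {r : ℕ} (g : Gens G r) (h : Rels g)
    (w : FreeGroup (Fin r)) (hw : w ∈ derivedSeries (FreeGroup (Fin r)) 3) :
    FreeGroup.lift g.xi w = 1 := by
  have hNM : Nrm (Subgroup.closure g.set) h.NM := h.NM_norm
  refine derived3 h.NM h.NXX g.TT h.NM_comm h.NXX_comm h.base.TT_comm
    (hNM.mono (h.NXX_QQ.trans (Rels.QQ_set g))) (hNM.mono (Rels.TT_set g)) h.TT_NXX
    (FreeGroup.lift g.xi) (fun x => ?_) w hw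
  induction x using FreeGroup.induction_on with
  | C1 => rw [map_one]; exact one_mem _
  | of i => rw [FreeGroup.lift_apply_of]; exact h.xi_mem i
  | inv_of i hi => rw [map_inv]; exact inv_mem hi
  | mul x y hx hy => rw [map_mul]; exact mul_mem hx hy

end Pool.Agent.H86.FS
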