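import Pool.Agent.H86.FS.SolvThmA
import Pool.Agent.H86.FS.SolvThmB

/-!
# Claims A and B
`solvable_of_rels` is in SolvThmA, `derived3` and `derived_of_rels` are in SolvThmB.
-/
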