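import Pool.Agent.H86.FS.FinPres
import Pool.Agent.H86.FS.ModelThm
import Pool.Agent.H86.FS.SolvThm

/-! # Assembly -/

set_option autoImplicit false

open scoped commutatorElement

namespace Pool.Agent.H86.FS

theorem Gens.map_xi {G G' : Type*} [Group G] [Group G'] {r : ℕ} (f : G →* G') (g : Gens G r)
    (i : Fin r) : (g.map f).xi i = f (g.xi i) := by
  simp [Gens.map, Gens.xi, Gens.mi, Gens.bi, Gens.Ai, Gens.Bi, Gens.AA, Gens.BB, Gens.XX,
    Gens.rho, cj, map_commutatorElement]

theorem main (n : ℕ) : ∃ (m k : ℕ) (rels : Fin k → FreeGroup (Fin m)),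
      IsSolvable (PresentedGroup (Set.range rels)) ∧
      ∃ f : (FreeGroup (Fin n) ⧸ derivedSeries (FreeGroup (Fin n)) 3) →*
          PresentedGroup (Set.range rels),
        Function.Injective f := by
  obtain ⟨m, k, rels, g, hg, hcl, huniv⟩ := finPres n
  refine ⟨m, k, rels, solvable_of_rels g hg hcl, ?_⟩
  refine ⟨QuotientGroup.lift _ (FreeGroup.lift g.xi) (fun w hw => derived_of_rels g hg w hw), ?_⟩
  rw [injective_iff_map_eq_one]
  intro x
  induction x using QuotientGroup.induction_on with
  | H w =>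
    intro hw
    simp only [QuotientGroup.lift_mk] at hw
    rw [QuotientGroup.eq_one_iff]
    obtain ⟨G', iG', g', hg', hker⟩ := model n
    obtain ⟨f, hf⟩ := huniv G' g' hg'
    apply hker
    have : FreeGroup.lift g'.xi = f.comp (FreeGroup.lift g.xi) := by
      ext i
      simp [← hf, Gens.map_xi]
    rw [this, MonoidHom.comp_apply, hw, map_one]

end Pool.Agent.H86.FS
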