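import Pool.Agent.H86.FS.TE

/-!
# The module `N_M` (section 10)
* `L0_m`: `m` commutes with `X`, `Y`, `TT`, `th`, `et`, hence with `s_y`, and `ph^n m ph^(-n) = m^(2^n)`; so `m` commutes with
  `ph⁻ⁿ (s_y X s_y⁻¹) phⁿ` (conjugate by `ph^n`), hence with `L0`. `L0_D`: `D` commutes with everything in `QQ`, and `L0 ≤ QQ`.
* `md2.et`: for `y ∈ G2` (`reach2`; `J` commutes with `m`): enough for `y ∈ PP`; closure induction: `y = conj2 l (a,b)` or `conj2 (d l) (a,b)`, `l ∈ L0`; `l`, `d` commute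
  with `m`, `b` commutes with `m`. `md2.th`: `m * D m D⁻¹` commutes with `l`, `d`, `J`, `a`.
* `md2.φΓ`: `G2_QQ`. The rest is (R15), (R16).
* `QQ_m`: for `q ∈ QQ`... instead use: for a generator `q ∈ QS`, `q ≠ ph`: `q` commutes with `m_n := ph⁻ⁿ m phⁿ`: `ph^n q ph^(-n)` is `q` or a power of `q`
  (`X`, `J1`, `J2`), which commutes with `m`. `ph m_n ph⁻¹ = m_n²`.
* `NM_QS`: `N0` is generated by `ph⁻ⁿ (s_y m s_y⁻¹) phⁿ = s_y' m_n s_y'⁻¹`, `y' = conj2 (ph⁻ⁿ) y ∈ G2`. Conjugation by `q ∈ QS ∪ QS⁻¹` maps it to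
  `s_(conj2 q y') m_n s_..⁻¹` (`q ≠ ph`); `ph^{±1}`: `MD.N0_φ`, `MD.N0_φ'`. `q` commutes with `D`.
* `NM_a`: `r.1` for `r ∈ G2`: `MD.N0_split` and its `D`-conjugate (`D` commutes with `r.1`). `NM_b`: `r.2` fixes `N0` and acts on `D N0 D⁻¹` as `s_r` (`MD.N0_et`,
  `Eng.δ_et'`, `MD.N0_sn`). `D`: exchanges. `S`: `MD.N0_ς`, `MD.N0_ς'`. `m ∈ NM`, `NM` commutative.
* `NM_norm`: closure induction over `g.set` (inverses: `a⁻¹ = a`, etc.; conjugation by `m` is trivial).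
-/

set_option autoImplicit false

open scoped commutatorElement

namespace Pool.Agent.H86.FS

variable {G : Type*} [Group G] {r : ℕ}

namespace Rels

variable {g : Gens G r}

theorem QS_cases {q : G} (hq : q ∈ g.QS) :
    q ∈ [g.t, g.u1, g.u2, g.th, g.et, g.d, g.sg, g.X, g.Y, g.ph, g.J1, g.J2] ∨
      ∃ i, g.s i = q := by
  rcases hq with hq | hq
  · left
    simpa [Set.mem_insert_iff, Set.mem_singleton_iff] using hq
  · right
    exact hq

theorem D_QS (h : Rels g) {x : G} (hx : x ∈ [g.D, g.S]) {q : G} (hq : q ∈ g.QS) : Commute x q := by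
  rcases QS_cases hq with hq | ⟨i, rfl⟩
  · exact h.top.DS x hx q hq
  · exact h.top.DSs x hx i

theorem m_TT (h : Rels g) : ∀ q ∈ g.TT, Commute q g.m := by
  refine BRel.TT_of ?_
  rintro q (hq | ⟨i, rfl⟩)
  · refine (h.top.mc q ?_).symm
    rcases hq with rfl | rfl | rfl <;> simp
  · exact (h.top.ms i).symm

theorem D_TT (h : Rels g) {x : G} (hx : x ∈ [g.D, g.S]) : ∀ q ∈ g.TT, Commute q x := by
  refine BRel.TT_of ?_
  rintro q (hq | ⟨i, rfl⟩)
  · refine (h.top.DS x hx q ?_).symm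
    rcases hq with rfl | rfl | rfl <;> simp
  · exact (h.top.DSs x hx i).symm

theorem com_sn (h : Rels g) {x : G} (hT : ∀ q ∈ g.TT, Commute q x) (h1 : Commute x g.th)
    (h2 : Commute x g.et) : ∀ y ∈ g.GR, Commute (sn y) x := by
  refine h.base.GR_sn hT ?_
  unfold Gens.rho
  rw [commutatorElement_def]
  exact (((h1.symm.mul_left h2.symm).mul_left h1.symm.inv_left).mul_left h2.symm.inv_left)

theorem ph_m (h : Rels g) (n : ℕ) : g.ph ^ n * g.m * (g.ph ^ n)⁻¹ = g.m ^ (2 ^ n) := by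
  induction n with
  | zero => simp
  | succ n ih =>
    have h1 : g.ph ^ (n + 1) * g.m * (g.ph ^ (n + 1))⁻¹ =
        Pool.Agent.H93.FS.cj g.ph (g.ph ^ n * g.m * (g.ph ^ n)⁻¹) := by
      unfold Pool.Agent.H93.FS.cj
      rw [pow_succ', mul_inv_rev]
      group
    have h2 : Pool.Agent.H93.FS.cj g.ph g.m = g.m * g.m := h.top.mph
    rw [h1, ih, Pool.Agent.H93.FS.cj_pow, h2, pow_succ', pow_mul, pow_two]

theorem L0_m (h : Rels g) : ∀ x ∈ h.base.B.L0, Commute x g.m ∧ Commute x g.D ∧ Commute x g.S := by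
  intro x hx
  rw [Base.L0_gen] at hx
  have hB : h.base.B.CstG = {y | ∃ n : ℕ, y = (g.ph⁻¹) ^ n * g.X * g.ph ^ n} ∪ {g.Y} := rfl
  have key : ∀ c : G, (∀ y ∈ g.GR, Commute (sn y) c) →
      (∀ n : ℕ, Commute (g.ph ^ n * c * (g.ph ^ n)⁻¹) g.X) → Commute c g.Y →
      Commute c x := by
    intro c h1 h2 h3
    refine Pool.Agent.H93.FS.commute_of_gen ?_ hx
    rintro _ ⟨y, hy, k, hk, rfl⟩
    have h4 : Commute c k := by
      rw [hB] at hk
      rcases hk with ⟨n, rfl⟩ | rfl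
      · have h5 := Pool.Agent.H93.FS.commute_cj (g.ph⁻¹ ^ n) (h2 n)
        have h6 : Pool.Agent.H93.FS.cj (g.ph⁻¹ ^ n) (g.ph ^ n * c * (g.ph ^ n)⁻¹) = c := by
          unfold Pool.Agent.H93.FS.cj
          rw [inv_pow]
          group
        have h7 : Pool.Agent.H93.FS.cj (g.ph⁻¹ ^ n) g.X = (g.ph⁻¹) ^ n * g.X * g.ph ^ n := by
          unfold Pool.Agent.H93.FS.cj
          rw [inv_pow, inv_inv]
        rwa [h6, h7] at h5
      · exact h3
    have h8 := (h1 y hy).symm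
    exact (h8.mul_right h4).mul_right h8.inv_right
  have hDS : ∀ c ∈ [g.D, g.S], Commute c x := by
    intro c hc
    refine key c (h.com_sn (h.D_TT hc) (h.top.DS c hc g.th (by simp))
      (h.top.DS c hc g.et (by simp))) ?_ (h.top.DS c hc g.Y (by simp))
    intro n
    have h1 := h.top.DS c hc g.ph (by simp)
    rw [(h1.symm.pow_left n).eq, mul_inv_cancel_right]
    exact h.top.DS c hc g.X (by simp)
  refine ⟨(key g.m (h.com_sn h.m_TT (h.top.mc g.th (by simp)) (h.top.mc g.et (by simp))) ?_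
    (h.top.mc g.Y (by simp))).symm, (hDS g.D (by simp)).symm, (hDS g.S (by simp)).symm⟩
  intro n
  rw [h.ph_m]
  exact (h.top.mc g.X (by simp)).pow_left _

theorem md2 (h : Rels g) : h.eng2.MD g.ph g.m := by
  have hJm : Commute (g.J1 * g.J2) g.m :=
    ((h.top.mc g.J1 (by simp)).symm).mul_left (h.top.mc g.J2 (by simp)).symm
  have hJD : Commute (g.J1 * g.J2) g.D :=
    ((h.top.DS g.D (by simp) g.J1 (by simp)).symm).mul_left
      (h.top.DS g.D (by simp) g.J2 (by simp)).symm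
  have hph : g.ph ∈ g.QQ := Subgroup.subset_closure (Or.inl (by simp))
  -- reduction to `PP`
  have red : ∀ (c : G), Commute (g.J1 * g.J2) c → Commute g.d c →
      (∀ x ∈ h.base.B.L0, Commute x c) →
      (Commute g.a c → ∀ y ∈ g.G2, Commute y.1 c) ∧ (Commute g.b c → ∀ y ∈ g.G2, Commute y.2 c) := by
    intro c hJ hd hL
    have hk : ∀ (k : ℕ) (z : G), Commute ((g.J1 * g.J2) ^ k * z * ((g.J1 * g.J2) ^ k)⁻¹) c →
        Commute z c := by
      intro k z hz
      have h1 := Pool.Agent.H93.FS.commute_cj ((g.J1 * g.J2) ^ k)⁻¹ hz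
      have h2 : Pool.Agent.H93.FS.cj ((g.J1 * g.J2) ^ k)⁻¹
          ((g.J1 * g.J2) ^ k * z * ((g.J1 * g.J2) ^ k)⁻¹) = z := by
        unfold Pool.Agent.H93.FS.cj
        group
      rwa [h2, Pool.Agent.H93.FS.cj_eq (hJ.pow_left k).inv_left] at h1
    have hP0 : ∀ y ∈ h.base.B.P0 conj2 (g.a, g.b),
        (Commute g.a c → Commute y.1 c) ∧ (Commute g.b c → Commute y.2 c) := by
      intro y hy
      unfold Base.P0 at hy
      induction hy using Subgroup.closure_induction with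
      | mem y hy =>
        obtain ⟨l, hl, rfl⟩ := hy
        have h1 := hL l hl
        exact ⟨fun ha => (h1.mul_left ha).mul_left h1.inv_left,
          fun hb => (h1.mul_left hb).mul_left h1.inv_left⟩
      | one => exact ⟨fun _ => Commute.one_left _, fun _ => Commute.one_left _⟩
      | mul y z _ _ ihy ihz =>
        exact ⟨fun ha => (ihy.1 ha).mul_left (ihz.1 ha), fun hb => (ihy.2 hb).mul_left (ihz.2 hb)⟩
      | inv y _ ih => exact ⟨fun ha => (ih.1 ha).inv_left, fun hb => (ih.2 hb).inv_left⟩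
    have hPP : ∀ y ∈ h.base.B.PP conj2 (g.a, g.b),
        (Commute g.a c → Commute y.1 c) ∧ (Commute g.b c → Commute y.2 c) := by
      intro y hy
      unfold Base.PP at hy
      rw [Subgroup.sup_eq_closure] at hy
      induction hy using Subgroup.closure_induction with
      | mem y hy =>
        rcases hy with hy | ⟨z, hz, rfl⟩
        · exact hP0 y hy
        · have h1 := hP0 z hz
          exact ⟨fun ha => (hd.mul_left (h1.1 ha)).mul_left hd.inv_left,
            fun hb => (hd.mul_left (h1.2 hb)).mul_left hd.inv_left⟩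
      | one => exact ⟨fun _ => Commute.one_left _, fun _ => Commute.one_left _⟩
      | mul y z _ _ ihy ihz =>
        exact ⟨fun ha => (ihy.1 ha).mul_left (ihz.1 ha), fun hb => (ihy.2 hb).mul_left (ihz.2 hb)⟩
      | inv y _ ih => exact ⟨fun ha => (ih.1 ha).inv_left, fun hb => (ih.2 hb).inv_left⟩
    refine ⟨fun ha y hy => ?_, fun hb y hy => ?_⟩
    · obtain ⟨k, hk'⟩ := h.reach2 y hy
      exact hk k _ ((hPP _ hk').1 ha)
    · obtain ⟨k, hk'⟩ := h.reach2 y hy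
      exact hk k _ ((hPP _ hk').2 hb)
  have hdm : Commute g.d g.m := (h.top.mc g.d (by simp)).symm
  have hdD : Commute g.d g.D := (h.top.DS g.D (by simp) g.d (by simp)).symm
  have r1 := (red g.m hJm hdm (fun x hx => (h.L0_m x hx).1)).2 (h.top.mc g.b (by simp)).symm
  have r2 := (red (g.m * (g.D * g.m * g.D⁻¹))
    (hJm.mul_right ((hJD.mul_right hJm).mul_right hJD.inv_right))
    (hdm.mul_right ((hdD.mul_right hdm).mul_right hdD.inv_right))
    (fun x hx => by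
      obtain ⟨e1, e2, -⟩ := h.L0_m x hx
      exact e1.mul_right ((e2.mul_right e1).mul_right e2.inv_right))).1 h.top.ma
  exact
    { et := r1
      ς := (h.top.mc g.S (by simp)).symm
      σ := h.top.msb
      swap := h.top.mD
      th := r2
      φΓ := fun z hz => Rels.G2_QQ g g.ph hph z hz
      φΓ' := fun z hz => by
        have h1 := Rels.G2_QQ g g.ph⁻¹ (inv_mem hph) z hz
        rw [conj2_apply, inv_inv] at h1
        exact h1
      φδ := (h.top.DS g.D (by simp) g.ph (by simp)).symm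
      φς := (h.top.DS g.S (by simp) g.ph (by simp)).symm
      φx := Or.inl h.top.mph }

/-- `N_M` -/
def NM (h : Rels g) : Subgroup G :=
  h.eng2.N0 g.ph g.m ⊔ (h.eng2.N0 g.ph g.m).map (MulAut.conj g.D).toMonoidHom

theorem exT (h : Rels g) : ∃ t : ℕ → G, Pool.Agent.H93.FS.Tower (Pool.Agent.H93.FS.ofEng h.eng2) t ∧
    t 0 = g.m ∧ h.NM = Pool.Agent.H93.FS.Tower.N0 (Pool.Agent.H93.FS.ofEng h.eng2) t ⊔
      Pool.Agent.H93.FS.Tower.N1 (Pool.Agent.H93.FS.ofEng h.eng2) t := by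
  obtain ⟨t, T, t0, hN⟩ := Pool.Agent.H93.FS.exists_tower h.md2
  refine ⟨t, T, t0, ?_⟩
  unfold NM
  rw [hN]
  congr 1
  ext y
  rw [Pool.Agent.H93.FS.Tower.mem_N1, hN]
  have hD : g.D * g.D = 1 := h.top.inv g.D (by simp)
  constructor
  · rintro ⟨z, hz, rfl⟩
    show Pool.Agent.H93.FS.cj g.D (Pool.Agent.H93.FS.cj g.D z) ∈ _
    rw [Pool.Agent.H93.FS.cj_cj, hD, Pool.Agent.H93.FS.cj_one_left]
    exact hz
  · intro hy
    refine ⟨_, hy, ?_⟩
    show Pool.Agent.H93.FS.cj g.D (Pool.Agent.H93.FS.cj g.D y) = y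
    rw [Pool.Agent.H93.FS.cj_cj, hD, Pool.Agent.H93.FS.cj_one_left]

theorem m_NM (h : Rels g) : g.m ∈ h.NM := by
  exact Subgroup.mem_sup_left h.md2.mem

theorem NM_comm (h : Rels g) : ∀ x ∈ h.NM, ∀ y ∈ h.NM, Commute x y := by
  obtain ⟨t, T, -, hN⟩ := h.exT
  intro x hx y hy
  rw [hN] at hx hy
  exact T.comm hx hy

/-- all conjugates `ph^n q ph^-n` of the generators other than `ph` commute with `m` -/
theorem QS_m (h : Rels g) {q : G} (hq : q ∈ g.QS) (hne : q ≠ g.ph) (n : ℕ) :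
    Commute (g.ph ^ n * q * (g.ph ^ n)⁻¹) g.m := by
  have key : ∀ q : G, Commute g.ph q → Commute g.m q →
      Commute (g.ph ^ n * q * (g.ph ^ n)⁻¹) g.m := by
    intro q h1 h2
    rw [(h1.pow_left n).eq, mul_inv_cancel_right]
    exact h2.symm
  have key2 : ∀ q : G, Pool.Agent.H93.FS.cj g.ph q = q * q → Commute g.m q →
      Commute (g.ph ^ n * q * (g.ph ^ n)⁻¹) g.m := by
    intro q h1 h2
    have h3 : ∀ n : ℕ, g.ph ^ n * q * (g.ph ^ n)⁻¹ = q ^ (2 ^ n) := by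
      intro n
      induction n with
      | zero => simp
      | succ n ih =>
        have h4 : g.ph ^ (n + 1) * q * (g.ph ^ (n + 1))⁻¹ =
            Pool.Agent.H93.FS.cj g.ph (g.ph ^ n * q * (g.ph ^ n)⁻¹) := by
          unfold Pool.Agent.H93.FS.cj
          rw [pow_succ', mul_inv_rev]
          group
        rw [h4, ih, Pool.Agent.H93.FS.cj_pow, h1, pow_succ', pow_mul, pow_two]
    rw [h3]
    exact (h2.pow_right _).symm
  rcases QS_cases hq with hq | ⟨i, rfl⟩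
  · simp only [List.mem_cons, List.not_mem_nil, or_false] at hq
    rcases hq with rfl | rfl | rfl | rfl | rfl | rfl | rfl | rfl | rfl | rfl | rfl | rfl
    · exact key _ (h.base.ph _ (by simp)) (h.top.mc _ (by simp))
    · exact key _ (h.base.ph _ (by simp)) (h.top.mc _ (by simp))
    · exact key _ (h.base.ph _ (by simp)) (h.top.mc _ (by simp))
    · exact key _ (h.base.ph _ (by simp)) (h.top.mc _ (by simp))
    · exact key _ (h.base.ph _ (by simp)) (h.top.mc _ (by simp))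
    · exact key _ (h.base.ph _ (by simp)) (h.top.mc _ (by simp))
    · exact key _ (h.base.ph _ (by simp)) (h.top.mc _ (by simp))
    · exact key2 _ h.base.phX (h.top.mc _ (by simp))
    · exact key _ (h.base.ph _ (by simp)) (h.top.mc _ (by simp))
    · exact absurd rfl hne
    · exact key2 _ (h.base.phJ _ (by simp)) (h.top.mc _ (by simp))
    · exact key2 _ (h.base.phJ _ (by simp)) (h.top.mc _ (by simp))
  · exact key _ (h.base.phs i) (h.top.ms i)

/-- conjugation by `q` preserves `N0` as soon as `q` lies in `Q₀` and all its `ph^n`-conjugates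
commute with `m` -/
theorem N0_conj (h : Rels g) {q : G} (hQ : q ∈ g.QQ)
    (hm : ∀ n : ℕ, Commute (g.ph ^ n * q * (g.ph ^ n)⁻¹) g.m) {y : G}
    (hy : y ∈ h.eng2.N0 g.ph g.m) : q * y * q⁻¹ ∈ h.eng2.N0 g.ph g.m := by
  refine Pool.Agent.H93.FS.cj_mem_of_gen q ?_ hy
  rintro _ ⟨n, z, hz, rfl⟩
  have hph : g.ph ∈ g.QQ := Subgroup.subset_closure (Or.inl (by simp))
  have hqn : g.ph ^ n * q * (g.ph ^ n)⁻¹ ∈ g.QQ :=
    mul_mem (mul_mem (pow_mem hph n) hQ) (inv_mem (pow_mem hph n))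
  refine Subgroup.subset_closure ⟨n, _, Rels.G2_QQ g _ hqn _ hz, ?_⟩
  rw [sn_conj2]
  have h1 := (hm n).eq
  set p := g.ph ^ n * q * (g.ph ^ n)⁻¹ with hp
  have h2 : q = (g.ph ^ n)⁻¹ * p * g.ph ^ n := by rw [hp]; group
  have h3 : p * g.m * p⁻¹ = g.m := by rw [h1, mul_inv_cancel_right]
  unfold Pool.Agent.H93.FS.cj
  rw [inv_pow, h2]
  calc (g.ph ^ n)⁻¹ * p * g.ph ^ n * ((g.ph ^ n)⁻¹ * (sn z * g.m * (sn z)⁻¹) * g.ph ^ n) *
        ((g.ph ^ n)⁻¹ * p * g.ph ^ n)⁻¹ =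
      (g.ph ^ n)⁻¹ * (p * sn z * p⁻¹ * (p * g.m * p⁻¹) * (p * sn z * p⁻¹)⁻¹) * g.ph ^ n := by
        group
    _ = _ := by rw [h3]

theorem QS_conj (h : Rels g) {q : G} (hq : q ∈ g.QS) :
    (∀ y ∈ h.eng2.N0 g.ph g.m, q * y * q⁻¹ ∈ h.eng2.N0 g.ph g.m) ∧
      (∀ y ∈ h.eng2.N0 g.ph g.m, q⁻¹ * y * q ∈ h.eng2.N0 g.ph g.m) := by
  by_cases hne : q = g.ph
  · subst hne
    exact ⟨fun y hy => h.md2.N0_φ hy, fun y hy => h.md2.N0_φ' hy⟩
  · have hQ : q ∈ g.QQ := Subgroup.subset_closure hq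
    have hm := fun n => h.QS_m hq hne n
    refine ⟨fun y hy => h.N0_conj hQ hm hy, fun y hy => ?_⟩
    have hm' : ∀ n : ℕ, Commute (g.ph ^ n * q⁻¹ * (g.ph ^ n)⁻¹) g.m := by
      intro n
      have h1 : g.ph ^ n * q⁻¹ * (g.ph ^ n)⁻¹ = (g.ph ^ n * q * (g.ph ^ n)⁻¹)⁻¹ := by group
      rw [h1]
      exact (hm n).inv_left
    have h2 := h.N0_conj (inv_mem hQ) hm' hy
    rwa [inv_inv] at h2

theorem NM_QS (h : Rels g) : ∀ q ∈ g.QS, ∀ y ∈ h.NM, q * y * q⁻¹ ∈ h.NM ∧ q⁻¹ * y * q ∈ h.NM := by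
  intro q hq y hy
  obtain ⟨h1, h2⟩ := h.QS_conj hq
  have hqD : Commute q g.D := (h.D_QS (by simp) hq).symm
  constructor
  · refine Pool.Agent.H93.FS.cj_mem_of_sup q ?_ ?_ hy
    · intro x hx
      exact Subgroup.mem_sup_left (h1 x hx)
    · rintro _ ⟨z, hz, rfl⟩
      refine Subgroup.mem_sup_right ⟨_, h1 z hz, ?_⟩
      show Pool.Agent.H93.FS.cj g.D (Pool.Agent.H93.FS.cj q z) =
        Pool.Agent.H93.FS.cj q (Pool.Agent.H93.FS.cj g.D z)
      rw [Pool.Agent.H93.FS.cj_cj, Pool.Agent.H93.FS.cj_cj, hqD.eq]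
  · have h3 : Pool.Agent.H93.FS.cj q⁻¹ y ∈ h.NM := by
      refine Pool.Agent.H93.FS.cj_mem_of_sup q⁻¹ ?_ ?_ hy
      · intro x hx
        have h4 := h2 x hx
        refine Subgroup.mem_sup_left ?_
        simpa [Pool.Agent.H93.FS.cj] using h4
      · rintro _ ⟨z, hz, rfl⟩
        refine Subgroup.mem_sup_right ⟨_, h2 z hz, ?_⟩
        have h5 : q⁻¹ * z * q = Pool.Agent.H93.FS.cj q⁻¹ z := by simp [Pool.Agent.H93.FS.cj]
        show Pool.Agent.H93.FS.cj g.D (q⁻¹ * z * q) =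
          Pool.Agent.H93.FS.cj q⁻¹ (Pool.Agent.H93.FS.cj g.D z)
        rw [h5, Pool.Agent.H93.FS.cj_cj, Pool.Agent.H93.FS.cj_cj, hqD.inv_left.eq]
    simpa [Pool.Agent.H93.FS.cj] using h3

theorem NM_Γ (h : Rels g) : ∀ z ∈ g.G2, ∀ y ∈ h.NM, z.1 * y * z.1⁻¹ ∈ h.NM ∧
    z.2 * y * z.2⁻¹ ∈ h.NM := by
  obtain ⟨t, T, -, hN⟩ := h.exT
  intro z hz y hy
  rw [hN] at hy ⊢
  exact ⟨T.th_mem ⟨z, hz⟩ hy, T.et_mem ⟨z, hz⟩ hy⟩

theorem NM_DS (h : Rels g) : ∀ y ∈ h.NM, g.D * y * g.D⁻¹ ∈ h.NM ∧ g.S * y * g.S⁻¹ ∈ h.NM := by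
  obtain ⟨t, T, -, hN⟩ := h.exT
  intro y hy
  rw [hN] at hy ⊢
  exact ⟨T.d_mem' hy, T.sg_mem hy⟩

theorem NM_norm (h : Rels g) : ∀ x ∈ Subgroup.closure g.set, ∀ y ∈ h.NM, x * y * x⁻¹ ∈ h.NM := by
  intro x hx
  have key : (∀ y ∈ h.NM, x * y * x⁻¹ ∈ h.NM) ∧ (∀ y ∈ h.NM, x⁻¹ * y * x ∈ h.NM) := by
    have hinv : ∀ z : G, z * z = 1 → (∀ y ∈ h.NM, z * y * z⁻¹ ∈ h.NM) →
        (∀ y ∈ h.NM, z * y * z⁻¹ ∈ h.NM) ∧ (∀ y ∈ h.NM, z⁻¹ * y * z ∈ h.NM) := by
      intro z hz h1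
      have h2 : z⁻¹ = z := inv_eq_of_mul_eq_one_left hz
      refine ⟨h1, fun y hy => ?_⟩
      have h3 := h1 y hy
      rw [h2] at h3 ⊢
      exact h3
    induction hx using Subgroup.closure_induction with
    | mem x hx =>
      have hQ : ∀ q ∈ g.QS, (∀ y ∈ h.NM, q * y * q⁻¹ ∈ h.NM) ∧ (∀ y ∈ h.NM, q⁻¹ * y * q ∈ h.NM) :=
        fun q hq => ⟨fun y hy => (h.NM_QS q hq y hy).1, fun y hy => (h.NM_QS q hq y hy).2⟩
      have hab := h.NM_Γ _ (Rels.mem_G2 g)
      rcases hx with hx | ⟨i, rfl⟩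
      · simp only [Set.mem_insert_iff, Set.mem_singleton_iff] at hx
        rcases hx with rfl | rfl | rfl | rfl | rfl | rfl | rfl | rfl | rfl | rfl | rfl | rfl |
          rfl | rfl | rfl | rfl | rfl
        · exact hQ _ (Or.inl (by simp))
        · exact hQ _ (Or.inl (by simp))
        · exact hQ _ (Or.inl (by simp))
        · exact hQ _ (Or.inl (by simp))
        · exact hQ _ (Or.inl (by simp))
        · exact hQ _ (Or.inl (by simp))
        · exact hQ _ (Or.inl (by simp))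
        · exact hQ _ (Or.inl (by simp))
        · exact hQ _ (Or.inl (by simp))
        · exact hQ _ (Or.inl (by simp))
        · exact hQ _ (Or.inl (by simp))
        · exact hQ _ (Or.inl (by simp))
        · exact hinv _ h.ca.sq (fun y hy => (hab y hy).1)
        · exact hinv _ h.cb.sq (fun y hy => (hab y hy).2)
        · exact hinv _ (h.top.inv _ (by simp)) (fun y hy => (h.NM_DS y hy).1)
        · exact hinv _ (h.top.inv _ (by simp)) (fun y hy => (h.NM_DS y hy).2)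
        · have hm := h.m_NM
          exact ⟨fun y hy => mul_mem (mul_mem hm hy) (inv_mem hm),
            fun y hy => mul_mem (mul_mem (inv_mem hm) hy) hm⟩
      · exact hQ _ (Or.inr ⟨i, rfl⟩)
    | one => simp
    | mul x z _ _ ihx ihz =>
      constructor
      · intro y hy
        have h1 := ihx.1 _ (ihz.1 y hy)
        convert h1 using 1
        group
      · intro y hy
        have h1 := ihz.2 _ (ihx.2 y hy)
        convert h1 using 1
        group
    | inv x _ ih =>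
      rw [inv_inv]
      exact ⟨ih.2, ih.1⟩
  exact key.1

end Rels

end Pool.Agent.H86.FS
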