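import Pool.Agent.H86.FS.S9D

/-!
# Section 9: `⟨A, B⟩` has class 2, and the symmetry
`A0 = B.P0 MulAut.conj a`, `A1 = δ A0 δ⁻¹`, `B.PP MulAut.conj a = A0 ⊔ A1`; same for `b`; the pair is `(a, b) ∈ G × G` with the action `conj2`.
`AB B a b` (Defs.lean) contains: Stage V data for `a` and for `b`, and (9.0) the base facts for CONSTANT letters `B.sw i (g a g⁻¹)`, `g ∈ Cst`, `i ∈ {0,1}`
(`B.sw i x = δ^i x δ^(-i)`). They extend from letters to all of `Ac` by `bil_closure` (Class2.lean).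
See proofs 252, section 9 (9.1)-(9.5) (text repeated here):
 (9.1) w_b in Bc': [A0,^(w_b)A0]=1 by TF (iota_2=conjugation by w_b, fixed by L0). Similarly [B1,^(w_a)B1]=1 for w_a in Ac. Conjugating by L1, L0: same for all
  generators w_b=^g b' (g in L1) of B1, w_a=^g a (g in L0) of A0. For a generator w_a: B1->G, b->[w_a,b] is a homomorphism with image commuting with B1;
  [w_a,w_b] commutes with A0 for generators; so [w_a,B1] commutes with A0,B1; then [A0,B1] commutes with A0,B1 and is bimultiplicative. d: [A1,B0].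
 (9.2) [[A1,B0],A0]=1: w in Ac': iota_1:B0->G, q->[w,q] (homomorphism by 9.1), iota_2=inclusion A0: TF. Conjugate by L1 (fixes A0,B0), products.
  Similarly [[A0,B1],B0]=1, d. So C01=[A0,B1], C10=[A1,B0] are central in N=<A0,A1,B0,B1>.
 (9.3) [A0,B0] commutes with A1,B1 (A1 commutes with A0 and acts on B0 by central elements).
 (9.4) [[A0,B0],A0]=1. (i) w in Ac,w2 in Bc constants, c=[w,w2]; Q={h in A0: [c(w,w2),h]=1 all w,w2} contains Ac (base). chat=[ww',w2w2'] is th_r-fixed,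
  =c.c'.central. For h in Q: [chat,h]=1 so [chat,h_0 h_1']=1 (^(th_r)h=h_0h_1', h_0=(1-e)h,h_1=eh), so kappa=[c,h_0]=[c',h_1']^-1: commutes with
  A0,B0,A1,B1; fixed by Z and Z'; trimultiplicative in (w,w2,h) and Z-invariant: (W3) kappa=1. So h_0 in Q, eh in Q; (G): Q=A0. Same for B0.
  (ii) Q2={q in B0: [w,q] commutes with A0 and B0 for all w in Ac}: subgroup, contains Bc by (i). q in Q2: [ww',q] commutes with A0,A1,B0,B1 (9.2,9.3),
  apply th_r: [ww',q_0q_1'] central in N, =[w,q_0][w',q_1'].central, and [w',q_1'] commutes with A0,B0 (9.3): q_0 in Q2. (G): Q2=B0.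
  (iii) conjugate by L0, products: [A0,B0] commutes with A0,B0. d: [A1,B1]. So N has class 2, [A,B] central.
 (9.5) symmetry on Gam x Gam: delta(g,h)=[g.1,h.2][h.1,g.2]^-1 bimultiplicative. Gam0xGam1: constants by `sy`, conjugate by L0,L1. Gam0xGam0: constants;
  Q={h: delta(w,h)=1 for constants w} stable under e_r: kappa=delta(w,h_0)=delta(w',h_1')^-1 fixed by Z: (W2); (G); conjugate by L0.
`AB.Vab`: fieldwise from `Va`, `Vb` (`ab` too). `PP_fst`: the projections `G × G → G` are equivariant.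
-/

set_option autoImplicit false

open scoped commutatorElement

namespace Pool.Agent.H86.FS

variable {G : Type*} [Group G]

namespace AB

variable {B : Base G} {a b : G}

theorem Vab (h : AB B a b) : VData B conj2 (a, b) where
  sq := Prod.ext h.Va.sq h.Vb.sq
  hφ := Prod.ext h.Va.hφ h.Vb.hφ
  hY := Prod.ext h.Va.hY h.Vb.hY
  hX' := Prod.ext h.Va.hX' h.Vb.hX'
  hY' := Prod.ext h.Va.hY' h.Vb.hY'
  hsn := fun r hr => Prod.ext (h.Va.hsn r hr) (h.Vb.hsn r hr)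
  het := fun r hr => Prod.ext (h.Va.het r hr) (h.Vb.het r hr)
  hς := Prod.ext h.Va.hς h.Vb.hς
  hσ := Prod.ext h.Va.hσ h.Vb.hσ
  swap := Prod.ext h.Va.swap.eq h.Vb.swap.eq
  hth := fun r hr => Prod.ext (h.Va.hth r hr) (h.Vb.hth r hr)
  Phi := Prod.ext h.Va.Phi h.Vb.Phi
  ab := fun g hg g' hg' => Prod.ext (h.Va.ab g hg g' hg').eq (h.Vb.ab g hg g' hg').eq

theorem P0_fst (B : Base G) (a b : G) {r : G × G} (hr : r ∈ B.P0 conj2 (a, b)) :
    r.1 ∈ B.P0 MulAut.conj a ∧ r.2 ∈ B.P0 MulAut.conj b := by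
  have : B.P0 conj2 (a, b) ≤ (B.P0 MulAut.conj a).prod (B.P0 MulAut.conj b) := by
    refine (Subgroup.closure_le _).2 ?_
    rintro p ⟨g, hg, rfl⟩
    exact ⟨Subgroup.subset_closure ⟨g, hg, rfl⟩, Subgroup.subset_closure ⟨g, hg, rfl⟩⟩
  exact this hr

theorem PP_fst (B : Base G) (a b : G) {r : G × G} (hr : r ∈ B.PP conj2 (a, b)) :
    r.1 ∈ B.PP MulAut.conj a ∧ r.2 ∈ B.PP MulAut.conj b := by
  have : B.PP conj2 (a, b) ≤ (B.PP MulAut.conj a).prod (B.PP MulAut.conj b) := by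
    refine sup_le (fun x hx => ?_) ?_
    · obtain ⟨h1, h2⟩ := P0_fst B a b hx
      exact ⟨(le_sup_left : _ ≤ B.PP MulAut.conj a) h1, (le_sup_left : _ ≤ B.PP MulAut.conj b) h2⟩
    · rintro x ⟨y, hy, rfl⟩
      obtain ⟨h1, h2⟩ := P0_fst B a b hy
      exact ⟨(le_sup_right : _ ≤ B.PP MulAut.conj a) ⟨y.1, h1, rfl⟩,
        (le_sup_right : _ ≤ B.PP MulAut.conj b) ⟨y.2, h2, rfl⟩⟩
  exact this hr

/-- (9.1)-(9.4) -/
theorem class2 (h : AB B a b) : ∀ x ∈ B.PP MulAut.conj a, ∀ y ∈ B.PP MulAut.conj b, ∀ z : G,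
    (z ∈ B.PP MulAut.conj a ∨ z ∈ B.PP MulAut.conj b) → Commute ⁅x, y⁆ z :=
  h.bil.1

theorem class2_bil (h : AB B a b) :
    (∀ x ∈ B.PP MulAut.conj a, ∀ x' ∈ B.PP MulAut.conj a, ∀ y ∈ B.PP MulAut.conj b,
      ⁅x * x', y⁆ = ⁅x, y⁆ * ⁅x', y⁆) ∧
    (∀ x ∈ B.PP MulAut.conj a, ∀ y ∈ B.PP MulAut.conj b, ∀ y' ∈ B.PP MulAut.conj b,
      ⁅x, y * y'⁆ = ⁅x, y⁆ * ⁅x, y'⁆) :=
  h.bil.2

/-! ### symmetry -/

/-- the defect -/
def df (g k : G × G) : G := ⁅g.1, k.2⁆ * ⁅k.1, g.2⁆⁻¹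

theorem df_eq_one {g k : G × G} : df g k = 1 ↔ ⁅g.1, k.2⁆ = ⁅k.1, g.2⁆ := by
  rw [df, mul_inv_eq_one]

theorem df_symm {g k : G × G} (h : df g k = 1) : df k g = 1 :=
  df_eq_one.2 (df_eq_one.1 h).symm

theorem df_conj (u : G) (g k : G × G) : df (conj2 u g) (conj2 u k) = MulAut.conj u (df g k) := by
  simp only [df, map_mul, map_inv, map_commutatorElement]
  rfl

theorem df_comm (h : AB B a b) {g k : G × G} (hg : g ∈ B.PP conj2 (a, b))
    (hk : k ∈ B.PP conj2 (a, b)) {z : G}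
    (hz : z ∈ B.PP MulAut.conj a ∨ z ∈ B.PP MulAut.conj b) : Commute (df g k) z := by
  obtain ⟨g1, g2⟩ := PP_fst B a b hg
  obtain ⟨k1, k2⟩ := PP_fst B a b hk
  exact (h.class2 _ g1 _ k2 z hz).mul_left (h.class2 _ k1 _ g2 z hz).inv_left

theorem df_mul_left (h : AB B a b) {g g' k : G × G} (hg : g ∈ B.PP conj2 (a, b))
    (hg' : g' ∈ B.PP conj2 (a, b)) (hk : k ∈ B.PP conj2 (a, b)) :
    df (g * g') k = df g k * df g' k := by
  obtain ⟨g1, g2⟩ := PP_fst B a b hg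
  obtain ⟨g1', g2'⟩ := PP_fst B a b hg'
  obtain ⟨k1, k2⟩ := PP_fst B a b hk
  have e1 : ⁅(g * g').1, k.2⁆ = ⁅g.1, k.2⁆ * ⁅g'.1, k.2⁆ := h.class2_bil.1 _ g1 _ g1' _ k2
  have e2 : ⁅k.1, (g * g').2⁆ = ⁅k.1, g.2⁆ * ⁅k.1, g'.2⁆ := h.class2_bil.2 _ k1 _ g2 _ g2'
  have c : Commute ⁅k.1, g.2⁆⁻¹ (⁅g'.1, k.2⁆ * ⁅k.1, g'.2⁆⁻¹) := by
    have hc1 : Commute ⁅g'.1, k.2⁆ ⁅k.1, g.2⁆ :=
      (h5_commute_comm (h.class2 _ g1' _ k2 _ (Or.inl k1)).symm
        (h.class2 _ g1' _ k2 _ (Or.inr g2)).symm).symm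
    have hc2 : Commute ⁅k.1, g'.2⁆ ⁅k.1, g.2⁆ :=
      (h5_commute_comm (h.class2 _ k1 _ g2' _ (Or.inl k1)).symm
        (h.class2 _ k1 _ g2' _ (Or.inr g2)).symm).symm
    exact (hc1.symm.mul_right hc2.symm.inv_right).inv_left
  rw [df, e1, e2, df, df, mul_inv_rev]
  calc ⁅g.1, k.2⁆ * ⁅g'.1, k.2⁆ * (⁅k.1, g'.2⁆⁻¹ * ⁅k.1, g.2⁆⁻¹)
      = ⁅g.1, k.2⁆ * ((⁅g'.1, k.2⁆ * ⁅k.1, g'.2⁆⁻¹) * ⁅k.1, g.2⁆⁻¹) := by group
    _ = ⁅g.1, k.2⁆ * (⁅k.1, g.2⁆⁻¹ * (⁅g'.1, k.2⁆ * ⁅k.1, g'.2⁆⁻¹)) := by rw [c.eq]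
    _ = _ := by group

theorem df_inv {g k : G × G} : df k g = (df g k)⁻¹ := by
  simp only [df, mul_inv_rev, inv_inv]

theorem df_mul_right (h : AB B a b) {g k k' : G × G} (hg : g ∈ B.PP conj2 (a, b))
    (hk : k ∈ B.PP conj2 (a, b)) (hk' : k' ∈ B.PP conj2 (a, b)) :
    df g (k * k') = df g k * df g k' := by
  obtain ⟨g1, g2⟩ := PP_fst B a b hg
  obtain ⟨k1, k2⟩ := PP_fst B a b hk
  have c : Commute (df k' g) (df k g) := by
    have c1 := h.df_comm hk' hg (Or.inl g1)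
    have c2 := h.df_comm hk' hg (Or.inr g2)
    have c3 := h.df_comm hk' hg (Or.inl k1)
    have c4 := h.df_comm hk' hg (Or.inr k2)
    exact (h5_commute_comm c3.symm c2.symm).symm.mul_right (h5_commute_comm c1.symm c4.symm).symm.inv_right
  rw [df_inv, h.df_mul_left hk hk' hg, mul_inv_rev, ← df_inv, ← df_inv]
  rw [df_inv (g := k') (k := g), df_inv (g := k) (k := g)]
  exact c.inv_inv.eq

/-- the elements symmetric with everything in a set -/
def Sy (h : AB B a b) (K : Set (G × G)) (hK : K ⊆ B.PP conj2 (a, b)) : Subgroup (G × G) where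
  carrier := {g | g ∈ B.PP conj2 (a, b) ∧ ∀ k ∈ K, df g k = 1}
  mul_mem' := fun {x y} hx hy => ⟨mul_mem hx.1 hy.1, fun k hk => by
    rw [h.df_mul_left hx.1 hy.1 (hK hk), hx.2 k hk, hy.2 k hk, mul_one]⟩
  one_mem' := ⟨one_mem _, fun k _ => by simp [df]⟩
  inv_mem' := fun {x} hx => ⟨inv_mem hx.1, fun k hk => by
    have := h.df_mul_left (inv_mem hx.1) hx.1 (hK hk)
    rw [inv_mul_cancel, hx.2 k hk, mul_one] at this
    rw [← this]; simp [df]⟩

theorem P0_PP {B : Base G} {a b : G} {g : G × G} (hg : g ∈ B.P0 conj2 (a, b)) :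
    g ∈ B.PP conj2 (a, b) := (le_sup_left : _ ≤ B.PP conj2 (a, b)) hg

theorem P1_PP {B : Base G} {a b : G} {g : G × G} (hg : g ∈ B.P0 conj2 (a, b)) :
    conj2 B.δ g ∈ B.PP conj2 (a, b) := (le_sup_right : _ ≤ B.PP conj2 (a, b)) ⟨g, hg, rfl⟩

theorem one_Cst (B : Base G) : (1 : G) ∈ B.Cst := one_mem _

/-- two-variable closure principle -/
theorem two_cl (h : AB B a b) {S T : Set (G × G)} (hS : S ⊆ B.PP conj2 (a, b))
    (hT : T ⊆ B.PP conj2 (a, b)) (hST : ∀ s ∈ S, ∀ t ∈ T, df s t = 1) {g k : G × G}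
    (hg : g ∈ Subgroup.closure S) (hk : k ∈ Subgroup.closure T) : df g k = 1 := by
  have hSc : ∀ g ∈ Subgroup.closure S, ∀ t ∈ T, df g t = 1 := by
    have : Subgroup.closure S ≤ Sy h T hT :=
      (Subgroup.closure_le _).2 fun s hs => ⟨hS hs, fun t ht => hST s hs t ht⟩
    intro g hg t ht
    exact (this hg).2 t ht
  have hS' : (Subgroup.closure S : Set (G × G)) ⊆ B.PP conj2 (a, b) :=
    (Subgroup.closure_le _).2 hS
  have : Subgroup.closure T ≤ Sy h (Subgroup.closure S : Set (G × G)) hS' :=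
    (Subgroup.closure_le _).2 fun t ht => ⟨hT ht, fun g hg => df_symm (hSc g hg t ht)⟩
  exact df_symm ((this hk).2 g hg)

theorem L0_fix (h : AB B a b) {l : G} (hl : l ∈ B.L0) {g : G × G}
    (hg : g ∈ B.P0 conj2 (a, b)) : conj2 l (conj2 B.δ g) = conj2 B.δ g :=
  h.Vab.L0_P1 hl hg

theorem L1_fix (h : AB B a b) {l : G} (hl : l ∈ B.L0) {g : G × G}
    (hg : g ∈ B.P0 conj2 (a, b)) : conj2 (B.δ * l * B.δ⁻¹) g = g :=
  h.Vab.L1_P0 hl hg

theorem conj2_mul (u v : G) (g : G × G) : conj2 u (conj2 v g) = conj2 (u * v) g := by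
  rw [map_mul, MulAut.mul_apply]

theorem conj2_one (g : G × G) : conj2 (1 : G) g = g := by
  rw [map_one, MulAut.one_apply]

theorem conj2_dd (B : Base G) (g : G × G) : conj2 B.δ (conj2 B.δ g) = g := by
  rw [conj2_mul, B.δ_sq, conj2_one]

/-- (9.5), mixed -/
theorem sy01 (h : AB B a b) {g k : G × G} (hg : g ∈ B.P0 conj2 (a, b))
    (hk : k ∈ B.P0 conj2 (a, b)) : df g (conj2 B.δ k) = 1 := by
  have hab : (a, b) ∈ B.P0 conj2 (a, b) := h.Vab.Ac_le h.Vab.c_mem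
  have h0 : df (a, b) (conj2 B.δ (a, b)) = 1 := by
    have := h.sy 1 (one_Cst B) 1 (one_Cst B) 0 1
    rw [df_eq_one]
    simpa [B.sw_zero, B.sw_one] using this
  have hst : ∀ s ∈ {p : G × G | ∃ g ∈ B.L0, p = conj2 g (a, b)},
      ∀ t ∈ conj2 B.δ '' {p : G × G | ∃ g ∈ B.L0, p = conj2 g (a, b)}, df s t = 1 := by
    rintro s ⟨u, hu, rfl⟩ t ⟨t', ⟨v, hv, rfl⟩, rfl⟩
    have e1 : conj2 u (a, b) = conj2 (u * (B.δ * v * B.δ⁻¹)) (a, b) := by
      rw [← conj2_mul, h.L1_fix hv hab]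
    have hc := B.L0_swap hu hv
    have e2 : conj2 B.δ (conj2 v (a, b)) =
        conj2 (u * (B.δ * v * B.δ⁻¹)) (conj2 B.δ (a, b)) := by
      rw [hc.eq, ← conj2_mul, h.L0_fix hu hab, conj2_mul, conj2_mul]
      congr 2
      group
    rw [e1, e2, df_conj, h0, map_one]
  refine h.two_cl (S := {p : G × G | ∃ g ∈ B.L0, p = conj2 g (a, b)})
    (T := conj2 B.δ '' {p : G × G | ∃ g ∈ B.L0, p = conj2 g (a, b)}) ?_ ?_ hst hg ?_
  · intro s hs
    exact P0_PP (Subgroup.subset_closure hs)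
  · rintro t ⟨t', ht', rfl⟩
    exact P1_PP (Subgroup.subset_closure ht')
  · have : (B.P0 conj2 (a, b)).map (conj2 B.δ).toMonoidHom = Subgroup.closure
        ((conj2 B.δ).toMonoidHom '' {p : G × G | ∃ g ∈ B.L0, p = conj2 g (a, b)}) := by
      rw [← MonoidHom.map_closure]; rfl
    have h2 : conj2 B.δ k ∈ (B.P0 conj2 (a, b)).map (conj2 B.δ).toMonoidHom := ⟨k, hk, rfl⟩
    rw [this] at h2
    exact h2

/-- (9.5), constants -/
theorem sy_c (h : AB B a b) {g k : G × G} (hg : g ∈ B.Ac conj2 (a, b))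
    (hk : k ∈ B.Ac conj2 (a, b)) : df g k = 1 := by
  have hL : {p : G × G | ∃ g ∈ B.Cst, p = conj2 g (a, b)} ⊆ B.PP conj2 (a, b) := by
    rintro s ⟨g, hg, rfl⟩
    exact P0_PP (Subgroup.subset_closure ⟨g, B.Cst_L0 hg, rfl⟩)
  refine h.two_cl (S := {p : G × G | ∃ g ∈ B.Cst, p = conj2 g (a, b)})
    (T := {p : G × G | ∃ g ∈ B.Cst, p = conj2 g (a, b)}) hL hL ?_ hg hk
  rintro s ⟨g₁, h1, rfl⟩ t ⟨g₂, h2, rfl⟩
  have := h.sy g₁ h1 g₂ h2 0 0
  rw [df_eq_one]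
  simpa [B.sw_zero] using this

theorem h5_z5' (Z : G) (m : G × G) : conj2 Z (conj2 Z (conj2 Z (conj2 Z (conj2 Z m)))) =
    conj2 (Z ^ 5) m := by
  simp only [pow_succ, pow_zero, one_mul, map_mul, MulAut.mul_apply]

theorem h5_z2' (Z : G) (m : G × G) : conj2 Z (conj2 Z m) = conj2 (Z ^ 2) m := by
  simp only [pow_succ, pow_zero, one_mul, map_mul, MulAut.mul_apply]

theorem sy_keq (h : AB B a b) {r : G × G} (hr : r ∈ B.Γ) {w p : G × G}
    (hw : w ∈ B.P0 conj2 (a, b)) (hp : p ∈ B.P0 conj2 (a, b)) (hc : df w p = 1) :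
    df w (p * B.e conj2 r p) * MulAut.conj B.δ (df w (B.e conj2 r p)) = 1 := by
  have V := h.Vab
  have he := V.e_mem hr hp
  set e := B.e conj2 r p with hedef
  have hpe := mul_mem hp he
  have h1 : df (w * conj2 B.δ w) p = 1 := by
    rw [h.df_mul_left (P0_PP hw) (P1_PP hw) (P0_PP hp), hc, one_mul]
    exact df_symm (h.sy01 hp hw)
  have h2 := df_conj r.1 (w * conj2 B.δ w) p
  rw [h1, map_one, V.P0_th hr hw, V.e_th hr hp, h.df_mul_left (P0_PP hw) (P1_PP hw)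
    (mul_mem (P0_PP hpe) (P1_PP he)), h.df_mul_right (P0_PP hw) (P0_PP hpe) (P1_PP he),
    h.df_mul_right (P1_PP hw) (P0_PP hpe) (P1_PP he), h.sy01 hw he,
    df_symm (h.sy01 hpe hw), mul_one, one_mul, df_conj] at h2
  exact h2

/-- (9.5), constants against `P0` -/
theorem sy_cP (h : AB B a b) {w p : G × G} (hw : w ∈ B.Ac conj2 (a, b))
    (hp : p ∈ B.P0 conj2 (a, b)) : df w p = 1 := by
  have V := h.Vab
  have hAcPP : ∀ w ∈ B.Ac conj2 (a, b), w ∈ B.PP conj2 (a, b) := fun w hw => P0_PP (V.Ac_le hw)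
  let Q : Subgroup (G × G) := Sy h (B.Ac conj2 (a, b) : Set (G × G)) hAcPP ⊓ B.P0 conj2 (a, b)
  have hQ : B.P0 conj2 (a, b) ≤ Q := by
    refine V.P0_ind Q ?_ ?_
    · intro u hu
      exact ⟨⟨hAcPP u hu, fun k hk => h.sy_c hu hk⟩, V.Ac_le hu⟩
    · intro r hr p hp hpQ
      have hZ : B.Z ∈ B.Cst := B.Z_Cst
      have hzQ : ∀ k ∈ Q, conj2 B.Z k ∈ Q := by
        intro k hk
        have hk2 := V.P0_L0 B.Z_mem hk.2
        refine ⟨⟨P0_PP hk2, fun w hw => ?_⟩, hk2⟩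
        obtain ⟨v, hv, rfl⟩ := h5_conj_mem (S := B.Ac conj2 (a, b)) (K := B.Cst)
          (fun g hg p hp => V.Ac_Cst hg hp) hZ hw
        rw [df_conj, hk.1.2 v hv, map_one]
      have key := W2 (B.Ac conj2 (a, b)) Q
        (conj2 B.Z).toMonoidHom (conj2 B.Z).toMonoidHom
        (fun m hm => V.Ac_Cst hZ hm) hzQ
        (fun m hm m' hm' => V.Ac_comm hm hm')
        (fun m hm m' hm' => V.P0_comm hm.2 hm'.2)
        (fun m hm => V.Ac_sq hm) (fun m hm => V.P0_sq hm.2)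
        (fun m hm => by
          show conj2 B.Z (conj2 B.Z (conj2 B.Z (conj2 B.Z
            (conj2 B.Z m)))) * conj2 B.Z (conj2 B.Z m) * m = 1
          rw [h5_z5', h5_z2']; exact V.Ac_Phi hm)
        (fun m hm => by
          show conj2 B.Z (conj2 B.Z (conj2 B.Z (conj2 B.Z
            (conj2 B.Z m)))) * conj2 B.Z (conj2 B.Z m) * m = 1
          rw [h5_z5', h5_z2']; exact V.P0_Phi hm.2)
        (fun w p => df w (p * B.e conj2 r p))
        (by
          intro m hm m' hm' k hk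
          exact h.df_mul_left (hAcPP m hm) (hAcPP m' hm')
            (P0_PP (mul_mem hk.2 (V.e_mem hr hk.2))))
        (by
          intro m hm k hk k' hk'
          have he := V.e_mem hr hk.2
          have he' := V.e_mem hr hk'.2
          show df m (k * k' * B.e conj2 r (k * k')) = _
          rw [V.e_mul hr hk.2 hk'.2]
          have e1 : k * k' * (B.e conj2 r k * B.e conj2 r k') =
              (k * B.e conj2 r k) * (k' * B.e conj2 r k') := by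
            have := (V.P0_comm hk'.2 he).eq
            calc _ = k * (k' * B.e conj2 r k) * B.e conj2 r k' := by group
              _ = k * (B.e conj2 r k * k') * B.e conj2 r k' := by rw [this]
              _ = _ := by group
          rw [e1]
          exact h.df_mul_right (hAcPP m hm) (P0_PP (mul_mem hk.2 he)) (P0_PP (mul_mem hk'.2 he')))
        (by
          intro m hm k hk
          have he := V.e_mem hr hk.2
          show df (conj2 B.Z m) (conj2 B.Z k * B.e conj2 r (conj2 B.Z k)) =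
            df m (k * B.e conj2 r k)
          rw [V.e_Cst hr hZ hk.2, ← map_mul, df_conj]
          have hk1 := h.sy_keq hr (V.Ac_le hm) hk.2 (df_symm (hk.1.2 m hm))
          rw [eq_inv_of_mul_eq_one_left hk1, ← df_conj, map_inv, ← df_conj,
            h.L0_fix B.Z_mem (V.Ac_le hm), h.L0_fix B.Z_mem he])
      have he := V.e_mem hr hp
      have h0 : p * B.e conj2 r p ∈ Q :=
        ⟨⟨P0_PP (mul_mem hp he), fun k hk => df_symm (key k hk p hpQ)⟩, mul_mem hp he⟩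
      have := mul_mem (inv_mem hpQ) h0
      rwa [inv_mul_cancel_left] at this
  exact df_symm ((hQ hp).1.2 w hw)

theorem sy00 (h : AB B a b) {g k : G × G} (hg : g ∈ B.P0 conj2 (a, b))
    (hk : k ∈ B.P0 conj2 (a, b)) : df g k = 1 := by
  have V := h.Vab
  have hL : {p : G × G | ∃ g ∈ B.L0, p = conj2 g (a, b)} ⊆ B.PP conj2 (a, b) := by
    rintro s ⟨g, hg, rfl⟩
    exact P0_PP (Subgroup.subset_closure ⟨g, hg, rfl⟩)
  refine h.two_cl (S := {p : G × G | ∃ g ∈ B.L0, p = conj2 g (a, b)})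
    (T := {p : G × G | ∃ g ∈ B.L0, p = conj2 g (a, b)}) hL hL ?_ hg hk
  rintro s ⟨g₁, h1, rfl⟩ t ⟨g₂, h2, rfl⟩
  have e : conj2 g₂ (a, b) = conj2 g₁ (conj2 (g₁⁻¹ * g₂) (a, b)) := by
    rw [conj2_mul, mul_inv_cancel_left]
  rw [e, df_conj, h.sy_cP V.c_mem (Subgroup.subset_closure ⟨_, mul_mem (inv_mem h1) h2, rfl⟩),
    map_one]

/-- (9.5) -/
theorem symm (h : AB B a b) : ∀ r ∈ B.PP conj2 (a, b), ∀ r' ∈ B.PP conj2 (a, b),
    ⁅r.1, r'.2⁆ = ⁅r'.1, r.2⁆ := by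
  intro r hr r' hr'
  rw [← df_eq_one]
  have hPP : B.PP conj2 (a, b) = Subgroup.closure ((B.P0 conj2 (a, b) : Set (G × G)) ∪
      (conj2 B.δ '' (B.P0 conj2 (a, b) : Set (G × G)))) := by
    apply le_antisymm
    · refine sup_le (fun x hx => Subgroup.subset_closure (Or.inl hx)) ?_
      rintro x ⟨y, hy, rfl⟩
      exact Subgroup.subset_closure (Or.inr ⟨y, hy, rfl⟩)
    · refine (Subgroup.closure_le _).2 ?_
      rintro x (hx | ⟨y, hy, rfl⟩)
      · exact P0_PP hx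
      · exact P1_PP hy
  have hL : ((B.P0 conj2 (a, b) : Set (G × G)) ∪
      (conj2 B.δ '' (B.P0 conj2 (a, b) : Set (G × G)))) ⊆ B.PP conj2 (a, b) := by
    rintro x (hx | ⟨y, hy, rfl⟩)
    · exact P0_PP hx
    · exact P1_PP hy
  rw [hPP] at hr hr'
  refine h.two_cl hL hL ?_ hr hr'
  rintro s (hs | ⟨s, hs, rfl⟩) t (ht | ⟨t, ht, rfl⟩)
  · exact h.sy00 hs ht
  · exact h.sy01 hs ht
  · exact df_symm (h.sy01 ht hs)
  · rw [df_conj, h.sy00 hs ht, map_one]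

end AB

end Pool.Agent.H86.FS
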