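import Pool.Agent.H86.FS.Defs
import Pool.Agent.H69.MG.WMul

/-!
# W2 (weights, two slots)
`M, N` commutative of exponent 2 with endomorphisms `z`, `z'` satisfying `z⁵ m * z² m * m = 1`.
`κ` bimultiplicative on `M × N` with `κ (z m) (z' n) = κ m n`. Then `κ = 1` on `M × N`.

Proof of W2. `κ m n * κ m n = κ (m*m) n = κ 1 n = 1`, and the values `κ m n`, `κ m' n'` commute (expand `κ (m*m') (n*n')`
in two ways; or note that for fixed `n` they commute because `m*m' = m'*m`, etc.).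
From `z⁵ m = z² m * m` (exponent 2): `κ m n = κ (z⁵ m) (z'⁵ n) = κ (z² m * m) (z'² n * n)
= κ (z² m) (z'² n) * κ (z² m) n * κ m (z'² n) * κ m n = κ m n * κ (z² m) n * κ m (z'² n) * κ m n`, so
`κ m n = κ (z² m) n * κ m (z'² n)` (exponent 2 of the values). Replace `m` by `z² m`: `κ (z² m) n = κ (z⁴ m) n * κ (z² m) (z'² n)
= κ (z⁴ m) n * κ m n`. So `κ (z⁴ m * z² m * m) n = 1` for all `m ∈ M`, `n ∈ N`. (Here `κ (z² m)(z'² n) = κ m n`.)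
Now `1 = z²(z³+1)` in `F_2[z]/(z⁵+z²+1)` and `z⁴+z²+1 = (z²+z+1)²`, `z³+1 = (z+1)(z²+z+1)`, so with
`m' = z⁴ (z+1)² m` we get `(z⁴+z²+1) m' = (z²(z+1)(z²+z+1))² m = m`. Concretely: `m' = z⁶ m * z⁴ m` satisfies
`z⁴ m' * z² m' * m' = m` [z¹⁰+z⁸+z⁸+z⁶+z⁶+z⁴ = z¹⁰+z⁴, and `z¹⁰ + z⁴ = (z⁵+z²)² = 1`]. Hence `κ m n = 1`.
-/

set_option autoImplicit false

open scoped commutatorElement

namespace Pool.Agent.H86.FS

theorem W2 {A B C : Type*} [Group A] [Group B] [Group C] (M : Subgroup A) (N : Subgroup B)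
    (z : A →* A) (z' : B →* B) (hz : ∀ m ∈ M, z m ∈ M) (hz' : ∀ n ∈ N, z' n ∈ N)
    (hM : ∀ m ∈ M, ∀ m' ∈ M, Commute m m') (hN : ∀ n ∈ N, ∀ n' ∈ N, Commute n n')
    (hM2 : ∀ m ∈ M, m * m = 1) (hN2 : ∀ n ∈ N, n * n = 1)
    (hMΦ : ∀ m ∈ M, z (z (z (z (z m)))) * z (z m) * m = 1)
    (hNΦ : ∀ n ∈ N, z' (z' (z' (z' (z' n)))) * z' (z' n) * n = 1)
    (κ : A → B → C)
    (h1 : ∀ m ∈ M, ∀ m' ∈ M, ∀ n ∈ N, κ (m * m') n = κ m n * κ m' n)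
    (h2 : ∀ m ∈ M, ∀ n ∈ N, ∀ n' ∈ N, κ m (n * n') = κ m n * κ m n')
    (hκ : ∀ m ∈ M, ∀ n ∈ N, κ (z m) (z' n) = κ m n) :
    ∀ m ∈ M, ∀ n ∈ N, κ m n = 1 :=
  Pool.Agent.H69.MG.mul23 M N z z' hz hz' hM hN hM2 hMΦ hNΦ κ h1 h2 (Or.inl hκ)

end Pool.Agent.H86.FS
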