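import Pool.Agent.H86.FS.Defs
import Pool.Agent.H69.MG.WMul

/-!
# W3 (weights, three slots)
`M, N, K` commutative of exponent 2 with endomorphisms `z, z', z''` satisfying `z⁵ m * z² m * m = 1`.
`κ` trimultiplicative with `κ (z m) (z' n) (z'' k) = κ m n k`. Then `κ = 1`.

Proof. Values: `κ m n k * κ m n k = κ (m*m) n k = 1`, and all values commute (for fixed two slots this is immediate from
commutativity of `M`; in general expand `κ (m m') (n n') k` in two ways, etc.). For fixed `k` put `B(p, q)(m, n) := κ (p m) (q n) k` for words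
`p, q` in `z, z'`.
The relation `z''⁵ k * z''² k * k = 1` gives
`κ (z⁵m)(z'⁵n)(z''⁵k) * κ (z⁵m)(z'⁵n)(z''²k) * κ (z⁵m)(z'⁵n) k = 1`, i.e. by invariance
`κ m n k * κ (z³m)(z'³n) k * κ (z⁵m)(z'⁵n) k = 1`. With `z⁵ = z²+1` in both slots,
`κ(z⁵m)(z'⁵n)k = κ(z²m)(z'²n)k * κ(z²m) n k * κ m (z'²n) k * κ m n k`. So for ALL `m, n`:
`κ(z³m)(z'³n)k * κ(z²m)(z'²n)k * κ(z²m) n k * κ m (z'²n) k = 1`.   (*)
`g = s³t³+s²t²+s²+t²` is a unit of `F_2[s,t]/(s⁵+s²+1, t⁵+t²+1)` with inverse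
`h = 1+t⁴+st+st²+st³+s²t+s²t²+s²t³+s²t⁴+s³t+s³t²+s³t⁴+s⁴+s⁴t²+s⁴t³` (checked by computer).
Apply (*) to the 15 pairs `(z^i m, z'^j n)`, `s^i t^j` in `h`, multiply everything and reduce the exponents with
`s⁵ = s²+1`, `t⁵ = t²+1`: the result is `κ m n k = 1`.
A convenient formalisation: fix `k`; consider the commutative group of values (exponent 2), or the polynomial ring acting:
for `f ∈ (ZMod 2)[s][t]` or simply for finite sets of exponents `(i,j)` put `E(f) = ∏ κ (z^i m)(z'^j n) k`; `E` is additive, kills the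
ideal generated by `s⁵+s²+1`, `t⁵+t²+1` and (by (*)) the multiples of `g`; and
`1 = g*h + (s⁵+s²+1)*A + (t⁵+t²+1)*B`. The polynomials `A, B` can be found by division (by hand or by computer), and the identity
can be checked by `ring`/`decide`. Alternatively first prove it in a linear form: `V` a module over `ZMod 2`, commuting
endomorphisms `s, t` of `V` with `s⁵+s²+1 = 0`, `t⁵+t²+1 = 0`, `s³t³+s²t²+s²+t² = 0` imply `V = 0`
(here `V` = additive group of functions `M × N → values` generated by ... or the tensor product `M ⊗ N`,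
with `κ` as a linear map on `M ⊗ N`); any rigorous way is fine.
-/

set_option autoImplicit false

open scoped commutatorElement

namespace Pool.Agent.H86.FS

theorem W3 {A B K C : Type*} [Group A] [Group B] [Group K] [Group C]
    (M : Subgroup A) (N : Subgroup B) (L : Subgroup K)
    (z : A →* A) (z' : B →* B) (z'' : K →* K)
    (hz : ∀ m ∈ M, z m ∈ M) (hz' : ∀ n ∈ N, z' n ∈ N) (hz'' : ∀ k ∈ L, z'' k ∈ L)
    (hM : ∀ m ∈ M, ∀ m' ∈ M, Commute m m') (hN : ∀ n ∈ N, ∀ n' ∈ N, Commute n n')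
    (hL : ∀ k ∈ L, ∀ k' ∈ L, Commute k k')
    (hM2 : ∀ m ∈ M, m * m = 1) (hN2 : ∀ n ∈ N, n * n = 1) (hL2 : ∀ k ∈ L, k * k = 1)
    (hMΦ : ∀ m ∈ M, z (z (z (z (z m)))) * z (z m) * m = 1)
    (hNΦ : ∀ n ∈ N, z' (z' (z' (z' (z' n)))) * z' (z' n) * n = 1)
    (hLΦ : ∀ k ∈ L, z'' (z'' (z'' (z'' (z'' k)))) * z'' (z'' k) * k = 1)
    (κ : A → B → K → C)
    (h1 : ∀ m ∈ M, ∀ m' ∈ M, ∀ n ∈ N, ∀ k ∈ L, κ (m * m') n k = κ m n k * κ m' n k)
    (h2 : ∀ m ∈ M, ∀ n ∈ N, ∀ n' ∈ N, ∀ k ∈ L, κ m (n * n') k = κ m n k * κ m n' k)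
    (h3 : ∀ m ∈ M, ∀ n ∈ N, ∀ k ∈ L, ∀ k' ∈ L, κ m n (k * k') = κ m n k * κ m n k')
    (hκ : ∀ m ∈ M, ∀ n ∈ N, ∀ k ∈ L, κ (z m) (z' n) (z'' k) = κ m n k) :
    ∀ m ∈ M, ∀ n ∈ N, ∀ k ∈ L, κ m n k = 1 := by
  have one3 : ∀ m ∈ M, ∀ n ∈ N, κ m n 1 = 1 := by
    intro m hm n hn
    have := h3 m hm n hn 1 L.one_mem 1 L.one_mem
    rw [one_mul] at this
    exact mul_left_cancel (by rw [mul_one]; exact this.symm)
  intro m hm n hn k hk
  refine Pool.Agent.H69.MG.mul23 M N z z' hz hz' hM hN hM2 hMΦ hNΦ (fun m n => κ m n k)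
    (fun m hm m' hm' n hn => h1 m hm m' hm' n hn k hk)
    (fun m hm n hn n' hn' => h2 m hm n hn n' hn' k hk) (Or.inr ?_) m hm n hn
  intro m hm n hn
  have m1 := hz _ hm
  have m2 := hz _ m1
  have m3 := hz _ m2
  have m4 := hz _ m3
  have m5 := hz _ m4
  have n1 := hz' _ hn
  have n2 := hz' _ n1
  have n3 := hz' _ n2
  have n4 := hz' _ n3
  have n5 := hz' _ n4
  have k1 := hz'' _ hk
  have k2 := hz'' _ k1
  have k3 := hz'' _ k2
  have k4 := hz'' _ k3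
  have k5 := hz'' _ k4
  have e5 : κ (z (z (z (z (z m))))) (z' (z' (z' (z' (z' n))))) (z'' (z'' (z'' (z'' (z'' k)))))
      = κ m n k := by
    rw [hκ _ m4 _ n4 _ k4, hκ _ m3 _ n3 _ k3, hκ _ m2 _ n2 _ k2, hκ _ m1 _ n1 _ k1,
      hκ _ hm _ hn _ hk]
  have e2 : κ (z (z (z (z (z m))))) (z' (z' (z' (z' (z' n))))) (z'' (z'' k))
      = κ (z (z (z m))) (z' (z' (z' n))) k := by
    rw [hκ _ m4 _ n4 _ k1, hκ _ m3 _ n3 _ hk]
  have e := one3 _ m5 _ n5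
  rw [← hLΦ k hk, h3 _ m5 _ n5 _ (L.mul_mem k5 k2) _ hk, h3 _ m5 _ n5 _ k5 _ k2, e5, e2] at e
  exact e

end Pool.Agent.H86.FS
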