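import Pool.Agent.H86.FS.TF
import Pool.Agent.H86.FS.W2
import Pool.Agent.H86.FS.W3
import Pool.Agent.H86.FS.Class2

/-!
# Section 9, part A: base facts for constants, (9.1), (9.2), (9.3)
-/

set_option autoImplicit false

open scoped commutatorElement

namespace Pool.Agent.H86.FS

variable {G : Type*} [Group G]

/-! ### commutator identities -/

theorem h5_comm_symm {x y u : G} (h : Commute ⁅x, y⁆ u) : Commute ⁅y, x⁆ u := by
  rw [← commutatorElement_inv]; exact h.inv_left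

theorem h5_commute_comm {x y u : G} (hx : Commute x u) (hy : Commute y u) : Commute ⁅x, y⁆ u := by
  rw [commutatorElement_def]
  exact ((hx.mul_left hy).mul_left hx.inv_left).mul_left hy.inv_left

theorem h5_comm_aux {u x y : G} (h1 : Commute u x) (h2 : Commute ⁅u, y⁆ x)
    (h3 : Commute ⁅u, y⁆ y) : Commute ⁅x, y⁆ u := by
  have e1 : u * ⁅x, y⁆ * u⁻¹ = ⁅u * x * u⁻¹, u * y * u⁻¹⁆ := by
    simp only [commutatorElement_def]; group
  have e2 : u * x * u⁻¹ = x := by rw [h1.eq, mul_inv_cancel_right]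
  have e3 : u * y * u⁻¹ = ⁅u, y⁆ * y := by simp only [commutatorElement_def]; group
  have e4 : ⁅x, ⁅u, y⁆ * y⁆ = ⁅x, y⁆ := by
    have e5 : ⁅x, ⁅u, y⁆ * y⁆ = ⁅x, ⁅u, y⁆⁆ * (⁅u, y⁆ * ⁅x, y⁆ * ⁅u, y⁆⁻¹) := by
      simp only [commutatorElement_def]; group
    rw [e5, commutatorElement_eq_one_iff_commute.2 h2.symm, one_mul,
      (h5_commute_comm h2.symm h3.symm).symm.eq, mul_inv_cancel_right]
  rw [e2, e3, e4] at e1
  exact (mul_inv_eq_iff_eq_mul.1 e1).symm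

theorem h5_comm_prod {c c' h k : G} (h1 : Commute c c') (h2 : Commute c k) (h3 : Commute h c')
    (h4 : Commute h k) : ⁅c * c', h * k⁆ = ⁅c, h⁆ * ⁅c', k⁆ := by
  have a1 : ⁅c', h * k⁆ = ⁅c', k⁆ := by
    rw [h5_comm_mul_right, commutatorElement_eq_one_iff_commute.2 h3.symm, one_mul]
    exact (h5_commute_comm h3.symm h4.symm).symm
  have a2 : ⁅c, h * k⁆ = ⁅c, h⁆ := by
    rw [h5_comm_mul_right, commutatorElement_eq_one_iff_commute.2 h2, mul_one]
    rw [commutatorElement_eq_one_iff_commute.2 h2]; exact Commute.one_right _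
  rw [h5_comm_mul_left, a1, a2]
  · rw [a1]; exact (h5_commute_comm h1.symm h2.symm).symm
  · rw [a1, a2]
    exact h5_commute_comm (h5_commute_comm h1.symm h2.symm).symm (h5_commute_comm h3.symm h4.symm).symm

namespace Base

variable (B : Base G)

theorem dd (x : G) : MulAut.conj B.δ (MulAut.conj B.δ x) = x := by
  have h : MulAut.conj B.δ (MulAut.conj B.δ x) = MulAut.conj (B.δ * B.δ) x := by
    rw [map_mul]; rfl
  rw [h, B.δ_sq, map_one]; rfl

theorem d_comm {x y : G} (h : Commute x y) :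
    Commute (MulAut.conj B.δ x) (MulAut.conj B.δ y) := h.map (MulAut.conj B.δ)

theorem d_c (x y : G) : MulAut.conj B.δ ⁅x, y⁆ = ⁅MulAut.conj B.δ x, MulAut.conj B.δ y⁆ :=
  map_commutatorElement _ _ _

theorem th_inv {r : G × G} (hr : r ∈ B.Γ) : r.1⁻¹ = r.1 :=
  inv_eq_of_mul_eq_one_right (B.th_sq r hr)

theorem sw_zero (x : G) : B.sw 0 x = x := by simp [Eng.sw]

theorem sw_one (x : G) : B.sw 1 x = MulAut.conj B.δ x := by simp [Eng.sw]

/-- letters -/
def lt (a : G) : Set G := {x | ∃ g ∈ B.Cst, ∃ i : Fin 2, x = B.sw i (g * a * g⁻¹)}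

theorem Ac_lt {a w : G} (hw : w ∈ B.Ac MulAut.conj a) : w ∈ Subgroup.closure (B.lt a) := by
  have : B.Ac MulAut.conj a ≤ Subgroup.closure (B.lt a) := by
    refine (Subgroup.closure_le _).2 ?_
    rintro p ⟨g, hg, rfl⟩
    refine Subgroup.subset_closure ⟨g, hg, 0, ?_⟩
    rw [sw_zero]; rfl
  exact this hw

theorem Ac_lt' {a w : G} (hw : w ∈ B.Ac MulAut.conj a) :
    MulAut.conj B.δ w ∈ Subgroup.closure (B.lt a) := by
  have : B.Ac MulAut.conj a ≤ (Subgroup.closure (B.lt a)).comap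
      (MulAut.conj B.δ).toMonoidHom := by
    refine (Subgroup.closure_le _).2 ?_
    rintro p ⟨g, hg, rfl⟩
    refine Subgroup.subset_closure ⟨g, hg, 1, ?_⟩
    rw [sw_one]; rfl
  exact this hw

end Base

namespace AB

variable {B : Base G} {a b : G}

theorem swp (h : AB B a b) : AB B b a where
  Va := h.Vb
  Vb := h.Va
  kA := fun g₁ h1 g₂ h2 g₃ h3 i j k => h5_comm_symm (h.kB g₂ h2 g₁ h1 g₃ h3 j i k)
  kB := fun g₁ h1 g₂ h2 g₃ h3 i j k => h5_comm_symm (h.kA g₂ h2 g₁ h1 g₃ h3 j i k)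
  sy := fun g₁ h1 g₂ h2 i j => by
    have := h.sy g₂ h2 g₁ h1 j i
    rw [← commutatorElement_inv, this, commutatorElement_inv]

/-- base facts -/
theorem base (h : AB B a b) :
    (∀ x ∈ Subgroup.closure (B.lt a), ∀ y ∈ Subgroup.closure (B.lt b),
      ∀ u ∈ Subgroup.closure (B.lt a ∪ B.lt b), Commute ⁅x, y⁆ u) ∧
    (∀ x ∈ Subgroup.closure (B.lt a), ∀ x' ∈ Subgroup.closure (B.lt a),
      ∀ y ∈ Subgroup.closure (B.lt b), ⁅x * x', y⁆ = ⁅x, y⁆ * ⁅x', y⁆) ∧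
    (∀ x ∈ Subgroup.closure (B.lt a), ∀ y ∈ Subgroup.closure (B.lt b),
      ∀ y' ∈ Subgroup.closure (B.lt b), ⁅x, y * y'⁆ = ⁅x, y⁆ * ⁅x, y'⁆) := by
  refine bil_closure _ _ ?_
  rintro s ⟨g₁, h1, i, rfl⟩ t ⟨g₂, h2, j, rfl⟩ u (⟨g₃, h3, k, rfl⟩ | ⟨g₃, h3, k, rfl⟩)
  · exact h.kA g₁ h1 g₂ h2 g₃ h3 i j k
  · exact h.kB g₁ h1 g₂ h2 g₃ h3 i j k

theorem base_a (h : AB B a b) {x y u : G} (hx : x ∈ Subgroup.closure (B.lt a))
    (hy : y ∈ Subgroup.closure (B.lt b)) (hu : u ∈ Subgroup.closure (B.lt a)) :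
    Commute ⁅x, y⁆ u :=
  h.base.1 x hx y hy u (Subgroup.closure_mono Set.subset_union_left hu)

theorem base_b (h : AB B a b) {x y u : G} (hx : x ∈ Subgroup.closure (B.lt a))
    (hy : y ∈ Subgroup.closure (B.lt b)) (hu : u ∈ Subgroup.closure (B.lt b)) :
    Commute ⁅x, y⁆ u :=
  h.base.1 x hx y hy u (Subgroup.closure_mono Set.subset_union_right hu)

/-- (9.1), first step: `A0` commutes with its conjugates by `v = w'`, `w` a constant of `b` -/
theorem n1 (h : AB B a b) {w p q : G} (hw : w ∈ B.Ac MulAut.conj b)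
    (hp : p ∈ B.P0 MulAut.conj a) (hq : q ∈ B.P0 MulAut.conj a) :
    Commute p (MulAut.conj B.δ w * q * (MulAut.conj B.δ w)⁻¹) := by
  set v := MulAut.conj B.δ w with hv
  refine TF h.Va h.Va id (fun q => v * q * v⁻¹) ?_ ?_ ?_ ?_ ?_ p hp q hq
  · intro p _ q _; rfl
  · intro p _ q _; show v * (p * q) * v⁻¹ = v * p * v⁻¹ * (v * q * v⁻¹); group
  · intro g _ p _; rfl
  · intro g hg p _
    have hgv : Commute g v := by
      have := h.Vb.L0_P1 hg (h.Vb.Ac_le hw)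
      rw [MulAut.conj_apply g, mul_inv_eq_iff_eq_mul] at this
      exact this
    have e1 : v * (g * p * g⁻¹) * v⁻¹ = (v * g) * p * (v * g)⁻¹ := by group
    have e2 : g * (v * p * v⁻¹) * g⁻¹ = (g * v) * p * (g * v)⁻¹ := by group
    show v * (g * p * g⁻¹) * v⁻¹ = g * (v * p * v⁻¹) * g⁻¹
    rw [e1, e2, hgv.eq]
  · intro w1 hw1 w2 hw2
    have e : v * w2 * v⁻¹ = ⁅v, w2⁆ * w2 := by simp only [commutatorElement_def]; group
    show Commute w1 (v * w2 * v⁻¹)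
    rw [e]
    exact (h5_comm_symm (h.base_a (B.Ac_lt hw2) (B.Ac_lt' hw) (B.Ac_lt hw1))).symm.mul_right
      (h.Va.Ac_comm hw1 hw2)

theorem L1_P0' (V : VData B MulAut.conj a) {g : G} (hg : g ∈ B.L0) {p : G}
    (hp : p ∈ B.P0 MulAut.conj a) : Commute (MulAut.conj B.δ g) p := by
  have := V.L1_P0 hg hp
  rw [MulAut.conj_apply, mul_inv_eq_iff_eq_mul] at this
  exact this

theorem L0_P1' (V : VData B MulAut.conj a) {g : G} (hg : g ∈ B.L0) {p : G}
    (hp : p ∈ B.P0 MulAut.conj a) : Commute g (MulAut.conj B.δ p) := by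
  have := V.L0_P1 hg hp
  rw [MulAut.conj_apply g, mul_inv_eq_iff_eq_mul] at this
  exact this

/-- (9.1) for generators of `B1` -/
theorem n1g (h : AB B a b) {k p q : G} (hk : k ∈ B.L0)
    (hp : p ∈ B.P0 MulAut.conj a) (hq : q ∈ B.P0 MulAut.conj a) :
    Commute p (MulAut.conj B.δ (MulAut.conj k b) * q *
      (MulAut.conj B.δ (MulAut.conj k b))⁻¹) := by
  have h1 := h.n1 h.Vb.c_mem hp hq
  have h2 := h1.map (MulAut.conj (MulAut.conj B.δ k))
  have ep := (L1_P0' h.Va hk hp)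
  have eq := (L1_P0' h.Va hk hq)
  have ep' : MulAut.conj (MulAut.conj B.δ k) p = p := by
    rw [MulAut.conj_apply _ p, ep.eq, mul_inv_cancel_right]
  have eq' : MulAut.conj (MulAut.conj B.δ k) q = q := by
    rw [MulAut.conj_apply _ q, eq.eq, mul_inv_cancel_right]
  rw [map_mul, map_mul, map_inv, ep', eq'] at h2
  have e3 : MulAut.conj (MulAut.conj B.δ k) (MulAut.conj B.δ b) =
      MulAut.conj B.δ (MulAut.conj k b) := by
    simp only [MulAut.conj_apply]; group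
  rwa [e3] at h2

theorem n1c (h : AB B a b) {k l p : G} (hk : k ∈ B.L0) (hl : l ∈ B.L0)
    (hp : p ∈ B.P0 MulAut.conj a) :
    Commute ⁅MulAut.conj k a, MulAut.conj B.δ (MulAut.conj l b)⁆ p := by
  have hs : MulAut.conj k a ∈ B.P0 MulAut.conj a := Subgroup.subset_closure ⟨k, hk, rfl⟩
  have h1 := h.n1g hl hp (inv_mem hs)
  have e : ⁅MulAut.conj k a, MulAut.conj B.δ (MulAut.conj l b)⁆ =
      MulAut.conj k a * (MulAut.conj B.δ (MulAut.conj l b) * (MulAut.conj k a)⁻¹ *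
        (MulAut.conj B.δ (MulAut.conj l b))⁻¹) := by
    simp only [commutatorElement_def]; group
  rw [e]
  exact (h.Va.P0_comm hs hp).mul_left h1.symm

theorem n1d (h : AB B a b) {k l p : G} (hk : k ∈ B.L0) (hl : l ∈ B.L0)
    (hp : p ∈ B.P0 MulAut.conj b) :
    Commute ⁅MulAut.conj k a, MulAut.conj B.δ (MulAut.conj l b)⁆ (MulAut.conj B.δ p) := by
  have h1 := B.d_comm (h.swp.n1c hl hk hp)
  rw [B.d_c, B.dd] at h1
  exact h5_comm_symm h1

/-- (9.1) -/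
theorem n1b (h : AB B a b) :
    (∀ x ∈ B.P0 MulAut.conj a, ∀ y ∈ B.P0 MulAut.conj b, ∀ u ∈ B.P0 MulAut.conj a,
      Commute ⁅x, MulAut.conj B.δ y⁆ u) ∧
    (∀ x ∈ B.P0 MulAut.conj a, ∀ y ∈ B.P0 MulAut.conj b, ∀ u ∈ B.P0 MulAut.conj b,
      Commute ⁅x, MulAut.conj B.δ y⁆ (MulAut.conj B.δ u)) ∧
    (∀ x ∈ B.P0 MulAut.conj a, ∀ x' ∈ B.P0 MulAut.conj a, ∀ y ∈ B.P0 MulAut.conj b,
      ⁅x * x', MulAut.conj B.δ y⁆ = ⁅x, MulAut.conj B.δ y⁆ * ⁅x', MulAut.conj B.δ y⁆) ∧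
    (∀ x ∈ B.P0 MulAut.conj a, ∀ y ∈ B.P0 MulAut.conj b, ∀ y' ∈ B.P0 MulAut.conj b,
      ⁅x, MulAut.conj B.δ (y * y')⁆ = ⁅x, MulAut.conj B.δ y⁆ * ⁅x, MulAut.conj B.δ y'⁆) := by
  set S : Set G := {p | ∃ g ∈ B.L0, p = MulAut.conj g a} with hS
  set T : Set G := (MulAut.conj B.δ).toMonoidHom '' {p | ∃ g ∈ B.L0, p = MulAut.conj g b} with hT
  have hcS : B.P0 MulAut.conj a = Subgroup.closure S := rfl
  have hcT : (B.P0 MulAut.conj b).map (MulAut.conj B.δ).toMonoidHom = Subgroup.closure T := by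
    rw [hT, ← MonoidHom.map_closure]; rfl
  have hmT : ∀ y ∈ B.P0 MulAut.conj b, MulAut.conj B.δ y ∈ Subgroup.closure T := by
    intro y hy
    rw [← hcT]
    exact ⟨y, hy, rfl⟩
  have hb := bil_closure S T (by
    rintro s ⟨k, hk, rfl⟩ t ⟨t', ⟨l, hl, rfl⟩, rfl⟩ u hu
    have hu' : u ∈ Subgroup.closure S ∨ u ∈ Subgroup.closure T := by
      rcases hu with hu | hu
      · exact Or.inl (Subgroup.subset_closure hu)
      · exact Or.inr (Subgroup.subset_closure hu)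
    rcases hu' with hu | hu
    · exact h.n1c hk hl hu
    · rw [← hcT] at hu
      obtain ⟨p, hp, rfl⟩ := hu
      exact h.n1d hk hl hp)
  obtain ⟨h1, h2, h3⟩ := hb
  refine ⟨fun x hx y hy u hu => ?_, fun x hx y hy u hu => ?_, fun x hx x' hx' y hy => ?_,
    fun x hx y hy y' hy' => ?_⟩
  · exact h1 x hx _ (hmT y hy) u (Subgroup.closure_mono Set.subset_union_left hu)
  · exact h1 x hx _ (hmT y hy) _ (Subgroup.closure_mono Set.subset_union_right (hmT u hu))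
  · exact h2 x hx x' hx' _ (hmT y hy)
  · rw [map_mul]
    exact h3 x hx _ (hmT y hy) _ (hmT y' hy')

/-- (9.2) -/
theorem n2 (h : AB B a b) {x y p : G} (hx : x ∈ B.P0 MulAut.conj a)
    (hy : y ∈ B.P0 MulAut.conj b) (hp : p ∈ B.P0 MulAut.conj b) :
    Commute ⁅x, MulAut.conj B.δ y⁆ p := by
  obtain ⟨h1, h1', h2, h3⟩ := h.n1b
  -- step 1: `y = b`
  have s1 : ∀ x ∈ B.P0 MulAut.conj a, ∀ p ∈ B.P0 MulAut.conj b,
      Commute ⁅x, MulAut.conj B.δ b⁆ p := by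
    have hb : b ∈ B.P0 MulAut.conj b := h.Vb.Ac_le h.Vb.c_mem
    refine TF h.Va h.Vb (fun x => ⁅x, MulAut.conj B.δ b⁆) id ?_ ?_ ?_ ?_ ?_
    · intro p hp q hq; exact h2 p hp q hq b hb
    · intro p _ q _; rfl
    · intro g hg p hp
      have hgv := L0_P1' h.Vb hg hb
      have e : g * ⁅p, MulAut.conj B.δ b⁆ * g⁻¹ =
          ⁅g * p * g⁻¹, g * MulAut.conj B.δ b * g⁻¹⁆ := by
        simp only [commutatorElement_def]; group
      show ⁅g * p * g⁻¹, MulAut.conj B.δ b⁆ = g * ⁅p, MulAut.conj B.δ b⁆ * g⁻¹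
      rw [e, hgv.eq, mul_inv_cancel_right]
    · intro g _ p _; rfl
    · intro w hw w' hw'
      exact h.base_b (B.Ac_lt hw) (B.Ac_lt' h.Vb.c_mem) (B.Ac_lt hw')
  -- step 2: generators
  have s2 : ∀ k ∈ B.L0, ∀ x ∈ B.P0 MulAut.conj a, ∀ p ∈ B.P0 MulAut.conj b,
      Commute ⁅x, MulAut.conj B.δ (MulAut.conj k b)⁆ p := by
    intro k hk x hx p hp
    have g1 := (s1 x hx p hp).map (MulAut.conj (MulAut.conj B.δ k))
    have ep' : MulAut.conj (MulAut.conj B.δ k) p = p := by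
      rw [MulAut.conj_apply _ p, (L1_P0' h.Vb hk hp).eq, mul_inv_cancel_right]
    have eq' : MulAut.conj (MulAut.conj B.δ k) x = x := by
      rw [MulAut.conj_apply _ x, (L1_P0' h.Va hk hx).eq, mul_inv_cancel_right]
    have e3 : MulAut.conj (MulAut.conj B.δ k) (MulAut.conj B.δ b) =
        MulAut.conj B.δ (MulAut.conj k b) := by
      simp only [MulAut.conj_apply]; group
    rwa [map_commutatorElement, ep', eq', e3] at g1
  -- step 3: products
  have s3 : ∀ y ∈ B.P0 MulAut.conj b, ∀ x ∈ B.P0 MulAut.conj a, ∀ p ∈ B.P0 MulAut.conj b,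
      Commute ⁅x, MulAut.conj B.δ y⁆ p := by
    intro y hy
    refine Subgroup.closure_induction (p := fun y _ => ∀ x ∈ B.P0 MulAut.conj a,
      ∀ p ∈ B.P0 MulAut.conj b, Commute ⁅x, MulAut.conj B.δ y⁆ p) ?_ ?_ ?_ ?_ hy
    · rintro y ⟨k, hk, rfl⟩
      exact s2 k hk
    · intro x _ p _
      rw [map_one, commutatorElement_one_right]; exact Commute.one_left _
    · intro y y' hy hy' iy iy' x hx p hp
      rw [h3 x hx y hy y' hy']
      exact (iy x hx p hp).mul_left (iy' x hx p hp)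
    · intro y hy iy x hx p hp
      rw [map_inv, h5_comm_inv_right (h1' x hx y hy y hy).symm]
      exact (iy x hx p hp).inv_left
  exact s3 y hy x hx p hp

theorem n2' (h : AB B a b) {x y p : G} (hx : x ∈ B.P0 MulAut.conj a)
    (hy : y ∈ B.P0 MulAut.conj b) (hp : p ∈ B.P0 MulAut.conj a) :
    Commute ⁅x, MulAut.conj B.δ y⁆ (MulAut.conj B.δ p) := by
  have h1 := B.d_comm (h.swp.n2 hy hx hp)
  rw [B.d_c, B.dd] at h1
  exact h5_comm_symm h1

end AB

end Pool.Agent.H86.FS
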