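import Pool.Agent.H86.FS.S9A

/-!
# Section 9, part B: (9.3), (9.4)
-/

set_option autoImplicit false

open scoped commutatorElement

namespace Pool.Agent.H86.FS

variable {G : Type*} [Group G]

/-- the set `A0 ∪ A1 ∪ B0 ∪ B1` -/
def NS (B : Base G) (a b : G) : Set G :=
  {u | ∃ p, (p ∈ B.P0 MulAut.conj a ∨ p ∈ B.P0 MulAut.conj b) ∧
    (u = p ∨ u = MulAut.conj B.δ p)}

/-- its centralizer -/
def Cn (B : Base G) (a b : G) : Subgroup G := Subgroup.centralizer (NS B a b)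

theorem mem_Cn {B : Base G} {a b z : G} : z ∈ Cn B a b ↔
    ∀ p, (p ∈ B.P0 MulAut.conj a ∨ p ∈ B.P0 MulAut.conj b) →
      Commute z p ∧ Commute z (MulAut.conj B.δ p) := by
  rw [Cn, Subgroup.mem_centralizer_iff]
  constructor
  · intro h p hp
    exact ⟨(h p ⟨p, hp, Or.inl rfl⟩).symm, (h _ ⟨p, hp, Or.inr rfl⟩).symm⟩
  · rintro h u ⟨p, hp, rfl | rfl⟩
    · exact (h _ hp).1.eq.symm
    · exact (h p hp).2.eq.symm

theorem Cn_swp {B : Base G} {a b z : G} (h : z ∈ Cn B a b) : z ∈ Cn B b a :=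
  mem_Cn.2 fun p hp => mem_Cn.1 h p hp.symm

theorem Cn_d {B : Base G} {a b z : G} (h : z ∈ Cn B a b) : MulAut.conj B.δ z ∈ Cn B a b := by
  refine mem_Cn.2 fun p hp => ?_
  obtain ⟨h1, h2⟩ := mem_Cn.1 h p hp
  refine ⟨?_, B.d_comm h1⟩
  have := B.d_comm h2
  rwa [B.dd] at this

namespace AB

variable {B : Base G} {a b : G}

/-- mixed commutators are central -/
theorem mix (h : AB B a b) {x y : G} (hx : x ∈ B.P0 MulAut.conj a)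
    (hy : y ∈ B.P0 MulAut.conj b) : ⁅x, MulAut.conj B.δ y⁆ ∈ Cn B a b := by
  refine mem_Cn.2 fun p hp => ?_
  rcases hp with hp | hp
  · exact ⟨h.n1b.1 x hx y hy p hp, h.n2' hx hy hp⟩
  · exact ⟨h.n2 hx hy hp, h.n1b.2.1 x hx y hy p hp⟩

theorem mix' (h : AB B a b) {x y : G} (hx : x ∈ B.P0 MulAut.conj a)
    (hy : y ∈ B.P0 MulAut.conj b) : ⁅MulAut.conj B.δ x, y⁆ ∈ Cn B a b := by
  have := Cn_d (h.mix hx hy)
  rwa [B.d_c, B.dd] at this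

/-- (9.3) -/
theorem n3 (h : AB B a b) {x y p : G} (hx : x ∈ B.P0 MulAut.conj a)
    (hy : y ∈ B.P0 MulAut.conj b) (hp : p ∈ B.P0 MulAut.conj a) :
    Commute ⁅x, y⁆ (MulAut.conj B.δ p) := by
  have hm := mem_Cn.1 (h.mix' hp hy)
  exact h5_comm_aux (h.Va.P0_P1 hx hp).symm (hm x (Or.inl hx)).1 (hm y (Or.inr hy)).1

theorem n3' (h : AB B a b) {x y p : G} (hx : x ∈ B.P0 MulAut.conj a)
    (hy : y ∈ B.P0 MulAut.conj b)
    (hp : p ∈ B.P0 MulAut.conj a ∨ p ∈ B.P0 MulAut.conj b) :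
    Commute ⁅x, y⁆ (MulAut.conj B.δ p) := by
  rcases hp with hp | hp
  · exact h.n3 hx hy hp
  · exact h5_comm_symm (h.swp.n3 hy hx hp)

theorem n3d (h : AB B a b) {x y p : G} (hx : x ∈ B.P0 MulAut.conj a)
    (hy : y ∈ B.P0 MulAut.conj b)
    (hp : p ∈ B.P0 MulAut.conj a ∨ p ∈ B.P0 MulAut.conj b) :
    Commute ⁅MulAut.conj B.δ x, MulAut.conj B.δ y⁆ p := by
  have := B.d_comm (h.n3' hx hy hp)
  rwa [B.d_c, B.dd] at this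

/-- `⁅x, y⁆` for `x ∈ A0`, `y ∈ B0` commutes with `⁅x', y'⁆`, `x' ∈ A1`, `y' ∈ B1` -/
theorem n3e (h : AB B a b) {x y x' y' : G} (hx : x ∈ B.P0 MulAut.conj a)
    (hy : y ∈ B.P0 MulAut.conj b) (hx' : x' ∈ B.P0 MulAut.conj a)
    (hy' : y' ∈ B.P0 MulAut.conj b) :
    Commute ⁅x, y⁆ ⁅MulAut.conj B.δ x', MulAut.conj B.δ y'⁆ :=
  (h5_commute_comm (h.n3' hx hy (Or.inl hx')).symm (h.n3' hx hy (Or.inr hy')).symm).symm

/-- expansion of `⁅x x₃', y y₃'⁆` -/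
theorem exp4 (h : AB B a b) {x x₃ y y₃ : G} (hx : x ∈ B.P0 MulAut.conj a)
    (hy : y ∈ B.P0 MulAut.conj b) (hx₃ : x₃ ∈ B.P0 MulAut.conj a)
    (hy₃ : y₃ ∈ B.P0 MulAut.conj b) :
    ⁅x * MulAut.conj B.δ x₃, y * MulAut.conj B.δ y₃⁆ =
      (⁅x, y⁆ * MulAut.conj B.δ ⁅x₃, y₃⁆) * (⁅x, MulAut.conj B.δ y₃⁆ *
        ⁅MulAut.conj B.δ x₃, y⁆) := by
  have m1 := mem_Cn.1 (h.mix hx hy₃)
  have m2 := mem_Cn.1 (h.mix' hx₃ hy)
  have e1 : ⁅x, y * MulAut.conj B.δ y₃⁆ = ⁅x, y⁆ * ⁅x, MulAut.conj B.δ y₃⁆ :=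
    h5_comm_mul_right (m1 y (Or.inr hy)).1.symm
  have e2 : ⁅MulAut.conj B.δ x₃, y * MulAut.conj B.δ y₃⁆ =
      ⁅MulAut.conj B.δ x₃, y⁆ * MulAut.conj B.δ ⁅x₃, y₃⁆ := by
    rw [B.d_c]
    exact h5_comm_mul_right (h.n3d hx₃ hy₃ (Or.inr hy)).symm
  -- commutations
  have c1 : Commute x (⁅MulAut.conj B.δ x₃, y⁆ * MulAut.conj B.δ ⁅x₃, y₃⁆) := by
    rw [B.d_c]
    exact (m2 x (Or.inl hx)).1.symm.mul_right (h.n3d hx₃ hy₃ (Or.inl hx)).symm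
  have z1 : ∀ z, z ∈ Cn B a b → Commute z ⁅x, y⁆ := fun z hz =>
    (h5_commute_comm (mem_Cn.1 hz x (Or.inl hx)).1.symm (mem_Cn.1 hz y (Or.inr hy)).1.symm).symm
  have h5_z2 : ∀ z, z ∈ Cn B a b → Commute z (MulAut.conj B.δ ⁅x₃, y₃⁆) := fun z hz => by
    rw [B.d_c]
    exact (h5_commute_comm (mem_Cn.1 hz x₃ (Or.inl hx₃)).2.symm
      (mem_Cn.1 hz y₃ (Or.inr hy₃)).2.symm).symm
  have z3 : ∀ z, z ∈ Cn B a b → Commute z ⁅x, MulAut.conj B.δ y₃⁆ := fun z hz =>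
    (h5_commute_comm (mem_Cn.1 hz x (Or.inl hx)).1.symm (mem_Cn.1 hz y₃ (Or.inr hy₃)).2.symm).symm
  have c3 : Commute ⁅x, y⁆ (MulAut.conj B.δ ⁅x₃, y₃⁆) := by
    rw [B.d_c]
    exact h.n3e hx hy hx₃ hy₃
  have hm1 := h.mix hx hy₃
  have hm2 := h.mix' hx₃ hy
  have c2 : Commute (⁅x, y⁆ * ⁅x, MulAut.conj B.δ y₃⁆)
      (⁅MulAut.conj B.δ x₃, y⁆ * MulAut.conj B.δ ⁅x₃, y₃⁆) :=
    ((z1 _ hm2).symm.mul_left (z3 _ hm2).symm).mul_right (c3.mul_left (h5_z2 _ hm1))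
  rw [h5_comm_mul_left (by rw [e2]; exact c1) (by rw [e1, e2]; exact c2), e1, e2]
  have k1 := h5_z2 _ hm1
  have k2 := h5_z2 _ hm2
  -- (c * m1) * (m2 * c') = (c * c') * (m1 * m2)
  set c := ⁅x, y⁆
  set c' := MulAut.conj B.δ ⁅x₃, y₃⁆
  set u := ⁅x, MulAut.conj B.δ y₃⁆
  set v := ⁅MulAut.conj B.δ x₃, y⁆
  calc c * u * (v * c') = c * (u * (v * c')) := by group
    _ = c * (u * (c' * v)) := by rw [k2.eq]
    _ = c * ((u * c') * v) := by group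
    _ = c * ((c' * u) * v) := by rw [k1.eq]
    _ = _ := by group

end AB

end Pool.Agent.H86.FS
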