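import Pool.Agent.H86.FS.S9B

/-!
# Section 9, part C: (9.4)
-/

set_option autoImplicit false

open scoped commutatorElement

namespace Pool.Agent.H86.FS

variable {G : Type*} [Group G]

theorem Cn_comm {B : Base G} {a b z x y : G} (hz : z ∈ Cn B a b) (hx : x ∈ B.P0 MulAut.conj a)
    (hy : y ∈ B.P0 MulAut.conj b) : Commute z ⁅x, y⁆ :=
  (h5_commute_comm (mem_Cn.1 hz x (Or.inl hx)).1.symm (mem_Cn.1 hz y (Or.inr hy)).1.symm).symm

theorem h5_conj_mem {H : Type*} [Group H] {K : Subgroup G} {ψ : G →* MulAut H} {S : Subgroup H}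
    (hS : ∀ g ∈ K, ∀ p ∈ S, ψ g p ∈ S) {g : G} (hg : g ∈ K) {p : H} (hp : p ∈ S) :
    ∃ q ∈ S, p = ψ g q := by
  refine ⟨ψ g⁻¹ p, hS g⁻¹ (inv_mem hg) p hp, ?_⟩
  rw [← MulAut.mul_apply, ← map_mul, mul_inv_cancel, map_one, MulAut.one_apply]

theorem h5_z5 (Z m : G) : MulAut.conj Z (MulAut.conj Z (MulAut.conj Z (MulAut.conj Z
    (MulAut.conj Z m)))) = MulAut.conj (Z ^ 5) m := by
  simp only [pow_succ, pow_zero, one_mul, map_mul, MulAut.mul_apply]

theorem h5_z2 (Z m : G) : MulAut.conj Z (MulAut.conj Z m) = MulAut.conj (Z ^ 2) m := by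
  simp only [pow_succ, pow_zero, one_mul, map_mul, MulAut.mul_apply]

theorem h5_commute_conj_fix {g x : G} (h : Commute g x) : MulAut.conj g x = x := by
  rw [MulAut.conj_apply, h.eq, mul_inv_cancel_right]

theorem h5_conj_fix_commute {g x : G} (h : MulAut.conj g x = x) : Commute g x := by
  rw [MulAut.conj_apply, mul_inv_eq_iff_eq_mul] at h
  exact h

namespace AB

variable {B : Base G} {a b : G}

theorem th_fix (h : AB B a b) {r : G × G} (hr : r ∈ B.Γ) {x y : G}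
    (hx : x ∈ B.P0 MulAut.conj a) (hy : y ∈ B.P0 MulAut.conj b) :
    MulAut.conj r.1 ⁅x * MulAut.conj B.δ x, y * MulAut.conj B.δ y⁆ =
      ⁅x * MulAut.conj B.δ x, y * MulAut.conj B.δ y⁆ := by
  rw [map_commutatorElement, h.Va.P0_th hr hx, h.Vb.P0_th hr hy]

theorem k_eq (h : AB B a b) {r : G × G} (hr : r ∈ B.Γ) {w w2 p : G}
    (hw : w ∈ B.P0 MulAut.conj a) (hw2 : w2 ∈ B.P0 MulAut.conj b)
    (hp : p ∈ B.P0 MulAut.conj a) (hc : Commute ⁅w, w2⁆ p) :
    ⁅⁅w, w2⁆, p * B.e MulAut.conj r p⁆ *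
      MulAut.conj B.δ ⁅⁅w, w2⁆, B.e MulAut.conj r p⁆ = 1 := by
  have he := h.Va.e_mem hr hp
  set e := B.e MulAut.conj r p with hedef
  have hx4 := h.exp4 hw hw2 hw hw2
  set m := ⁅w, MulAut.conj B.δ w2⁆ * ⁅MulAut.conj B.δ w, w2⁆ with hm
  have hmC : m ∈ Cn B a b := mul_mem (h.mix hw hw2) (h.mix' hw hw2)
  -- commutes with `p`
  have c1 : Commute ⁅w * MulAut.conj B.δ w, w2 * MulAut.conj B.δ w2⁆ p := by
    rw [hx4]
    refine Commute.mul_left (Commute.mul_left hc ?_) (mem_Cn.1 hmC p (Or.inl hp)).1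
    rw [B.d_c]
    exact h.n3d hw hw2 (Or.inl hp)
  have c2 := c1.map (MulAut.conj r.1)
  rw [h.th_fix hr hw hw2, h.Va.e_th hr hp, hx4] at c2
  have c3 : Commute m (p * e * MulAut.conj B.δ e) :=
    (((mem_Cn.1 hmC p (Or.inl hp)).1.mul_right (mem_Cn.1 hmC e (Or.inl he)).1).mul_right
      (mem_Cn.1 hmC e (Or.inl he)).2)
  have c4 : Commute (⁅w, w2⁆ * MulAut.conj B.δ ⁅w, w2⁆) (p * e * MulAut.conj B.δ e) := by
    have := c2.mul_left c3.inv_left
    rwa [mul_inv_cancel_right] at this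
  have hpe : p * e ∈ B.P0 MulAut.conj a := mul_mem hp he
  have c5 := h5_comm_prod (c := ⁅w, w2⁆) (c' := MulAut.conj B.δ ⁅w, w2⁆) (h := p * e)
    (k := MulAut.conj B.δ e) ?_ ?_ ?_ ?_
  · rw [← commutatorElement_eq_one_iff_commute, c5] at c4
    rw [B.d_c]
    exact c4
  · rw [B.d_c]; exact h.n3e hw hw2 hw hw2
  · exact h.n3' hw hw2 (Or.inl he)
  · rw [B.d_c]; exact (h.n3d hw hw2 (Or.inl hpe)).symm
  · exact h.Va.P0_P1 hpe he

theorem k_comm (h : AB B a b) {x y p q : G} (hx : x ∈ B.P0 MulAut.conj a)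
    (hy : y ∈ B.P0 MulAut.conj b) (hp : p ∈ B.P0 MulAut.conj a)
    (hq : q ∈ B.P0 MulAut.conj a ∨ q ∈ B.P0 MulAut.conj b) :
    Commute ⁅⁅x, y⁆, p⁆ (MulAut.conj B.δ q) := by
  rcases hq with hq | hq
  · exact h5_commute_comm (h.n3 hx hy hq) (h.Va.P0_P1 hp hq)
  · have hm : ⁅MulAut.conj B.δ q, p⁆ ∈ Cn B a b := by
      have := inv_mem (h.mix hp hq)
      rwa [commutatorElement_inv] at this
    exact h5_comm_aux (h.n3' hx hy (Or.inr hq)).symm (Cn_comm hm hx hy) (mem_Cn.1 hm p (Or.inl hp)).1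

theorem k_Cn (h : AB B a b) {r : G × G} (hr : r ∈ B.Γ) {w w2 p : G}
    (hw : w ∈ B.P0 MulAut.conj a) (hw2 : w2 ∈ B.P0 MulAut.conj b)
    (hp : p ∈ B.P0 MulAut.conj a) (hc : Commute ⁅w, w2⁆ p) :
    ⁅⁅w, w2⁆, p * B.e MulAut.conj r p⁆ ∈ Cn B a b := by
  have he := h.Va.e_mem hr hp
  have hk := h.k_eq hr hw hw2 hp hc
  refine mem_Cn.2 fun q hq => ⟨?_, h.k_comm hw hw2 (mul_mem hp he) hq⟩
  rw [eq_inv_of_mul_eq_one_left hk]
  have := B.d_comm (h.k_comm hw hw2 he hq)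
  rw [B.dd] at this
  exact this.inv_left

/-- (9.4)(i) -/
theorem n4i (h : AB B a b) {w w2 p : G} (hw : w ∈ B.Ac MulAut.conj a)
    (hw2 : w2 ∈ B.Ac MulAut.conj b) (hp : p ∈ B.P0 MulAut.conj a) : Commute ⁅w, w2⁆ p := by
  let Q : Subgroup G :=
    { carrier := {p | p ∈ B.P0 MulAut.conj a ∧ ∀ w ∈ B.Ac MulAut.conj a,
        ∀ w2 ∈ B.Ac MulAut.conj b, Commute ⁅w, w2⁆ p}
      mul_mem' := fun {x y} hx hy => ⟨mul_mem hx.1 hy.1, fun w hw w2 hw2 =>
        (hx.2 w hw w2 hw2).mul_right (hy.2 w hw w2 hw2)⟩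
      one_mem' := ⟨one_mem _, fun w _ w2 _ => Commute.one_right _⟩
      inv_mem' := fun {x} hx => ⟨inv_mem hx.1, fun w hw w2 hw2 => (hx.2 w hw w2 hw2).inv_right⟩ }
  have hQ : B.P0 MulAut.conj a ≤ Q := by
    refine h.Va.P0_ind Q ?_ ?_
    · intro u hu
      exact ⟨h.Va.Ac_le hu, fun w hw w2 hw2 => h.base_a (B.Ac_lt hw) (B.Ac_lt hw2) (B.Ac_lt hu)⟩
    · intro r hr p hp hpQ
      have hZ : B.Z ∈ B.Cst := B.Z_Cst
      have hzQ : ∀ k ∈ Q, MulAut.conj B.Z k ∈ Q := by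
        intro k hk
        refine ⟨h.Va.P0_L0 B.Z_mem hk.1, fun w hw w2 hw2 => ?_⟩
        obtain ⟨v, hv, rfl⟩ := h5_conj_mem (S := B.Ac MulAut.conj a) (K := B.Cst)
          (fun g hg p hp => h.Va.Ac_Cst hg hp) hZ hw
        obtain ⟨v2, hv2, rfl⟩ := h5_conj_mem (S := B.Ac MulAut.conj b) (K := B.Cst)
          (fun g hg p hp => h.Vb.Ac_Cst hg hp) hZ hw2
        have := (hk.2 v hv v2 hv2).map (MulAut.conj B.Z)
        rwa [map_commutatorElement] at this
      have key := W3 (B.Ac MulAut.conj a) (B.Ac MulAut.conj b) Q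
        (MulAut.conj B.Z).toMonoidHom (MulAut.conj B.Z).toMonoidHom (MulAut.conj B.Z).toMonoidHom
        (fun m hm => h.Va.Ac_Cst hZ hm) (fun m hm => h.Vb.Ac_Cst hZ hm) hzQ
        (fun m hm m' hm' => h.Va.Ac_comm hm hm') (fun m hm m' hm' => h.Vb.Ac_comm hm hm')
        (fun m hm m' hm' => h.Va.P0_comm hm.1 hm'.1)
        (fun m hm => h.Va.Ac_sq hm) (fun m hm => h.Vb.Ac_sq hm) (fun m hm => h.Va.P0_sq hm.1)
        (fun m hm => by
          show MulAut.conj B.Z (MulAut.conj B.Z (MulAut.conj B.Z (MulAut.conj B.Z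
            (MulAut.conj B.Z m)))) * MulAut.conj B.Z (MulAut.conj B.Z m) * m = 1
          rw [h5_z5, h5_z2]; exact h.Va.Ac_Phi hm)
        (fun m hm => by
          show MulAut.conj B.Z (MulAut.conj B.Z (MulAut.conj B.Z (MulAut.conj B.Z
            (MulAut.conj B.Z m)))) * MulAut.conj B.Z (MulAut.conj B.Z m) * m = 1
          rw [h5_z5, h5_z2]; exact h.Vb.Ac_Phi hm)
        (fun m hm => by
          show MulAut.conj B.Z (MulAut.conj B.Z (MulAut.conj B.Z (MulAut.conj B.Z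
            (MulAut.conj B.Z m)))) * MulAut.conj B.Z (MulAut.conj B.Z m) * m = 1
          rw [h5_z5, h5_z2]; exact h.Va.P0_Phi hm.1)
        (fun w w2 p => ⁅⁅w, w2⁆, p * B.e MulAut.conj r p⁆)
        (by
          intro m hm m' hm' n hn k hk
          have hk1 := h.k_Cn hr (h.Va.Ac_le hm) (h.Vb.Ac_le hn) hk.1 (hk.2 m hm n hn)
          have hk2 := h.k_Cn hr (h.Va.Ac_le hm') (h.Vb.Ac_le hn) hk.1 (hk.2 m' hm' n hn)
          have he := h.Va.e_mem hr hk.1
          show ⁅⁅m * m', n⁆, k * B.e MulAut.conj r k⁆ = _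
          rw [h.base.2.1 m (B.Ac_lt hm) m' (B.Ac_lt hm') n (B.Ac_lt hn)]
          refine h5_comm_mul_left (Cn_comm hk2 (h.Va.Ac_le hm) (h.Vb.Ac_le hn)).symm ?_
          refine h5_commute_comm (Cn_comm hk2 (h.Va.Ac_le hm) (h.Vb.Ac_le hn)).symm
            (mem_Cn.1 hk2 _ (Or.inl (mul_mem hk.1 he))).1.symm)
        (by
          intro m hm n hn n' hn' k hk
          have hk1 := h.k_Cn hr (h.Va.Ac_le hm) (h.Vb.Ac_le hn) hk.1 (hk.2 m hm n hn)
          have hk2 := h.k_Cn hr (h.Va.Ac_le hm) (h.Vb.Ac_le hn') hk.1 (hk.2 m hm n' hn')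
          have he := h.Va.e_mem hr hk.1
          show ⁅⁅m, n * n'⁆, k * B.e MulAut.conj r k⁆ = _
          rw [h.base.2.2 m (B.Ac_lt hm) n (B.Ac_lt hn) n' (B.Ac_lt hn')]
          refine h5_comm_mul_left (Cn_comm hk2 (h.Va.Ac_le hm) (h.Vb.Ac_le hn)).symm ?_
          refine h5_commute_comm (Cn_comm hk2 (h.Va.Ac_le hm) (h.Vb.Ac_le hn)).symm
            (mem_Cn.1 hk2 _ (Or.inl (mul_mem hk.1 he))).1.symm)
        (by
          intro m hm n hn k hk k' hk'
          have hk2 := h.k_Cn hr (h.Va.Ac_le hm) (h.Vb.Ac_le hn) hk'.1 (hk'.2 m hm n hn)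
          have he := h.Va.e_mem hr hk.1
          have he' := h.Va.e_mem hr hk'.1
          show ⁅⁅m, n⁆, k * k' * B.e MulAut.conj r (k * k')⁆ = _
          rw [h.Va.e_mul hr hk.1 hk'.1]
          have e1 : k * k' * (B.e MulAut.conj r k * B.e MulAut.conj r k') =
              (k * B.e MulAut.conj r k) * (k' * B.e MulAut.conj r k') := by
            have := (h.Va.P0_comm hk'.1 he).eq
            calc _ = k * (k' * B.e MulAut.conj r k) * B.e MulAut.conj r k' := by group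
              _ = k * (B.e MulAut.conj r k * k') * B.e MulAut.conj r k' := by rw [this]
              _ = _ := by group
          rw [e1]
          exact h5_comm_mul_right (mem_Cn.1 hk2 _ (Or.inl (mul_mem hk.1 he))).1.symm)
        (by
          intro m hm n hn k hk
          have he := h.Va.e_mem hr hk.1
          show ⁅⁅MulAut.conj B.Z m, MulAut.conj B.Z n⁆,
            MulAut.conj B.Z k * B.e MulAut.conj r (MulAut.conj B.Z k)⁆ =
            ⁅⁅m, n⁆, k * B.e MulAut.conj r k⁆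
          rw [h.Va.e_Cst hr hZ hk.1, ← map_commutatorElement, ← map_mul, ← map_commutatorElement]
          have hk1 := h.k_eq hr (h.Va.Ac_le hm) (h.Vb.Ac_le hn) hk.1 (hk.2 m hm n hn)
          rw [eq_inv_of_mul_eq_one_left hk1]
          apply h5_commute_conj_fix
          refine Commute.inv_right ?_
          rw [B.d_c, B.d_c]
          exact (h5_commute_comm (h5_commute_comm (L0_P1' h.Va B.Z_mem (h.Va.Ac_le hm)).symm
            (L0_P1' h.Vb B.Z_mem (h.Vb.Ac_le hn)).symm) (L0_P1' h.Va B.Z_mem he).symm).symm)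
      have he := h.Va.e_mem hr hp
      have h0 : p * B.e MulAut.conj r p ∈ Q := by
        refine ⟨mul_mem hp he, fun w hw w2 hw2 => ?_⟩
        rw [← commutatorElement_eq_one_iff_commute]
        exact key w hw w2 hw2 p hpQ
      have := mul_mem (inv_mem hpQ) h0
      rwa [inv_mul_cancel_left] at this
  exact (hQ hp).2 w hw w2 hw2

theorem n4i' (h : AB B a b) {w w2 p : G} (hw : w ∈ B.Ac MulAut.conj a)
    (hw2 : w2 ∈ B.Ac MulAut.conj b)
    (hp : p ∈ B.P0 MulAut.conj a ∨ p ∈ B.P0 MulAut.conj b) : Commute ⁅w, w2⁆ p := by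
  rcases hp with hp | hp
  · exact h.n4i hw hw2 hp
  · exact h5_comm_symm (h.swp.n4i hw2 hw hp)

end AB

end Pool.Agent.H86.FS
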