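import Pool.Agent.H86.FS.S9C

/-!
# Section 9, part D: (9.4)(ii), (iii), class 2
-/

set_option autoImplicit false

open scoped commutatorElement

namespace Pool.Agent.H86.FS

variable {G : Type*} [Group G]

/-- `A0 ∪ B0` -/
def AorB (B : Base G) (a b : G) (p : G) : Prop :=
  p ∈ B.P0 MulAut.conj a ∨ p ∈ B.P0 MulAut.conj b

namespace AB

variable {B : Base G} {a b : G}

theorem th_split (h : AB B a b) {r : G × G} (hr : r ∈ B.Γ) {p : G} (hp : AorB B a b p) :
    ∃ u v, AorB B a b u ∧ AorB B a b v ∧ MulAut.conj r.1 p = u * MulAut.conj B.δ v := by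
  rcases hp with hp | hp
  · exact ⟨_, _, Or.inl (mul_mem hp (h.Va.e_mem hr hp)), Or.inl (h.Va.e_mem hr hp),
      h.Va.e_th hr hp⟩
  · exact ⟨_, _, Or.inr (mul_mem hp (h.Vb.e_mem hr hp)), Or.inr (h.Vb.e_mem hr hp),
      h.Vb.e_th hr hp⟩

theorem th_Cn (h : AB B a b) {r : G × G} (hr : r ∈ B.Γ) {z : G} (hz : z ∈ Cn B a b) {p : G}
    (hp : AorB B a b p) : Commute (MulAut.conj r.1 z) p := by
  obtain ⟨u, v, hu, hv, e⟩ := h.th_split hr hp
  have c1 : Commute z (MulAut.conj r.1 p) := by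
    rw [e]; exact (mem_Cn.1 hz u hu).1.mul_right (mem_Cn.1 hz v hv).2
  have c2 := c1.map (MulAut.conj r.1)
  have e2 : MulAut.conj r.1 (MulAut.conj r.1 p) = p := by
    rw [← MulAut.mul_apply, ← map_mul, B.th_sq r hr, map_one, MulAut.one_apply]
  rwa [e2] at c2

/-- (9.4)(ii) -/
theorem n4ii (h : AB B a b) {w q p : G} (hw : w ∈ B.Ac MulAut.conj a)
    (hq : q ∈ B.P0 MulAut.conj b) (hp : AorB B a b p) : Commute ⁅w, q⁆ p := by
  let Q : Subgroup G :=
    { carrier := {q | q ∈ B.P0 MulAut.conj b ∧ ∀ w ∈ B.Ac MulAut.conj a,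
        ∀ p, AorB B a b p → Commute ⁅w, q⁆ p}
      mul_mem' := fun {x y} hx hy => ⟨mul_mem hx.1 hy.1, fun w hw p hp => by
        rw [h5_comm_mul_right (hy.2 w hw x (Or.inr hx.1)).symm]
        exact (hx.2 w hw p hp).mul_left (hy.2 w hw p hp)⟩
      one_mem' := ⟨one_mem _, fun w _ p _ => by
        rw [commutatorElement_one_right]; exact Commute.one_left _⟩
      inv_mem' := fun {x} hx => ⟨inv_mem hx.1, fun w hw p hp => by
        rw [h5_comm_inv_right (hx.2 w hw x (Or.inr hx.1)).symm]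
        exact (hx.2 w hw p hp).inv_left⟩ }
  have hQ : B.P0 MulAut.conj b ≤ Q := by
    refine h.Vb.P0_ind Q ?_ ?_
    · intro u hu
      exact ⟨h.Vb.Ac_le hu, fun w hw p hp => h.n4i' hw hu hp⟩
    · intro r hr q hq hqQ
      have he := h.Vb.e_mem hr hq
      have h0 : q * B.e MulAut.conj r q ∈ Q := by
        refine ⟨mul_mem hq he, fun w hw p hp => ?_⟩
        have hw' := h.Va.Ac_le hw
        have hm := h.mix' hw' hq
        -- `X = ⁅w w', q⁆ ∈ Cn`
        have hX : ⁅w * MulAut.conj B.δ w, q⁆ ∈ Cn B a b := by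
          rw [h5_comm_mul_left (mem_Cn.1 hm w (Or.inl hw')).1.symm (Cn_comm hm hw' hq).symm]
          refine mul_mem (mem_Cn.2 fun p hp => ⟨hqQ.2 w hw p hp, h.n3' hw' hq hp⟩) hm
        have h1 := h.th_Cn hr hX hp
        rw [map_commutatorElement, h.Va.P0_th hr hw', h.Vb.e_th hr hq,
          h.exp4 hw' (mul_mem hq he) hw' he] at h1
        have hmC : (⁅w, MulAut.conj B.δ (B.e MulAut.conj r q)⁆ *
          ⁅MulAut.conj B.δ w, q * B.e MulAut.conj r q⁆) ∈ Cn B a b :=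
          mul_mem (h.mix hw' he) (h.mix' hw' (mul_mem hq he))
        have h2 := h1.mul_left (mem_Cn.1 hmC p hp).1.inv_left
        rw [mul_inv_cancel_right] at h2
        have h3 : Commute (MulAut.conj B.δ ⁅w, B.e MulAut.conj r q⁆) p := by
          rw [B.d_c]; exact h.n3d hw' he hp
        have h4 := h2.mul_left h3.inv_left
        rwa [mul_inv_cancel_right] at h4
      have := mul_mem (inv_mem hqQ) h0
      rwa [inv_mul_cancel_left] at this
  exact (hQ hq).2 w hw p hp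

theorem AorB_L0 (h : AB B a b) {g : G} (hg : g ∈ B.L0) {p : G} (hp : AorB B a b p) :
    AorB B a b (MulAut.conj g p) := by
  rcases hp with hp | hp
  · exact Or.inl (h.Va.P0_L0 hg hp)
  · exact Or.inr (h.Vb.P0_L0 hg hp)

/-- (9.4)(iii), generators -/
theorem n4iii (h : AB B a b) {k l p : G} (hk : k ∈ B.L0) (hl : l ∈ B.L0)
    (hp : AorB B a b p) : Commute ⁅MulAut.conj k a, MulAut.conj l b⁆ p := by
  have hb : MulAut.conj (k⁻¹ * l) b ∈ B.P0 MulAut.conj b :=
    Subgroup.subset_closure ⟨_, mul_mem (inv_mem hk) hl, rfl⟩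
  have h1 := (h.n4ii h.Va.c_mem hb (h.AorB_L0 (inv_mem hk) hp)).map (MulAut.conj k)
  rw [map_commutatorElement, ← MulAut.mul_apply, ← map_mul, mul_inv_cancel_left,
    ← MulAut.mul_apply, ← map_mul, mul_inv_cancel, map_one, MulAut.one_apply] at h1
  exact h1

theorem n4 (h : AB B a b) {x y p : G} (hx : x ∈ B.P0 MulAut.conj a)
    (hy : y ∈ B.P0 MulAut.conj b) (hp : AorB B a b p) : Commute ⁅x, y⁆ p := by
  have hb := bil_closure {p | ∃ g ∈ B.L0, p = MulAut.conj g a}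
    {p | ∃ g ∈ B.L0, p = MulAut.conj g b} (by
      rintro s ⟨k, hk, rfl⟩ t ⟨l, hl, rfl⟩ u hu
      refine h.n4iii hk hl ?_
      rcases hu with hu | hu
      · exact Or.inl (Subgroup.subset_closure hu)
      · exact Or.inr (Subgroup.subset_closure hu))
  refine hb.1 x hx y hy p ?_
  rcases hp with hp | hp
  · exact Subgroup.closure_mono Set.subset_union_left hp
  · exact Subgroup.closure_mono Set.subset_union_right hp

theorem c00 (h : AB B a b) {x y : G} (hx : x ∈ B.P0 MulAut.conj a)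
    (hy : y ∈ B.P0 MulAut.conj b) : ⁅x, y⁆ ∈ Cn B a b :=
  mem_Cn.2 fun _ hp => ⟨h.n4 hx hy hp, h.n3' hx hy hp⟩

theorem PP_eq (B : Base G) (a : G) : B.PP MulAut.conj a =
    Subgroup.closure ((B.P0 MulAut.conj a : Set G) ∪
      (MulAut.conj B.δ '' (B.P0 MulAut.conj a : Set G))) := by
  apply le_antisymm
  · refine sup_le (fun x hx => Subgroup.subset_closure (Or.inl hx)) ?_
    rintro x ⟨y, hy, rfl⟩
    exact Subgroup.subset_closure (Or.inr ⟨y, hy, rfl⟩)
  · refine (Subgroup.closure_le _).2 ?_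
    rintro x (hx | ⟨y, hy, rfl⟩)
    · exact (le_sup_left : _ ≤ B.PP MulAut.conj a) hx
    · exact (le_sup_right : _ ≤ B.PP MulAut.conj a) ⟨y, hy, rfl⟩

/-- everything -/
theorem bil (h : AB B a b) :
    (∀ x ∈ B.PP MulAut.conj a, ∀ y ∈ B.PP MulAut.conj b, ∀ z,
      (z ∈ B.PP MulAut.conj a ∨ z ∈ B.PP MulAut.conj b) → Commute ⁅x, y⁆ z) ∧
    (∀ x ∈ B.PP MulAut.conj a, ∀ x' ∈ B.PP MulAut.conj a, ∀ y ∈ B.PP MulAut.conj b,
      ⁅x * x', y⁆ = ⁅x, y⁆ * ⁅x', y⁆) ∧
    (∀ x ∈ B.PP MulAut.conj a, ∀ y ∈ B.PP MulAut.conj b, ∀ y' ∈ B.PP MulAut.conj b,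
      ⁅x, y * y'⁆ = ⁅x, y⁆ * ⁅x, y'⁆) := by
  have hb := bil_closure ((B.P0 MulAut.conj a : Set G) ∪
      (MulAut.conj B.δ '' (B.P0 MulAut.conj a : Set G)))
    ((B.P0 MulAut.conj b : Set G) ∪ (MulAut.conj B.δ '' (B.P0 MulAut.conj b : Set G))) (by
      intro s hs t ht u hu
      have h1 : ⁅s, t⁆ ∈ Cn B a b := by
        rcases hs with hs | ⟨s, hs, rfl⟩
        · rcases ht with ht | ⟨t, ht, rfl⟩
          · exact h.c00 hs ht
          · exact h.mix hs ht
        · rcases ht with ht | ⟨t, ht, rfl⟩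
          · exact h.mix' hs ht
          · rw [← B.d_c]; exact Cn_d (h.c00 hs ht)
      rcases hu with (hu | ⟨u, hu, rfl⟩) | (hu | ⟨u, hu, rfl⟩)
      · exact (mem_Cn.1 h1 u (Or.inl hu)).1
      · exact (mem_Cn.1 h1 u (Or.inl hu)).2
      · exact (mem_Cn.1 h1 u (Or.inr hu)).1
      · exact (mem_Cn.1 h1 u (Or.inr hu)).2)
  rw [PP_eq, PP_eq]
  refine ⟨fun x hx y hy z hz => hb.1 x hx y hy z ?_, hb.2.1, hb.2.2⟩
  rcases hz with hz | hz
  · exact Subgroup.closure_mono Set.subset_union_left hz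
  · exact Subgroup.closure_mono Set.subset_union_right hz

end AB

end Pool.Agent.H86.FS
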