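import Pool.Agent.H86.FS.NMo
import Pool.Agent.H86.FS.LFb

/-!
# The solvable series (Claim A): definitions and elementary lemmas
`S1 = ⟨t,u,s,ph⟩` (commutative), `S2 = h.base.eng.grp` (class 2), `S3 = ⟨ph⁻ⁿ J_i phⁿ⟩` (commutative), `S4 = L0 ⊔ d L0 d⁻¹` (class 2, `L0_class2`, `L0_swap`),
`S5 = h.eng2.grp` (class 2), `S6 = NM` (commutative).
-/

set_option autoImplicit false

open scoped commutatorElement

namespace Pool.Agent.H86.FS

variable {G : Type*} [Group G] {r : ℕ}

/-- `A` normalises `B` -/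
def Nrm (A B : Subgroup G) : Prop := ∀ a ∈ A, ∀ b ∈ B, a * b * a⁻¹ ∈ B

theorem nrm_closure {S : Set G} {B : Subgroup G} (h : ∀ a ∈ S, ∀ b ∈ B, a * b * a⁻¹ ∈ B)
    (h' : ∀ a ∈ S, ∀ b ∈ B, a⁻¹ * b * a ∈ B) : Nrm (Subgroup.closure S) B := by
  have key : ∀ a ∈ Subgroup.closure S, (∀ b ∈ B, a * b * a⁻¹ ∈ B) ∧ (∀ b ∈ B, a⁻¹ * b * a ∈ B) := by
    intro a ha
    induction ha using Subgroup.closure_induction with
    | mem x hx => exact ⟨h x hx, h' x hx⟩
    | one => simp
    | mul x y _ _ hx hy =>
      constructor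
      · intro b hb
        have := hx.1 _ (hy.1 b hb)
        simpa [mul_assoc] using this
      · intro b hb
        have := hy.2 _ (hx.2 b hb)
        simpa [mul_assoc] using this
    | inv x _ hx =>
      constructor
      · intro b hb
        simpa using hx.2 b hb
      · intro b hb
        simpa using hx.1 b hb
  exact fun a ha => (key a ha).1

theorem Nrm.sup {A A' B : Subgroup G} (h : Nrm A B) (h' : Nrm A' B) : Nrm (A ⊔ A') B := by
  rw [Subgroup.sup_eq_closure]
  refine nrm_closure ?_ ?_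
  · rintro a (ha | ha) b hb
    · exact h a ha b hb
    · exact h' a ha b hb
  · rintro a (ha | ha) b hb
    · simpa using h _ (inv_mem ha) b hb
    · simpa using h' _ (inv_mem ha) b hb

/-- `A` commutes with `B` -/
theorem nrm_of_commute {A B : Subgroup G} (h : ∀ a ∈ A, ∀ b ∈ B, Commute a b) : Nrm A B := by
  intro a ha b hb
  rw [(h a ha b hb).eq, mul_inv_cancel_right]
  exact hb

theorem Nrm.mono {A A' B : Subgroup G} (h : Nrm A B) (hle : A' ≤ A) : Nrm A' B :=
  fun a ha b hb => h a (hle ha) b hb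

/-- commutation of two closures -/
theorem comm_closure86 {S T : Set G} (h : ∀ x ∈ S, ∀ y ∈ T, Commute x y) :
    ∀ x ∈ Subgroup.closure S, ∀ y ∈ Subgroup.closure T, Commute x y := by
  intro x hx y hy
  have h1 : ∀ x ∈ S, Commute x y := by
    intro x hx
    induction hy using Subgroup.closure_induction with
    | mem y hy => exact h x hx y hy
    | one => exact Commute.one_right x
    | mul a b _ _ ha hb => exact ha.mul_right hb
    | inv a _ ha => exact ha.inv_right
  induction hx using Subgroup.closure_induction with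
  | mem x hx => exact h1 x hx
  | one => exact Commute.one_left y
  | mul a b _ _ ha hb => exact ha.mul_left hb
  | inv a _ ha => exact ha.inv_left

namespace Rels

variable {g : Gens G r}

def S1 (g : Gens G r) : Subgroup G := Subgroup.closure (g.TS ∪ {g.ph})
def S3 (g : Gens G r) : Subgroup G := Subgroup.closure
  {y | ∃ n : ℕ, y = (g.ph⁻¹) ^ n * g.J1 * g.ph ^ n ∨ y = (g.ph⁻¹) ^ n * g.J2 * g.ph ^ n}
def S4 (h : Rels g) : Subgroup G :=
  h.base.B.L0 ⊔ (h.base.B.L0).map (MulAut.conj g.d).toMonoidHom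

end Rels

end Pool.Agent.H86.FS
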