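import Pool.Agent.H86.FS.SO

/-!
# The solvable series: `S1, S2, S3` commutation, `n2`, `n3`
* `n2`: `S1` normalises `S2`: `TT` permutes `GR` and commutes with `d`, `sg`; `ph` commutes with all generators of `S2`.
* `n3`: `TS`, `th`, `et`, `d`, `sg` commute with `J_i`, `ph`; all of `S2` commutes with `S3` (elements of `GR` are products of pairs of
  elements of the centralizer of `{ph, J1, J2}`); `ph J_i ph⁻¹ = J_i²`.
-/

set_option autoImplicit false

open scoped commutatorElement

namespace Pool.Agent.H86.FS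

variable {G : Type*} [Group G] {r : ℕ}

namespace Rels

variable {g : Gens G r}

theorem TS_com86 (h : Rels g) : ∀ x ∈ g.TS, ∀ y ∈ [g.t, g.u1, g.u2, g.d, g.sg, g.X, g.Y, g.ph, g.J1, g.J2],
    Commute x y := fun x hx y hy =>
  h.base.TT_com x (Subgroup.subset_closure hx) y hy

theorem S1_comm (h : Rels g) : ∀ x ∈ S1 g, ∀ y ∈ S1 g, Commute x y := by
  unfold S1
  apply comm_closure86
  rintro x (hx | hx) y (hy | hy)
  · exact h.base.TT_comm x (Subgroup.subset_closure hx) y (Subgroup.subset_closure hy)
  · rw [Set.mem_singleton_iff] at hy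
    rw [hy]
    exact h.TS_com86 x hx g.ph (by simp)
  · rw [Set.mem_singleton_iff] at hx
    rw [hx]
    exact (h.TS_com86 y hy g.ph (by simp)).symm
  · rw [Set.mem_singleton_iff] at hx hy
    rw [hx, hy]

theorem ph_pow_J86 (h : Rels g) {J : G} (hJ : J ∈ [g.J1, g.J2]) (n : ℕ) :
    g.ph ^ n * J * (g.ph ^ n)⁻¹ = J ^ (2 ^ n) := by
  induction n with
  | zero => simp
  | succ n ih =>
    have h1 : g.ph * J * g.ph⁻¹ = J * J := h.base.phJ J hJ
    have h2 : g.ph ^ (n + 1) * J * (g.ph ^ (n + 1))⁻¹ = g.ph ^ n * (g.ph * J * g.ph⁻¹) * (g.ph ^ n)⁻¹ := by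
      rw [pow_succ]; group
    rw [h2, h1]
    have h3 : g.ph ^ n * (J * J) * (g.ph ^ n)⁻¹ =
        (g.ph ^ n * J * (g.ph ^ n)⁻¹) * (g.ph ^ n * J * (g.ph ^ n)⁻¹) := by group
    rw [h3, ih, ← pow_add, pow_succ, mul_two]

theorem J_com86 (h : Rels g) {J J' : G} (hJ : J ∈ [g.J1, g.J2]) (hJ' : J' ∈ [g.J1, g.J2]) :
    Commute J J' := by
  simp only [List.mem_cons, List.not_mem_nil, or_false] at hJ hJ'
  rcases hJ with rfl | rfl <;> rcases hJ' with rfl | rfl
  · exact Commute.refl _
  · exact h.base.JJ
  · exact h.base.JJ.symm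
  · exact Commute.refl _

theorem S3_comm (h : Rels g) : ∀ x ∈ S3 g, ∀ y ∈ S3 g, Commute x y := by
  have key : ∀ J ∈ [g.J1, g.J2], ∀ J' ∈ [g.J1, g.J2], ∀ n m : ℕ,
      Commute ((g.ph⁻¹) ^ n * J * g.ph ^ n) ((g.ph⁻¹) ^ m * J' * g.ph ^ m) := by
    intro J hJ J' hJ' n m
    have e1 : (g.ph⁻¹) ^ n * J * g.ph ^ n = (g.ph ^ (n + m))⁻¹ * (J ^ (2 ^ m)) * g.ph ^ (n + m) := by
      rw [← h.ph_pow_J86 hJ m, add_comm, pow_add, inv_pow]; group
    have e2 : (g.ph⁻¹) ^ m * J' * g.ph ^ m =
        (g.ph ^ (n + m))⁻¹ * (J' ^ (2 ^ n)) * g.ph ^ (n + m) := by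
      rw [← h.ph_pow_J86 hJ' n, pow_add, inv_pow]; group
    rw [e1, e2]
    have hc := ((h.J_com86 hJ hJ').pow_pow (2 ^ m) (2 ^ n)).eq
    show _ * _ = _ * _
    calc (g.ph ^ (n + m))⁻¹ * J ^ 2 ^ m * g.ph ^ (n + m) * ((g.ph ^ (n + m))⁻¹ * J' ^ 2 ^ n * g.ph ^ (n + m))
        = (g.ph ^ (n + m))⁻¹ * (J ^ 2 ^ m * J' ^ 2 ^ n) * g.ph ^ (n + m) := by group
      _ = (g.ph ^ (n + m))⁻¹ * (J' ^ 2 ^ n * J ^ 2 ^ m) * g.ph ^ (n + m) := by rw [hc]
      _ = _ := by group
  unfold S3
  apply comm_closure86
  rintro x ⟨n, rfl | rfl⟩ y ⟨m, rfl | rfl⟩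
  · exact key _ (by simp) _ (by simp) n m
  · exact key _ (by simp) _ (by simp) n m
  · exact key _ (by simp) _ (by simp) n m
  · exact key _ (by simp) _ (by simp) n m

theorem conj_grp86 (h : Rels g) {q : G} (hq : ∀ y ∈ g.GR, conj2 q y ∈ g.GR)
    (hd : Commute q g.d) (hs : Commute q g.sg) :
    ∀ b ∈ h.base.eng.grp, q * b * q⁻¹ ∈ h.base.eng.grp := by
  intro b hb
  have key : ∀ s ∈ ({x | ∃ y ∈ g.GR, x = y.1 ∨ x = y.2} ∪ {g.d, g.sg} : Set G),
      q * s * q⁻¹ ∈ h.base.eng.grp := by
    rintro x (⟨y, hy, hx⟩ | hx)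
    · apply Subgroup.subset_closure
      left
      refine ⟨conj2 q y, hq y hy, ?_⟩
      rcases hx with rfl | rfl
      · left; rfl
      · right; rfl
    · have h1 : q * x * q⁻¹ = x := by
        simp only [Set.mem_insert_iff, Set.mem_singleton_iff] at hx
        rcases hx with rfl | rfl
        · rw [hd.eq, mul_inv_cancel_right]
        · rw [hs.eq, mul_inv_cancel_right]
      rw [h1]
      exact Subgroup.subset_closure (Or.inr hx)
  have hb' : b ∈ Subgroup.closure ({x | ∃ y ∈ g.GR, x = y.1 ∨ x = y.2} ∪ {g.d, g.sg} : Set G) := hb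
  induction hb' using Subgroup.closure_induction with
  | mem x hx => exact key x hx
  | one => simp
  | mul x y hx0 hy0 hx hy =>
    have := mul_mem (hx hx0) (hy hy0)
    simpa [mul_assoc] using this
  | inv x hx0 hx =>
    have := inv_mem (hx hx0)
    simpa [mul_assoc] using this

theorem n2 (h : Rels g) : Nrm (S1 g) h.base.eng.grp := by
  have hph : ∀ y ∈ g.GR, conj2 g.ph y = y := by
    intro y hy
    obtain ⟨h1, h2⟩ := h.base.ph_GR y hy
    rw [conj2_apply, h1.eq, h2.eq, mul_inv_cancel_right, mul_inv_cancel_right]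
  have hph' : ∀ y ∈ g.GR, conj2 g.ph⁻¹ y = y := by
    intro y hy
    obtain ⟨h1, h2⟩ := h.base.ph_GR y hy
    rw [conj2_apply, h1.inv_left.eq, h2.inv_left.eq, mul_inv_cancel_right, mul_inv_cancel_right]
  have hphd : Commute g.ph g.d := h.base.ph g.d (by simp)
  have hphs : Commute g.ph g.sg := h.base.ph g.sg (by simp)
  apply nrm_closure
  · rintro q (hq | hq) b hb
    · exact h.conj_grp86 (fun y hy => BRel.GR_TT g q (Subgroup.subset_closure hq) y hy)
        (h.TS_com86 q hq g.d (by simp)) (h.TS_com86 q hq g.sg (by simp)) b hb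
    · rw [Set.mem_singleton_iff] at hq
      rw [hq]
      exact h.conj_grp86 (fun y hy => by rw [hph y hy]; exact hy) hphd hphs b hb
  · rintro q (hq | hq) b hb
    · have := h.conj_grp86 (q := q⁻¹)
        (fun y hy => BRel.GR_TT g q⁻¹ (inv_mem (Subgroup.subset_closure hq)) y hy)
        (h.TS_com86 q hq g.d (by simp)).inv_left (h.TS_com86 q hq g.sg (by simp)).inv_left b hb
      simpa using this
    · rw [Set.mem_singleton_iff] at hq
      rw [hq]
      have := h.conj_grp86 (q := g.ph⁻¹) (fun y hy => by rw [hph' y hy]; exact hy) hphd.inv_left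
        hphs.inv_left b hb
      simpa using this

/-- elements of `GR` commute with everything that commutes with `TS`, `th`, `et` -/
theorem GR_cent86 (g : Gens G r) {x : G} (hT : ∀ q ∈ g.TS, Commute x q) (hth : Commute x g.th)
    (het : Commute x g.et) : ∀ y ∈ g.GR, Commute x y.1 ∧ Commute x y.2 := by
  have hT' : ∀ q ∈ Subgroup.closure g.TS, Commute x q := by
    intro q hq
    induction hq using Subgroup.closure_induction with
    | mem y hy => exact hT y hy
    | one => exact Commute.one_right x
    | mul a b _ _ ha hb => exact ha.mul_right hb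
    | inv a _ ha => exact ha.inv_right
  intro y hy
  induction hy using Subgroup.closure_induction with
  | mem y hy =>
    obtain ⟨q, hq, rfl⟩ := hy
    have hc := hT' q hq
    exact ⟨(hc.mul_right hth).mul_right hc.inv_right, (hc.mul_right het).mul_right hc.inv_right⟩
  | one => exact ⟨Commute.one_right x, Commute.one_right x⟩
  | mul a b _ _ ha hb => exact ⟨ha.1.mul_right hb.1, ha.2.mul_right hb.2⟩
  | inv a _ ha => exact ⟨ha.1.inv_right, ha.2.inv_right⟩

theorem n3 (h : Rels g) : Nrm (S1 g ⊔ h.base.eng.grp) (S3 g) := by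
  -- everything except `ph` commutes with `S3`
  have cen : ∀ x : G, Commute g.ph x → (∀ J ∈ [g.J1, g.J2], Commute J x) →
      ∀ b ∈ S3 g, Commute x b := by
    intro x hx hJ b hb
    induction hb using Subgroup.closure_induction with
    | mem y hy =>
      obtain ⟨n, rfl | rfl⟩ := hy
      · exact ((hx.symm.inv_right.pow_right n).mul_right (hJ _ (by simp)).symm).mul_right
          (hx.symm.pow_right n)
      · exact ((hx.symm.inv_right.pow_right n).mul_right (hJ _ (by simp)).symm).mul_right
          (hx.symm.pow_right n)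
    | one => exact Commute.one_right x
    | mul a b _ _ ha hb => exact ha.mul_right hb
    | inv a _ ha => exact ha.inv_right
  apply Nrm.sup
  · apply nrm_closure
    · rintro q (hq | hq) b hb
      · have hc := cen q (h.TS_com86 q hq g.ph (by simp)).symm (fun J hJ => by
          simp only [List.mem_cons, List.not_mem_nil, or_false] at hJ
          rcases hJ with rfl | rfl
          · exact (h.TS_com86 q hq g.J1 (by simp)).symm
          · exact (h.TS_com86 q hq g.J2 (by simp)).symm) b hb
        rw [hc.eq, mul_inv_cancel_right]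
        exact hb
      · rw [Set.mem_singleton_iff] at hq
        rw [hq]
        have key : ∀ J ∈ [g.J1, g.J2], ∀ n : ℕ,
            (g.ph⁻¹) ^ n * J * g.ph ^ n ∈ S3 g := by
          intro J hJ n
          simp only [List.mem_cons, List.not_mem_nil, or_false] at hJ
          rcases hJ with rfl | rfl
          · exact Subgroup.subset_closure ⟨n, Or.inl rfl⟩
          · exact Subgroup.subset_closure ⟨n, Or.inr rfl⟩
        have key2 : ∀ J ∈ [g.J1, g.J2], ∀ n : ℕ,
            g.ph * ((g.ph⁻¹) ^ n * J * g.ph ^ n) * g.ph⁻¹ ∈ S3 g := by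
          intro J hJ n
          have e : g.ph * ((g.ph⁻¹) ^ n * J * g.ph ^ n) * g.ph⁻¹ =
              ((g.ph⁻¹) ^ n * J * g.ph ^ n) * ((g.ph⁻¹) ^ n * J * g.ph ^ n) := by
            have h1 : g.ph * J * g.ph⁻¹ = J * J := h.base.phJ J hJ
            have h2 : ((g.ph⁻¹) ^ n * J * g.ph ^ n) * ((g.ph⁻¹) ^ n * J * g.ph ^ n) =
                (g.ph⁻¹) ^ n * (J * J) * g.ph ^ n := by
              rw [inv_pow]; group
            rw [h2, ← h1, inv_pow]; group
          rw [e]
          exact mul_mem (key J hJ n) (key J hJ n)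
        induction hb using Subgroup.closure_induction with
        | mem y hy =>
          obtain ⟨n, rfl | rfl⟩ := hy
          · exact key2 _ (by simp) n
          · exact key2 _ (by simp) n
        | one => simp
        | mul x y _ _ hx hy =>
          have := mul_mem hx hy
          simpa [mul_assoc] using this
        | inv x _ hx =>
          have := inv_mem hx
          simpa [mul_assoc] using this
    · rintro q (hq | hq) b hb
      · have hc := (cen q (h.TS_com86 q hq g.ph (by simp)).symm (fun J hJ => by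
          simp only [List.mem_cons, List.not_mem_nil, or_false] at hJ
          rcases hJ with rfl | rfl
          · exact (h.TS_com86 q hq g.J1 (by simp)).symm
          · exact (h.TS_com86 q hq g.J2 (by simp)).symm) b hb).inv_left
        rw [hc.eq, inv_mul_cancel_right]
        exact hb
      · rw [Set.mem_singleton_iff] at hq
        rw [hq]
        induction hb using Subgroup.closure_induction with
        | mem y hy =>
          apply Subgroup.subset_closure
          obtain ⟨n, rfl | rfl⟩ := hy
          · refine ⟨n + 1, Or.inl ?_⟩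
            rw [inv_pow, inv_pow, pow_succ']; group
          · refine ⟨n + 1, Or.inr ?_⟩
            rw [inv_pow, inv_pow, pow_succ']; group
        | one => simp
        | mul x y _ _ hx hy =>
          have := mul_mem hx hy
          simpa [mul_assoc] using this
        | inv x _ hx =>
          have := inv_mem hx
          simpa [mul_assoc] using this
  · apply nrm_of_commute
    intro a ha b hb
    induction ha using Subgroup.closure_induction with
    | mem x hx =>
      rcases hx with ⟨y, hy, hx⟩ | hx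
      · have c1 := GR_cent86 g (x := b)
          (fun q hq => (cen q (h.TS_com86 q hq g.ph (by simp)).symm (fun J hJ => by
            simp only [List.mem_cons, List.not_mem_nil, or_false] at hJ
            rcases hJ with rfl | rfl
            · exact (h.TS_com86 q hq g.J1 (by simp)).symm
            · exact (h.TS_com86 q hq g.J2 (by simp)).symm) b hb).symm)
          (cen g.th (h.base.ph g.th (by simp)) (fun J hJ => h.base.Jc J hJ g.th (by simp)) b hb).symm
          (cen g.et (h.base.ph g.et (by simp)) (fun J hJ => h.base.Jc J hJ g.et (by simp)) b hb).symm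
          y hy
        rcases hx with rfl | rfl
        · exact c1.1.symm
        · exact c1.2.symm
      · rcases hx with hx | hx
        · rw [hx]
          exact cen g.d (h.base.ph g.d (by simp)) (fun J hJ => h.base.Jc J hJ g.d (by simp)) b hb
        · rw [Set.mem_singleton_iff.1 hx]
          exact cen g.sg (h.base.ph g.sg (by simp)) (fun J hJ => h.base.Jc J hJ g.sg (by simp)) b hb
    | one => exact Commute.one_left b
    | mul x y _ _ hx hy => exact hx.mul_left hy
    | inv x _ hx => exact hx.inv_left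

end Rels

end Pool.Agent.H86.FS
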