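import Pool.Agent.H86.FS.SO

/-!
# The solvable series: `S4 = L0 ⊔ d L0 d⁻¹`
* `S4_class2`: `L0_class2`, `L0_swap`, `class2_closure`.
* `n4`: `S1`: `L0_TT`, `L0_φ`, `L0_φ'`, commute with `d`. `S2`: `L0_split` and its `d`-conjugate, `L0_et` (`r.2` acts on `d L0 d⁻¹` as `s_r`), `L0_sn`, `L0_ς` and
  `ς` on `d L0 d⁻¹`: `d⁻¹ςd = ⁅d,ς⁆ς` — it acts on `L0` by: `⁅d,ς⁆` commutes with `s_y`, `ph`, inverts `X`, `Y`, so it maps `L0` into `L0` (closure induction).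
  `d`: exchanges. `S3`: `ph⁻ⁿ J ph^n` commutes with `L0` (`L0_J`, `L0_φ`) and `d`.
-/

set_option autoImplicit false

open scoped commutatorElement

namespace Pool.Agent.H86.FS

variable {G : Type*} [Group G] {r : ℕ}

namespace Rels

variable {g : Gens G r}

open Pool.Agent.H75.FS

theorem S4_l (h : Rels g) {l : G} (hl : l ∈ h.base.B.L0) : l ∈ h.S4 :=
  (le_sup_left : h.base.B.L0 ≤ h.S4) hl

theorem S4_d (h : Rels g) {l : G} (hl : l ∈ h.base.B.L0) : g.d * l * g.d⁻¹ ∈ h.S4 :=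
  (le_sup_right : (h.base.B.L0).map (MulAut.conj g.d).toMonoidHom ≤ h.S4) ⟨l, hl, rfl⟩

theorem S4_norm (h : Rels g) {x : G} (h1 : ∀ l ∈ h.base.B.L0, x * l * x⁻¹ ∈ h.S4)
    (h2 : ∀ l ∈ h.base.B.L0, x * (g.d * l * g.d⁻¹) * x⁻¹ ∈ h.S4) :
    ∀ y ∈ h.S4, x * y * x⁻¹ ∈ h.S4 := by
  have key : h.S4 ≤ h.S4.comap (MulAut.conj x).toMonoidHom := by
    refine sup_le (fun l hl => h1 l hl) ?_
    rintro _ ⟨l, hl, rfl⟩
    exact h2 l hl
  intro y hy
  exact key hy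

theorem S4_norm_d (h : Rels g) {x : G} (hxd : Commute x g.d)
    (h1 : ∀ l ∈ h.base.B.L0, x * l * x⁻¹ ∈ h.base.B.L0) :
    ∀ y ∈ h.S4, x * y * x⁻¹ ∈ h.S4 := by
  refine h.S4_norm (fun l hl => h.S4_l (h1 l hl)) (fun l hl => ?_)
  have e1 : x * (g.d * l * g.d⁻¹) * x⁻¹ = g.d * (x * l * x⁻¹) * g.d⁻¹ := by
    calc x * (g.d * l * g.d⁻¹) * x⁻¹ = (x * g.d) * l * (x * g.d)⁻¹ := by group
      _ = (g.d * x) * l * (g.d * x)⁻¹ := by rw [hxd.eq]
      _ = _ := by group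
  rw [e1]
  exact h.S4_d (h1 l hl)

theorem S4_class2 (h : Rels g) : ∀ x ∈ h.S4, ∀ y ∈ h.S4, ∀ z ∈ h.S4, Commute ⁅x, y⁆ z := by
  have e1 : h.S4 = Subgroup.closure ((h.base.B.L0 : Set G) ∪
      ((h.base.B.L0).map (MulAut.conj g.d).toMonoidHom : Subgroup G)) :=
    Subgroup.sup_eq_closure _ _
  rw [e1]
  apply class2_closure
  have sw : ∀ x ∈ h.base.B.L0, ∀ y ∈ h.base.B.L0, Commute x (g.d * y * g.d⁻¹) :=
    fun x hx y hy => h.base.B.L0_swap hx hy
  have one1 : ∀ x y z : G, Commute x y → Commute ⁅x, y⁆ z := by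
    intro x y z hxy
    rw [commutatorElement_eq_one_iff_commute.2 hxy]
    exact Commute.one_left z
  rintro x (hx | ⟨x, hx, rfl⟩) y (hy | ⟨y, hy, rfl⟩) z hz
  · rcases hz with hz | ⟨z, hz, rfl⟩
    · exact h.base.B.L0_class2 x hx y hy z hz
    · have a1 := sw x hx z hz
      have a2 := sw y hy z hz
      rw [commutatorElement_def]
      exact ((a1.mul_left a2).mul_left a1.inv_left).mul_left a2.inv_left
  · exact one1 _ _ _ (sw x hx y hy)
  · exact one1 _ _ _ (sw y hy x hx).symm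
  · rcases hz with hz | ⟨z, hz, rfl⟩
    · have a1 := (sw z hz x hx).symm
      have a2 := (sw z hz y hy).symm
      rw [commutatorElement_def]
      exact ((a1.mul_left a2).mul_left a1.inv_left).mul_left a2.inv_left
    · have k := (h.base.B.L0_class2 x hx y hy z hz).map (MulAut.conj g.d).toMonoidHom
      rw [map_commutatorElement] at k
      exact k

theorem n4a (h : Rels g) : Nrm (S1 g) h.S4 := by
  have hph : Commute g.ph g.d := h.base.ph g.d (by simp)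
  have hTT : ∀ q ∈ g.TT, ∀ y ∈ h.S4, q * y * q⁻¹ ∈ h.S4 := fun q hq =>
    h.S4_norm_d (h.base.TT_com q hq g.d (by simp)) (h.base.L0_TT q hq)
  refine nrm_closure ?_ ?_
  · rintro a (ha | ha) b hb
    · exact hTT a (Subgroup.subset_closure ha) b hb
    · rw [Set.mem_singleton_iff.1 ha]
      exact h.S4_norm_d hph (fun l hl => h.base.B.L0_φ hl) b hb
  · rintro a (ha | ha) b hb
    · have := hTT a⁻¹ (Subgroup.inv_mem _ (Subgroup.subset_closure ha)) b hb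
      rwa [inv_inv] at this
    · rw [Set.mem_singleton_iff.1 ha]
      have := h.S4_norm_d (x := g.ph⁻¹) hph.inv_left (fun l hl => by
        rw [inv_inv]
        exact h.base.B.L0_φ' hl) b hb
      rwa [inv_inv] at this

theorem n4b (h : Rels g) : Nrm h.base.eng.grp h.S4 := by
  have hd2 : g.d⁻¹ = g.d := inv_eq_of_mul_eq_one_left (h.base.inv g.d (by simp))
  have hs2 : g.sg⁻¹ = g.sg := inv_eq_of_mul_eq_one_left (h.base.inv g.sg (by simp))
  have hdd : g.d * g.d = 1 := h.base.inv g.d (by simp)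
  -- `δ`
  have kd : ∀ y ∈ h.S4, g.d * y * g.d⁻¹ ∈ h.S4 := by
    refine h.S4_norm (fun l hl => h.S4_d hl) (fun l hl => ?_)
    have e1 : g.d * (g.d * l * g.d⁻¹) * g.d⁻¹ = l := by
      calc g.d * (g.d * l * g.d⁻¹) * g.d⁻¹ = (g.d * g.d) * l * (g.d * g.d)⁻¹ := by group
        _ = l := by rw [hdd]; simp
    rw [e1]
    exact h.S4_l hl
  -- `r.1`
  have k1 : ∀ r ∈ g.GR, ∀ y ∈ h.S4, r.1 * y * r.1⁻¹ ∈ h.S4 := by
    intro r hr
    have hsp : ∀ l ∈ h.base.B.L0, r.1 * l * r.1⁻¹ ∈ h.S4 := by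
      intro l hl
      obtain ⟨g0, hg0, g1, hg1, e⟩ := h.base.B.L0_split (r := r) hr hl
      rw [e]
      exact Subgroup.mul_mem _ (h.S4_l hg0) (h.S4_d hg1)
    refine h.S4_norm hsp (fun l hl => ?_)
    have hc : Commute g.d r.1 := h.base.eng.δ_th r hr
    have e1 : r.1 * (g.d * l * g.d⁻¹) * r.1⁻¹ = g.d * (r.1 * l * r.1⁻¹) * g.d⁻¹ := by
      calc r.1 * (g.d * l * g.d⁻¹) * r.1⁻¹ = (r.1 * g.d) * l * (r.1 * g.d)⁻¹ := by group
        _ = (g.d * r.1) * l * (g.d * r.1)⁻¹ := by rw [hc.eq]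
        _ = _ := by group
    rw [e1]
    exact kd _ (hsp l hl)
  -- `r.2`
  have k2 : ∀ r ∈ g.GR, ∀ y ∈ h.S4, r.2 * y * r.2⁻¹ ∈ h.S4 := by
    intro r hr
    have hfix : ∀ l ∈ h.base.B.L0, r.2 * l * r.2⁻¹ = l := by
      intro l hl
      rw [(h.base.B.L0_et (r := r) hr hl).eq, mul_inv_cancel_right]
    refine h.S4_norm (fun l hl => by rw [hfix l hl]; exact h.S4_l hl) (fun l hl => ?_)
    have e0 : g.d * r.2 * g.d⁻¹ = sn r * r.2 := h.base.eng.δ_et' hr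
    have e1 : r.2 * g.d = g.d * (sn r * r.2) := by
      rw [← e0, hd2, mul_assoc g.d, ← mul_assoc g.d g.d, hdd, one_mul]
    have e2 : r.2 * (g.d * l * g.d⁻¹) * r.2⁻¹ = g.d * (sn r * l * (sn r)⁻¹) * g.d⁻¹ := by
      calc r.2 * (g.d * l * g.d⁻¹) * r.2⁻¹ = (r.2 * g.d) * l * (r.2 * g.d)⁻¹ := by group
        _ = g.d * (sn r * (r.2 * l * r.2⁻¹) * (sn r)⁻¹) * g.d⁻¹ := by rw [e1]; group
        _ = _ := by rw [hfix l hl]
    rw [e2]
    exact h.S4_d (h.base.B.L0_sn (r := r) hr hl)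
  -- `ς`
  have k3 : ∀ y ∈ h.S4, g.sg * y * g.sg⁻¹ ∈ h.S4 := by
    have hfix : ∀ l ∈ h.base.B.L0, g.sg * l * g.sg⁻¹ = l := by
      intro l hl
      have := h.base.B.L0_ς hl
      rw [BRel.B_ς] at this
      rw [this.eq, mul_inv_cancel_right]
    refine h.S4_norm (fun l hl => by rw [hfix l hl]; exact h.S4_l hl) (fun l hl => ?_)
    have e1 : g.sg * g.d = g.d * (⁅g.d, g.sg⁆ * g.sg) := by
      rw [commutatorElement_def, inv_mul_cancel_right, hd2, mul_assoc g.d g.sg,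
        ← mul_assoc g.d g.d, hdd, one_mul]
    have e2 : g.sg * (g.d * l * g.d⁻¹) * g.sg⁻¹ =
        g.d * (⁅g.d, g.sg⁆ * l * ⁅g.d, g.sg⁆⁻¹) * g.d⁻¹ := by
      calc g.sg * (g.d * l * g.d⁻¹) * g.sg⁻¹ = (g.sg * g.d) * l * (g.sg * g.d)⁻¹ := by group
        _ = g.d * (⁅g.d, g.sg⁆ * (g.sg * l * g.sg⁻¹) * ⁅g.d, g.sg⁆⁻¹) * g.d⁻¹ := by
          rw [e1, mul_inv_rev, mul_inv_rev]
          simp only [mul_assoc]
        _ = _ := by rw [hfix l hl]
    rw [e2]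
    exact h.S4_d (VData.L0_σ h.base.B hl)
  have hth : ∀ r ∈ g.GR, (r.1)⁻¹ = r.1 := fun r hr =>
    inv_eq_of_mul_eq_one_left (h.base.core.th_sq r hr)
  have het : ∀ r ∈ g.GR, (r.2)⁻¹ = r.2 := fun r hr =>
    inv_eq_of_mul_eq_one_left (h.base.core.et_sq r hr)
  refine nrm_closure ?_ ?_
  · rintro a (⟨r, hr, rfl | rfl⟩ | ha) b hb
    · exact k1 r hr b hb
    · exact k2 r hr b hb
    · rcases ha with rfl | ha
      · exact kd b hb
      · rw [Set.mem_singleton_iff.1 ha]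
        exact k3 b hb
  · rintro a (⟨r, hr, rfl | rfl⟩ | ha) b hb
    · have := k1 r hr b hb
      rwa [hth r hr] at this ⊢
    · have := k2 r hr b hb
      rwa [het r hr] at this ⊢
    · rcases ha with rfl | ha
      · have := kd b hb
        change g.d⁻¹ * b * g.d ∈ h.S4
        rwa [hd2] at this ⊢
      · rw [Set.mem_singleton_iff.1 ha]
        have := k3 b hb
        change g.sg⁻¹ * b * g.sg ∈ h.S4
        rwa [hs2] at this ⊢

theorem n4c (h : Rels g) : Nrm (S3 g) h.S4 := by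
  have hpow : ∀ (n : ℕ), ∀ l ∈ h.base.B.L0, g.ph ^ n * l * (g.ph ^ n)⁻¹ ∈ h.base.B.L0 := by
    intro n
    induction n with
    | zero =>
      intro l hl
      simpa using hl
    | succ n ih =>
      intro l hl
      have := ih _ (h.base.B.L0_φ hl)
      have e1 : g.ph ^ (n + 1) * l * (g.ph ^ (n + 1))⁻¹ =
          g.ph ^ n * (g.ph * l * g.ph⁻¹) * (g.ph ^ n)⁻¹ := by
        rw [pow_succ]
        group
      rw [e1]
      exact this
  have kJ : ∀ J ∈ [g.J1, g.J2], ∀ n : ℕ, ∀ l ∈ h.base.B.L0,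
      Commute (g.ph⁻¹ ^ n * J * g.ph ^ n) l := by
    intro J hJ n l hl
    have h1 := h.base.L0_J J hJ _ (hpow n l hl)
    have e1 : g.ph⁻¹ ^ n * J * g.ph ^ n = (g.ph ^ n)⁻¹ * J * ((g.ph ^ n)⁻¹)⁻¹ := by
      rw [inv_pow, inv_inv]
    have e2 : l = (g.ph ^ n)⁻¹ * (g.ph ^ n * l * (g.ph ^ n)⁻¹) * ((g.ph ^ n)⁻¹)⁻¹ := by group
    rw [e1, e2]
    exact (commute_conj_iff _).2 h1
  have kd : ∀ J ∈ [g.J1, g.J2], ∀ n : ℕ, Commute (g.ph⁻¹ ^ n * J * g.ph ^ n) g.d := by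
    intro J hJ n
    have h1 : Commute J g.d := h.base.Jc J hJ g.d (by simp)
    have h2 : Commute g.ph g.d := h.base.ph g.d (by simp)
    exact ((h2.inv_left.pow_left n).mul_left h1).mul_left (h2.pow_left n)
  have kS : ∀ J ∈ [g.J1, g.J2], ∀ n : ℕ, ∀ y ∈ h.S4,
      Commute (g.ph⁻¹ ^ n * J * g.ph ^ n) y := by
    intro J hJ n y hy
    have key : h.S4 ≤ Subgroup.centralizer {g.ph⁻¹ ^ n * J * g.ph ^ n} := by
      refine sup_le (fun l hl => ?_) ?_
      · rw [Subgroup.mem_centralizer_singleton_iff]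
        exact (kJ J hJ n l hl).symm
      · rintro _ ⟨l, hl, rfl⟩
        rw [Subgroup.mem_centralizer_singleton_iff]
        exact (((kd J hJ n).mul_right (kJ J hJ n l hl)).mul_right (kd J hJ n).inv_right).symm
    have k := key hy
    rw [Subgroup.mem_centralizer_singleton_iff] at k
    exact Commute.symm k
  refine nrm_closure ?_ ?_
  · rintro a ⟨n, rfl | rfl⟩ b hb
    · rw [(kS g.J1 (by simp) n b hb).eq, mul_inv_cancel_right]
      exact hb
    · rw [(kS g.J2 (by simp) n b hb).eq, mul_inv_cancel_right]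
      exact hb
  · rintro a ⟨n, rfl | rfl⟩ b hb
    · rw [mul_assoc, ← (kS g.J1 (by simp) n b hb).eq, inv_mul_cancel_left]
      exact hb
    · rw [mul_assoc, ← (kS g.J2 (by simp) n b hb).eq, inv_mul_cancel_left]
      exact hb

end Rels

end Pool.Agent.H86.FS
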