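import Pool.Agent.H86.FS.SO

/-!
# The solvable series: `n5`, `le_QQ`, `top_le`
* `n5`: `QQ` permutes `G2` (`G2_QQ`) and commutes with `D`, `S` (R15).
* `le_QQ`: `S1, S2, S3, S4 ≤ QQ` (components of elements of `GR` are in `QQ`; `L0` generated by `φ⁻ⁿ (s_y X s_y⁻¹) φⁿ`, ..).
* `top_le`: every generator lies in one of the `S_i` (`X ∈ L0`: `MD.mem`; `(th, et) ∈ GR`; `(a, b) ∈ G2`; `m_NM`).
-/

set_option autoImplicit false

open scoped commutatorElement

namespace Pool.Agent.H86.FS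

variable {G : Type*} [Group G] {r : ℕ}

theorem conj_closure86 {S : Set G} {K : Subgroup G} {a : G} (h : ∀ s ∈ S, a * s * a⁻¹ ∈ K) :
    ∀ b ∈ Subgroup.closure S, a * b * a⁻¹ ∈ K := by
  intro b hb
  induction hb using Subgroup.closure_induction with
  | mem x hx => exact h x hx
  | one => simp
  | mul x y _ _ hx hy =>
    have := mul_mem hx hy
    simpa [mul_assoc] using this
  | inv x _ hx =>
    have := inv_mem hx
    simpa [mul_assoc] using this

namespace Rels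

variable {g : Gens G r}

theorem GR_QQ86 (g : Gens G r) : ∀ y ∈ g.GR, y.1 ∈ g.QQ ∧ y.2 ∈ g.QQ := by
  intro y hy
  have hle : g.GR ≤ g.QQ.prod g.QQ := by
    unfold Gens.GR
    rw [Subgroup.closure_le]
    rintro _ ⟨q, hq, rfl⟩
    have hq' : q ∈ g.QQ := by
      have : Subgroup.closure g.TS ≤ g.QQ := by
        rw [Subgroup.closure_le]
        intro x hx
        apply Subgroup.subset_closure
        rcases hx with hx | ⟨i, rfl⟩
        · simp only [Set.mem_insert_iff, Set.mem_singleton_iff] at hx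
          left
          rcases hx with rfl | rfl | rfl <;> simp
        · right; exact ⟨i, rfl⟩
      exact this hq
    have hth : g.th ∈ g.QQ := Subgroup.subset_closure (by left; simp)
    have het : g.et ∈ g.QQ := Subgroup.subset_closure (by left; simp)
    rw [SetLike.mem_coe, Subgroup.mem_prod]
    simp only [conj2_apply]
    exact ⟨mul_mem (mul_mem hq' hth) (inv_mem hq'), mul_mem (mul_mem hq' het) (inv_mem hq')⟩
  exact Subgroup.mem_prod.1 (hle hy)

theorem QS_mem86 (g : Gens G r) {x : G} (hx : x ∈ [g.t, g.u1, g.u2, g.th, g.et, g.d, g.sg, g.X, g.Y, g.ph,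
    g.J1, g.J2]) : x ∈ g.QQ := by
  apply Subgroup.subset_closure
  left
  simpa using hx

theorem L0_QQ86 (h : Rels g) : h.base.B.L0 ≤ g.QQ := by
  have hph : g.ph ∈ g.QQ := QS_mem86 g (by simp)
  have hsn : ∀ y ∈ g.GR, sn y ∈ g.QQ := by
    intro y hy
    obtain ⟨h1, h2⟩ := GR_QQ86 g y hy
    unfold sn
    rw [commutatorElement_def]
    exact mul_mem (mul_mem (mul_mem h1 h2) (inv_mem h1)) (inv_mem h2)
  have key : ∀ x ∈ g.QQ, h.base.B.toEng.N0 g.ph x ≤ g.QQ := by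
    intro x hx
    unfold Eng.N0
    rw [Subgroup.closure_le]
    rintro _ ⟨n, y, hy, rfl⟩
    have hs := hsn y hy
    exact mul_mem (mul_mem (pow_mem (inv_mem hph) n)
      (mul_mem (mul_mem hs hx) (inv_mem hs))) (pow_mem hph n)
  unfold Base.L0
  rw [sup_le_iff]
  exact ⟨key g.X (QS_mem86 g (by simp)), key g.Y (QS_mem86 g (by simp))⟩

theorem le_QQ (h : Rels g) : S1 g ≤ g.QQ ∧ h.base.eng.grp ≤ g.QQ ∧ S3 g ≤ g.QQ ∧ h.S4 ≤ g.QQ := by
  have hph : g.ph ∈ g.QQ := QS_mem86 g (by simp)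
  have hd : g.d ∈ g.QQ := QS_mem86 g (by simp)
  refine ⟨?_, ?_, ?_, ?_⟩
  · unfold S1
    rw [Subgroup.closure_le]
    rintro x ((hx | ⟨i, rfl⟩) | hx)
    · simp only [Set.mem_insert_iff, Set.mem_singleton_iff] at hx
      rcases hx with rfl | rfl | rfl <;> exact QS_mem86 g (by simp)
    · exact Subgroup.subset_closure (Or.inr ⟨i, rfl⟩)
    · rw [Set.mem_singleton_iff] at hx
      rw [hx]; exact hph
  · unfold Eng.grp
    rw [Subgroup.closure_le]
    rintro x (⟨y, hy, hx⟩ | hx)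
    · obtain ⟨h1, h2⟩ := GR_QQ86 g y hy
      rcases hx with rfl | rfl
      · exact h1
      · exact h2
    · simp only [Set.mem_insert_iff, Set.mem_singleton_iff] at hx
      rcases hx with rfl | rfl
      · exact hd
      · exact QS_mem86 g (by simp : g.sg ∈ _)
  · unfold S3
    rw [Subgroup.closure_le]
    rintro x ⟨n, rfl | rfl⟩
    · exact mul_mem (mul_mem (pow_mem (inv_mem hph) n) (QS_mem86 g (by simp))) (pow_mem hph n)
    · exact mul_mem (mul_mem (pow_mem (inv_mem hph) n) (QS_mem86 g (by simp))) (pow_mem hph n)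
  · unfold S4
    rw [sup_le_iff]
    refine ⟨h.L0_QQ86, ?_⟩
    rw [Subgroup.map_le_iff_le_comap]
    intro x hx
    rw [Subgroup.mem_comap]
    exact mul_mem (mul_mem hd (h.L0_QQ86 hx)) (inv_mem hd)

theorem QQ_DS86 (h : Rels g) : ∀ q ∈ g.QQ, Commute g.D q ∧ Commute g.S q := by
  intro q hq
  induction hq using Subgroup.closure_induction with
  | mem x hx =>
    rcases hx with hx | ⟨i, rfl⟩
    · have hx' : x ∈ [g.t, g.u1, g.u2, g.th, g.et, g.d, g.sg, g.X, g.Y, g.ph, g.J1, g.J2] := by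
        simpa using hx
      exact ⟨h.top.DS g.D (by simp) x hx', h.top.DS g.S (by simp) x hx'⟩
    · exact ⟨h.top.DSs g.D (by simp) i, h.top.DSs g.S (by simp) i⟩
  | one => exact ⟨Commute.one_right _, Commute.one_right _⟩
  | mul x y _ _ hx hy => exact ⟨hx.1.mul_right hy.1, hx.2.mul_right hy.2⟩
  | inv x _ hx => exact ⟨hx.1.inv_right, hx.2.inv_right⟩

theorem n5 (h : Rels g) : Nrm g.QQ h.eng2.grp := by
  intro q hq
  apply conj_closure86
  rintro x (⟨y, hy, hx⟩ | hx)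
  · have hy2 : conj2 q y ∈ g.G2 := G2_QQ g q hq y hy
    apply Subgroup.subset_closure
    left
    refine ⟨conj2 q y, hy2, ?_⟩
    rcases hx with rfl | rfl
    · left; rfl
    · right; rfl
  · have h1 : q * x * q⁻¹ = x := by
      have hc : Commute x q := by
        simp only [Set.mem_insert_iff, Set.mem_singleton_iff] at hx
        rcases hx with rfl | rfl
        · exact (h.QQ_DS86 q hq).1
        · exact (h.QQ_DS86 q hq).2
      rw [← hc.eq, mul_inv_cancel_right]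
    rw [h1]
    exact Subgroup.subset_closure (Or.inr hx)

theorem top_le (h : Rels g) : Subgroup.closure g.set ≤
    S1 g ⊔ h.base.eng.grp ⊔ S3 g ⊔ h.S4 ⊔ h.eng2.grp ⊔ h.NM := by
  have l1 : S1 g ≤ S1 g ⊔ h.base.eng.grp ⊔ S3 g ⊔ h.S4 ⊔ h.eng2.grp ⊔ h.NM :=
    le_sup_of_le_left (le_sup_of_le_left (le_sup_of_le_left (le_sup_of_le_left le_sup_left)))
  have l2 : h.base.eng.grp ≤ S1 g ⊔ h.base.eng.grp ⊔ S3 g ⊔ h.S4 ⊔ h.eng2.grp ⊔ h.NM :=
    le_sup_of_le_left (le_sup_of_le_left (le_sup_of_le_left (le_sup_of_le_left le_sup_right)))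
  have l3 : S3 g ≤ S1 g ⊔ h.base.eng.grp ⊔ S3 g ⊔ h.S4 ⊔ h.eng2.grp ⊔ h.NM :=
    le_sup_of_le_left (le_sup_of_le_left (le_sup_of_le_left le_sup_right))
  have l4 : h.S4 ≤ S1 g ⊔ h.base.eng.grp ⊔ S3 g ⊔ h.S4 ⊔ h.eng2.grp ⊔ h.NM :=
    le_sup_of_le_left (le_sup_of_le_left le_sup_right)
  have l5 : h.eng2.grp ≤ S1 g ⊔ h.base.eng.grp ⊔ S3 g ⊔ h.S4 ⊔ h.eng2.grp ⊔ h.NM :=
    le_sup_of_le_left le_sup_right
  have l6 : h.NM ≤ S1 g ⊔ h.base.eng.grp ⊔ S3 g ⊔ h.S4 ⊔ h.eng2.grp ⊔ h.NM := le_sup_right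
  have hTS : ∀ x ∈ g.TS ∪ {g.ph}, x ∈ S1 g := fun x hx => Subgroup.subset_closure hx
  have hth : ∀ y ∈ g.GR, y.1 ∈ h.base.eng.grp ∧ y.2 ∈ h.base.eng.grp := fun y hy =>
    ⟨Subgroup.subset_closure (Or.inl ⟨y, hy, Or.inl rfl⟩),
      Subgroup.subset_closure (Or.inl ⟨y, hy, Or.inr rfl⟩)⟩
  have hab : ∀ y ∈ g.G2, y.1 ∈ h.eng2.grp ∧ y.2 ∈ h.eng2.grp := fun y hy =>
    ⟨Subgroup.subset_closure (Or.inl ⟨y, hy, Or.inl rfl⟩),
      Subgroup.subset_closure (Or.inl ⟨y, hy, Or.inr rfl⟩)⟩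
  rw [Subgroup.closure_le]
  rintro x (hx | ⟨i, rfl⟩)
  · simp only [Set.mem_insert_iff, Set.mem_singleton_iff] at hx
    rcases hx with rfl | rfl | rfl | rfl | rfl | rfl | rfl | rfl | rfl | rfl | rfl | rfl | rfl |
      rfl | rfl | rfl | rfl
    · exact l1 (hTS _ (by left; left; simp))
    · exact l1 (hTS _ (by left; left; simp))
    · exact l1 (hTS _ (by left; left; simp))
    · exact l2 (hth _ (BRel.mem_GR g)).1
    · exact l2 (hth _ (BRel.mem_GR g)).2
    · exact l2 (Subgroup.subset_closure (Or.inr (by left; rfl)))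
    · exact l2 (Subgroup.subset_closure (Or.inr (by right; rfl)))
    · exact l4 (le_sup_left (a := h.base.B.L0) (le_sup_left (a := h.base.B.NX) h.base.B.mX.mem))
    · exact l4 (le_sup_left (a := h.base.B.L0) (le_sup_right (b := h.base.B.NY) h.base.B.mY.mem))
    · exact l1 (hTS _ (by right; rfl))
    · exact l3 (Subgroup.subset_closure ⟨0, Or.inl (by simp)⟩)
    · exact l3 (Subgroup.subset_closure ⟨0, Or.inr (by simp)⟩)
    · exact l5 (hab _ (mem_G2 g)).1
    · exact l5 (hab _ (mem_G2 g)).2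
    · exact l5 (Subgroup.subset_closure (Or.inr (by left; rfl)))
    · exact l5 (Subgroup.subset_closure (Or.inr (by right; rfl)))
    · exact l6 h.m_NM
  · exact l1 (hTS _ (by left; right; exact ⟨i, rfl⟩))

end Rels

end Pool.Agent.H86.FS
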