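import Pool.Agent.H86.FS.SOa
import Pool.Agent.H86.FS.SOb
import Pool.Agent.H86.FS.SOc

/-!
# Claim A
`class2_solvable`, `comm_solvable`, `solvable_sup` and the series of SO.lean; finally `⊤ ≤ sup`, so `G` is solvable.
-/

set_option autoImplicit false

open scoped commutatorElement

namespace Pool.Agent.H86.FS

theorem solvable_of_rels {G : Type*} [Group G] {r : ℕ} (g : Gens G r) (h : Rels g)
    (hg : Subgroup.closure g.set = ⊤) : IsSolvable G := by
  obtain ⟨q1, q2, q3, q4⟩ := h.le_QQ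
  have s1 : IsSolvable ↥(Rels.S1 g) := comm_solvable _ h.S1_comm
  have s2 : IsSolvable ↥(h.base.eng.grp) := class2_solvable _ h.base.eng.grp_class2
  have s3 : IsSolvable ↥(Rels.S3 g) := comm_solvable _ h.S3_comm
  have s4 : IsSolvable ↥(h.S4) := class2_solvable _ h.S4_class2
  have s5 : IsSolvable ↥(h.eng2.grp) := class2_solvable _ h.eng2.grp_class2
  have s6 : IsSolvable ↥(h.NM) := comm_solvable _ h.NM_comm
  have a1 := solvable_sup _ _ s1 s2 h.n2
  have a2 := solvable_sup _ _ a1 s3 h.n3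
  have a3 := solvable_sup _ _ a2 s4 ((h.n4a.sup h.n4b).sup h.n4c)
  have n5 : Nrm (Rels.S1 g ⊔ h.base.eng.grp ⊔ Rels.S3 g ⊔ h.S4) h.eng2.grp :=
    h.n5.mono (sup_le (sup_le (sup_le q1 q2) q3) q4)
  have a4 := solvable_sup _ _ a3 s5 n5
  have a5 := solvable_sup _ _ a4 s6 (fun x hx y hy => h.NM_norm x (by rw [hg]; trivial) y hy)
  have htop : Rels.S1 g ⊔ h.base.eng.grp ⊔ Rels.S3 g ⊔ h.S4 ⊔ h.eng2.grp ⊔ h.NM = ⊤ := by
    rw [eq_top_iff, ← hg]
    exact h.top_le
  have a6 : IsSolvable ↥(⊤ : Subgroup G) := htop ▸ a5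
  have a7 : Group.IsSolvable ↥(⊤ : Subgroup G) := a6
  exact solvable_of_surjective (f := (Subgroup.topEquiv : (⊤ : Subgroup G) ≃* G).toMonoidHom)
    (Subgroup.topEquiv : (⊤ : Subgroup G) ≃* G).surjective

end Pool.Agent.H86.FS
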