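import Pool.Agent.H86.FS.T3Def
import Pool.Agent.H69.MG.Wrap

/-!
# T3, case 2: a middle `a`, extremes `b_0` and `a_D`
`S.P (D-1)`: in every window of length `≤ D-1` all commutators `c(i,j) = ⁅a_i, b_j⁆` commute with all `a`, `b` of the window.
(Labels are suppressed in the following; they play no role.)  Useful: `b_j a_i b_j⁻¹ = a_i * c(i,j)` because
`c(i,j) = a_i (b_j a_i⁻¹ b_j⁻¹)`, `a_i⁻¹ = a_i`; so for `i, j` in a window, `b_j a_i b_j⁻¹ = a_i c(i,j)` and conjugating an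
`a_i` of a window by a product of `b`'s of the same window multiplies it by central elements of the window.

Claim: for `1 ≤ i ≤ D-1`, `a_i` commutes with `b_0 a_D b_0⁻¹`.

Proof. Let `2 ≤ i' ≤ D-2`.
(g2) `S.P (D-1)` in the window `[1, D-1]`: `⁅a_{D-1}, b_1⁆` commutes with `a_{i'}`, hence `a_{i'}` commutes with
`b_1 a_{D-1} b_1⁻¹`. Conjugate by `g2`, `β = b_2 b_0`:
`a_{i'+1} a_{i'-1}` commutes with `β (a_D a_{D-2}) β⁻¹ = (β a_D β⁻¹)(β a_{D-2} β⁻¹)`.
Now `β a_{D-2} β⁻¹` lies in the group generated by the window `[0, D-2]`: it is `a_{D-2}` times commutators `c(D-2, 2)`, `c(D-2, 0)`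
(central in the window `[0, D-1]`), so it commutes with `a_{i'±1}` (`i'+1 ≤ D-1`).
Hence `a_{i'+1} a_{i'-1}` commutes with `β a_D β⁻¹`. Conjugate by `b_2` (`b_2` and `b_0` commute, `b_2 b_2 = 1`):
`b_2 (a_{i'+1} a_{i'-1}) b_2⁻¹` commutes with `b_0 a_D b_0⁻¹`. And `b_2 a_i b_2⁻¹ = a_i c(i, 2)` for `i = i'±1 ∈ [1, D-1]`, where
`c(i,2)` commutes with `b_0` (window `[0, D-1]`) and with `a_D` (window `[1, D]`, translate of `P`), hence with
`b_0 a_D b_0⁻¹`; also `c(i'+1, 2)` commutes with `a_{i'-1}`. So `a_{i'+1} a_{i'-1}` commutes with `b_0 a_D b_0⁻¹`.   (1)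
(g3) the same with `g3`, `β = b_2 b_1 b_0`: `a_{i'+1} a_{i'} a_{i'-1}` commutes with
`β (a_D a_{D-1} a_{D-2}) β⁻¹`; `β a_{D-1} β⁻¹`, `β a_{D-2} β⁻¹` are in the window `[0, D-1]` and commute with the `a`'s; conjugate by
`b_1 b_2`: `a_{i'+1} a_{i'} a_{i'-1}` commutes with `b_0 a_D b_0⁻¹`.   (2)
(1), (2), and commutativity of the `a`'s give: `a_{i'}` commutes with `b_0 a_D b_0⁻¹` for `2 ≤ i' ≤ D-2`. Finally `i = 1`: (1) with
`i' = 2` (`a_3` is known since `3 ≤ D-2`), and `i = D-1`: (1) with `i' = D-2` (`a_{D-3}` known since `D-3 ≥ 2`).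
-/

set_option autoImplicit false

open scoped commutatorElement

namespace Pool.Agent.H86.FS

variable {G : Type*} [Group G] {L : Type*}

theorem T3Sys.case2 (S : T3Sys G L) (D : ℤ) (hD : 5 ≤ D) (h : S.P (D - 1)) :
    ∀ (l l' l'' : L) (i : ℤ), 1 ≤ i → i ≤ D - 1 →
      Commute (S.a l i) (S.b l'' 0 * S.a l' D * (S.b l'' 0)⁻¹) := by
  intro l l' l'' i h1 h2
  have := Pool.Agent.H69.MG.case2 (Pool.Agent.H69.MG.toSys S) hD (Pool.Agent.H69.MG.toHyp S h)
    l l' l'' 0 i (by omega) (by omega)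
  rw [(Pool.Agent.H69.MG.toSys S).form, zero_add] at this
  exact this

end Pool.Agent.H86.FS
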