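import Pool.Agent.H86.FS.Defs

/-! # Definitions for T3 (tameness, three slots) -/

set_option autoImplicit false

open scoped commutatorElement

namespace Pool.Agent.H86.FS

/-- Two families of commuting involutions `a l q`, `b l q` (`q ∈ ℤ`) with `τ` (shift), `g₂` (`q ↦ {q+1, q-1}`) and
`g₃` (`q ↦ {q+1, q, q-1}`) acting by conjugation. -/
structure T3Sys (G : Type*) [Group G] (L : Type*) where
  τ : G
  g2 : G
  g3 : G
  a : L → ℤ → G
  b : L → ℤ → G
  a2 : ∀ l q, a l q * a l q = 1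
  b2 : ∀ l q, b l q * b l q = 1
  aτ : ∀ l q, τ * a l q * τ⁻¹ = a l (q + 1)
  bτ : ∀ l q, τ * b l q * τ⁻¹ = b l (q + 1)
  ag2 : ∀ l q, g2 * a l q * g2⁻¹ = a l (q + 1) * a l (q - 1)
  bg2 : ∀ l q, g2 * b l q * g2⁻¹ = b l (q + 1) * b l (q - 1)
  ag3 : ∀ l q, g3 * a l q * g3⁻¹ = a l (q + 1) * a l q * a l (q - 1)
  bg3 : ∀ l q, g3 * b l q * g3⁻¹ = b l (q + 1) * b l q * b l (q - 1)
  aa : ∀ l l' p q, Commute (a l p) (a l' q)
  bb : ∀ l l' p q, Commute (b l p) (b l' q)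

namespace T3Sys

variable {G : Type*} [Group G] {L : Type*}

/-- all triple relations for indices in the window `[m, m + D]` -/
def P (S : T3Sys G L) (D : ℤ) : Prop :=
  ∀ (m : ℤ) (l l' l'' : L) (i j k : ℤ), m ≤ i → i ≤ m + D → m ≤ j → j ≤ m + D → m ≤ k → k ≤ m + D →
    Commute ⁅S.a l i, S.b l' j⁆ (S.a l'' k) ∧ Commute ⁅S.a l i, S.b l' j⁆ (S.b l'' k)

/-- exchange the roles of `a` and `b` -/
def swap (S : T3Sys G L) : T3Sys G L where
  τ := S.τ
  g2 := S.g2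
  g3 := S.g3
  a := S.b
  b := S.a
  a2 := S.b2
  b2 := S.a2
  aτ := S.bτ
  bτ := S.aτ
  ag2 := S.bg2
  bg2 := S.ag2
  ag3 := S.bg3
  bg3 := S.ag3
  aa := S.bb
  bb := S.aa

/-- reverse the indices -/
def mirror (S : T3Sys G L) : T3Sys G L where
  τ := S.τ⁻¹
  g2 := S.g2
  g3 := S.g3
  a := fun l q => S.a l (-q)
  b := fun l q => S.b l (-q)
  a2 := fun l q => S.a2 l _
  b2 := fun l q => S.b2 l _
  aτ := fun l q => by
    have h := S.aτ l (-(q + 1))
    rw [show -(q + 1) + 1 = -q by ring] at h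
    rw [← h]; group
  bτ := fun l q => by
    have h := S.bτ l (-(q + 1))
    rw [show -(q + 1) + 1 = -q by ring] at h
    rw [← h]; group
  ag2 := fun l q => by
    rw [S.ag2, (S.aa l l (-q + 1) (-q - 1)).eq]; congr 2 <;> ring
  bg2 := fun l q => by
    rw [S.bg2, (S.bb l l (-q + 1) (-q - 1)).eq]; congr 2 <;> ring
  ag3 := fun l q => by
    rw [S.ag3, show -(q + 1) = -q - 1 by ring, show -(q - 1) = -q + 1 by ring,
      (S.aa l l (-q + 1) (-q)).eq, mul_assoc, (S.aa l l (-q + 1) (-q - 1)).eq, ← mul_assoc,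
      (S.aa l l (-q) (-q - 1)).eq]
  bg3 := fun l q => by
    rw [S.bg3, show -(q + 1) = -q - 1 by ring, show -(q - 1) = -q + 1 by ring,
      (S.bb l l (-q + 1) (-q)).eq, mul_assoc, (S.bb l l (-q + 1) (-q - 1)).eq, ← mul_assoc,
      (S.bb l l (-q) (-q - 1)).eq]
  aa := fun l l' p q => S.aa l l' _ _
  bb := fun l l' p q => S.bb l l' _ _

end T3Sys

end Pool.Agent.H86.FS
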