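import Pool.Agent.H86.FS.LA
import Pool.Agent.H86.FS.S9

/-!
# The top engine (9.6)
`B = h.base.B`, `PP := B.PP conj2 (g.a, g.b)`, `J = J1 * J2`.
* `L0_TT`: `q ∈ TT` commutes with `X`, `Y`, `ph` and `q s_y q⁻¹ = s_(conj2 q y)` (`sn_conj2`, `GR_TT`): it permutes the generators
  `ph⁻ⁿ (s_y X s_y⁻¹) phⁿ` of `NX`; the same for `NY`.
* `L0_J`: `ph J ph⁻¹ = J²`, so `phⁿ` conjugates `J ↦ J^(2^n)`; all powers of `J` commute with `X`, `Y`, `s_y` (`J` commutes with `TT`, `th`, `et`). So `J` commutes with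
  `ph⁻ⁿ (s_y X s_y⁻¹) phⁿ`, hence with `L0`.
* `PP_st`: `conj2 q` maps `PP` into `PP` for `q ∈ QS`:
  - `q ∈ TS`: generators `conj2 l (a,b)`, `l ∈ L0`: `conj2 q (conj2 l (a,b)) = conj2 (q l q⁻¹) (a,b)`; `q` commutes with `d`.
  - `th, et`: `PP_Γ` with `(th, et) ∈ GR`; `d, sg, ph`: `PP_δς`; `X, Y ∈ L0`: `PP_L0`.
  - `J1, J2`: commute with `L0` and `d`; on `(a,b)`: R12: `cj J1 c = cj (X^31) c * cj (X^31)⁻¹ c` for `c = a, b` simultaneously, so `conj2 J1 (a,b) ∈ P0`.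
* `PP_st'`: the same for `q⁻¹`, `q ∈ QS \ {J1, J2}`: `th⁻¹ = th`, .., `TT` is a group, `L0` is a group.
* `reach2`: `reach_closure` with `Γ0 = PP`, `g = J`, `Q = QS`, `x = (a,b)`. Let `y` with `conj2 (J^k) y ∈ PP`.
  - `q` commuting with `J` (all but `ph`): `conj2 (J^k) (conj2 q y) = conj2 q (..)`. `q⁻¹` with `q ∉ {J1,J2}`: the same with `PP_st'`.
  - `J1⁻¹`: `conj2 (J^(k+1)) (conj2 J1⁻¹ y) = conj2 J2 (conj2 (J^k) y)`. `J2⁻¹`: same.
  - `ph`: `J^(2k) ph = ph J^k` (from `ph J ph⁻¹ = J²`: `ph J^k = J^(2k) ph`): `conj2 (J^(2k)) (conj2 ph y) = conj2 ph (conj2 (J^k) y)`.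
  - `ph⁻¹`: `J^k ph⁻¹ = ph⁻¹ J^(2k)`: `conj2 (J^k) (conj2 ph⁻¹ y) = conj2 ph⁻¹ (conj2 (J^k) (conj2 (J^k) y)) ∈ PP`.
* `corePP`: `PP_sq`, `PP_comm` for `AB.Vab`; `AB.class2`, `AB.symm`, `AB.PP_fst`.
* `core2`: `core_of_reach`. `e42`: `e4_closure`: `D`, `S` commute with `QS` (R15), so conjugate (R15) by `q`.
-/

set_option autoImplicit false

open scoped commutatorElement

namespace Pool.Agent.H86.FS

variable {G : Type*} [Group G] {r : ℕ}

namespace Gens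

variable (g : Gens G r)

/-- generators of `Q₀` -/
def QS : Set G := {g.t, g.u1, g.u2, g.th, g.et, g.d, g.sg, g.X, g.Y, g.ph, g.J1, g.J2} ∪ Set.range g.s
/-- `Q₀` -/
def QQ : Subgroup G := Subgroup.closure g.QS
/-- `Γ₂` -/
def G2 : Subgroup (G × G) :=
  Subgroup.closure {y | ∃ q ∈ Subgroup.closure g.QS, y = conj2 q (g.a, g.b)}

end Gens

open Pool.Agent.H75.FS

/-- Elements commuting with `φ`, `x` and stabilising `Γ` normalise `N0`. -/
theorem Eng.N0_conj (E : Eng G) (φ x q : G) (hφ : Commute q φ) (hx : Commute q x)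
    (hΓ : ∀ r ∈ E.Γ, conj2 q r ∈ E.Γ) : ∀ y ∈ E.N0 φ x, q * y * q⁻¹ ∈ E.N0 φ x := by
  have key : E.N0 φ x ≤ (E.N0 φ x).comap (MulAut.conj q).toMonoidHom := by
    conv_lhs => unfold Eng.N0
    rw [Subgroup.closure_le]
    rintro _ ⟨n, r, hr, rfl⟩
    refine Subgroup.subset_closure ⟨n, conj2 q r, hΓ r hr, ?_⟩
    rw [sn_conj2]
    have e1 : MulAut.conj q φ = φ := by
      rw [MulAut.conj_apply, hφ.eq, mul_inv_cancel_right]
    have e2 : MulAut.conj q x = x := by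
      rw [MulAut.conj_apply, hx.eq, mul_inv_cancel_right]
    have e3 : MulAut.conj q (sn r) = q * sn r * q⁻¹ := MulAut.conj_apply _ _
    show MulAut.conj q (φ⁻¹ ^ n * (sn r * x * (sn r)⁻¹) * φ ^ n) = _
    rw [map_mul, map_mul, map_pow, map_pow, map_inv, map_mul, map_mul, map_inv, e1, e2, e3]
  intro y hy
  exact key hy

/-- conjugation by powers of `φ` -/
theorem pow_double {φ J : G} (h : φ * J * φ⁻¹ = J * J) (n : ℕ) :
    φ ^ n * J * (φ ^ n)⁻¹ = J ^ (2 ^ n) := by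
  induction n with
  | zero => simp
  | succ n ih =>
    have e1 : φ ^ (n + 1) * J * (φ ^ (n + 1))⁻¹ = φ * (φ ^ n * J * (φ ^ n)⁻¹) * φ⁻¹ := by
      rw [pow_succ' φ n]
      group
    have e2 : φ * J ^ (2 ^ n) * φ⁻¹ = (φ * J * φ⁻¹) ^ (2 ^ n) := (conj_pow).symm
    rw [e1, ih, e2, h, ← pow_two, ← pow_mul, ← pow_succ']

/-- Elements `J` with `φ J φ⁻¹ = J²` commuting with the basic generators centralise `N0`. -/
theorem Eng.N0_cent (E : Eng G) (φ x J : G) (hφ : φ * J * φ⁻¹ = J * J) (hx : Commute J x)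
    (hs : ∀ r ∈ E.Γ, Commute J (sn r)) : ∀ y ∈ E.N0 φ x, Commute J y := by
  intro y hy
  unfold Eng.N0 at hy
  induction hy using Subgroup.closure_induction with
  | mem y hy =>
    obtain ⟨n, r, hr, rfl⟩ := hy
    have h1 : Commute (J ^ (2 ^ n)) (sn r * x * (sn r)⁻¹) :=
      (((hs r hr).mul_right hx).mul_right (hs r hr).inv_right).pow_left _
    rw [← pow_double hφ n] at h1
    have e1 : φ⁻¹ ^ n * (sn r * x * (sn r)⁻¹) * φ ^ n =
        (φ ^ n)⁻¹ * (sn r * x * (sn r)⁻¹) * ((φ ^ n)⁻¹)⁻¹ := by rw [inv_pow, inv_inv]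
    have e2 : J = (φ ^ n)⁻¹ * (φ ^ n * J * (φ ^ n)⁻¹) * ((φ ^ n)⁻¹)⁻¹ := by group
    rw [e1]
    nth_rewrite 1 [e2]
    exact (commute_conj_iff _).2 h1
  | one => exact Commute.one_right _
  | mul a b _ _ ha hb => exact ha.mul_right hb
  | inv a _ ha => exact ha.inv_right

namespace BRel

variable {g : Gens G r}

theorem L0_TT (h : BRel g) : ∀ q ∈ g.TT, ∀ x ∈ h.B.L0, q * x * q⁻¹ ∈ h.B.L0 := by
  intro q hq x hx
  have hΓ : ∀ r ∈ h.B.Γ, conj2 q r ∈ h.B.Γ := BRel.GR_TT g q hq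
  have hph : Commute q g.ph := h.TT_com q hq g.ph (by simp)
  have k1 := h.B.toEng.N0_conj g.ph g.X q hph (h.TT_com q hq g.X (by simp)) hΓ
  have k2 := h.B.toEng.N0_conj g.ph g.Y q hph (h.TT_com q hq g.Y (by simp)) hΓ
  have key : h.B.L0 ≤ h.B.L0.comap (MulAut.conj q).toMonoidHom := by
    refine sup_le (fun y hy => ?_) (fun y hy => ?_)
    · exact (le_sup_left : h.B.NX ≤ h.B.L0) (k1 y hy)
    · exact (le_sup_right : h.B.NY ≤ h.B.L0) (k2 y hy)
  exact key hx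

theorem cent_L0 (h : BRel g) {J : G} (hφ : g.ph * J * g.ph⁻¹ = J * J) (hX : Commute J g.X)
    (hY : Commute J g.Y) (hs : ∀ r ∈ g.GR, Commute J (sn r)) : ∀ x ∈ h.B.L0, Commute J x := by
  intro x hx
  have key : h.B.L0 ≤ Subgroup.centralizer {J} := by
    refine sup_le (fun y hy => ?_) (fun y hy => ?_)
    · rw [Subgroup.mem_centralizer_singleton_iff]
      exact (h.B.toEng.N0_cent g.ph g.X J hφ hX hs y hy).symm
    · rw [Subgroup.mem_centralizer_singleton_iff]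
      exact (h.B.toEng.N0_cent g.ph g.Y J hφ hY hs y hy).symm
  have k := key hx
  rw [Subgroup.mem_centralizer_singleton_iff] at k
  exact Commute.symm k

theorem L0_J (h : BRel g) : ∀ J ∈ [g.J1, g.J2], ∀ x ∈ h.B.L0, Commute J x := by
  intro J hJ
  have hJ2 : J ∈ [g.t, g.u1, g.u2, g.d, g.sg, g.X, g.Y, g.ph, g.J1, g.J2] := by
    simp only [List.mem_cons, List.not_mem_nil, or_false] at hJ ⊢
    rcases hJ with rfl | rfl <;> simp
  have hT : ∀ q ∈ g.TT, Commute q J := fun q hq => h.TT_com q hq J hJ2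
  have hth := h.Jc J hJ g.th (by simp)
  have het := h.Jc J hJ g.et (by simp)
  have hrho : Commute g.rho J := by
    rw [Gens.rho, commutatorElement_def]
    exact (((hth.mul_right het).mul_right hth.inv_right).mul_right het.inv_right).symm
  exact h.cent_L0 (h.phJ J hJ) (h.Jc J hJ g.X (by simp)) (h.Jc J hJ g.Y (by simp))
    (fun r hr => (h.GR_sn hT hrho r hr).symm)

end BRel

/-- The action on `PP` of an element normalising `L0`, commuting with `δ`, fixing `c`. -/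
theorem VData.PP_of_norm {H : Type*} [Group H] {B : Base G} {ψ : G →* MulAut H} {c : H}
    (V : VData B ψ c) {x : G} (hx : ∀ g ∈ B.L0, x * g * x⁻¹ ∈ B.L0) (hδ : Commute B.δ x)
    (hc : ψ x c = c) {p : H} (hp : p ∈ B.PP ψ c) : ψ x p ∈ B.PP ψ c := by
  refine V.PP_map (fun p hp => ?_) (fun p hp => ?_) hp
  · exact VData.P0_PP B ψ c (VData.P0_norm B ψ c hx hc hp)
  · rw [VData.ψ_δ_comm hδ]
    exact V.PP_δ (VData.P0_PP B ψ c (VData.P0_norm B ψ c hx hc hp))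

namespace Rels

variable {g : Gens G r}

theorem Vab (h : Rels g) : VData h.base.B conj2 (g.a, g.b) := AB.Vab (h.AB)

theorem PP_TT (h : Rels g) : ∀ q ∈ g.TT, ∀ y ∈ h.base.B.PP conj2 (g.a, g.b),
    conj2 q y ∈ h.base.B.PP conj2 (g.a, g.b) := by
  intro q hq y hy
  refine h.Vab.PP_of_norm (h.base.L0_TT q hq) (h.base.TT_com q hq g.d (by simp)).symm ?_ hy
  have k1 := CRel.TT_c h.ca q hq
  have k2 := CRel.TT_c h.cb q hq
  rw [conj2_apply]
  exact Prod.ext (by show q * g.a * q⁻¹ = g.a; rw [k1.eq, mul_inv_cancel_right])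
    (by show q * g.b * q⁻¹ = g.b; rw [k2.eq, mul_inv_cancel_right])

theorem PP_J (h : Rels g) {J : G} (hJ : J ∈ [g.J1, g.J2])
    (hab : conj2 J (g.a, g.b) ∈ h.base.B.P0 conj2 (g.a, g.b)) :
    ∀ y ∈ h.base.B.PP conj2 (g.a, g.b), conj2 J y ∈ h.base.B.PP conj2 (g.a, g.b) := by
  intro y hy
  have hd : Commute h.base.B.δ J := (h.base.Jc J hJ g.d (by simp)).symm
  have k0 : ∀ p ∈ h.base.B.P0 conj2 (g.a, g.b), conj2 J p ∈ h.base.B.P0 conj2 (g.a, g.b) := by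
    intro p hp
    have key : h.base.B.P0 conj2 (g.a, g.b) ≤
        (h.base.B.P0 conj2 (g.a, g.b)).comap (conj2 J).toMonoidHom := by
      conv_lhs => unfold Base.P0
      rw [Subgroup.closure_le]
      rintro _ ⟨l, hl, rfl⟩
      show conj2 J (conj2 l (g.a, g.b)) ∈ h.base.B.P0 conj2 (g.a, g.b)
      rw [← conj2_mul, (h.base.L0_J J hJ l hl).eq, conj2_mul]
      exact h.Vab.P0_L0 hl hab
    exact key hp
  refine h.Vab.PP_map (fun p hp => ?_) (fun p hp => ?_) hy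
  · exact VData.P0_PP _ _ _ (k0 p hp)
  · rw [VData.ψ_δ_comm hd]
    exact h.Vab.PP_δ (VData.P0_PP _ _ _ (k0 p hp))

theorem PP_J1 (h : Rels g) : ∀ y ∈ h.base.B.PP conj2 (g.a, g.b),
    conj2 g.J1 y ∈ h.base.B.PP conj2 (g.a, g.b) := by
  apply h.PP_J (by simp)
  have hX : g.X ^ 31 ∈ h.base.B.L0 := Subgroup.pow_mem _ (VData.X_L0 h.base.B) _
  have e1 : conj2 g.J1 (g.a, g.b) = conj2 (g.X ^ 31) (g.a, g.b) *
      conj2 (g.X ^ 31)⁻¹ (g.a, g.b) := by
    have k1 := h.ca.J1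
    have k2 := h.cb.J1
    exact Prod.ext k1 k2
  rw [e1]
  exact Subgroup.mul_mem _ (Subgroup.subset_closure ⟨_, hX, rfl⟩)
    (Subgroup.subset_closure ⟨_, Subgroup.inv_mem _ hX, rfl⟩)

theorem PP_J2 (h : Rels g) : ∀ y ∈ h.base.B.PP conj2 (g.a, g.b),
    conj2 g.J2 y ∈ h.base.B.PP conj2 (g.a, g.b) := by
  apply h.PP_J (by simp)
  have hX : g.X ^ 31 ∈ h.base.B.L0 := Subgroup.pow_mem _ (VData.X_L0 h.base.B) _
  have e1 : conj2 g.J2 (g.a, g.b) = conj2 (g.X ^ 31) (g.a, g.b) * (g.a, g.b) *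
      conj2 (g.X ^ 31)⁻¹ (g.a, g.b) := by
    have k1 := h.ca.J2
    have k2 := h.cb.J2
    exact Prod.ext k1 k2
  rw [e1]
  refine Subgroup.mul_mem _ (Subgroup.mul_mem _ (Subgroup.subset_closure ⟨_, hX, rfl⟩)
    (Subgroup.subset_closure ⟨1, Subgroup.one_mem _, ?_⟩))
    (Subgroup.subset_closure ⟨_, Subgroup.inv_mem _ hX, rfl⟩)
  simp

theorem PP_st (h : Rels g) : ∀ q ∈ g.QS, ∀ y ∈ h.base.B.PP conj2 (g.a, g.b),
    conj2 q y ∈ h.base.B.PP conj2 (g.a, g.b) := by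
  intro q hq y hy
  have V := h.Vab
  have hGR : (g.th, g.et) ∈ h.base.B.Γ := BRel.mem_GR g
  rcases hq with hq | ⟨i, rfl⟩
  · simp only [Set.mem_insert_iff, Set.mem_singleton_iff] at hq
    rcases hq with rfl | rfl | rfl | rfl | rfl | rfl | rfl | rfl | rfl | rfl | rfl | rfl
    · exact h.PP_TT _ (Subgroup.subset_closure (Or.inl (by simp))) y hy
    · exact h.PP_TT _ (Subgroup.subset_closure (Or.inl (by simp))) y hy
    · exact h.PP_TT _ (Subgroup.subset_closure (Or.inl (by simp))) y hy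
    · exact (V.PP_Γ hGR hy).1
    · exact (V.PP_Γ hGR hy).2
    · exact (V.PP_δς hy).1
    · exact (V.PP_δς hy).2.1
    · exact (V.PP_L0 (VData.X_L0 h.base.B) hy).1
    · exact (V.PP_L0 (VData.Y_L0 h.base.B) hy).1
    · exact (V.PP_δς hy).2.2.1
    · exact h.PP_J1 y hy
    · exact h.PP_J2 y hy
  · exact h.PP_TT _ (Subgroup.subset_closure (Or.inr ⟨i, rfl⟩)) y hy

theorem PP_st' (h : Rels g) : ∀ q ∈ g.QS, q ≠ g.J1 → q ≠ g.J2 →
    ∀ y ∈ h.base.B.PP conj2 (g.a, g.b), conj2 q⁻¹ y ∈ h.base.B.PP conj2 (g.a, g.b) := by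
  intro q hq hq1 hq2 y hy
  have V := h.Vab
  have hGR : (g.th, g.et) ∈ h.base.B.Γ := BRel.mem_GR g
  have hinv : ∀ x ∈ [g.th, g.et, g.d, g.sg], x⁻¹ = x := fun x hx =>
    inv_eq_of_mul_eq_one_left (h.base.inv x hx)
  rcases hq with hq | ⟨i, rfl⟩
  · simp only [Set.mem_insert_iff, Set.mem_singleton_iff] at hq
    rcases hq with rfl | rfl | rfl | rfl | rfl | rfl | rfl | rfl | rfl | rfl | rfl | rfl
    · exact h.PP_TT _ (Subgroup.inv_mem _ (Subgroup.subset_closure (Or.inl (by simp)))) y hy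
    · exact h.PP_TT _ (Subgroup.inv_mem _ (Subgroup.subset_closure (Or.inl (by simp)))) y hy
    · exact h.PP_TT _ (Subgroup.inv_mem _ (Subgroup.subset_closure (Or.inl (by simp)))) y hy
    · rw [hinv g.th (by simp)]
      exact (V.PP_Γ hGR hy).1
    · rw [hinv g.et (by simp)]
      exact (V.PP_Γ hGR hy).2
    · rw [hinv g.d (by simp)]
      exact (V.PP_δς hy).1
    · rw [hinv g.sg (by simp)]
      exact (V.PP_δς hy).2.1
    · exact (V.PP_L0 (Subgroup.inv_mem _ (VData.X_L0 h.base.B)) hy).1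
    · exact (V.PP_L0 (Subgroup.inv_mem _ (VData.Y_L0 h.base.B)) hy).1
    · exact (V.PP_δς hy).2.2.2
    · exact absurd rfl hq1
    · exact absurd rfl hq2
  · exact h.PP_TT _ (Subgroup.inv_mem _ (Subgroup.subset_closure (Or.inr ⟨i, rfl⟩))) y hy

/-- `J` commutes with all generators except `ph`. -/
theorem J_QS (h : Rels g) {J : G} (hJ : J ∈ [g.J1, g.J2]) : ∀ q ∈ g.QS, q = g.ph ∨ Commute J q := by
  intro q hq
  rcases hq with hq | ⟨i, rfl⟩
  · simp only [Set.mem_insert_iff, Set.mem_singleton_iff] at hq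
    have k := h.base.Jc J hJ
    have kJ : Commute J g.J1 ∧ Commute J g.J2 := by
      simp only [List.mem_cons, List.not_mem_nil, or_false] at hJ
      rcases hJ with rfl | rfl
      · exact ⟨Commute.refl _, h.base.JJ⟩
      · exact ⟨h.base.JJ.symm, Commute.refl _⟩
    rcases hq with rfl | rfl | rfl | rfl | rfl | rfl | rfl | rfl | rfl | rfl | rfl | rfl
    · exact Or.inr (k _ (by simp))
    · exact Or.inr (k _ (by simp))
    · exact Or.inr (k _ (by simp))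
    · exact Or.inr (k _ (by simp))
    · exact Or.inr (k _ (by simp))
    · exact Or.inr (k _ (by simp))
    · exact Or.inr (k _ (by simp))
    · exact Or.inr (k _ (by simp))
    · exact Or.inr (k _ (by simp))
    · exact Or.inl rfl
    · exact Or.inr kJ.1
    · exact Or.inr kJ.2
  · exact Or.inr (h.base.Js J hJ i)

theorem phJJ (h : Rels g) : g.ph * (g.J1 * g.J2) * g.ph⁻¹ = (g.J1 * g.J2) * (g.J1 * g.J2) := by
  have k1 := h.base.phJ g.J1 (by simp)
  have k2 := h.base.phJ g.J2 (by simp)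
  calc g.ph * (g.J1 * g.J2) * g.ph⁻¹ = (g.ph * g.J1 * g.ph⁻¹) * (g.ph * g.J2 * g.ph⁻¹) := by group
    _ = (g.J1 * g.J1) * (g.J2 * g.J2) := by rw [← k1, ← k2]
    _ = _ := (h.base.JJ.symm.mul_mul_mul_comm _ _).symm

theorem ph_Jpow (h : Rels g) (k : ℕ) :
    (g.J1 * g.J2) ^ (2 * k) * g.ph = g.ph * (g.J1 * g.J2) ^ k := by
  have e1 : g.ph * (g.J1 * g.J2) ^ k * g.ph⁻¹ = (g.J1 * g.J2) ^ (2 * k) := by
    rw [← conj_pow, h.phJJ, ← pow_two, ← pow_mul]
  rw [← e1, inv_mul_cancel_right]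

theorem PP_JJ (h : Rels g) : ∀ y ∈ h.base.B.PP conj2 (g.a, g.b),
    conj2 (g.J1 * g.J2) y ∈ h.base.B.PP conj2 (g.a, g.b) := by
  intro y hy
  rw [conj2_mul]
  exact h.PP_J1 _ (h.PP_J2 _ hy)

theorem reach2 (h : Rels g) : ∀ y ∈ g.G2, ∃ k : ℕ,
    conj2 ((g.J1 * g.J2) ^ k) y ∈ h.base.B.PP conj2 (g.a, g.b) := by
  have hc : ∀ q ∈ g.QS, q ≠ g.ph → Commute (g.J1 * g.J2) q := fun q hq hne =>
    ((h.J_QS (J := g.J1) (by simp) q hq).resolve_left hne).mul_left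
      ((h.J_QS (J := g.J2) (by simp) q hq).resolve_left hne)
  have hpow : ∀ (k : ℕ) y, y ∈ h.base.B.PP conj2 (g.a, g.b) →
      conj2 ((g.J1 * g.J2) ^ k) y ∈ h.base.B.PP conj2 (g.a, g.b) := by
    intro k
    induction k with
    | zero =>
      intro y hy
      simpa using hy
    | succ k ih =>
      intro y hy
      rw [pow_succ, conj2_mul]
      exact ih _ (h.PP_JJ y hy)
  refine reach_closure _ (g.J1 * g.J2) h.PP_JJ g.QS ?_ ?_ (g.a, g.b)
    (VData.P0_PP _ _ _ (Subgroup.subset_closure ⟨1, Subgroup.one_mem _, by simp⟩))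
  · intro q hq y ⟨k, hk⟩
    by_cases hph : q = g.ph
    · refine ⟨2 * k, ?_⟩
      rw [hph, ← conj2_mul, h.ph_Jpow, conj2_mul]
      exact h.PP_st g.ph (Or.inl (by simp)) _ hk
    · refine ⟨k, ?_⟩
      rw [← conj2_mul, ((hc q hq hph).pow_left k).eq, conj2_mul]
      exact h.PP_st q hq _ hk
  · intro q hq y ⟨k, hk⟩
    by_cases hph : q = g.ph
    · refine ⟨k, ?_⟩
      have e1 : (g.J1 * g.J2) ^ k * g.ph⁻¹ = g.ph⁻¹ * ((g.J1 * g.J2) ^ k * (g.J1 * g.J2) ^ k) := by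
        rw [← pow_add, ← two_mul, eq_inv_mul_iff_mul_eq, ← mul_assoc, ← h.ph_Jpow,
          mul_inv_cancel_right]
      rw [hph, ← conj2_mul, e1, conj2_mul, conj2_mul]
      exact (h.Vab.PP_δς (hpow k _ hk)).2.2.2
    · have hJ12 := h.base.JJ
      by_cases h1 : q = g.J1
      · refine ⟨k + 1, ?_⟩
        have e1 : (g.J1 * g.J2) ^ (k + 1) * g.J1⁻¹ = g.J2 * (g.J1 * g.J2) ^ k := by
          have hc1 : Commute (g.J1 * g.J2) g.J2 := hJ12.mul_left (Commute.refl _)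
          rw [pow_succ, hJ12.eq, mul_assoc, mul_inv_cancel_right, ← hJ12.eq,
            (hc1.pow_left k).eq]
        rw [h1, ← conj2_mul, e1, conj2_mul]
        exact h.PP_J2 _ hk
      · by_cases h2 : q = g.J2
        · refine ⟨k + 1, ?_⟩
          have e1 : (g.J1 * g.J2) ^ (k + 1) * g.J2⁻¹ = g.J1 * (g.J1 * g.J2) ^ k := by
            have hc1 : Commute (g.J1 * g.J2) g.J1 := (Commute.refl _).mul_left hJ12.symm
            rw [pow_succ, mul_assoc, mul_inv_cancel_right, (hc1.pow_left k).eq]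
          rw [h2, ← conj2_mul, e1, conj2_mul]
          exact h.PP_J1 _ hk
        · refine ⟨k, ?_⟩
          rw [← conj2_mul, ((hc q hq hph).pow_left k).inv_right.eq, conj2_mul]
          exact h.PP_st' q hq h1 h2 _ hk

theorem corePP (h : Rels g) : Core (h.base.B.PP conj2 (g.a, g.b)) where
  th_sq := fun _ hr => congrArg Prod.fst (h.Vab.PP_sq hr)
  et_sq := fun _ hr => congrArg Prod.snd (h.Vab.PP_sq hr)
  th_th := fun _ hr _ hr' => (h.Vab.PP_comm hr hr').map (MonoidHom.fst G G)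
  et_et := fun _ hr _ hr' => (h.Vab.PP_comm hr hr').map (MonoidHom.snd G G)
  c_th := fun _ hr _ hr' _ hr'' => AB.class2 h.AB _ (AB.PP_fst _ _ _ hr).1 _
    (AB.PP_fst _ _ _ hr').2 _ (Or.inl (AB.PP_fst _ _ _ hr'').1)
  c_et := fun _ hr _ hr' _ hr'' => AB.class2 h.AB _ (AB.PP_fst _ _ _ hr).1 _
    (AB.PP_fst _ _ _ hr').2 _ (Or.inr (AB.PP_fst _ _ _ hr'').2)
  symm := AB.symm h.AB

theorem core2 (h : Rels g) : Core g.G2 :=
  core_of_reach g.G2 _ (g.J1 * g.J2) h.PP_JJ h.reach2 h.corePP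

/-- `D`, `S` commute with `QQ`. -/
theorem DS_QQ (h : Rels g) {x : G} (hx : x ∈ [g.D, g.S]) : ∀ q ∈ g.QQ, Commute q x := by
  intro q hq
  unfold Gens.QQ at hq
  induction hq using Subgroup.closure_induction with
  | mem q hq =>
    rcases hq with hq | ⟨i, rfl⟩
    · refine (h.top.DS x hx q ?_).symm
      simp only [Set.mem_insert_iff, Set.mem_singleton_iff] at hq
      rcases hq with rfl | rfl | rfl | rfl | rfl | rfl | rfl | rfl | rfl | rfl | rfl | rfl <;>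
        simp
    · exact (h.top.DSs x hx i).symm
  | one => exact Commute.one_left _
  | mul a b _ _ ha hb => exact ha.mul_left hb
  | inv a _ ha => exact ha.inv_left

theorem e42 (h : Rels g) : E4 g.G2 g.D g.S := by
  have hD : ∀ q ∈ g.QQ, Commute q g.D := h.DS_QQ (by simp)
  have hS : ∀ q ∈ g.QQ, Commute q g.S := h.DS_QQ (by simp)
  have hcj : ∀ q ∈ g.QQ, ∀ x : G, Commute q x → q * x * q⁻¹ = x := fun q _ x hx => by
    rw [hx.eq, mul_inv_cancel_right]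
  have hds : ∀ q ∈ g.QQ, Commute q ⁅g.D, g.S⁆ := fun q hq => by
    rw [commutatorElement_def]
    exact (((hD q hq).mul_right (hS q hq)).mul_right (hD q hq).inv_right).mul_right
      (hS q hq).inv_right
  apply e4_closure _ h.core2
  · rintro _ ⟨q, hq, rfl⟩
    rw [← hcj q hq g.D (hD q hq)]
    exact (commute_conj_iff q).2 h.top.Da
  · rintro _ ⟨q, hq, rfl⟩
    rw [← hcj q hq g.S (hS q hq)]
    exact (commute_conj_iff q).2 h.top.Sb
  · rintro _ ⟨q, hq, rfl⟩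
    rw [sn_conj2]
    have e1 : (conj2 q (g.a, g.b)).1 = q * g.a * q⁻¹ := rfl
    rw [e1]
    nth_rewrite 1 [← hcj q hq g.S (hS q hq)]
    rw [← conj_comm_iff, h.top.aS]
    rfl
  · rintro _ ⟨q, hq, rfl⟩
    rw [sn_conj2]
    have e1 : (conj2 q (g.a, g.b)).2 = q * g.b * q⁻¹ := rfl
    rw [e1]
    nth_rewrite 1 [← hcj q hq g.D (hD q hq)]
    rw [← conj_comm_iff, h.top.Db]
    rfl
  · rintro _ ⟨q, hq, rfl⟩
    rw [← hcj q hq _ (hds q hq)]
    exact (commute_conj_iff q).2 (h.top.sb'c g.a (by simp))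
  · rintro _ ⟨q, hq, rfl⟩
    rw [← hcj q hq _ (hds q hq)]
    exact (commute_conj_iff q).2 (h.top.sb'c g.b (by simp))

theorem mem_G2 (g : Gens G r) : (g.a, g.b) ∈ g.G2 :=
  Subgroup.subset_closure ⟨1, Subgroup.one_mem _, by simp⟩

theorem G2_QQ (g : Gens G r) : ∀ q ∈ g.QQ, ∀ y ∈ g.G2, conj2 q y ∈ g.G2 := by
  intro q hq y hy
  unfold Gens.G2 at hy
  induction hy using Subgroup.closure_induction with
  | mem y hy =>
    obtain ⟨p, hp, rfl⟩ := hy
    exact Subgroup.subset_closure ⟨q * p, Subgroup.mul_mem _ hq hp, by rw [conj2_mul]⟩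
  | one => rw [map_one]; exact Subgroup.one_mem _
  | mul a b _ _ ha hb => rw [map_mul]; exact Subgroup.mul_mem _ ha hb
  | inv a _ ha => rw [map_inv]; exact Subgroup.inv_mem _ ha

/-- the top engine -/
def eng2 (h : Rels g) : Eng G where
  Γ := g.G2
  δ := g.D
  ς := g.S
  th_sq := h.core2.th_sq
  et_sq := h.core2.et_sq
  th_th := h.core2.th_th
  et_et := h.core2.et_et
  c_th := h.core2.c_th
  c_et := h.core2.c_et
  symm := h.core2.symm
  δ_sq := h.top.inv g.D (by simp)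
  ς_sq := h.top.inv g.S (by simp)
  δ_th := h.e42.δ_th
  ς_et := h.e42.ς_et
  th_ς := h.e42.th_ς
  δ_et := h.e42.δ_et
  σ_th := h.e42.σ_th
  σ_et := h.e42.σ_et
  σ_δ := h.top.sb'c g.D (by simp)
  σ_ς := h.top.sb'c g.S (by simp)

end Rels

end Pool.Agent.H86.FS
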