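import Pool.Agent.H86.FS.VF
import Pool.Agent.H61.FS.TF

/-!
# TF-lemma (section 8)
Two families `M₁ = P0(c₁)`, `M₂ = P0(c₂)`, `ι_j : M_j → G` multiplicative and `L0`-equivariant (`G` acts on itself by conjugation); if `ι₁(w)`, `ι₂(w')`
commute for all constants `w ∈ Ac(c₁)`, `w' ∈ Ac(c₂)`, then for all `p ∈ M₁`, `q ∈ M₂`.

Proof. `Q := {q ∈ M₂ | ∀ w ∈ Ac₁, Commute (ι₁ w) (ι₂ q)}`: a subgroup containing `Ac₂`, stable under `ψ₂ g`, `g ∈ Cst` (since `Ac₁` is stable).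
By `P0_ind` it is enough: `q ∈ Q`, `r ∈ Γ` → `e_r q ∈ Q`. Write `e = e_r` on both sides, `e* p := p * e p` (complementary projection, exponent 2).
Elements: `xl, yl, zl ∈ L0` act as `X, Y, Z` on the `e`-part, trivially on the `e*`-part (`e_xl, e_yl, e_zl`); `x* := X * (xl r)⁻¹`, `z* := Z * (zl r)⁻¹`, `y*`
act on the `e*`-part only.
(i) CLAIM: `ι₁(e* w)` commutes with `ι₂(e q)` for `w ∈ Ac₁`, `q ∈ Q`. By multiplicativity `w` may be a letter `ψ₁ g c₁`, `g ∈ Cst`; by `Cst_nf`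
 `w = (φ⁻ⁿ X^i φⁿ) Z^j • c₁` (`Y` fixes `c₁`, and commutes with... note `Z^j Y^k•c₁ = Z^j•c₁`, `φⁿ Z^j.. `). It satisfies `(Y * Z^k)•w = w` for the type
 `k` of `w`: `Y (φ⁻ⁿX^iφⁿ) Y⁻¹ = (φ⁻ⁿ X^i φⁿ) * (φ⁻ⁿ Z^(-i) φⁿ)`, `φ⁻¹Zφ = Z^16`, so `k = 16ⁿ i`. Also `X^m•w` has type `k + m`.
 Let `w` be of type `k`, `q ∈ Q`. `u := yl * zl^k` fixes `w` (it acts as `Y Z^k` on `e w`, and `Y Z^k•(e w) = e (Y Z^k•w) = e w`) and maps `q` to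
 `e* q * Y Z^k•(e q)`; conjugating `Commute (ι₁ w) (ι₂ q)` by `u` and multiplying: `ι₁ w` commutes with `ι₂(D_k)`,
 `D_k := Y Z^k•(e q) * e q`. Conjugate by `z*` (fixes `D_k`, an `e`-part element): `ι₁ (Z•(e* w) * e* w)` commutes with `ι₂ D_k`. Same for all `Z^j•w` (same
 type); with `w̃ = Z⁴•w * Z³•w * Z²•w`, `Z•w̃ * w̃ = w` (`Ac_Phi`, exponent 2): `ι₁ (e* w)` commutes with `ι₂ D_k`. Conjugate by powers of `x*`: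
 `ι₁ (e* (X^m•w))` commutes with `ι₂ D_k`, where `X^m•w` is an arbitrary letter of type `k + m`. So for EVERY letter `w` and every `k ∈ ℤ`:
 `ι₁(e* w)` commutes with `ι₂ (Y Z^k•(e q) * e q)`, `q ∈ Q`. Use `k = 1` for `q` and `k = 0` for `Z•q`:
 `(YZ•e q * e q) * (Y•Z•e q * Z•e q) = e q * Z•e q`. So `ι₁(e* w)` commutes with `ι₂(Z•e q * e q)` for all `q ∈ Q`, and replacing `q` by
 `q̃ = Z⁴•q * Z³•q * Z²•q` with `ι₂ (e q)`.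
(ii) Symmetric claim: `ι₁(e w)` commutes with `ι₂(e* q)`: same with `xl ↔ x*`, `yl ↔ y*`, `zl ↔ z*`.
(iii) `κ w q := ⁅ι₁ (e w), ι₂ (e q)⁆`. From `1 = ⁅ι₁ w, ι₂ q⁆ = ⁅ι₁(e w) ι₁(e* w), ι₂(e q) ι₂(e* q)⁆` and (i), (ii):
 `⁅ι₁(e w), ι₂(e q)⁆ * ⁅ι₁(e* w), ι₂(e* q)⁆ = 1`. So `κ w q = ⁅ι₁(e* w), ι₂(e* q)⁆⁻¹` commutes with all `ι₁(e w₂)`, `ι₂(e q₂)` (`w₂ ∈ Ac₁`, `q₂ ∈ Q`) by (i), (ii)
 and commutativity of `M₁`, `M₂`; hence `κ` is bimultiplicative on `Ac₁ × Q`. It is fixed by `zl` (which acts trivially on the `e*`-parts), and `zl` maps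
 `ι₁(e w), ι₂(e q)` to `ι₁(e (Z•w)), ι₂(e (Z•q))`: `κ (Z•w) (Z•q) = κ w q`. `W2` with `M = Ac₁`, `N = Q` (exponent 2, `P0_Phi`): `κ = 1`.
 So `ι₁ w = ι₁(e w) ι₁(e* w)` commutes with `ι₂(e q)`: `e q ∈ Q`.
(iv) Now `Q = M₂`. For `g ∈ L0`: `⁅ι₁(g•w), ι₂ q⁆ = g ⁅ι₁ w, ι₂(g⁻¹•q)⁆ g⁻¹ = 1`, and `M₁` is generated by `g•c₁`.
-/

set_option autoImplicit false

open scoped commutatorElement

namespace Pool.Agent.H86.FS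

variable {G : Type*} [Group G] {H₁ H₂ : Type*} [Group H₁] [Group H₂]

/-! ### the additive group of `P0` -/

section PV

variable {H : Type*} [Group H] {B : Base G} {ψ : G →* MulAut H} {c : H}

/-- `P0` written additively -/
def PV (_ : VData B ψ c) : Type _ := Additive (B.P0 ψ c)

noncomputable instance instPV (V : VData B ψ c) : AddCommGroup (PV V) :=
  { (inferInstance : AddGroup (Additive (B.P0 ψ c))) with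
    add_comm := fun p q => Subtype.ext (V.P0_comm p.2 q.2) }

/-- the underlying element -/
def PV.v {V : VData B ψ c} (p : PV V) : H := Subtype.val (p : B.P0 ψ c)

theorem PV.mem {V : VData B ψ c} (p : PV V) : p.v ∈ B.P0 ψ c := Subtype.property (p : B.P0 ψ c)

theorem PV.ext {V : VData B ψ c} {p q : PV V} (h : p.v = q.v) : p = q := Subtype.ext h

/-- from an element -/
def PV.mk (V : VData B ψ c) (p : H) (hp : p ∈ B.P0 ψ c) : PV V := (⟨p, hp⟩ : B.P0 ψ c)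

@[simp] theorem PV.mk_v (V : VData B ψ c) (p : H) (hp : p ∈ B.P0 ψ c) : (PV.mk V p hp).v = p := rfl

@[simp] theorem PV.add_v {V : VData B ψ c} (p q : PV V) : (p + q).v = p.v * q.v := rfl

@[simp] theorem PV.zero_v {V : VData B ψ c} : (0 : PV V).v = 1 := rfl

@[simp] theorem PV.neg_v {V : VData B ψ c} (p : PV V) : (-p).v = (p.v)⁻¹ := rfl

/-- operators on `P0` -/
noncomputable def PV.op (V : VData B ψ c) (f : H → H) (hf : ∀ p ∈ B.P0 ψ c, f p ∈ B.P0 ψ c)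
    (hm : ∀ p ∈ B.P0 ψ c, ∀ q ∈ B.P0 ψ c, f (p * q) = f p * f q) : PV V →+ PV V :=
  AddMonoidHom.mk' (fun p => PV.mk V (f p.v) (hf _ p.mem))
    (fun a b => PV.ext (hm _ a.mem _ b.mem))

@[simp] theorem PV.op_v (V : VData B ψ c) (f : H → H) (hf : ∀ p ∈ B.P0 ψ c, f p ∈ B.P0 ψ c)
    (hm : ∀ p ∈ B.P0 ψ c, ∀ q ∈ B.P0 ψ c, f (p * q) = f p * f q) (p : PV V) :
    (PV.op V f hf hm p).v = f p.v := rfl

/-- the operator of `g ∈ L0` -/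
noncomputable def PV.ac (V : VData B ψ c) (g : G) (hg : g ∈ B.L0) : PV V →+ PV V :=
  PV.op V (ψ g) (fun _ hp => V.P0_L0 hg hp) (fun _ _ _ _ => map_mul (ψ g) _ _)

@[simp] theorem PV.ac_v (V : VData B ψ c) (g : G) (hg : g ∈ B.L0) (p : PV V) :
    (PV.ac V g hg p).v = ψ g p.v := rfl

/-- the operator `e_r` -/
noncomputable def PV.er (V : VData B ψ c) (r : G × G) (hr : r ∈ B.Γ) : PV V →+ PV V :=
  PV.op V (B.e ψ r) (fun _ hp => V.e_mem hr hp) (fun _ hp _ hq => V.e_mul hr hp hq)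

@[simp] theorem PV.er_v (V : VData B ψ c) (r : G × G) (hr : r ∈ B.Γ) (p : PV V) :
    (PV.er V r hr p).v = B.e ψ r p.v := rfl

theorem PV.two (V : VData B ψ c) (p : PV V) : p + p = 0 := PV.ext (V.P0_sq p.mem)

theorem PV.z5 (V : VData B ψ c) (h : B.Z ∈ B.L0) (p : PV V) :
    PV.ac V B.Z h (PV.ac V B.Z h (PV.ac V B.Z h (PV.ac V B.Z h (PV.ac V B.Z h p)))) =
      PV.ac V B.Z h (PV.ac V B.Z h p) + p := by
  apply PV.ext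
  simp only [PV.ac_v, PV.add_v]
  have h1 := V.P0_Phi p.mem
  have h5 : ψ (B.Z ^ 5) p.v = ψ B.Z (ψ B.Z (ψ B.Z (ψ B.Z (ψ B.Z p.v)))) := by
    simp only [pow_succ, pow_zero, one_mul, map_mul, MulAut.mul_apply]
  have h2 : ψ (B.Z ^ 2) p.v = ψ B.Z (ψ B.Z p.v) := by
    simp only [pow_succ, pow_zero, one_mul, map_mul, MulAut.mul_apply]
  rw [h5, h2] at h1
  have hsq := V.P0_sq p.mem
  have hsq2 : ψ B.Z (ψ B.Z p.v) * ψ B.Z (ψ B.Z p.v) = 1 := by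
    rw [← map_mul, ← map_mul, hsq, map_one, map_one]
  calc ψ B.Z (ψ B.Z (ψ B.Z (ψ B.Z (ψ B.Z p.v))))
      = ψ B.Z (ψ B.Z (ψ B.Z (ψ B.Z (ψ B.Z p.v)))) *
          (ψ B.Z (ψ B.Z p.v) * (p.v * p.v) * ψ B.Z (ψ B.Z p.v)) := by
        rw [hsq, mul_one, hsq2, mul_one]
    _ = (ψ B.Z (ψ B.Z (ψ B.Z (ψ B.Z (ψ B.Z p.v)))) * ψ B.Z (ψ B.Z p.v) * p.v) *
          (p.v * ψ B.Z (ψ B.Z p.v)) := by group
    _ = p.v * ψ B.Z (ψ B.Z p.v) := by rw [h1, one_mul]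
    _ = ψ B.Z (ψ B.Z p.v) * p.v :=
        V.P0_comm p.mem (V.P0_L0 h (V.P0_L0 h p.mem))

/-- `Y` moves every `g ∈ Cst` by a power of `Z`. -/
theorem Y_conj {g : G} (hg : g ∈ B.Cst) : ∃ t : ℤ, B.Y * g * B.Y⁻¹ = g * B.Z ^ t := by
  have hZ : ∀ h ∈ B.Cst, Commute B.Z h := fun h hh => B.Z_L0 (B.Cst_L0 hh)
  have hYXY : B.Y * B.X * B.Y⁻¹ = B.X * B.Z⁻¹ := by
    have h1 : B.X * B.Y = B.Z * B.Y * B.X := by
      rw [Base.Z, commutatorElement_def]; group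
    have h2 : B.Z * B.Y = B.Y * B.Z := hZ _ B.Y_Cst
    have h3 : B.Z * B.X = B.X * B.Z := hZ _ B.X_Cst
    have h4 : B.Y * B.X * B.Z = B.X * B.Y := by
      rw [h1, h2, mul_assoc, ← h3, ← mul_assoc]
    have h5 : B.Y * B.X = B.X * B.Y * B.Z⁻¹ := by rw [← h4]; group
    have h6 : B.Y * B.Z⁻¹ = B.Z⁻¹ * B.Y := ((hZ _ B.Y_Cst).inv_left).symm
    rw [h5, mul_assoc B.X, h6]; group
  have hZφ : ∀ n : ℕ, ∃ t : ℤ, (B.φ⁻¹) ^ n * B.Z⁻¹ * B.φ ^ n = B.Z ^ t := by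
    intro n
    induction n with
    | zero => exact ⟨-1, by simp⟩
    | succ n ih =>
      obtain ⟨t, ht⟩ := ih
      refine ⟨16 * t, ?_⟩
      have h1 : (B.φ⁻¹) ^ (n + 1) * B.Z⁻¹ * B.φ ^ (n + 1) = B.φ⁻¹ * B.Z ^ t * B.φ := by
        rw [← ht, pow_succ', pow_succ]; group
      have h2 : B.φ⁻¹ * B.Z ^ t * B.φ = (B.φ⁻¹ * B.Z * B.φ) ^ t := by
        have := (conj_zpow (i := t) (a := B.φ⁻¹) (b := B.Z)).symm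
        rw [inv_inv] at this
        exact this
      rw [h1, h2, B.φZ', ← zpow_natCast, ← zpow_mul]
      norm_num
  rw [Base.Cst] at hg
  induction hg using Subgroup.closure_induction with
  | mem y hy =>
    rcases hy with ⟨n, rfl⟩ | rfl
    · obtain ⟨t, ht⟩ := hZφ n
      refine ⟨t, ?_⟩
      have hφY : Commute (B.φ ^ n) B.Y := B.φY.pow_left n
      have h1 : B.φ ^ n * B.Y⁻¹ = B.Y⁻¹ * B.φ ^ n := hφY.inv_right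
      have h2 : B.Y * (B.φ⁻¹) ^ n = (B.φ⁻¹) ^ n * B.Y :=
        ((B.φY.inv_left).pow_left n).symm
      calc B.Y * ((B.φ⁻¹) ^ n * B.X * B.φ ^ n) * B.Y⁻¹
          = (B.Y * (B.φ⁻¹) ^ n) * B.X * (B.φ ^ n * B.Y⁻¹) := by group
        _ = (B.φ⁻¹) ^ n * (B.Y * B.X * B.Y⁻¹) * B.φ ^ n := by rw [h1, h2]; group
        _ = (B.φ⁻¹) ^ n * B.X * B.φ ^ n * ((B.φ⁻¹) ^ n * B.Z⁻¹ * B.φ ^ n) := by
            rw [hYXY]; group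
        _ = _ := by rw [ht]
    · exact ⟨0, by simp⟩
  | one => exact ⟨0, by simp⟩
  | mul x y hx hy ihx ihy =>
    obtain ⟨s, hs⟩ := ihx
    obtain ⟨t, ht⟩ := ihy
    refine ⟨s + t, ?_⟩
    have h1 : B.Z ^ s * y = y * B.Z ^ s := (hZ y hy).zpow_left s
    calc B.Y * (x * y) * B.Y⁻¹ = (B.Y * x * B.Y⁻¹) * (B.Y * y * B.Y⁻¹) := by group
      _ = x * (B.Z ^ s * y) * B.Z ^ t := by rw [hs, ht]; group
      _ = x * y * B.Z ^ (s + t) := by rw [h1, zpow_add]; group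
  | inv x hx ih =>
    obtain ⟨s, hs⟩ := ih
    refine ⟨-s, ?_⟩
    have h1 : x⁻¹ * B.Z ^ (-s) = B.Z ^ (-s) * x⁻¹ :=
      (((hZ x hx).zpow_left (-s)).inv_right).symm
    calc B.Y * x⁻¹ * B.Y⁻¹ = (B.Y * x * B.Y⁻¹)⁻¹ := by group
      _ = B.Z ^ (-s) * x⁻¹ := by rw [hs]; group
      _ = x⁻¹ * B.Z ^ (-s) := h1.symm

theorem letter_type (V : VData B ψ c) {g : G} (hg : g ∈ B.Cst) (s : ℤ) :
    ∃ k : ℕ, ∃ g0 ∈ B.Cst, g = B.X ^ k * g0 ∧ ψ B.Y (ψ g0 c) = ψ (B.Z ^ s) (ψ g0 c) := by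
  obtain ⟨t, ht⟩ := Y_conj hg
  have hZ : ∀ h ∈ B.Cst, Commute B.Z h := fun h hh => B.Z_L0 (B.Cst_L0 hh)
  have hXY : ∀ k : ℕ, B.Y * (B.X ^ k)⁻¹ * B.Y⁻¹ = (B.X ^ k)⁻¹ * B.Z ^ (k : ℤ) := by
    intro k
    have h1 : B.Y * B.X⁻¹ * B.Y⁻¹ = B.X⁻¹ * B.Z := by
      have h2 : B.X⁻¹ * B.Z = B.Z * B.X⁻¹ := ((hZ _ B.X_Cst).inv_right).symm
      rw [h2, Base.Z, commutatorElement_def]
      have h3 : B.Y * B.X⁻¹ * B.Y⁻¹ = B.X⁻¹ * (B.X * B.Y * B.X⁻¹ * B.Y⁻¹) := by group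
      rw [h3]
      have h4 : Commute (B.X * B.Y * B.X⁻¹ * B.Y⁻¹) B.X⁻¹ := by
        have := (hZ _ B.X_Cst).inv_right
        rwa [Base.Z, commutatorElement_def] at this
      exact h4.eq.symm
    have h5 : B.Y * (B.X ^ k)⁻¹ * B.Y⁻¹ = (B.Y * B.X⁻¹ * B.Y⁻¹) ^ k := by
      rw [conj_pow, inv_pow]
    rw [h5, h1, Commute.mul_pow ((hZ _ B.X_Cst).inv_right).symm, inv_pow, zpow_natCast]
  obtain ⟨k, hk⟩ : ∃ k : ℕ, (k : ℤ) = (s - t) % 31 := ⟨((s - t) % 31).toNat, by omega⟩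
  obtain ⟨m, hm⟩ : ∃ m : ℤ, (k : ℤ) + t = s + 31 * m := ⟨-((s - t) / 31), by omega⟩
  have hg0 : (B.X ^ k)⁻¹ * g ∈ B.Cst := B.Cst.mul_mem (B.Cst.inv_mem (B.Cst.pow_mem B.X_Cst k)) hg
  refine ⟨k, (B.X ^ k)⁻¹ * g, hg0, by group, ?_⟩
  have h1 : B.Y * ((B.X ^ k)⁻¹ * g) = B.Z ^ s * ((B.X ^ k)⁻¹ * g) * B.Y := by
    have h2 : B.Y * ((B.X ^ k)⁻¹ * g) =
        (B.Y * (B.X ^ k)⁻¹ * B.Y⁻¹) * (B.Y * g * B.Y⁻¹) * B.Y := by group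
    have h3 : B.Z ^ (k : ℤ) * g = g * B.Z ^ (k : ℤ) := (hZ g hg).zpow_left k
    have h4 : (B.X ^ k)⁻¹ * g * B.Z ^ s = B.Z ^ s * ((B.X ^ k)⁻¹ * g) :=
      ((hZ _ hg0).zpow_left s).symm
    have h5 : B.Z ^ (k : ℤ) * B.Z ^ t = B.Z ^ s := by
      rw [← zpow_add, hm, zpow_add, zpow_mul]
      have : B.Z ^ (31 : ℤ) = 1 := by
        have := B.Z31
        exact_mod_cast this
      rw [this, one_zpow, mul_one]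
    rw [h2, hXY, ht, ← h4]
    calc (B.X ^ k)⁻¹ * B.Z ^ (k : ℤ) * (g * B.Z ^ t) * B.Y
        = (B.X ^ k)⁻¹ * (B.Z ^ (k : ℤ) * g) * B.Z ^ t * B.Y := by group
      _ = (B.X ^ k)⁻¹ * g * (B.Z ^ (k : ℤ) * B.Z ^ t) * B.Y := by rw [h3]; group
      _ = _ := by rw [h5]
  have h6 : ψ B.Y (ψ ((B.X ^ k)⁻¹ * g) c) = ψ (B.Z ^ s * ((B.X ^ k)⁻¹ * g) * B.Y) c := by
    rw [← h1, map_mul ψ B.Y, MulAut.mul_apply]
  rw [h6, map_mul ψ _ B.Y, MulAut.mul_apply, V.hY, map_mul ψ (B.Z ^ s), MulAut.mul_apply]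

theorem PV.ac_iter (V : VData B ψ c) (g : G) (hg : g ∈ B.L0) (k : ℕ) (p : PV V) :
    ((PV.ac V g hg)^[k] p).v = ψ (g ^ k) p.v := by
  induction k generalizing p with
  | zero => simp
  | succ k ih =>
    rw [Function.iterate_succ_apply, ih, PV.ac_v, pow_succ, map_mul, MulAut.mul_apply]

end PV

theorem TF {B : Base G} {ψ₁ : G →* MulAut H₁} {ψ₂ : G →* MulAut H₂} {c₁ : H₁} {c₂ : H₂}
    (V₁ : VData B ψ₁ c₁) (V₂ : VData B ψ₂ c₂) (ι₁ : H₁ → G) (ι₂ : H₂ → G)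
    (m₁ : ∀ p ∈ B.P0 ψ₁ c₁, ∀ q ∈ B.P0 ψ₁ c₁, ι₁ (p * q) = ι₁ p * ι₁ q)
    (m₂ : ∀ p ∈ B.P0 ψ₂ c₂, ∀ q ∈ B.P0 ψ₂ c₂, ι₂ (p * q) = ι₂ p * ι₂ q)
    (q₁ : ∀ g ∈ B.L0, ∀ p ∈ B.P0 ψ₁ c₁, ι₁ (ψ₁ g p) = g * ι₁ p * g⁻¹)
    (q₂ : ∀ g ∈ B.L0, ∀ p ∈ B.P0 ψ₂ c₂, ι₂ (ψ₂ g p) = g * ι₂ p * g⁻¹)
    (hc : ∀ w ∈ B.Ac ψ₁ c₁, ∀ w' ∈ B.Ac ψ₂ c₂, Commute (ι₁ w) (ι₂ w')) :
    ∀ p ∈ B.P0 ψ₁ c₁, ∀ q ∈ B.P0 ψ₂ c₂, Commute (ι₁ p) (ι₂ q) := by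
  have XL := B.Cst_L0 B.X_Cst
  have YL := B.Cst_L0 B.Y_Cst
  have ZL := B.Cst_L0 B.Z_Cst
  have one₁ : ι₁ 1 = 1 := by
    have := m₁ 1 (B.P0 ψ₁ c₁).one_mem 1 (B.P0 ψ₁ c₁).one_mem
    rw [mul_one] at this
    exact (mul_eq_left.mp this.symm)
  have one₂ : ι₂ 1 = 1 := by
    have := m₂ 1 (B.P0 ψ₂ c₂).one_mem 1 (B.P0 ψ₂ c₂).one_mem
    rw [mul_one] at this
    exact (mul_eq_left.mp this.symm)
  have inv₁ : ∀ p ∈ B.P0 ψ₁ c₁, ι₁ p⁻¹ = (ι₁ p)⁻¹ := by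
    intro p hp
    apply eq_inv_of_mul_eq_one_left
    rw [← m₁ _ ((B.P0 ψ₁ c₁).inv_mem hp) _ hp, inv_mul_cancel, one₁]
  have inv₂ : ∀ p ∈ B.P0 ψ₂ c₂, ι₂ p⁻¹ = (ι₂ p)⁻¹ := by
    intro p hp
    apply eq_inv_of_mul_eq_one_left
    rw [← m₂ _ ((B.P0 ψ₂ c₂).inv_mem hp) _ hp, inv_mul_cancel, one₂]
  have letP : ∀ g ∈ B.Cst, ψ₁ g c₁ ∈ B.P0 ψ₁ c₁ := fun g hg =>
    V₁.P0_L0 (B.Cst_L0 hg) (V₁.Ac_le V₁.c_mem)
  -- the letters and Q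
  let Let : Set (PV V₁) := {w | ∃ g ∈ B.Cst, w.v = ψ₁ g c₁}
  let Q : AddSubgroup (PV V₂) :=
    { carrier := {q | ∀ g ∈ B.Cst, Commute (ι₁ (ψ₁ g c₁)) (ι₂ q.v)}
      zero_mem' := by
        intro g _
        rw [PV.zero_v, one₂]
        exact Commute.one_right _
      add_mem' := by
        intro a b ha hb g hg
        rw [PV.add_v, m₂ _ a.mem _ b.mem]
        exact (ha g hg).mul_right (hb g hg)
      neg_mem' := by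
        intro a ha g hg
        rw [PV.neg_v, inv₂ _ a.mem]
        exact (ha g hg).inv_right }
  have memQ : ∀ q : PV V₂, q ∈ Q ↔ ∀ g ∈ B.Cst, Commute (ι₁ (ψ₁ g c₁)) (ι₂ q.v) :=
    fun q => Iff.rfl
  have hLetZ : ∀ w ∈ Let, PV.ac V₁ B.Z ZL w ∈ Let := by
    rintro w ⟨g, hg, hw⟩
    refine ⟨B.Z * g, B.Cst.mul_mem B.Z_Cst hg, ?_⟩
    rw [PV.ac_v, hw, map_mul, MulAut.mul_apply]
  have hQZ : ∀ q ∈ Q, PV.ac V₂ B.Z ZL q ∈ Q := by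
    intro q hq
    rw [memQ] at hq ⊢
    intro g hg
    have hg' : B.Z⁻¹ * g ∈ B.Cst := B.Cst.mul_mem (B.Cst.inv_mem B.Z_Cst) hg
    have h1 := hq _ hg'
    have h2 : ψ₁ g c₁ = ψ₁ B.Z (ψ₁ (B.Z⁻¹ * g) c₁) := by
      rw [← MulAut.mul_apply, ← map_mul, mul_inv_cancel_left]
    rw [h2, PV.ac_v, q₁ _ ZL _ (letP _ hg'), q₂ _ ZL _ q.mem]
    exact Pool.Agent.H61.FS.commute_conj _ h1
  have hcomm : ∀ w ∈ Let, ∀ q ∈ Q, Commute (ι₁ w.v) (ι₂ q.v) := by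
    rintro w ⟨g, hg, hw⟩ q hq
    rw [hw]
    exact hq g hg
  have tY : ∀ s : ℤ, ∀ w ∈ Let, ∃ k : ℕ, ∃ w0 ∈ Let,
      w = (PV.ac V₁ B.X XL)^[k] w0 ∧ ψ₁ B.Y w0.v = ψ₁ (B.Z ^ s) w0.v := by
    rintro s w ⟨g, hg, hw⟩
    obtain ⟨k, g0, hg0, rfl, h⟩ := letter_type V₁ hg s
    refine ⟨k, PV.mk V₁ (ψ₁ g0 c₁) (letP g0 hg0), ⟨g0, hg0, rfl⟩, ?_, h⟩
    apply PV.ext
    rw [PV.ac_iter, PV.mk_v, hw, map_mul, MulAut.mul_apply]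
  have type0 : ∀ w ∈ Let, ∃ k : ℕ, ∃ w0 ∈ Let, w = (PV.ac V₁ B.X XL)^[k] w0 ∧
      PV.ac V₁ B.Y YL w0 = w0 := by
    intro w hw
    obtain ⟨k, w0, hw0, h1, h2⟩ := tY 0 w hw
    refine ⟨k, w0, hw0, h1, PV.ext ?_⟩
    rw [PV.ac_v, h2, zpow_zero, map_one, MulAut.one_apply]
  have YZ : ∀ p : PV V₁, PV.ac V₁ B.Y YL (PV.ac V₁ B.Z ZL p) =
      PV.ac V₁ B.Z ZL (PV.ac V₁ B.Y YL p) := by
    intro p
    apply PV.ext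
    simp only [PV.ac_v]
    rw [← MulAut.mul_apply, ← MulAut.mul_apply, ← map_mul, ← map_mul, (B.Z_L0 YL).eq]
  have type1 : ∀ w ∈ Let, ∃ k : ℕ, ∃ w0 ∈ Let, w = (PV.ac V₁ B.X XL)^[k] w0 ∧
      PV.ac V₁ B.Y YL (PV.ac V₁ B.Z ZL w0) = w0 := by
    intro w hw
    obtain ⟨k, w0, hw0, h1, h2⟩ := tY (-1) w hw
    refine ⟨k, w0, hw0, h1, PV.ext ?_⟩
    rw [YZ, PV.ac_v, PV.ac_v, h2, ← MulAut.mul_apply, ← map_mul]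
    simp
  -- the step
  have step : ∀ r ∈ B.Γ, ∀ q ∈ B.P0 ψ₂ c₂, (∀ g ∈ B.Cst, Commute (ι₁ (ψ₁ g c₁)) (ι₂ q)) →
      ∀ g ∈ B.Cst, Commute (ι₁ (ψ₁ g c₁)) (ι₂ (B.e ψ₂ r q)) := by
    intro r hr q hq hcq g hg
    obtain ⟨xlL, ylL, zlL⟩ := VData.xl_mem B hr
    have key := Pool.Agent.H61.FS.TF_step' (i1 := fun p : PV V₁ => ι₁ p.v)
      (i2 := fun q : PV V₂ => ι₂ q.v)
      (fun p p' => m₁ _ p.mem _ p'.mem) (fun p p' => m₂ _ p.mem _ p'.mem)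
      (PV.ac V₁ B.X XL) (PV.ac V₁ B.Y YL) (PV.ac V₁ B.Z ZL)
      (PV.ac V₂ B.X XL) (PV.ac V₂ B.Y YL) (PV.ac V₂ B.Z ZL)
      (PV.er V₁ r hr) (PV.er V₂ r hr)
      (fun p => PV.ext (V₁.e_e hr p.mem)) (fun p => PV.ext (V₂.e_e hr p.mem))
      (fun p => PV.ext (V₁.e_Cst hr B.X_Cst p.mem))
      (fun p => PV.ext (V₁.e_Cst hr B.Y_Cst p.mem))
      (fun p => PV.ext (V₁.e_Cst hr B.Z_Cst p.mem))
      (fun p => PV.ext (V₂.e_Cst hr B.X_Cst p.mem))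
      (fun p => PV.ext (V₂.e_Cst hr B.Y_Cst p.mem))
      (fun p => PV.ext (V₂.e_Cst hr B.Z_Cst p.mem))
      YZ (PV.two V₁) (PV.two V₂) (PV.z5 V₁ ZL) (PV.z5 V₂ ZL)
      Let hLetZ type0 type1 Q hQZ hcomm
      ⟨B.X, fun p => q₁ _ XL _ p.mem, fun p => q₂ _ XL _ p.mem⟩
      ⟨B.Y, fun p => q₁ _ YL _ p.mem, fun p => q₂ _ YL _ p.mem⟩
      ⟨B.Z, fun p => q₁ _ ZL _ p.mem, fun p => q₂ _ ZL _ p.mem⟩
      ⟨B.xl r, fun p => by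
        rw [← q₁ _ xlL _ p.mem, V₁.e_xl hr p.mem]; rfl, fun p => by
        rw [← q₂ _ xlL _ p.mem, V₂.e_xl hr p.mem]; rfl⟩
      ⟨B.yl r, fun p => by
        rw [← q₁ _ ylL _ p.mem, V₁.e_yl hr p.mem]; rfl, fun p => by
        rw [← q₂ _ ylL _ p.mem, V₂.e_yl hr p.mem]; rfl⟩
      ⟨B.zl r, fun p => by
        rw [← q₁ _ zlL _ p.mem, V₁.e_zl hr p.mem]; rfl, fun p => by
        rw [← q₂ _ zlL _ p.mem, V₂.e_zl hr p.mem]; rfl⟩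
    exact key (PV.mk V₁ (ψ₁ g c₁) (letP g hg)) ⟨g, hg, rfl⟩ (PV.mk V₂ q hq) hcq
  -- the subgroup K
  let K : Subgroup H₂ :=
    { carrier := {q | q ∈ B.P0 ψ₂ c₂ ∧ ∀ g ∈ B.Cst, Commute (ι₁ (ψ₁ g c₁)) (ι₂ q)}
      one_mem' := ⟨(B.P0 ψ₂ c₂).one_mem, fun g _ => by rw [one₂]; exact Commute.one_right _⟩
      mul_mem' := by
        rintro a b ⟨ha, ha'⟩ ⟨hb, hb'⟩
        refine ⟨(B.P0 ψ₂ c₂).mul_mem ha hb, fun g hg => ?_⟩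
        rw [m₂ _ ha _ hb]
        exact (ha' g hg).mul_right (hb' g hg)
      inv_mem' := by
        rintro a ⟨ha, ha'⟩
        refine ⟨(B.P0 ψ₂ c₂).inv_mem ha, fun g hg => ?_⟩
        rw [inv₂ _ ha]
        exact (ha' g hg).inv_right }
  have hK : B.P0 ψ₂ c₂ ≤ K := by
    refine V₂.P0_ind K ?_ ?_
    · intro w' hw'
      refine ⟨V₂.Ac_le hw', fun g hg => hc _ ?_ _ hw'⟩
      exact Subgroup.subset_closure ⟨g, hg, rfl⟩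
    · intro r hr p hp hpK
      exact ⟨V₂.e_mem hr hp, step r hr p hp hpK.2⟩
  have hc1 : ∀ q ∈ B.P0 ψ₂ c₂, Commute (ι₁ c₁) (ι₂ q) := by
    intro q hq
    have := (hK hq).2 1 B.Cst.one_mem
    rwa [map_one, MulAut.one_apply] at this
  have cP : c₁ ∈ B.P0 ψ₁ c₁ := V₁.Ac_le V₁.c_mem
  have hgen : ∀ h ∈ B.L0, ∀ q ∈ B.P0 ψ₂ c₂, Commute (ι₁ (ψ₁ h c₁)) (ι₂ q) := by
    intro h hh q hq
    have hq' : ψ₂ h⁻¹ q ∈ B.P0 ψ₂ c₂ := V₂.P0_L0 (B.L0.inv_mem hh) hq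
    have h1 := hc1 _ hq'
    have h2 : q = ψ₂ h (ψ₂ h⁻¹ q) := by
      rw [← MulAut.mul_apply, ← map_mul, mul_inv_cancel, map_one, MulAut.one_apply]
    rw [q₁ _ hh _ cP, h2, q₂ _ hh _ hq']
    exact Pool.Agent.H61.FS.commute_conj _ h1
  intro p hp q hq
  have hp2 : p ∈ B.P0 ψ₁ c₁ := hp
  rw [Base.P0] at hp
  induction hp using Subgroup.closure_induction with
  | mem y hy =>
    obtain ⟨g, hg, rfl⟩ := hy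
    exact hgen g hg q hq
  | one => rw [one₁]; exact Commute.one_left _
  | mul x y hx hy ihx ihy =>
    rw [m₁ _ hx _ hy]
    exact (ihx hx).mul_left (ihy hy)
  | inv x hx ih =>
    rw [inv₁ _ hx]
    exact (ih hx).inv_left

end Pool.Agent.H86.FS
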