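import Pool.Agent.H86.FS.LFc

/-!
# Stage V, (7.1)
`V : VData B ψ c`. Write `g•h` for `ψ g h`, `c' = δ•c`, `L1 = δ L0 δ⁻¹`.
* `c` is fixed by `δ g δ⁻¹` for every `g ∈ L0`: the set of such `g` is a subgroup and contains the generators `s_r g s_r⁻¹` of `L0` (`L0_gen`):
  `δ s_r (φ⁻ⁿ X φⁿ) s_r⁻¹ δ⁻¹ = s_r φ⁻ⁿ (δXδ⁻¹) φⁿ s_r⁻¹` (`sn_δ`, `φδ`), and `s_r`, `φ`, `δXδ⁻¹` fix `c`; same with `Y`.
* `L1_P0`: `δgδ⁻¹` commutes with `L0` (`L0_swap`), so it fixes `h•c`, `h ∈ L0`; closure induction. `L1_Ac` is a special case (`Ac ≤ P0`).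
* `L0_P1`: `g ∈ L0` fixes `δ•p`, `p ∈ P0`: `g•δ•p = δ•(δ⁻¹gδ)•p`, `δ⁻¹ = δ`.
* `P0_P1`: `c` commutes with `c'`. Apply `ψ (g * (δ h δ⁻¹))`, `g, h ∈ L0`: `c ↦ g•c` (`δhδ⁻¹` fixes `c`), `c' ↦ δ•h•c` (`g` fixes `c'`-side: `L0_P1`). So
  generators commute; closure induction twice.
* `Ac`: closed under `Cst` (letters are permuted); commutative by `V.ab` (closure induction); `w*w = 1`: letters are involutions and commute;
  `Z⁵•w * Z²•w * w = 1`: for letters `w = g•c`, `g ∈ Cst`, apply `ψ g` to `V.Phi` (`Z` commutes with `g`); multiplicative since `Ac` is commutative.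
* `P0_L0`: `P0` is closed under `L0`.
-/

set_option autoImplicit false
set_option linter.unusedVariables false

open scoped commutatorElement

namespace Pool.Agent.H86.FS

variable {G : Type*} [Group G] {H : Type*} [Group H]

namespace VData

variable {B : Base G} {ψ : G →* MulAut H} {c : H}

theorem c_mem (V : VData B ψ c) : c ∈ B.Ac ψ c :=
  Subgroup.subset_closure ⟨1, B.Cst.one_mem, by simp⟩

theorem Ac_le (V : VData B ψ c) : B.Ac ψ c ≤ B.P0 ψ c := by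
  refine Subgroup.closure_mono ?_
  rintro p ⟨g, hg, rfl⟩
  exact ⟨g, B.Cst_L0 hg, rfl⟩

theorem P0_L0 (V : VData B ψ c) {g : G} (hg : g ∈ B.L0) {p : H} (hp : p ∈ B.P0 ψ c) :
    ψ g p ∈ B.P0 ψ c := by
  refine Subgroup.closure_induction (p := fun p _ => ψ g p ∈ B.P0 ψ c) ?_ ?_ ?_ ?_ hp
  · rintro x ⟨h, hh, rfl⟩
    refine Subgroup.subset_closure ⟨g * h, B.L0.mul_mem hg hh, ?_⟩
    simp [map_mul]
  · simp
  · intro x y _ _ hx hy
    rw [map_mul]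
    exact Subgroup.mul_mem _ hx hy
  · intro x _ hx
    rw [map_inv]
    exact Subgroup.inv_mem _ hx

theorem Ac_Cst (V : VData B ψ c) {g : G} (hg : g ∈ B.Cst) {w : H} (hw : w ∈ B.Ac ψ c) :
    ψ g w ∈ B.Ac ψ c := by
  refine Subgroup.closure_induction (p := fun p _ => ψ g p ∈ B.Ac ψ c) ?_ ?_ ?_ ?_ hw
  · rintro x ⟨h, hh, rfl⟩
    refine Subgroup.subset_closure ⟨g * h, B.Cst.mul_mem hg hh, ?_⟩
    simp [map_mul]
  · simp
  · intro x y _ _ hx hy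
    rw [map_mul]
    exact Subgroup.mul_mem _ hx hy
  · intro x _ hx
    rw [map_inv]
    exact Subgroup.inv_mem _ hx

/-- the elements of `G` which fix `c` -/
def stab (V : VData B ψ c) : Subgroup G where
  carrier := {g | ψ g c = c}
  one_mem' := by simp
  mul_mem' := by
    intro a b ha hb
    change ψ (a * b) c = c
    have ha' : ψ a c = c := ha
    have hb' : ψ b c = c := hb
    rw [map_mul, MulAut.mul_apply, hb', ha']
  inv_mem' := by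
    intro a ha
    change ψ a⁻¹ c = c
    have ha' : ψ a c = c := ha
    rw [map_inv, MulAut.inv_apply, MulEquiv.symm_apply_eq, ha']

theorem φδ (V : VData B ψ c) : Commute B.φ B.δ := B.mX.φδ

theorem L1_c (V : VData B ψ c) {g : G} (hg : g ∈ B.L0) : ψ (B.δ * g * B.δ⁻¹) c = c := by
  have key : B.L0 ≤ V.stab.comap (MulAut.conj B.δ).toMonoidHom := by
    rw [B.L0_gen, Subgroup.closure_le]
    rintro y ⟨r, hr, g, hg, rfl⟩
    change B.δ * (sn r * g * (sn r)⁻¹) * B.δ⁻¹ ∈ V.stab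
    have hs : sn r ∈ V.stab := V.hsn r hr
    have e : B.δ * (sn r * g * (sn r)⁻¹) * B.δ⁻¹ = sn r * (B.δ * g * B.δ⁻¹) * (sn r)⁻¹ := by
      have hc := B.sn_δ hr
      have h1 : B.δ * sn r = sn r * B.δ := hc.eq.symm
      have h2 : (sn r)⁻¹ * B.δ⁻¹ = B.δ⁻¹ * (sn r)⁻¹ := (hc.inv_inv).eq
      calc B.δ * (sn r * g * (sn r)⁻¹) * B.δ⁻¹ = (B.δ * sn r) * g * ((sn r)⁻¹ * B.δ⁻¹) := by
            group
        _ = sn r * (B.δ * g * B.δ⁻¹) * (sn r)⁻¹ := by rw [h1, h2]; group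
    rw [e]
    refine V.stab.mul_mem (V.stab.mul_mem hs ?_) (V.stab.inv_mem hs)
    have hφ : B.φ ∈ V.stab := V.hφ
    rcases hg with ⟨n, rfl⟩ | hg
    · have hc : Commute (B.φ ^ n) B.δ := V.φδ.pow_left n
      have e2 : B.δ * ((B.φ⁻¹) ^ n * B.X * B.φ ^ n) * B.δ⁻¹ =
          (B.φ ^ n)⁻¹ * (B.δ * B.X * B.δ⁻¹) * B.φ ^ n := by
        have h1 : B.δ * (B.φ ^ n)⁻¹ = (B.φ ^ n)⁻¹ * B.δ := (hc.inv_left).eq.symm
        have h2 : B.φ ^ n * B.δ⁻¹ = B.δ⁻¹ * B.φ ^ n := (hc.inv_right).eq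
        calc B.δ * ((B.φ⁻¹) ^ n * B.X * B.φ ^ n) * B.δ⁻¹ =
            (B.δ * (B.φ ^ n)⁻¹) * B.X * (B.φ ^ n * B.δ⁻¹) := by rw [inv_pow]; group
          _ = _ := by rw [h1, h2]; group
      rw [e2]
      exact V.stab.mul_mem (V.stab.mul_mem (V.stab.inv_mem (V.stab.pow_mem hφ n)) V.hX')
        (V.stab.pow_mem hφ n)
    · rw [Set.mem_singleton_iff] at hg
      rw [hg]
      exact V.hY'
  exact key hg

theorem L1_P0 (V : VData B ψ c) {g : G} (hg : g ∈ B.L0) {p : H} (hp : p ∈ B.P0 ψ c) :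
    ψ (B.δ * g * B.δ⁻¹) p = p := by
  refine Subgroup.closure_induction (p := fun p _ => ψ (B.δ * g * B.δ⁻¹) p = p) ?_ ?_ ?_ ?_ hp
  · rintro x ⟨h, hh, rfl⟩
    have hc : (B.δ * g * B.δ⁻¹) * h = h * (B.δ * g * B.δ⁻¹) := (B.L0_swap hh hg).eq.symm
    rw [← MulAut.mul_apply, ← map_mul, hc, map_mul, MulAut.mul_apply, V.L1_c hg]
  · simp
  · intro x y _ _ hx hy
    rw [map_mul, hx, hy]
  · intro x _ hx
    rw [map_inv, hx]

theorem L0_P1 (V : VData B ψ c) {g : G} (hg : g ∈ B.L0) {p : H} (hp : p ∈ B.P0 ψ c) :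
    ψ g (ψ B.δ p) = ψ B.δ p := by
  have e : g * B.δ = B.δ * (B.δ * g * B.δ⁻¹) := by
    have h : B.δ⁻¹ = B.δ := B.toEng.δ_inv
    have h2 := B.δ_sq
    calc g * B.δ = (B.δ * B.δ) * g * B.δ := by rw [h2, one_mul]
      _ = B.δ * (B.δ * g * B.δ⁻¹) := by rw [h]; group
  rw [← MulAut.mul_apply, ← map_mul, e, map_mul, MulAut.mul_apply, V.L1_P0 hg hp]

theorem P0_P1 (V : VData B ψ c) {p q : H} (hp : p ∈ B.P0 ψ c) (hq : q ∈ B.P0 ψ c) :
    Commute p (ψ B.δ q) := by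
  -- generators
  have hcc : ∀ g ∈ B.L0, ∀ h ∈ B.L0, Commute (ψ g c) (ψ B.δ (ψ h c)) := by
    intro g hg h hh
    have h0 : c ∈ B.P0 ψ c := V.Ac_le V.c_mem
    have e1 : ψ (g * (B.δ * h * B.δ⁻¹)) c = ψ g c := by
      rw [map_mul, MulAut.mul_apply, V.L1_c hh]
    have e2 : ψ (g * (B.δ * h * B.δ⁻¹)) (ψ B.δ c) = ψ B.δ (ψ h c) := by
      have e3 : g * (B.δ * h * B.δ⁻¹) * B.δ = g * (B.δ * h) := by group
      rw [← MulAut.mul_apply, ← map_mul, e3, map_mul, MulAut.mul_apply, map_mul, MulAut.mul_apply,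
        V.L0_P1 hg (V.P0_L0 hh h0)]
    have := V.swap.map (ψ (g * (B.δ * h * B.δ⁻¹)))
    rwa [e1, e2] at this
  refine Subgroup.closure_induction (p := fun p _ => Commute p (ψ B.δ q)) ?_ ?_ ?_ ?_ hp
  · rintro x ⟨g, hg, rfl⟩
    refine Subgroup.closure_induction (p := fun q _ => Commute (ψ g c) (ψ B.δ q)) ?_ ?_ ?_ ?_ hq
    · rintro y ⟨h, hh, rfl⟩
      exact hcc g hg h hh
    · simp
    · intro x y _ _ hx hy
      rw [map_mul]
      exact hx.mul_right hy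
    · intro x _ hx
      rw [map_inv]
      exact hx.inv_right
  · exact Commute.one_left _
  · intro x y _ _ hx hy
    exact hx.mul_left hy
  · intro x _ hx
    exact hx.inv_left

theorem Ac_comm (V : VData B ψ c) {w w' : H} (hw : w ∈ B.Ac ψ c) (hw' : w' ∈ B.Ac ψ c) :
    Commute w w' := by
  refine Subgroup.closure_induction (p := fun p _ => Commute p w') ?_ ?_ ?_ ?_ hw
  · rintro x ⟨g, hg, rfl⟩
    refine Subgroup.closure_induction (p := fun q _ => Commute (ψ g c) q) ?_ ?_ ?_ ?_ hw'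
    · rintro y ⟨h, hh, rfl⟩
      exact V.ab g hg h hh
    · simp
    · intro x y _ _ hx hy
      exact hx.mul_right hy
    · intro x _ hx
      exact hx.inv_right
  · exact Commute.one_left _
  · intro x y _ _ hx hy
    exact hx.mul_left hy
  · intro x _ hx
    exact hx.inv_left

theorem Ac_sq (V : VData B ψ c) {w : H} (hw : w ∈ B.Ac ψ c) : w * w = 1 := by
  refine Subgroup.closure_induction (p := fun w _ => w * w = 1) ?_ ?_ ?_ ?_ hw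
  · rintro x ⟨g, hg, rfl⟩
    rw [← map_mul, V.sq, map_one]
  · simp
  · intro x y hx hy ex ey
    have hc : y * x = x * y := (V.Ac_comm hy hx).eq
    calc x * y * (x * y) = x * (y * x) * y := by group
      _ = (x * x) * (y * y) := by rw [hc]; group
      _ = 1 := by rw [ex, ey, one_mul]
  · intro x _ hx
    rw [← mul_inv_rev, hx, inv_one]

theorem Ac_Phi (V : VData B ψ c) {w : H} (hw : w ∈ B.Ac ψ c) :
    ψ (B.Z ^ 5) w * ψ (B.Z ^ 2) w * w = 1 := by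
  refine Subgroup.closure_induction (p := fun w _ => ψ (B.Z ^ 5) w * ψ (B.Z ^ 2) w * w = 1)
    ?_ ?_ ?_ ?_ hw
  · rintro x ⟨g, hg, rfl⟩
    have hc : Commute B.Z g := B.Z_L0 (B.Cst_L0 hg)
    have e : ∀ n : ℕ, ψ (B.Z ^ n) (ψ g c) = ψ g (ψ (B.Z ^ n) c) := by
      intro n
      rw [← MulAut.mul_apply, ← MulAut.mul_apply, ← map_mul, ← map_mul, (hc.pow_left n).eq]
    rw [e, e, ← map_mul, ← map_mul, V.Phi, map_one]
  · simp
  · intro x y hx hy ex ey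
    have hZ : ∀ n : ℕ, B.Z ^ n ∈ B.Cst := fun n => B.Cst.pow_mem B.Z_Cst n
    rw [map_mul, map_mul]
    have c1 : ψ (B.Z ^ 5) y * ψ (B.Z ^ 2) x = ψ (B.Z ^ 2) x * ψ (B.Z ^ 5) y :=
      (V.Ac_comm (V.Ac_Cst (hZ 5) hy) (V.Ac_Cst (hZ 2) hx)).eq
    have c2 : ψ (B.Z ^ 2) y * x = x * ψ (B.Z ^ 2) y :=
      (V.Ac_comm (V.Ac_Cst (hZ 2) hy) hx).eq
    have c3 : ψ (B.Z ^ 5) y * x = x * ψ (B.Z ^ 5) y :=
      (V.Ac_comm (V.Ac_Cst (hZ 5) hy) hx).eq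
    calc ψ (B.Z ^ 5) x * ψ (B.Z ^ 5) y * (ψ (B.Z ^ 2) x * ψ (B.Z ^ 2) y) * (x * y)
        = ψ (B.Z ^ 5) x * (ψ (B.Z ^ 5) y * ψ (B.Z ^ 2) x) * (ψ (B.Z ^ 2) y * x) * y := by group
      _ = ψ (B.Z ^ 5) x * ψ (B.Z ^ 2) x * (ψ (B.Z ^ 5) y * x) * ψ (B.Z ^ 2) y * y := by
          rw [c1, c2]; group
      _ = (ψ (B.Z ^ 5) x * ψ (B.Z ^ 2) x * x) * (ψ (B.Z ^ 5) y * ψ (B.Z ^ 2) y * y) := by
          rw [c3]; group
      _ = 1 := by rw [ex, ey, one_mul]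
  · intro x hx ex
    have hZ : ∀ n : ℕ, B.Z ^ n ∈ B.Cst := fun n => B.Cst.pow_mem B.Z_Cst n
    rw [map_inv, map_inv]
    have c1 : Commute (ψ (B.Z ^ 5) x) (ψ (B.Z ^ 2) x) :=
      V.Ac_comm (V.Ac_Cst (hZ 5) hx) (V.Ac_Cst (hZ 2) hx)
    have c2 : Commute (ψ (B.Z ^ 2) x) x := V.Ac_comm (V.Ac_Cst (hZ 2) hx) hx
    have c3 : Commute (ψ (B.Z ^ 5) x) x := V.Ac_comm (V.Ac_Cst (hZ 5) hx) hx
    have : (ψ (B.Z ^ 5) x)⁻¹ * (ψ (B.Z ^ 2) x)⁻¹ * x⁻¹ =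
        (ψ (B.Z ^ 5) x * ψ (B.Z ^ 2) x * x)⁻¹ := by
      rw [(c3.mul_left c2).mul_inv, c1.mul_inv]
    rw [this, ex, inv_one]

end VData

end Pool.Agent.H86.FS
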