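import Pool.Agent.H86.FS.VA

/-!
# Stage V, (7.2), (7.3)
`g•h = ψ g h`, `w' = δ•w`, `r ∈ Γ`, `θ = r.1`.
* `P0_th`: `θ•(p * p') = p * p'` for `p ∈ P0`. For a generator `p = g•c`, `g ∈ L0`: `p * p' = (g•c) * (δ•g•c)`; `δ•g•c = (δgδ⁻¹)•c'`. Since `δgδ⁻¹` fixes
  `g•c` (`L1_P0`) and `g` fixes `c'` (`L0_P1`): `p * p' = (g * δgδ⁻¹)•(c * c')`; `θ` commutes with `g * δgδ⁻¹` (`L0_th`) and fixes `c * c'` (`V.hth`).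
  `p ↦ p * p'` is multiplicative on `P0` because `P0` and `δ•P0` commute (`P0_P1`); inverses.
* `Ac_th`: special case.
* `P0_split`: `θ•p = p0 * δ•p1` with `p0, p1 ∈ P0`. The set of `p ∈ P0` with this property is a subgroup (`P0_P1`) and closed under `L0`: if `g ∈ L0`,
  `θ g θ⁻¹ = g0 * δ g1 δ⁻¹` (`L0_split`) then `θ•(g•p) = (θgθ⁻¹)•(p0 * δ•p1) = (g0•p0) * δ•(g1•p1)` (`L1_P0`, `L0_P1`). So it is enough to treat `p = c`.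
  For `w1 ∈ Ac`: `Z•w1 * w1⁻¹ = Z•(w1*w1') * (w1*w1')⁻¹` (`Z ∈ L0` fixes `w1'`), so `θ•(Z•w1 * w1⁻¹) = (θZθ⁻¹)•(w1*w1') * (w1*w1')⁻¹`, with
  `θZθ⁻¹ = g0 * δg1δ⁻¹`: `= (g0•w1) * (δ•g1•w1) * w1'⁻¹ * w1⁻¹ = (g0•w1 * w1⁻¹) * δ•(g1•w1 * w1⁻¹)`: has the property. Finally
  `c = ∏ Z^i•(Z•c * c⁻¹)` over `i = 4, 3, 2`... with `w1 = Z⁴•c * Z³•c * Z²•c ∈ Ac` one has `Z•w1 * w1⁻¹ = Z⁵•c * Z²•c = c` (exponent 2, `V.Phi`).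
-/

set_option autoImplicit false
set_option linter.unusedVariables false

open scoped commutatorElement

namespace Pool.Agent.H86.FS

variable {G : Type*} [Group G] {H : Type*} [Group H]

namespace VData

variable {B : Base G} {ψ : G →* MulAut H} {c : H}

theorem ψ_mul (ψ : G →* MulAut H) (g h : G) (x : H) : ψ (g * h) x = ψ g (ψ h x) := by
  rw [map_mul, MulAut.mul_apply]

/-- `δ` commutes with `θ`: `θ•δ•x = δ•θ•x`. -/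
theorem th_δ (V : VData B ψ c) {r : G × G} (hr : r ∈ B.Γ) (x : H) :
    ψ r.1 (ψ B.δ x) = ψ B.δ (ψ r.1 x) := by
  rw [← ψ_mul, ← ψ_mul, (B.δ_th r hr).eq]

theorem δδ (V : VData B ψ c) (x : H) : ψ B.δ (ψ B.δ x) = x := by
  rw [← ψ_mul, B.δ_sq]; simp

/-- for `g ∈ L0`, `δgδ⁻¹` acts on `δ•p` as `g` on `p`. -/
theorem L1_P1 (V : VData B ψ c) (g : G) (p : H) :
    ψ (B.δ * g * B.δ⁻¹) (ψ B.δ p) = ψ B.δ (ψ g p) := by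
  rw [← ψ_mul, ← ψ_mul]
  congr 2
  group

/-- `g * δ h δ⁻¹` acts on `p * δ•q` as `g•p * δ•h•q`. -/
theorem LL_act (V : VData B ψ c) {g h : G} (hg : g ∈ B.L0) (hh : h ∈ B.L0) {p q : H}
    (hp : p ∈ B.P0 ψ c) (hq : q ∈ B.P0 ψ c) :
    ψ (g * (B.δ * h * B.δ⁻¹)) (p * ψ B.δ q) = ψ g p * ψ B.δ (ψ h q) := by
  rw [map_mul, ψ_mul ψ g (B.δ * h * B.δ⁻¹) p, ψ_mul ψ g (B.δ * h * B.δ⁻¹) (ψ B.δ q),
    V.L1_P0 hh hp, V.L1_P1, V.L0_P1 hg (V.P0_L0 hh hq)]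

theorem P0_th (V : VData B ψ c) {r : G × G} (hr : r ∈ B.Γ) {p : H} (hp : p ∈ B.P0 ψ c) :
    ψ r.1 (p * ψ B.δ p) = p * ψ B.δ p := by
  refine Subgroup.closure_induction (p := fun p _ => ψ r.1 (p * ψ B.δ p) = p * ψ B.δ p)
    ?_ ?_ ?_ ?_ hp
  · rintro x ⟨g, hg, rfl⟩
    have h0 : c ∈ B.P0 ψ c := V.Ac_le V.c_mem
    rw [← V.LL_act hg hg h0 h0, ← ψ_mul, (B.L0_th hr hg).eq, ψ_mul, V.hth r hr]
  · simp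
  · intro x y hx hy ex ey
    have hc : y * ψ B.δ x = ψ B.δ x * y := (V.P0_P1 hy hx).eq
    have e : x * y * ψ B.δ (x * y) = (x * ψ B.δ x) * (y * ψ B.δ y) := by
      rw [map_mul]
      calc x * y * (ψ B.δ x * ψ B.δ y) = x * (y * ψ B.δ x) * ψ B.δ y := by group
        _ = _ := by rw [hc]; group
    rw [e, map_mul, ex, ey]
  · intro x hx ex
    have e : x⁻¹ * ψ B.δ x⁻¹ = (x * ψ B.δ x)⁻¹ := by
      rw [map_inv, (V.P0_P1 hx hx).mul_inv]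
    rw [e, map_inv, ex]

/-- auxiliary predicate: the elements of `P0` which split -/
def Spl (B : Base G) (ψ : G →* MulAut H) (c : H) (r : G × G) (p : H) : Prop :=
  ∃ p0 ∈ B.P0 ψ c, ∃ p1 ∈ B.P0 ψ c, ψ r.1 p = p0 * ψ B.δ p1

theorem Spl_mul (V : VData B ψ c) {r : G × G} {p q : H} (hp : Spl B ψ c r p)
    (hq : Spl B ψ c r q) : Spl B ψ c r (p * q) := by
  obtain ⟨p0, h0, p1, h1, e⟩ := hp
  obtain ⟨q0, k0, q1, k1, f⟩ := hq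
  refine ⟨p0 * q0, Subgroup.mul_mem _ h0 k0, p1 * q1, Subgroup.mul_mem _ h1 k1, ?_⟩
  have hc : ψ B.δ p1 * q0 = q0 * ψ B.δ p1 := (V.P0_P1 k0 h1).eq.symm
  rw [map_mul, e, f, map_mul]
  calc p0 * ψ B.δ p1 * (q0 * ψ B.δ q1) = p0 * (ψ B.δ p1 * q0) * ψ B.δ q1 := by group
    _ = _ := by rw [hc]; group

theorem Spl_inv (V : VData B ψ c) {r : G × G} {p : H} (hp : Spl B ψ c r p) :
    Spl B ψ c r p⁻¹ := by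
  obtain ⟨p0, h0, p1, h1, e⟩ := hp
  refine ⟨p0⁻¹, Subgroup.inv_mem _ h0, p1⁻¹, Subgroup.inv_mem _ h1, ?_⟩
  rw [map_inv, e, (V.P0_P1 h0 h1).mul_inv, map_inv]

theorem Spl_L0 (V : VData B ψ c) {r : G × G} (hr : r ∈ B.Γ) {g : G} (hg : g ∈ B.L0) {p : H}
    (hp : Spl B ψ c r p) : Spl B ψ c r (ψ g p) := by
  obtain ⟨p0, h0, p1, h1, e⟩ := hp
  obtain ⟨g0, k0, g1, k1, f⟩ := B.L0_split hr hg
  refine ⟨ψ g0 p0, V.P0_L0 k0 h0, ψ g1 p1, V.P0_L0 k1 h1, ?_⟩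
  rw [← V.LL_act k0 k1 h0 h1, ← e, ← f, ← ψ_mul, ← ψ_mul]
  congr 2
  group

theorem Spl_c (V : VData B ψ c) {r : G × G} (hr : r ∈ B.Γ) : Spl B ψ c r c := by
  have hZ : ∀ n : ℕ, B.Z ^ n ∈ B.Cst := fun n => B.Cst.pow_mem B.Z_Cst n
  have hc : c ∈ B.Ac ψ c := V.c_mem
  set w : H := ψ (B.Z ^ 4) c * ψ (B.Z ^ 3) c * ψ (B.Z ^ 2) c with hw
  have hwA : w ∈ B.Ac ψ c := Subgroup.mul_mem _ (Subgroup.mul_mem _ (V.Ac_Cst (hZ 4) hc)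
    (V.Ac_Cst (hZ 3) hc)) (V.Ac_Cst (hZ 2) hc)
  have hwP : w ∈ B.P0 ψ c := V.Ac_le hwA
  -- `c = Z•w * w⁻¹`
  have e : ψ B.Z w * w⁻¹ = c := by
    have hz : ∀ n : ℕ, ψ B.Z (ψ (B.Z ^ n) c) = ψ (B.Z ^ (n + 1)) c := by
      intro n
      rw [← ψ_mul, ← pow_succ']
    have i : ∀ x ∈ B.Ac ψ c, x⁻¹ = x := fun x hx => inv_eq_of_mul_eq_one_left (V.Ac_sq hx)
    have m5 := V.Ac_Cst (hZ 5) hc
    have m4 := V.Ac_Cst (hZ 4) hc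
    have m3 := V.Ac_Cst (hZ 3) hc
    have m2 := V.Ac_Cst (hZ 2) hc
    rw [i w hwA, hw, map_mul, map_mul, hz, hz, hz]
    have c43 : ψ (B.Z ^ 3) c * ψ (B.Z ^ 4) c = ψ (B.Z ^ 4) c * ψ (B.Z ^ 3) c :=
      (V.Ac_comm m3 m4).eq
    have s4 := V.Ac_sq m4
    have s3 := V.Ac_sq m3
    calc ψ (B.Z ^ 5) c * ψ (B.Z ^ 4) c * ψ (B.Z ^ 3) c *
          (ψ (B.Z ^ 4) c * ψ (B.Z ^ 3) c * ψ (B.Z ^ 2) c)
        = ψ (B.Z ^ 5) c * ψ (B.Z ^ 4) c * (ψ (B.Z ^ 3) c * ψ (B.Z ^ 4) c) *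
          ψ (B.Z ^ 3) c * ψ (B.Z ^ 2) c := by group
      _ = ψ (B.Z ^ 5) c * (ψ (B.Z ^ 4) c * ψ (B.Z ^ 4) c) * (ψ (B.Z ^ 3) c *
          ψ (B.Z ^ 3) c) * ψ (B.Z ^ 2) c := by rw [c43]; group
      _ = ψ (B.Z ^ 5) c * ψ (B.Z ^ 2) c := by rw [s4, s3]; group
      _ = c := by
        have := V.Phi
        have h2 := eq_inv_of_mul_eq_one_left this
        rw [h2, i c hc]
  clear_value w
  have e1 : ψ B.Z (w * ψ B.δ w) * (w * ψ B.δ w)⁻¹ = c := by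
    rw [map_mul, V.L0_P1 B.Z_mem hwP, mul_inv_rev]
    calc ψ B.Z w * ψ B.δ w * ((ψ B.δ w)⁻¹ * w⁻¹) = ψ B.Z w * w⁻¹ := by group
      _ = c := e
  obtain ⟨g0, k0, g1, k1, f⟩ := B.L0_split hr B.Z_mem
  refine ⟨ψ g0 w * w⁻¹, Subgroup.mul_mem _ (V.P0_L0 k0 hwP) (Subgroup.inv_mem _ hwP),
    ψ g1 w * w⁻¹, Subgroup.mul_mem _ (V.P0_L0 k1 hwP) (Subgroup.inv_mem _ hwP), ?_⟩
  have e2 : ψ r.1 c = ψ (g0 * (B.δ * g1 * B.δ⁻¹)) (w * ψ B.δ w) * (w * ψ B.δ w)⁻¹ := by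
    have e3 : ψ r.1 (ψ B.Z (w * ψ B.δ w)) = ψ (g0 * (B.δ * g1 * B.δ⁻¹)) (w * ψ B.δ w) := by
      rw [← f]
      have : r.1 * B.Z * r.1⁻¹ * r.1 = r.1 * B.Z := by group
      have h4 : ψ (r.1 * B.Z * r.1⁻¹) (w * ψ B.δ w) =
          ψ (r.1 * B.Z * r.1⁻¹) (ψ r.1 (w * ψ B.δ w)) := by rw [V.P0_th hr hwP]
      rw [h4, ← ψ_mul, ← ψ_mul, this]
    calc ψ r.1 c = ψ r.1 (ψ B.Z (w * ψ B.δ w) * (w * ψ B.δ w)⁻¹) := by rw [e1]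
      _ = ψ r.1 (ψ B.Z (w * ψ B.δ w)) * (w * ψ B.δ w)⁻¹ := by
          rw [map_mul, map_inv, V.P0_th hr hwP]
      _ = _ := by rw [e3]
  rw [e2, V.LL_act k0 k1 hwP hwP, map_mul, map_inv, mul_inv_rev]
  have hcc : ψ B.δ (ψ g1 w) * (ψ B.δ w)⁻¹ * w⁻¹ = w⁻¹ * (ψ B.δ (ψ g1 w) * (ψ B.δ w)⁻¹) := by
    have h1 : Commute (w⁻¹) (ψ B.δ (ψ g1 w * w⁻¹)) :=
      (V.P0_P1 hwP (Subgroup.mul_mem _ (V.P0_L0 k1 hwP) (Subgroup.inv_mem _ hwP))).inv_left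
    rw [map_mul, map_inv] at h1
    exact h1.eq.symm
  calc ψ g0 w * ψ B.δ (ψ g1 w) * ((ψ B.δ w)⁻¹ * w⁻¹)
      = ψ g0 w * (ψ B.δ (ψ g1 w) * (ψ B.δ w)⁻¹ * w⁻¹) := by group
    _ = _ := by rw [hcc]; group

theorem P0_split (V : VData B ψ c) {r : G × G} (hr : r ∈ B.Γ) {p : H} (hp : p ∈ B.P0 ψ c) :
    ∃ p0 ∈ B.P0 ψ c, ∃ p1 ∈ B.P0 ψ c, ψ r.1 p = p0 * ψ B.δ p1 := by
  change Spl B ψ c r p
  refine Subgroup.closure_induction (p := fun p _ => Spl B ψ c r p) ?_ ?_ ?_ ?_ hp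
  · rintro x ⟨g, hg, rfl⟩
    exact V.Spl_L0 hr hg (V.Spl_c hr)
  · exact ⟨1, Subgroup.one_mem _, 1, Subgroup.one_mem _, by simp⟩
  · intro x y _ _ hx hy
    exact V.Spl_mul hx hy
  · intro x _ hx
    exact V.Spl_inv hx

end VData

end Pool.Agent.H86.FS
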