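import Pool.Agent.H86.FS.VB

/-!
# Stage V, (7.4), (7.5)
`zz = P0 ∩ δ•P0`. `g•h = ψ g h`, `θ = r.1`, `s = sn r`.
* `zz_P0`: `ζ ∈ zz` commutes with `P0` (as an element of `δ•P0`), and with `δ•P0`.
* `zz_fix`: `g ∈ L0` fixes `ζ` (`L0_P1`), `δgδ⁻¹` fixes `ζ` (`L1_P0`).
* `zz_mul`, `zz_inv`, `zz_δ` (`δ•zz = zz`, `δ² = 1`).
* `split_sum`: `θ•p = p0 * δ•p1`. Apply `δ` (commutes with `θ`): `θ•(δ•p) = δ•p0 * p1`. Multiply: `θ•(p * δ•p) = p0 * p1 * δ•(p1 * p0)`-like (everything from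
  `P0` commutes with everything from `δ•P0`): `p0 * (δ•p1) * (δ•p0) * p1 = (p0 * p1) * δ•(p1 * p0)` and by `P0_th` this is `p * δ•p`. Hence
  `(p0 * p1)⁻¹ * p = δ•(p1 * p0) * (δ•p)⁻¹ ∈ P0 ∩ δ•P0`. So `p = p0 * p1 * ζ`.
* `local`: `u ∈ NX` or `u ∈ NY`. `N0_F`: `θ (u*u) θ⁻¹ = (u * s u s⁻¹) * δ (u * (s u s⁻¹)⁻¹) δ⁻¹`. Conjugate by `δ`:
  `θ (δ(u*u)δ⁻¹) θ⁻¹ = (δ (u * s u s⁻¹) δ⁻¹) * (u * (s u s⁻¹)⁻¹)`. `δ(u*u)δ⁻¹` fixes `p` (`L1_P0`), so the right hand side fixes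
  `θ•p = p0 * δ•p1`; `L1_P0`, `L0_P1`: `(u (s u s⁻¹)⁻¹)•p0 * δ•((u * s u s⁻¹)•p1) = p0 * δ•p1`. So
  `p0⁻¹ * (u (s u s⁻¹)⁻¹)•p0 = δ•(p1 * ((u * s u s⁻¹)•p1)⁻¹) ∈ zz`.
  With `v := u⁻¹ * (s u s⁻¹)` (`u` and `s u s⁻¹` commute): first: `v⁻¹•p0 = p0 * ζ`, so `p0 = v•p0 * ζ` (`v ∈ L0` fixes `ζ`), `v•p0 = p0 * ζ⁻¹`.
  Second: `(u * s u s⁻¹)•p1 = p1 * ζ'` (`zz_δ`), `u * s u s⁻¹ = (u*u) * v`, so `v•p1 = (u*u)⁻¹•p1 * ζ'` (`(u*u)⁻¹` fixes `ζ'`).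
-/

set_option autoImplicit false
set_option linter.unusedVariables false

open scoped commutatorElement

namespace Pool.Agent.H86.FS

variable {G : Type*} [Group G] {H : Type*} [Group H]

namespace VData

variable {B : Base G} {ψ : G →* MulAut H} {c : H}

theorem zz_P0 (V : VData B ψ c) {ζ p : H} (hζ : ζ ∈ B.zz ψ c) (hp : p ∈ B.P0 ψ c) :
    Commute ζ p ∧ Commute ζ (ψ B.δ p) := by
  obtain ⟨h1, q, hq, e⟩ := hζ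
  refine ⟨?_, V.P0_P1 h1 hp⟩
  rw [e]
  exact (V.P0_P1 hp hq).symm

theorem zz_fix (V : VData B ψ c) {ζ : H} (hζ : ζ ∈ B.zz ψ c) {g : G} (hg : g ∈ B.L0) :
    ψ g ζ = ζ ∧ ψ (B.δ * g * B.δ⁻¹) ζ = ζ := by
  obtain ⟨h1, q, hq, e⟩ := hζ
  refine ⟨?_, V.L1_P0 hg h1⟩
  rw [e]
  exact V.L0_P1 hg hq

theorem zz_mul (V : VData B ψ c) {ζ ζ' : H} (hζ : ζ ∈ B.zz ψ c) (hζ' : ζ' ∈ B.zz ψ c) :
    ζ * ζ' ∈ B.zz ψ c ∧ ζ⁻¹ ∈ B.zz ψ c ∧ ψ B.δ ζ ∈ B.zz ψ c := by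
  obtain ⟨h1, q, hq, e⟩ := hζ
  obtain ⟨h1', q', hq', e'⟩ := hζ'
  refine ⟨⟨Subgroup.mul_mem _ h1 h1', q * q', Subgroup.mul_mem _ hq hq', ?_⟩,
    ⟨Subgroup.inv_mem _ h1, q⁻¹, Subgroup.inv_mem _ hq, ?_⟩, ?_, ζ, h1, rfl⟩
  · rw [map_mul, e, e']
  · rw [map_inv, e]
  · rw [e, V.δδ]
    exact hq

theorem split_sum (V : VData B ψ c) {r : G × G} (hr : r ∈ B.Γ) {p p0 p1 : H}
    (hp : p ∈ B.P0 ψ c) (h0 : p0 ∈ B.P0 ψ c) (h1 : p1 ∈ B.P0 ψ c)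
    (h : ψ r.1 p = p0 * ψ B.δ p1) : ∃ ζ ∈ B.zz ψ c, p = p0 * p1 * ζ := by
  refine ⟨(p0 * p1)⁻¹ * p, ⟨Subgroup.mul_mem _ (Subgroup.inv_mem _ (Subgroup.mul_mem _ h0 h1)) hp,
    p1 * p0 * p⁻¹, Subgroup.mul_mem _ (Subgroup.mul_mem _ h1 h0) (Subgroup.inv_mem _ hp), ?_⟩,
    by group⟩
  have e1 : ψ r.1 (p * ψ B.δ p) = p * ψ B.δ p := V.P0_th hr hp
  rw [map_mul, V.th_δ hr, h, map_mul, V.δδ] at e1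
  -- `e1 : p0 * δ•p1 * (δ•p0 * p1) = p * δ•p`
  have hc : ψ B.δ p1 * ψ B.δ p0 * p1 = p1 * (ψ B.δ p1 * ψ B.δ p0) := by
    have := (V.P0_P1 h1 (Subgroup.mul_mem _ h1 h0)).eq.symm
    rwa [map_mul] at this
  have e2 : p0 * p1 * (ψ B.δ p1 * ψ B.δ p0) = p * ψ B.δ p := by
    rw [← e1, mul_assoc p0 p1, ← hc]
    group
  rw [map_mul, map_mul, map_inv]
  have e3 : ψ B.δ p1 * ψ B.δ p0 = (p0 * p1)⁻¹ * (p * ψ B.δ p) := by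
    rw [← e2]; group
  rw [e3]
  group

theorem loc (V : VData B ψ c) {r : G × G} (hr : r ∈ B.Γ) {p p0 p1 : H}
    (hp : p ∈ B.P0 ψ c) (h0 : p0 ∈ B.P0 ψ c) (h1 : p1 ∈ B.P0 ψ c)
    (h : ψ r.1 p = p0 * ψ B.δ p1) {u : G} (hu : u ∈ B.NX ∨ u ∈ B.NY) :
    (∃ ζ ∈ B.zz ψ c, ψ (u⁻¹ * (sn r * u * (sn r)⁻¹)) p0 = p0 * ζ) ∧
    (∃ ζ ∈ B.zz ψ c, ψ (u⁻¹ * (sn r * u * (sn r)⁻¹)) p1 = ψ (u * u)⁻¹ p1 * ζ) := by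
  -- facts on `u`
  have huL : u ∈ B.L0 := by
    rcases hu with hu | hu
    · exact (le_sup_left : B.NX ≤ B.NX ⊔ B.NY) hu
    · exact (le_sup_right : B.NY ≤ B.NX ⊔ B.NY) hu
  have hsL : sn r * u * (sn r)⁻¹ ∈ B.L0 := B.L0_sn hr huL
  have hF : r.1 * (u * u) * r.1⁻¹ =
      (u * (sn r * u * (sn r)⁻¹)) * (B.δ * (u * (sn r * u * (sn r)⁻¹)⁻¹) * B.δ⁻¹) := by
    rcases hu with hu | hu
    · exact B.mX.N0_F hr hu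
    · exact B.mY.N0_F hr hu
  have hcu : Commute u (sn r * u * (sn r)⁻¹) := by
    rcases hu with hu | hu
    · exact B.mX.N0_comm hu (B.mX.N0_sn hr hu)
    · exact B.mY.N0_comm hu (B.mY.N0_sn hr hu)
  set t : G := sn r * u * (sn r)⁻¹ with ht
  clear_value t
  -- `v⁻¹ = u * t⁻¹`, `w = u * t`
  have hv : u * t⁻¹ ∈ B.L0 := B.L0.mul_mem huL (B.L0.inv_mem hsL)
  have hw : u * t ∈ B.L0 := B.L0.mul_mem huL hsL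
  -- conjugate `hF` by `δ`
  have hF' : r.1 * (B.δ * (u * u) * B.δ⁻¹) * r.1⁻¹ =
      (u * t⁻¹) * (B.δ * (u * t) * B.δ⁻¹) := by
    have hd : B.δ * r.1 = r.1 * B.δ := (B.δ_th r hr).eq
    have hd' : r.1⁻¹ * B.δ⁻¹ = B.δ⁻¹ * r.1⁻¹ := ((B.δ_th r hr).inv_inv).eq.symm
    have hsw : (B.δ * (u * t) * B.δ⁻¹) * (u * t⁻¹) = (u * t⁻¹) * (B.δ * (u * t) * B.δ⁻¹) :=
      (B.L0_swap hv hw).eq.symm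
    have hdd : B.δ * B.δ = 1 := B.δ_sq
    have hdi : B.δ⁻¹ = B.δ := inv_eq_of_mul_eq_one_left hdd
    calc r.1 * (B.δ * (u * u) * B.δ⁻¹) * r.1⁻¹
        = (r.1 * B.δ) * (u * u) * (B.δ⁻¹ * r.1⁻¹) := by group
      _ = B.δ * (r.1 * (u * u) * r.1⁻¹) * B.δ⁻¹ := by rw [← hd, ← hd']; group
      _ = B.δ * ((u * t) * (B.δ * (u * t⁻¹) * B.δ⁻¹)) * B.δ⁻¹ := by rw [hF]
      _ = (B.δ * (u * t) * B.δ⁻¹) * ((B.δ * B.δ) * (u * t⁻¹) * (B.δ * B.δ)⁻¹) := by group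
      _ = (B.δ * (u * t) * B.δ⁻¹) * (u * t⁻¹) := by rw [hdd]; group
      _ = _ := hsw
  -- `δ(u*u)δ⁻¹` fixes `p`
  have huu : u * u ∈ B.L0 := B.L0.mul_mem huL huL
  have hfix : ψ (B.δ * (u * u) * B.δ⁻¹) p = p := V.L1_P0 huu hp
  have e1 : ψ ((u * t⁻¹) * (B.δ * (u * t) * B.δ⁻¹)) (p0 * ψ B.δ p1) = p0 * ψ B.δ p1 := by
    rw [← hF', ← h, ← ψ_mul]
    have : r.1 * (B.δ * (u * u) * B.δ⁻¹) * r.1⁻¹ * r.1 = r.1 * (B.δ * (u * u) * B.δ⁻¹) := by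
      group
    rw [this, ψ_mul, hfix]
  rw [V.LL_act hv hw h0 h1] at e1
  -- `e1 : (u t⁻¹)•p0 * δ•(u t)•p1 = p0 * δ•p1`
  have m0 : ψ (u * t⁻¹) p0 ∈ B.P0 ψ c := V.P0_L0 hv h0
  have m1 : ψ (u * t) p1 ∈ B.P0 ψ c := V.P0_L0 hw h1
  have e2 : p0⁻¹ * ψ (u * t⁻¹) p0 = ψ B.δ (p1 * (ψ (u * t) p1)⁻¹) := by
    rw [map_mul (ψ B.δ), map_inv (ψ B.δ)]
    have : p0⁻¹ * (ψ (u * t⁻¹) p0 * ψ B.δ (ψ (u * t) p1)) = ψ B.δ p1 := by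
      rw [e1]; group
    rw [← this]
    group
  have z1 : p0⁻¹ * ψ (u * t⁻¹) p0 ∈ B.zz ψ c :=
    ⟨Subgroup.mul_mem _ (Subgroup.inv_mem _ h0) m0, _,
      Subgroup.mul_mem _ h1 (Subgroup.inv_mem _ m1), e2⟩
  have z2 : p1 * (ψ (u * t) p1)⁻¹ ∈ B.zz ψ c := by
    have := (V.zz_mul z1 z1).2.2
    rwa [e2, V.δδ] at this
  have hvi : u⁻¹ * t = (u * t⁻¹)⁻¹ := by
    rw [mul_inv_rev, inv_inv]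
    exact hcu.inv_left.eq
  constructor
  · refine ⟨(p0⁻¹ * ψ (u * t⁻¹) p0)⁻¹, (V.zz_mul z1 z1).2.1, ?_⟩
    -- `p0 = v•((u t⁻¹)•p0) = v•(p0 * ζ) = v•p0 * ζ`
    have hvL : u⁻¹ * t ∈ B.L0 := B.L0.mul_mem (B.L0.inv_mem huL) hsL
    have e3 : ψ (u⁻¹ * t) (p0 * (p0⁻¹ * ψ (u * t⁻¹) p0)) = p0 := by
      have : p0 * (p0⁻¹ * ψ (u * t⁻¹) p0) = ψ (u * t⁻¹) p0 := by group
      rw [this, ← ψ_mul, hvi, inv_mul_cancel]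
      simp
    rw [map_mul, (V.zz_fix z1 hvL).1] at e3
    rw [eq_mul_inv_iff_mul_eq]
    exact e3
  · refine ⟨(p1 * (ψ (u * t) p1)⁻¹)⁻¹, (V.zz_mul z2 z2).2.1, ?_⟩
    have huui : (u * u)⁻¹ ∈ B.L0 := B.L0.inv_mem huu
    -- `(u t)•p1 = ζ⁻¹ * p1`
    have e4 : ψ (u * t) p1 = p1 * (p1 * (ψ (u * t) p1)⁻¹)⁻¹ := by
      have hcm := (V.zz_P0 z2 h1).1.inv_left.eq
      rw [← hcm]
      group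
    have e5 : u⁻¹ * t = (u * u)⁻¹ * (u * t) := by group
    have e6 : ψ (u⁻¹ * t) p1 = ψ (u * u)⁻¹ (ψ (u * t) p1) := by rw [e5, ψ_mul]
    rw [e6]
    conv_lhs => rw [e4]
    rw [map_mul, (V.zz_fix (V.zz_mul z2 z2).2.1 huui).1]

end VData

end Pool.Agent.H86.FS
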