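import Pool.Agent.H86.FS.VC
import Pool.Agent.H86.FS.W2

/-!
# Stage V, (7.6): `P0` is commutative
`g•h = ψ g h`, `w' = δ•w`, `θ = r.1`.
Let `C0 = {p ∈ P0 | ∀ w ∈ Ac, Commute w p}` (a subgroup, contains `Ac`, contains `zz`, stable under `Cst` since `Ac` is) and
`Good = {k ∈ L0 | ∀ w' ∈ Ac, k•w' ∈ C0}`.
* `1` is good; if `k` is good and `u ∈ Cst`, then `u * k` is good (`u•C0 ⊆ C0`).
* KEY: if `k` is good, `r ∈ Γ`, `u ∈ CstG` or `u⁻¹ ∈ CstG` (so `u ∈ NX` or `u ∈ NY`), `v = u⁻¹ * (s_r u s_r⁻¹)`, then `v * k` is good.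
  Proof. Let `w2 ∈ Ac`, `p = k•w2 ∈ C0`, `θ•p = p0 * δ•p1` (`P0_split`). For `w ∈ Ac`: `w * w'` commutes with `p` (`P0_P1`), is fixed by `θ` (`P0_th`),
  so `w * w'` commutes with `p0 * δ•p1`; hence (`P0_P1`) `1 = ⁅w * w', p0 * δ•p1⁆ = ⁅w, p0⁆ * ⁅w', δ•p1⁆`: `⁅w, p0⁆ = ⁅w', δ•p1⁆⁻¹ ∈ zz`.
  Note `⁅w, p0⁆ = ⁅w, θ•p⁆` (as `w` commutes with `δ•p1`). Put `κ w w2 := ⁅w, θ•k•w2⁆` (a closed formula, `k`, `θ` fixed). For `w, w2 ∈ Ac`: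
  `κ w w2 ∈ zz` (central in `P0`), so `κ` is multiplicative in `w` and in `w2` (`⁅x x', y⁆ = x ⁅x',y⁆ x⁻¹ ⁅x,y⁆`, `⁅x, y y'⁆ = ⁅x,y⁆ y ⁅x,y'⁆ y⁻¹`;
  `θ•k•w2 ∈ P0 · δ•P0` commutes with `zz`).
  Invariance: let `z = Z * δZδ⁻¹`; `θ` commutes with `z` (`L0_th`), `k` commutes with `z` (`Z_L0`, `L0_swap`); `z•w = Z•w` for `w ∈ Ac` (`L1_P0`); so
  `κ (Z•w) (Z•w2) = ⁅z•w, θ•k•z•w2⁆ = z•κ w w2 = κ w w2` (`zz_fix`).
  `W2` with `M = N = Ac`, `z = z' = ψ Z` (`Ac_Phi`: `ψ (Z^5) w = Z•Z•Z•Z•Z•w`) gives `κ = 1`.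
  So `⁅w, p0⁆ = 1` and `⁅w', δ•p1⁆ = 1`, i.e. `⁅w, p1⁆ = 1` for all `w ∈ Ac`: `p0, p1 ∈ C0`. By `split_sum` `p = p0 * p1 * ζ`, by `loc`
  `v•p = (v•p0) * (v•p1) * ζ = p0 * ζ1 * (u*u)⁻¹•p1 * ζ2 * ζ ∈ C0` (`(u*u)⁻¹ ∈ Cst`). QED KEY.
* So if `k` is good then `s_r u s_r⁻¹ * k = u * (v * k)` is good for `u ∈ CstG` or `u⁻¹ ∈ CstG`; by `L0_gen` and
  `Subgroup.closure_induction_left` (or: the set of `g` with `g * Good ⊆ Good` is a submonoid containing generators and their inverses)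
  every `k ∈ L0` is good.
* Hence `⁅w, k•w2⁆ = 1` for `w, w2 ∈ Ac`, `k ∈ L0`; for `g, h ∈ L0`: `⁅g•c, h•c⁆ = g•⁅c, (g⁻¹h)•c⁆ = 1`. Closure induction.
-/

set_option autoImplicit false
set_option linter.unusedVariables false

open scoped commutatorElement

namespace Pool.Agent.H86.FS

variable {G : Type*} [Group G] {H : Type*} [Group H]

namespace VData

variable {B : Base G} {ψ : G →* MulAut H} {c : H}

/-- membership in `C0` -/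
def C0 (B : Base G) (ψ : G →* MulAut H) (c : H) (p : H) : Prop :=
  p ∈ B.P0 ψ c ∧ ∀ w ∈ B.Ac ψ c, Commute w p

theorem C0_mul (V : VData B ψ c) {p q : H} (hp : C0 B ψ c p) (hq : C0 B ψ c q) :
    C0 B ψ c (p * q) :=
  ⟨Subgroup.mul_mem _ hp.1 hq.1, fun w hw => (hp.2 w hw).mul_right (hq.2 w hw)⟩

theorem C0_zz (V : VData B ψ c) {ζ : H} (hζ : ζ ∈ B.zz ψ c) : C0 B ψ c ζ :=
  ⟨hζ.1, fun w hw => (V.zz_P0 hζ (V.Ac_le hw)).1.symm⟩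

theorem C0_Cst (V : VData B ψ c) {g : G} (hg : g ∈ B.Cst) {p : H} (hp : C0 B ψ c p) :
    C0 B ψ c (ψ g p) := by
  refine ⟨V.P0_L0 (B.Cst_L0 hg) hp.1, fun w hw => ?_⟩
  have h1 : ψ g⁻¹ w ∈ B.Ac ψ c := V.Ac_Cst (B.Cst.inv_mem hg) hw
  have h2 := (hp.2 _ h1).map (ψ g)
  rwa [← ψ_mul, mul_inv_cancel, map_one, MulAut.one_apply] at h2

/-- good elements of `L0` -/
def Good (B : Base G) (ψ : G →* MulAut H) (c : H) (k : G) : Prop :=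
  k ∈ B.L0 ∧ ∀ w ∈ B.Ac ψ c, C0 B ψ c (ψ k w)

theorem good_one (V : VData B ψ c) : Good B ψ c 1 :=
  ⟨B.L0.one_mem, fun w hw => by
    rw [map_one, MulAut.one_apply]
    exact ⟨V.Ac_le hw, fun w' hw' => V.Ac_comm hw' hw⟩⟩

theorem good_Cst (V : VData B ψ c) {u k : G} (hu : u ∈ B.Cst) (hk : Good B ψ c k) :
    Good B ψ c (u * k) :=
  ⟨B.L0.mul_mem (B.Cst_L0 hu) hk.1, fun w hw => by
    rw [ψ_mul]
    exact V.C0_Cst hu (hk.2 w hw)⟩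

theorem CstG_N {u : G} (hu : u ∈ B.CstG) : u ∈ B.NX ∨ u ∈ B.NY := by
  rcases hu with ⟨n, rfl⟩ | hu
  · left
    refine Subgroup.subset_closure ⟨n, 1, B.Γ.one_mem, ?_⟩
    simp [sn]
  · rw [Set.mem_singleton_iff] at hu
    subst hu
    right
    exact B.mY.mem

theorem CstG_N' {u : G} (hu : u ∈ B.CstG ∨ u⁻¹ ∈ B.CstG) : u ∈ B.NX ∨ u ∈ B.NY := by
  rcases hu with hu | hu
  · exact CstG_N hu
  · rcases CstG_N hu with h | h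
    · left
      simpa using Subgroup.inv_mem _ h
    · right
      simpa using Subgroup.inv_mem _ h

theorem CstG_Cst {u : G} (hu : u ∈ B.CstG ∨ u⁻¹ ∈ B.CstG) : u ∈ B.Cst := by
  rcases hu with hu | hu
  · exact Subgroup.subset_closure hu
  · have := B.Cst.inv_mem (Subgroup.subset_closure hu : u⁻¹ ∈ B.Cst)
    simpa using this

/-- `⁅w, p0⁆ = δ•⁅p1, w⁆` -/
theorem comm_split (V : VData B ψ c) {r : G × G} (hr : r ∈ B.Γ) {p p0 p1 w : H}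
    (hp : C0 B ψ c p) (h0 : p0 ∈ B.P0 ψ c) (h1 : p1 ∈ B.P0 ψ c)
    (h : ψ r.1 p = p0 * ψ B.δ p1) (hw : w ∈ B.Ac ψ c) :
    ⁅w, p0⁆ = ψ B.δ ⁅p1, w⁆ := by
  have hwP := V.Ac_le hw
  have cW : Commute (w * ψ B.δ w) p := (hp.2 w hw).mul_left (V.P0_P1 hp.1 hwP).symm
  have e1 := (cW.map (ψ r.1)).eq
  rw [V.P0_th hr hwP, h] at e1
  -- `e1 : w * w' * (p0 * p1') = p0 * p1' * (w * w')`
  have a1 : ψ B.δ w * p0 = p0 * ψ B.δ w := (V.P0_P1 h0 hwP).eq.symm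
  have a2 : ψ B.δ p1 * w = w * ψ B.δ p1 := (V.P0_P1 hwP h1).eq.symm
  have e2 : w * p0 * (ψ B.δ w * ψ B.δ p1) = p0 * w * (ψ B.δ p1 * ψ B.δ w) := by
    calc w * p0 * (ψ B.δ w * ψ B.δ p1) = w * (p0 * ψ B.δ w) * ψ B.δ p1 := by group
      _ = w * ψ B.δ w * (p0 * ψ B.δ p1) := by rw [← a1]; group
      _ = p0 * ψ B.δ p1 * (w * ψ B.δ w) := e1
      _ = p0 * (ψ B.δ p1 * w) * ψ B.δ w := by group
      _ = _ := by rw [a2]; group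
  have e3 : w * p0 = p0 * w * ψ B.δ ⁅p1, w⁆ := by
    rw [commutatorElement_def, map_mul, map_mul, map_mul, map_inv, map_inv]
    have : w * p0 = (p0 * w * (ψ B.δ p1 * ψ B.δ w)) * (ψ B.δ w * ψ B.δ p1)⁻¹ := by
      rw [← e2]; group
    rw [this]; group
  have mc : ⁅p1, w⁆ ∈ B.P0 ψ c := by
    rw [commutatorElement_def]
    exact Subgroup.mul_mem _ (Subgroup.mul_mem _ (Subgroup.mul_mem _ h1 hwP)
      (Subgroup.inv_mem _ h1)) (Subgroup.inv_mem _ hwP)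
  have e4 : p0 * w * ψ B.δ ⁅p1, w⁆ = ψ B.δ ⁅p1, w⁆ * (p0 * w) :=
    (V.P0_P1 (Subgroup.mul_mem _ h0 hwP) mc).eq
  rw [commutatorElement_def w p0]
  have e5 : w * p0 = ψ B.δ ⁅p1, w⁆ * (p0 * w) := by rw [e3, e4]
  calc w * p0 * w⁻¹ * p0⁻¹ = (w * p0) * (p0 * w)⁻¹ := by group
    _ = ψ B.δ ⁅p1, w⁆ * (p0 * w) * (p0 * w)⁻¹ := by rw [← e5]
    _ = _ := by group

theorem Ac_Phi' (V : VData B ψ c) {m : H} (hm : m ∈ B.Ac ψ c) :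
    ψ B.Z (ψ B.Z (ψ B.Z (ψ B.Z (ψ B.Z m)))) * ψ B.Z (ψ B.Z m) * m = 1 := by
  have := V.Ac_Phi hm
  have e5 : B.Z ^ 5 = B.Z * (B.Z * (B.Z * (B.Z * B.Z))) := by
    simp only [pow_succ, pow_zero, one_mul, mul_assoc]
  rw [e5, pow_two] at this
  rw [ψ_mul ψ, ψ_mul ψ, ψ_mul ψ, ψ_mul ψ] at this
  exact this

theorem key (V : VData B ψ c) {k : G} (hk : Good B ψ c k) {r : G × G} (hr : r ∈ B.Γ) {u : G}
    (hu : u ∈ B.CstG ∨ u⁻¹ ∈ B.CstG) : Good B ψ c (u⁻¹ * (sn r * u * (sn r)⁻¹) * k) := by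
  have huN := CstG_N' hu
  have huC := CstG_Cst hu
  have huL := B.Cst_L0 huC
  have hvL : u⁻¹ * (sn r * u * (sn r)⁻¹) ∈ B.L0 :=
    B.L0.mul_mem (B.L0.inv_mem huL) (B.L0_sn hr huL)
  -- the commutator with a split element
  have cq : ∀ w ∈ B.Ac ψ c, ∀ p0 p1 : H, p1 ∈ B.P0 ψ c →
      ⁅w, p0 * ψ B.δ p1⁆ = ⁅w, p0⁆ := by
    intro w hw p0 p1 h1
    have a : Commute w (ψ B.δ p1) := V.P0_P1 (V.Ac_le hw) h1
    rw [commutatorElement_def, commutatorElement_def, mul_inv_rev]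
    have a2 : ψ B.δ p1 * w⁻¹ = w⁻¹ * ψ B.δ p1 := (a.inv_left).eq.symm
    calc w * (p0 * ψ B.δ p1) * w⁻¹ * ((ψ B.δ p1)⁻¹ * p0⁻¹)
        = w * p0 * (ψ B.δ p1 * w⁻¹) * (ψ B.δ p1)⁻¹ * p0⁻¹ := by group
      _ = _ := by rw [a2]; group
  -- values of kappa
  have kz : ∀ w ∈ B.Ac ψ c, ∀ w2 ∈ B.Ac ψ c, ⁅w, ψ r.1 (ψ k w2)⁆ ∈ B.zz ψ c := by
    intro w hw w2 hw2
    obtain ⟨p0, h0, p1, h1, e⟩ := V.P0_split hr (hk.2 w2 hw2).1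
    rw [e, cq w hw p0 p1 h1]
    have hwP := V.Ac_le hw
    have mc : ∀ a ∈ B.P0 ψ c, ∀ b ∈ B.P0 ψ c, ⁅a, b⁆ ∈ B.P0 ψ c := by
      intro a ha b hb
      rw [commutatorElement_def]
      exact Subgroup.mul_mem _ (Subgroup.mul_mem _ (Subgroup.mul_mem _ ha hb)
        (Subgroup.inv_mem _ ha)) (Subgroup.inv_mem _ hb)
    exact ⟨mc _ hwP _ h0, ⁅p1, w⁆, mc _ h1 _ hwP,
      V.comm_split hr (hk.2 w2 hw2) h0 h1 e hw⟩
  -- elements which commute with `zz`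
  have cz : ∀ w2 ∈ B.Ac ψ c, ∀ ζ ∈ B.zz ψ c, Commute ζ (ψ r.1 (ψ k w2)) := by
    intro w2 hw2 ζ hζ
    obtain ⟨p0, h0, p1, h1, e⟩ := V.P0_split hr (hk.2 w2 hw2).1
    rw [e]
    exact (V.zz_P0 hζ h0).1.mul_right (V.zz_P0 hζ h1).2
  have hZC : B.Z ∈ B.Cst := B.Z_Cst
  have hZL : B.Z ∈ B.L0 := B.Z_mem
  have kk := W2 (B.Ac ψ c) (B.Ac ψ c) (ψ B.Z).toMonoidHom (ψ B.Z).toMonoidHom
    (fun m hm => V.Ac_Cst hZC hm) (fun m hm => V.Ac_Cst hZC hm)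
    (fun m hm m' hm' => V.Ac_comm hm hm') (fun m hm m' hm' => V.Ac_comm hm hm')
    (fun m hm => V.Ac_sq hm) (fun m hm => V.Ac_sq hm)
    (fun m hm => V.Ac_Phi' hm) (fun m hm => V.Ac_Phi' hm)
    (fun w w2 => ⁅w, ψ r.1 (ψ k w2)⁆)
    (fun m hm m' hm' n hn => by
      have z1 := kz m hm n hn
      have z2 := kz m' hm' n hn
      have c1 := (V.zz_P0 z2 (V.Ac_le hm)).1
      have c2 := (V.zz_P0 z2 z1.1).1
      change ⁅m * m', ψ r.1 (ψ k n)⁆ = ⁅m, ψ r.1 (ψ k n)⁆ * ⁅m', ψ r.1 (ψ k n)⁆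
      generalize ψ r.1 (ψ k n) = y at *
      have e : ⁅m * m', y⁆ = m * ⁅m', y⁆ * m⁻¹ * ⁅m, y⁆ := by
        simp only [commutatorElement_def]; group
      rw [e, ← c1.eq, ← c2.eq]
      group)
    (fun m hm n hn n' hn' => by
      have z2 := kz m hm n' hn'
      have c1 := (cz n hn _ z2).eq
      change ⁅m, ψ r.1 (ψ k (n * n'))⁆ = ⁅m, ψ r.1 (ψ k n)⁆ * ⁅m, ψ r.1 (ψ k n')⁆
      rw [map_mul (ψ k), map_mul (ψ r.1)]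
      generalize ψ r.1 (ψ k n) = y at *
      generalize ψ r.1 (ψ k n') = y' at *
      have e : ⁅m, y * y'⁆ = ⁅m, y⁆ * (y * ⁅m, y'⁆ * y⁻¹) := by
        simp only [commutatorElement_def]; group
      rw [e, ← c1]
      group)
    (fun m hm n hn => by
      change ⁅ψ B.Z m, ψ r.1 (ψ k (ψ B.Z n))⁆ = ⁅m, ψ r.1 (ψ k n)⁆
      have ez : ∀ x ∈ B.Ac ψ c, ψ B.Z x = ψ (B.Z * (B.δ * B.Z * B.δ⁻¹)) x := by
        intro x hx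
        rw [ψ_mul ψ B.Z (B.δ * B.Z * B.δ⁻¹) x, V.L1_P0 hZL (V.Ac_le hx)]
      rw [ez m hm, ez n hn]
      have c1 : r.1 * (B.Z * (B.δ * B.Z * B.δ⁻¹)) = (B.Z * (B.δ * B.Z * B.δ⁻¹)) * r.1 :=
        (B.L0_th hr hZL).eq
      have c2 : k * (B.Z * (B.δ * B.Z * B.δ⁻¹)) = (B.Z * (B.δ * B.Z * B.δ⁻¹)) * k :=
        ((B.Z_L0 hk.1).symm.mul_right (B.L0_swap hk.1 hZL)).eq
      have e1 : ψ r.1 (ψ k (ψ (B.Z * (B.δ * B.Z * B.δ⁻¹)) n)) =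
          ψ (B.Z * (B.δ * B.Z * B.δ⁻¹)) (ψ r.1 (ψ k n)) := by
        rw [← ψ_mul ψ k, c2, ψ_mul ψ _ k, ← ψ_mul ψ r.1, c1, ψ_mul ψ _ r.1]
      rw [e1, ← map_commutatorElement, ψ_mul ψ B.Z (B.δ * B.Z * B.δ⁻¹),
        (V.zz_fix (kz m hm n hn) hZL).2, (V.zz_fix (kz m hm n hn) hZL).1])
  refine ⟨B.L0.mul_mem hvL hk.1, fun w2 hw2 => ?_⟩
  rw [ψ_mul]
  obtain ⟨p0, h0, p1, h1, e⟩ := V.P0_split hr (hk.2 w2 hw2).1
  have k0 : ∀ w ∈ B.Ac ψ c, ⁅w, p0⁆ = 1 := by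
    intro w hw
    have := kk w hw w2 hw2
    rwa [e, cq w hw p0 p1 h1] at this
  have c0 : C0 B ψ c p0 := ⟨h0, fun w hw => commutatorElement_eq_one_iff_commute.mp (k0 w hw)⟩
  have c1 : C0 B ψ c p1 := by
    refine ⟨h1, fun w hw => ?_⟩
    have e1 := V.comm_split hr (hk.2 w2 hw2) h0 h1 e hw
    rw [k0 w hw] at e1
    have e2 : ⁅p1, w⁆ = 1 := by
      have := congrArg (ψ B.δ) e1
      rw [V.δδ, map_one] at this
      exact this.symm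
    exact (commutatorElement_eq_one_iff_commute.mp e2).symm
  obtain ⟨ζ, hζ, es⟩ := V.split_sum hr (hk.2 w2 hw2).1 h0 h1 e
  obtain ⟨⟨ζ1, hζ1, e1⟩, ⟨ζ2, hζ2, e2⟩⟩ := V.loc hr (hk.2 w2 hw2).1 h0 h1 e huN
  rw [es, map_mul, map_mul, e1, e2, (V.zz_fix hζ hvL).1]
  have huu : (u * u)⁻¹ ∈ B.Cst := B.Cst.inv_mem (B.Cst.mul_mem huC huC)
  exact V.C0_mul (V.C0_mul (V.C0_mul c0 (V.C0_zz hζ1)) (V.C0_mul (V.C0_Cst huu c1)
    (V.C0_zz hζ2))) (V.C0_zz hζ)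

theorem good_all (V : VData B ψ c) {k : G} (hk : k ∈ B.L0) : Good B ψ c k := by
  rw [B.L0_gen] at hk
  refine Subgroup.closure_induction_left (p := fun k _ => Good B ψ c k) ?_ ?_ ?_ hk
  · exact V.good_one
  · rintro x ⟨r, hr, g, hg, rfl⟩ y hy gy
    have h1 := V.key gy hr (u := g) (Or.inl hg)
    have h2 := V.good_Cst (CstG_Cst (Or.inl hg)) h1
    have e : g * (g⁻¹ * (sn r * g * (sn r)⁻¹) * y) = sn r * g * (sn r)⁻¹ * y := by group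
    rwa [e] at h2
  · rintro x ⟨r, hr, g, hg, rfl⟩ y hy gy
    have hg' : g⁻¹ ∈ B.CstG ∨ (g⁻¹)⁻¹ ∈ B.CstG := Or.inr (by simpa using hg)
    have h1 := V.key gy hr (u := g⁻¹) hg'
    have h2 := V.good_Cst (CstG_Cst hg') h1
    have e : g⁻¹ * ((g⁻¹)⁻¹ * (sn r * g⁻¹ * (sn r)⁻¹) * y) = (sn r * g * (sn r)⁻¹)⁻¹ * y := by
      group
    rwa [e] at h2

theorem P0_comm (V : VData B ψ c) {p q : H} (hp : p ∈ B.P0 ψ c) (hq : q ∈ B.P0 ψ c) :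
    Commute p q := by
  have hcc : ∀ g ∈ B.L0, ∀ h ∈ B.L0, Commute (ψ g c) (ψ h c) := by
    intro g hg h hh
    have h1 := (V.good_all (B.L0.mul_mem (B.L0.inv_mem hg) hh)).2 c V.c_mem
    have h2 := (h1.2 c V.c_mem).map (ψ g)
    rwa [← ψ_mul, mul_inv_cancel_left] at h2
  refine Subgroup.closure_induction (p := fun p _ => Commute p q) ?_ ?_ ?_ ?_ hp
  · rintro x ⟨g, hg, rfl⟩
    refine Subgroup.closure_induction (p := fun q _ => Commute (ψ g c) q) ?_ ?_ ?_ ?_ hq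
    · rintro y ⟨h, hh, rfl⟩
      exact hcc g hg h hh
    · simp
    · intro x y _ _ hx hy
      exact hx.mul_right hy
    · intro x _ hx
      exact hx.inv_right
  · exact Commute.one_left _
  · intro x y _ _ hx hy
    exact hx.mul_left hy
  · intro x _ hx
    exact hx.inv_left

end VData

end Pool.Agent.H86.FS
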