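import Pool.Agent.H86.FS.VD

/-!
# Stage V, (7.7): the operators `e_r`
`g•h = ψ g h`, `θ = r.1`. `P0` is commutative (`P0_comm`).
* `P0_sq`, `P0_Phi`: for generators `g•c` apply `ψ g` to `V.sq`, `V.Phi` (`Z` commutes with `g`), multiplicative by commutativity.
* `zz_triv`: `ζ = p = δ•q ∈ zz` is fixed by `Z` (`zz_fix`, `Z ∈ L0`), so `1 = Z⁵•ζ * Z²•ζ * ζ = ζ * ζ * ζ = ζ`.
* Decomposition: `θ•p = p0 * δ•p1` with UNIQUE `p0, p1 ∈ P0` (`zz_triv`), and `p = p0 * p1` (`split_sum`, `zz_triv`). Let `E p := p1`. Then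
  `θ•p = (p * E p) * δ•(E p)` (exponent 2). `E` is multiplicative. `E (g•p) = g•E p` for `g ∈ Cst`: `θ` commutes with `g * δgδ⁻¹`, which acts on `P0` as `g`
  and on `δ•P0` as `δ•g•` (`L1_P0`, `L0_P1`); uniqueness.
* `loc` now reads: for `u ∈ NX ∪ NY`, `v = u⁻¹ * (s_r u s_r⁻¹)`: `v•p0 = p0`, `v•p1 = (u*u)⁻¹•p1`. So `v•p = (p * E p) * (u*u)⁻¹•E p`.   (L)
* `E (E p) = E p`: apply (L) to `p * E p = p0` and `u = X`, `Y`: `v•p0 = p0` gives `(u*u)⁻¹•E p0 = E p0`; so `q := E p0` is fixed by `X*X`, `Y*Y`, hence by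
  `⁅X*X, Y*Y⁆ = Z⁴`, hence by `Z = (Z⁴)⁸` (`Z31`), hence `q = 1` (as for `zz_triv`). So `E (p * E p) = 1`.
* (L) with `u = (φ⁻¹Xφ)⁻¹`: `v = xl r`, `(u*u)⁻¹ = X`: `(xl r)•p = p * E p * X•E p`; with `u = (Y^16)⁻¹`: `(u*u)⁻¹ = Y^32 = Y`:
  `(yl r)•p = p * E p * Y•E p`. Both preserve the decomposition `P0 = (1-E)P0 × E P0`, so `zl r = ⁅xl r, yl r⁆` acts as `⁅X,Y⁆ = Z` on `E P0` and
  trivially on `(1-E)P0`: `(zl r)•p = p * E p * Z•E p`.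
* Hence `q := (zl r)•p * p⁻¹ = E p * Z•E p` and `e r p = Z⁴•q * Z³•q * Z²•q = Z⁵•E p * Z²•E p = E p` (exponent 2, all other terms cancel; `P0_Phi`).
  So `e r p = E p` and all statements below follow.
-/

set_option autoImplicit false

open scoped commutatorElement

namespace Pool.Agent.H86.FS

variable {G : Type*} [Group G] {H : Type*} [Group H]

namespace VData

variable {B : Base G} {ψ : G →* MulAut H} {c : H}

theorem P0_sq (V : VData B ψ c) {p : H} (hp : p ∈ B.P0 ψ c) : p * p = 1 := by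
  refine Subgroup.closure_induction (p := fun p _ => p * p = 1) ?_ ?_ ?_ ?_ hp
  · rintro _ ⟨g, _, rfl⟩
    rw [← map_mul, V.sq, map_one]
  · simp
  · intro x y hx hy h1 h2
    have h := V.P0_comm (p := y) (q := x) hy hx
    rw [h.mul_mul_mul_comm, h1, h2, one_mul]
  · intro x _ h1
    rw [← mul_inv_rev, h1, inv_one]

theorem P0_inv (V : VData B ψ c) {p : H} (hp : p ∈ B.P0 ψ c) : p⁻¹ = p :=
  inv_eq_of_mul_eq_one_right (V.P0_sq hp)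

theorem P0_Phi (V : VData B ψ c) {p : H} (hp : p ∈ B.P0 ψ c) :
    ψ (B.Z ^ 5) p * ψ (B.Z ^ 2) p * p = 1 := by
  refine Subgroup.closure_induction (p := fun p _ => ψ (B.Z ^ 5) p * ψ (B.Z ^ 2) p * p = 1)
    ?_ ?_ ?_ ?_ hp
  · rintro _ ⟨g, hg, rfl⟩
    have h1 : ∀ n : ℕ, ψ (B.Z ^ n) (ψ g c) = ψ g (ψ (B.Z ^ n) c) := by
      intro n
      rw [← MulAut.mul_apply, ← MulAut.mul_apply, ← map_mul, ← map_mul,
        ((B.Z_L0 hg).pow_left n).eq]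
    rw [h1, h1, ← map_mul, ← map_mul, V.Phi, map_one]
  · simp
  · intro x y hx hy h1 h2
    have hz : ∀ n : ℕ, B.Z ^ n ∈ B.L0 := fun n => Subgroup.pow_mem _ B.Z_mem n
    have c1 := V.P0_comm (V.P0_L0 (hz 5) hy) (V.P0_L0 (hz 2) hx)
    have c2 : Commute (ψ (B.Z ^ 5) y * ψ (B.Z ^ 2) y) x :=
      (V.P0_comm (V.P0_L0 (hz 5) hy) hx).mul_left (V.P0_comm (V.P0_L0 (hz 2) hy) hx)
    rw [map_mul, map_mul, c1.mul_mul_mul_comm, c2.mul_mul_mul_comm, h1, h2, one_mul]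
  · intro x hx h1
    have hz : ∀ n : ℕ, B.Z ^ n ∈ B.L0 := fun n => Subgroup.pow_mem _ B.Z_mem n
    have c1 := V.P0_comm (V.P0_L0 (hz 5) hx) (V.P0_L0 (hz 2) hx)
    have c2 : Commute (ψ (B.Z ^ 5) x * ψ (B.Z ^ 2) x) x :=
      (V.P0_comm (V.P0_L0 (hz 5) hx) hx).mul_left (V.P0_comm (V.P0_L0 (hz 2) hx) hx)
    rw [map_inv, map_inv, ← mul_inv_rev, c1.symm.eq, ← mul_inv_rev, ← c2.eq, h1, inv_one]

/-- an element of `P0` fixed by `Z` is trivial -/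
theorem Z_fix_triv (V : VData B ψ c) {p : H} (hp : p ∈ B.P0 ψ c) (h : ψ B.Z p = p) : p = 1 := by
  have h1 : ∀ n : ℕ, ψ (B.Z ^ n) p = p := by
    intro n
    induction n with
    | zero => simp
    | succ n ih => rw [pow_succ, map_mul, MulAut.mul_apply, h, ih]
  have h2 := V.P0_Phi hp
  rwa [h1, h1, V.P0_sq hp, one_mul] at h2

theorem zz_triv (V : VData B ψ c) {p q : H} (hp : p ∈ B.P0 ψ c) (hq : q ∈ B.P0 ψ c)
    (h : p = ψ B.δ q) : p = 1 :=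
  V.Z_fix_triv hp (V.zz_fix (ζ := p) ⟨hp, q, hq, h⟩ B.Z_mem).1

/-- `p1` is the `e`-part of `p` -/
def R (B : Base G) (ψ : G →* MulAut H) (c : H) (r : G × G) (p p1 : H) : Prop :=
  p ∈ B.P0 ψ c ∧ p1 ∈ B.P0 ψ c ∧ ψ r.1 p = (p * p1) * ψ B.δ p1

theorem R_exists (V : VData B ψ c) {r : G × G} (hr : r ∈ B.Γ) {p : H} (hp : p ∈ B.P0 ψ c) :
    ∃ p1, R B ψ c r p p1 := by
  obtain ⟨p0, h0, p1, h1, h⟩ := V.P0_split hr hp
  obtain ⟨ζ, ⟨hζ, q, hq, hζq⟩, e⟩ := V.split_sum hr hp h0 h1 h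
  have hz := V.zz_triv hζ hq hζq
  rw [hz, mul_one] at e
  refine ⟨p1, hp, h1, ?_⟩
  rw [h, e, mul_assoc p0, V.P0_sq h1, mul_one]

theorem R_unique (V : VData B ψ c) {r : G × G} {p p1 p2 : H} (h1 : R B ψ c r p p1)
    (h2 : R B ψ c r p p2) : p1 = p2 := by
  obtain ⟨hp, hp1, e1⟩ := h1
  obtain ⟨-, hp2, e2⟩ := h2
  rw [e1] at e2
  have h3 : p2⁻¹ * p1 = ψ B.δ (p2 * p1⁻¹) := by
    rw [map_mul, map_inv, eq_mul_inv_iff_mul_eq]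
    have : p⁻¹ * (p * p1 * ψ B.δ p1) = p⁻¹ * (p * p2 * ψ B.δ p2) := by rw [e2]
    rw [mul_assoc, inv_mul_cancel_left, mul_assoc, inv_mul_cancel_left] at this
    rw [mul_assoc, this, inv_mul_cancel_left]
  have h4 := V.zz_triv (Subgroup.mul_mem _ (Subgroup.inv_mem _ hp2) hp1)
    (Subgroup.mul_mem _ hp2 (Subgroup.inv_mem _ hp1)) h3
  exact (inv_mul_eq_one.1 h4).symm

theorem R_mul (V : VData B ψ c) {r : G × G} {p p1 q q1 : H} (h1 : R B ψ c r p p1)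
    (h2 : R B ψ c r q q1) : R B ψ c r (p * q) (p1 * q1) := by
  obtain ⟨hp, hp1, e1⟩ := h1
  obtain ⟨hq, hq1, e2⟩ := h2
  refine ⟨Subgroup.mul_mem _ hp hq, Subgroup.mul_mem _ hp1 hq1, ?_⟩
  rw [map_mul, e1, e2, map_mul]
  have c1 : Commute (ψ B.δ p1) (q * q1) :=
    (V.P0_P1 (Subgroup.mul_mem _ hq hq1) hp1).symm
  have c2 : Commute p1 q := V.P0_comm hp1 hq
  rw [c1.mul_mul_mul_comm, c2.mul_mul_mul_comm]

theorem R_L0 (V : VData B ψ c) {r : G × G} (hr : r ∈ B.Γ) {p p1 : H} (h : R B ψ c r p p1)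
    {g : G} (hg : g ∈ B.L0) : R B ψ c r (ψ g p) (ψ g p1) := by
  obtain ⟨hp, hp1, e1⟩ := h
  refine ⟨V.P0_L0 hg hp, V.P0_L0 hg hp1, ?_⟩
  have e2 : ψ g p = ψ (g * (B.δ * g * B.δ⁻¹)) p := by
    rw [map_mul, MulAut.mul_apply, V.L1_P0 hg hp]
  have e3 : ψ r.1 (ψ g p) = ψ (g * (B.δ * g * B.δ⁻¹)) (ψ r.1 p) := by
    rw [e2, ← MulAut.mul_apply, ← map_mul, (B.L0_th hr hg).eq, map_mul, MulAut.mul_apply]
  have e4 : ψ (g * (B.δ * g * B.δ⁻¹)) (p * p1) = ψ g (p * p1) := by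
    rw [map_mul ψ, MulAut.mul_apply, V.L1_P0 hg (Subgroup.mul_mem _ hp hp1)]
  have e5 : ψ (g * (B.δ * g * B.δ⁻¹)) (ψ B.δ p1) = ψ B.δ (ψ g p1) := by
    rw [(B.L0_swap hg hg).eq, map_mul, MulAut.mul_apply, V.L0_P1 hg hp1, ← MulAut.mul_apply,
      ← map_mul, mul_assoc (B.δ * g), inv_mul_cancel, mul_one, map_mul, MulAut.mul_apply]
  rw [e3, e1, map_mul, e4, e5, map_mul (ψ g)]

theorem R_loc (V : VData B ψ c) {r : G × G} (hr : r ∈ B.Γ) {p p1 : H} (h : R B ψ c r p p1)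
    {u : G} (hu : u ∈ B.NX ∨ u ∈ B.NY) :
    ψ (u⁻¹ * (sn r * u * (sn r)⁻¹)) (p * p1) = p * p1 ∧
      ψ (u⁻¹ * (sn r * u * (sn r)⁻¹)) p1 = ψ (u * u)⁻¹ p1 := by
  obtain ⟨hp, hp1, e1⟩ := h
  obtain ⟨⟨ζ, ⟨hζ, q, hq, hζq⟩, k1⟩, ⟨ζ', ⟨hζ', q', hq', hζq'⟩, k2⟩⟩ :=
    V.loc hr hp (Subgroup.mul_mem _ hp hp1) hp1 e1 hu
  rw [V.zz_triv hζ hq hζq, mul_one] at k1
  rw [V.zz_triv hζ' hq' hζq', mul_one] at k2
  exact ⟨k1, k2⟩

theorem NX_L0 (B : Base G) {u : G} (hu : u ∈ B.NX ∨ u ∈ B.NY) : u ∈ B.L0 := by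
  rcases hu with hu | hu
  · exact (le_sup_left : B.NX ≤ B.NX ⊔ B.NY) hu
  · exact (le_sup_right : B.NY ≤ B.NX ⊔ B.NY) hu

theorem X_NX (B : Base G) : B.X ∈ B.NX := B.mX.mem

theorem Y_NY (B : Base G) : B.Y ∈ B.NY := B.mY.mem

theorem X_L0 (B : Base G) : B.X ∈ B.L0 := NX_L0 B (Or.inl (X_NX B))

theorem Y_L0 (B : Base G) : B.Y ∈ B.L0 := NX_L0 B (Or.inr (Y_NY B))

/-- fixed by `Z ^ 4` implies trivial -/
theorem Z4_fix_triv (V : VData B ψ c) {p : H} (hp : p ∈ B.P0 ψ c) (h : ψ (B.Z ^ 4) p = p) :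
    p = 1 := by
  apply V.Z_fix_triv hp
  have h1 : ∀ n : ℕ, ψ ((B.Z ^ 4) ^ n) p = p := by
    intro n
    induction n with
    | zero => simp
    | succ n ih => rw [pow_succ, map_mul, MulAut.mul_apply, h, ih]
  have h2 : (B.Z ^ 4) ^ 8 = B.Z := by
    rw [← pow_mul, show 4 * 8 = 31 + 1 by norm_num, pow_succ, B.Z31, one_mul]
  have h3 := h1 8
  rwa [h2] at h3

theorem fix_u (V : VData B ψ c) {r : G × G} (hr : r ∈ B.Γ) {p p1 q : H} (h : R B ψ c r p p1)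
    (hq : R B ψ c r (p * p1) q) {u : G} (hu : u ∈ B.NX ∨ u ∈ B.NY) : ψ (u * u) q = q := by
  have h1 := (V.R_loc hr h hu).1
  have h2 := V.R_loc hr hq hu
  have e1 : p * p1 = (p * p1 * q) * q := by rw [mul_assoc, V.P0_sq hq.2.1, mul_one]
  rw [e1, map_mul, h2.1, h2.2] at h1
  have h3 := mul_left_cancel h1
  rw [map_inv] at h3
  have h4 := congrArg (ψ (u * u)) h3
  rw [MulAut.apply_inv_self] at h4
  exact h4.symm

/-- commutators of squares -/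
theorem comm_sq (B : Base G) : (B.X * B.X) * (B.Y * B.Y) = B.Z ^ 4 * ((B.Y * B.Y) * (B.X * B.X)) := by
  have e1 : B.X * B.Y = B.Z * (B.Y * B.X) := by
    unfold Base.Z
    rw [commutatorElement_def]
    group
  have zx : B.Z * B.X = B.X * B.Z := B.ZX.eq
  have zy : B.Z * B.Y = B.Y * B.Z := B.ZY.eq
  have e2 : ∀ n : ℕ, B.X * B.Z ^ n = B.Z ^ n * B.X := fun n =>
    ((show Commute B.Z B.X from B.ZX).pow_left n).eq.symm
  have e3 : ∀ n : ℕ, B.Y * B.Z ^ n = B.Z ^ n * B.Y := fun n =>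
    ((show Commute B.Z B.Y from B.ZY).pow_left n).eq.symm
  have f1 : B.X * (B.Y * B.Y) = B.Z ^ 2 * ((B.Y * B.Y) * B.X) := by
    calc B.X * (B.Y * B.Y) = (B.X * B.Y) * B.Y := (mul_assoc _ _ _).symm
      _ = B.Z * (B.Y * B.X) * B.Y := by rw [e1]
      _ = B.Z * (B.Y * (B.X * B.Y)) := by simp only [mul_assoc]
      _ = B.Z * (B.Y * (B.Z * (B.Y * B.X))) := by rw [e1]
      _ = B.Z * ((B.Y * B.Z) * (B.Y * B.X)) := by simp only [mul_assoc]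
      _ = B.Z * ((B.Z * B.Y) * (B.Y * B.X)) := by rw [zy]
      _ = B.Z ^ 2 * ((B.Y * B.Y) * B.X) := by simp only [pow_two, mul_assoc]
  calc (B.X * B.X) * (B.Y * B.Y) = B.X * (B.X * (B.Y * B.Y)) := mul_assoc _ _ _
    _ = B.X * (B.Z ^ 2 * ((B.Y * B.Y) * B.X)) := by rw [f1]
    _ = (B.X * B.Z ^ 2) * ((B.Y * B.Y) * B.X) := (mul_assoc _ _ _).symm
    _ = (B.Z ^ 2 * B.X) * ((B.Y * B.Y) * B.X) := by rw [e2]
    _ = B.Z ^ 2 * (B.X * (B.Y * B.Y)) * B.X := by simp only [mul_assoc]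
    _ = B.Z ^ 2 * (B.Z ^ 2 * ((B.Y * B.Y) * B.X)) * B.X := by rw [f1]
    _ = (B.Z ^ 2 * B.Z ^ 2) * ((B.Y * B.Y) * (B.X * B.X)) := by simp only [mul_assoc]
    _ = _ := by rw [← pow_add]

theorem R_idem (V : VData B ψ c) {r : G × G} (hr : r ∈ B.Γ) {p p1 : H} (h : R B ψ c r p p1) :
    R B ψ c r (p * p1) 1 ∧ R B ψ c r p1 p1 := by
  have hP := h.1
  have hP1 := h.2.1
  obtain ⟨q, hq⟩ := V.R_exists hr (Subgroup.mul_mem _ hP hP1)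
  have hx := V.fix_u hr h hq (Or.inl (X_NX B))
  have hy := V.fix_u hr h hq (Or.inr (Y_NY B))
  have hz : ψ (B.Z ^ 4) q = q := by
    have h1 : ψ (B.X * B.X * (B.Y * B.Y)) q = q := by
      rw [map_mul, MulAut.mul_apply, hy, hx]
    rw [comm_sq, map_mul, MulAut.mul_apply, map_mul ψ (B.Y * B.Y), MulAut.mul_apply, hx, hy] at h1
    exact h1
  have hq1 := V.Z4_fix_triv hq.2.1 hz
  rw [hq1] at hq
  refine ⟨hq, ?_⟩
  have h2 := V.R_mul h hq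
  rw [mul_one] at h2
  have e : p * (p * p1) = p1 := by rw [← mul_assoc, V.P0_sq hP, one_mul]
  rwa [e] at h2

/-- `p` is its own `e`-part -/
theorem R_xl_aux (V : VData B ψ c) {r : G × G} (hr : r ∈ B.Γ) {u a : G}
    (hu : u ∈ B.NX ∨ u ∈ B.NY) (ha : (u * u)⁻¹ = a) {p p1 : H} (h : R B ψ c r p p1) :
    ψ (u⁻¹ * (sn r * u * (sn r)⁻¹)) p = p * p1 * ψ a p1 := by
  have h1 := V.R_loc hr h hu
  have e1 : p = (p * p1) * p1 := by rw [mul_assoc, V.P0_sq h.2.1, mul_one]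
  conv_lhs => rw [e1]
  rw [map_mul, h1.1, h1.2, ha]

theorem φXφ (B : Base G) : (B.φ⁻¹ * B.X * B.φ) * (B.φ⁻¹ * B.X * B.φ) = B.X := by
  have h := B.φX
  calc (B.φ⁻¹ * B.X * B.φ) * (B.φ⁻¹ * B.X * B.φ) = B.φ⁻¹ * (B.X * B.X) * B.φ := by
        simp only [mul_assoc, mul_inv_cancel_left]
    _ = B.φ⁻¹ * (B.φ * B.X * B.φ⁻¹) * B.φ := by rw [h]
    _ = B.X := by simp only [mul_assoc, inv_mul_cancel_left, inv_mul_cancel, mul_one]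

theorem Y16 (B : Base G) : B.Y ^ 16 * B.Y ^ 16 = B.Y := by
  rw [← pow_add, show 16 + 16 = 31 + 1 by norm_num, pow_succ, B.Y31, one_mul]

theorem X2_NX (B : Base G) : B.φ⁻¹ * B.X * B.φ ∈ B.NX := B.mX.N0_φ' B.mX.mem

theorem Y16_NY (B : Base G) : B.Y ^ 16 ∈ B.NY := Subgroup.pow_mem _ (Y_NY B) 16

theorem R_xl (V : VData B ψ c) {r : G × G} (hr : r ∈ B.Γ) {p p1 : H} (h : R B ψ c r p p1) :
    ψ (B.xl r) p = p * p1 * ψ B.X p1 := by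
  have h1 := V.R_xl_aux hr (u := (B.φ⁻¹ * B.X * B.φ)⁻¹) (a := B.X)
    (Or.inl (Subgroup.inv_mem _ (X2_NX B))) (by rw [← mul_inv_rev, inv_inv, φXφ]) h
  rwa [inv_inv] at h1

theorem R_yl (V : VData B ψ c) {r : G × G} (hr : r ∈ B.Γ) {p p1 : H} (h : R B ψ c r p p1) :
    ψ (B.yl r) p = p * p1 * ψ B.Y p1 := by
  have h1 := V.R_xl_aux hr (u := (B.Y ^ 16)⁻¹) (a := B.Y)
    (Or.inr (Subgroup.inv_mem _ (Y16_NY B))) (by rw [← mul_inv_rev, inv_inv, Y16]) h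
  rwa [inv_inv] at h1

theorem xl_mem (B : Base G) {r : G × G} (hr : r ∈ B.Γ) :
    B.xl r ∈ B.L0 ∧ B.yl r ∈ B.L0 ∧ B.zl r ∈ B.L0 := by
  have hx : B.xl r ∈ B.L0 := by
    have h1 := NX_L0 B (Or.inl (X2_NX B))
    exact Subgroup.mul_mem _ h1 (B.L0_sn hr (Subgroup.inv_mem _ h1))
  have hy : B.yl r ∈ B.L0 := by
    have h1 := NX_L0 B (Or.inr (Y16_NY B))
    exact Subgroup.mul_mem _ h1 (B.L0_sn hr (Subgroup.inv_mem _ h1))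
  refine ⟨hx, hy, ?_⟩
  unfold Base.zl
  rw [commutatorElement_def]
  exact Subgroup.mul_mem _ (Subgroup.mul_mem _ (Subgroup.mul_mem _ hx hy)
    (Subgroup.inv_mem _ hx)) (Subgroup.inv_mem _ hy)

theorem Z_mul_YX (B : Base G) : B.Z * (B.Y * B.X) = B.X * B.Y := by
  unfold Base.Z
  rw [commutatorElement_def]
  simp only [mul_assoc, inv_mul_cancel_left, inv_mul_cancel, mul_one]

/-- `zl r * (yl r * xl r) = xl r * yl r` -/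
theorem zl_mul (B : Base G) (r : G × G) : B.zl r * (B.yl r * B.xl r) = B.xl r * B.yl r := by
  unfold Base.zl
  rw [commutatorElement_def]
  simp only [mul_assoc, inv_mul_cancel_left, inv_mul_cancel, mul_one]

/-- action of `zl` on the two parts -/
theorem R_zl (V : VData B ψ c) {r : G × G} (hr : r ∈ B.Γ) {p p1 : H} (h : R B ψ c r p p1) :
    ψ (B.zl r) p = p * p1 * ψ B.Z p1 := by
  -- on the trivial part
  have k0 : ∀ q, R B ψ c r q 1 → ψ (B.zl r) q = q := by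
    intro q hq
    have hx := V.R_xl hr hq
    have hy := V.R_yl hr hq
    rw [map_one, mul_one, mul_one] at hx hy
    have h1 : ψ (B.zl r) (ψ (B.yl r * B.xl r) q) = ψ (B.xl r * B.yl r) q := by
      rw [← MulAut.mul_apply, ← map_mul, zl_mul]
    rw [map_mul, MulAut.mul_apply, hx, hy, map_mul, MulAut.mul_apply, hy, hx] at h1
    exact h1
  -- on the `e`-part
  have k1 : ∀ q, R B ψ c r q q → ψ (B.xl r) q = ψ B.X q ∧ ψ (B.yl r) q = ψ B.Y q := by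
    intro q hq
    have hx := V.R_xl hr hq
    have hy := V.R_yl hr hq
    rw [V.P0_sq hq.1, one_mul] at hx hy
    exact ⟨hx, hy⟩
  have k2 : ∀ q, R B ψ c r q q → ψ (B.zl r) q = ψ B.Z q := by
    intro q hq
    -- q = YX q'
    set q' := ψ (B.Y * B.X)⁻¹ q with hq'
    have hmem : (B.Y * B.X)⁻¹ ∈ B.L0 :=
      Subgroup.inv_mem _ (Subgroup.mul_mem _ (Y_L0 B) (X_L0 B))
    have hR : R B ψ c r q' q' := V.R_L0 hr hq hmem
    have hRX : R B ψ c r (ψ B.X q') (ψ B.X q') := V.R_L0 hr hR (X_L0 B)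
    have hRY : R B ψ c r (ψ B.Y q') (ψ B.Y q') := V.R_L0 hr hR (Y_L0 B)
    have e1 : ψ (B.yl r * B.xl r) q' = q := by
      rw [map_mul, MulAut.mul_apply, (k1 q' hR).1, (k1 _ hRX).2, ← MulAut.mul_apply, ← map_mul,
        hq', map_inv, MulAut.apply_inv_self]
    have e2 : ψ (B.zl r) q = ψ (B.xl r * B.yl r) q' := by
      rw [← e1, ← MulAut.mul_apply, ← map_mul, zl_mul]
    rw [e2, map_mul, MulAut.mul_apply, (k1 q' hR).2, (k1 _ hRY).1, ← MulAut.mul_apply, ← map_mul,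
      ← Z_mul_YX, map_mul, MulAut.mul_apply, hq', map_inv, MulAut.apply_inv_self]
  have h2 := V.R_idem hr h
  have e1 : p = (p * p1) * p1 := by rw [mul_assoc, V.P0_sq h.2.1, mul_one]
  conv_lhs => rw [e1]
  rw [map_mul, k0 _ h2.1, k2 _ h2.2]

/-- the explicit formula gives the `e`-part -/
theorem R_e (V : VData B ψ c) {r : G × G} (hr : r ∈ B.Γ) {p p1 : H} (h : R B ψ c r p p1) :
    B.e ψ r p = p1 := by
  have hz := V.R_zl hr h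
  have hp := h.1
  have hp1 := h.2.1
  have hZ : ∀ n : ℕ, ψ (B.Z ^ n) p1 ∈ B.P0 ψ c := fun n =>
    V.P0_L0 (Subgroup.pow_mem _ B.Z_mem n) hp1
  have hZ1 : ψ B.Z p1 ∈ B.P0 ψ c := V.P0_L0 B.Z_mem hp1
  have e1 : ψ (B.zl r) p * p⁻¹ = p1 * ψ B.Z p1 := by
    rw [hz, mul_assoc p, (V.P0_comm hp (Subgroup.mul_mem _ hp1 hZ1)).eq, mul_assoc, mul_inv_cancel,
      mul_one]
  have e2 : ∀ n : ℕ, ψ (B.Z ^ n) (p1 * ψ B.Z p1) = ψ (B.Z ^ n) p1 * ψ (B.Z ^ (n + 1)) p1 := by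
    intro n
    rw [map_mul, pow_succ, map_mul ψ, MulAut.mul_apply]
  have hs : ∀ n : ℕ, ψ (B.Z ^ n) p1 * ψ (B.Z ^ n) p1 = 1 := fun n => V.P0_sq (hZ n)
  have hPhi := V.P0_Phi hp1
  have hp1i := V.P0_sq hp1
  have e3 : ψ (B.Z ^ 5) p1 * ψ (B.Z ^ 2) p1 = p1 := by
    rw [mul_eq_one_iff_eq_inv] at hPhi
    rw [hPhi, V.P0_inv hp1]
  unfold Base.e
  rw [e1, e2, e2, e2]
  show ψ (B.Z ^ 4) p1 * ψ (B.Z ^ 5) p1 * (ψ (B.Z ^ 3) p1 * ψ (B.Z ^ 4) p1) *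
    (ψ (B.Z ^ 2) p1 * ψ (B.Z ^ 3) p1) = p1
  have c45 := (V.P0_comm (hZ 4) (hZ 5)).eq
  have c34 := (V.P0_comm (hZ 3) (hZ 4)).eq
  have c23 := (V.P0_comm (hZ 2) (hZ 3)).eq
  rw [c45, c34, c23]
  calc ψ (B.Z ^ 5) p1 * ψ (B.Z ^ 4) p1 * (ψ (B.Z ^ 4) p1 * ψ (B.Z ^ 3) p1) *
        (ψ (B.Z ^ 3) p1 * ψ (B.Z ^ 2) p1)
      = ψ (B.Z ^ 5) p1 * (ψ (B.Z ^ 4) p1 * ψ (B.Z ^ 4) p1) * (ψ (B.Z ^ 3) p1 *
        ψ (B.Z ^ 3) p1) * ψ (B.Z ^ 2) p1 := by simp only [mul_assoc]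
    _ = p1 := by rw [hs, hs, mul_one, mul_one, e3]

theorem e_R (V : VData B ψ c) {r : G × G} (hr : r ∈ B.Γ) {p : H} (hp : p ∈ B.P0 ψ c) :
    R B ψ c r p (B.e ψ r p) := by
  obtain ⟨p1, h⟩ := V.R_exists hr hp
  rwa [V.R_e hr h]

theorem e_mem (V : VData B ψ c) {r : G × G} (hr : r ∈ B.Γ) {p : H} (hp : p ∈ B.P0 ψ c) :
    B.e ψ r p ∈ B.P0 ψ c := (V.e_R hr hp).2.1

theorem e_th (V : VData B ψ c) {r : G × G} (hr : r ∈ B.Γ) {p : H} (hp : p ∈ B.P0 ψ c) :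
    ψ r.1 p = (p * B.e ψ r p) * ψ B.δ (B.e ψ r p) := (V.e_R hr hp).2.2

theorem e_mul (V : VData B ψ c) {r : G × G} (hr : r ∈ B.Γ) {p q : H} (hp : p ∈ B.P0 ψ c)
    (hq : q ∈ B.P0 ψ c) : B.e ψ r (p * q) = B.e ψ r p * B.e ψ r q :=
  V.R_e hr (V.R_mul (V.e_R hr hp) (V.e_R hr hq))

theorem e_e (V : VData B ψ c) {r : G × G} (hr : r ∈ B.Γ) {p : H} (hp : p ∈ B.P0 ψ c) :
    B.e ψ r (B.e ψ r p) = B.e ψ r p := V.R_e hr (V.R_idem hr (V.e_R hr hp)).2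

/-- stronger than `e_Cst`: `e` commutes with all of `L0` -/
theorem e_L0 (V : VData B ψ c) {r : G × G} (hr : r ∈ B.Γ) {g : G} (hg : g ∈ B.L0) {p : H}
    (hp : p ∈ B.P0 ψ c) : B.e ψ r (ψ g p) = ψ g (B.e ψ r p) :=
  V.R_e hr (V.R_L0 hr (V.e_R hr hp) hg)

theorem e_Cst (V : VData B ψ c) {r : G × G} (hr : r ∈ B.Γ) {g : G} (hg : g ∈ B.Cst) {p : H}
    (hp : p ∈ B.P0 ψ c) : B.e ψ r (ψ g p) = ψ g (B.e ψ r p) :=
  V.e_L0 hr (B.Cst_L0 hg) hp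

theorem e_loc (V : VData B ψ c) {r : G × G} (hr : r ∈ B.Γ) {u : G}
    (hu : u ∈ B.NX ∨ u ∈ B.NY) {p : H} (hp : p ∈ B.P0 ψ c) :
    ψ (u⁻¹ * (sn r * u * (sn r)⁻¹)) p = p * B.e ψ r p * ψ (u * u)⁻¹ (B.e ψ r p) :=
  V.R_xl_aux hr hu rfl (V.e_R hr hp)

theorem e_xl (V : VData B ψ c) {r : G × G} (hr : r ∈ B.Γ) {p : H} (hp : p ∈ B.P0 ψ c) :
    ψ (B.xl r) p = p * B.e ψ r p * ψ B.X (B.e ψ r p) := V.R_xl hr (V.e_R hr hp)

theorem e_yl (V : VData B ψ c) {r : G × G} (hr : r ∈ B.Γ) {p : H} (hp : p ∈ B.P0 ψ c) :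
    ψ (B.yl r) p = p * B.e ψ r p * ψ B.Y (B.e ψ r p) := V.R_yl hr (V.e_R hr hp)

theorem e_zl (V : VData B ψ c) {r : G × G} (hr : r ∈ B.Γ) {p : H} (hp : p ∈ B.P0 ψ c) :
    ψ (B.zl r) p = p * B.e ψ r p * ψ B.Z (B.e ψ r p) := V.R_zl hr (V.e_R hr hp)

end VData

end Pool.Agent.H86.FS
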