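import Pool.Agent.H86.FS.VE

/-!
# Stage V, (7.8) generation, and stability of `PP = P0 ⊔ δ•P0`
* `P0_ind`: `P0` is the smallest subgroup containing `Ac` and stable under all `e r`, `r ∈ Γ`. Let `K' = {p ∈ K | p ∈ P0 ∧ ...}`; WLOG replace `K` by
  `K1 := the subgroup generated by all e_{r_1} ⋯ e_{r_n} w`, `w ∈ Ac` (it is contained in `K ⊓ P0`). `K1` is stable under all `e r` (`e_mul`), under `ψ g`,
  `g ∈ Cst` (`e_Cst`, `Ac_Cst`), so by `e_loc` under `ψ (u⁻¹ * (s_r u s_r⁻¹))` for `u ∈ CstG` or `u⁻¹ ∈ CstG`, hence under `ψ (s_r u s_r⁻¹)`, hence under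
  `ψ g` for all `g ∈ L0` (`L0_gen`); it contains `c`. So `P0 ≤ K1 ≤ K`.
* `P0_sn`: `s_r•(g•c) = (s_r g s_r⁻¹)•c`. `P0_φ`, `P0_φ'`, `P0_et` (`r.2` commutes with `L0` and fixes `c`), `P0_ς` similarly (all from `L0_sn`, `L0_φ`, ...).
* `PP_th`: `r.1•PP ≤ PP`: `e_th`, and `δ` commutes with `r.1`. `PP_δ`, `PP_comm`, `PP_sq`: obvious. `PP_et`: on `δ•P0`: `r.2•δ•p = δ•(δ⁻¹ r.2 δ)•p = δ•(s_r r.2)•p`.
  `PP_ς`: `ς•δ•p = δ•(δ⁻¹ςδ)•p`, `δ⁻¹ςδ = ⁅δ,ς⁆ * ς`; `⁅δ,ς⁆ = δ ς δ⁻¹ ς⁻¹`... NOTE `⁅δ,ς⁆•c = c`? `ς•c = c` and `ς•(δ•c)`: use `V.hσ`.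
* `PP_L0`: `g•PP ≤ PP`, `(δgδ⁻¹)•PP ≤ PP` for `g ∈ L0`.
-/

set_option autoImplicit false

open scoped commutatorElement

namespace Pool.Agent.H86.FS

variable {G : Type*} [Group G] {H : Type*} [Group H]

namespace VData

variable {B : Base G} {ψ : G →* MulAut H} {c : H}

theorem h24_sn_one : sn (1 : G × G) = 1 := by
  unfold sn
  rw [commutatorElement_def]
  simp

theorem h24_X_pow_NX (B : Base G) (n : ℕ) : (B.φ⁻¹) ^ n * B.X * B.φ ^ n ∈ B.NX := by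
  apply Subgroup.subset_closure
  refine ⟨n, 1, B.Γ.one_mem, ?_⟩
  rw [h24_sn_one]
  simp only [one_mul, inv_one, mul_one]

theorem h24_CstG_N (B : Base G) {g : G} (hg : g ∈ B.CstG) : g ∈ B.NX ∨ g ∈ B.NY := by
  rcases hg with ⟨n, rfl⟩ | hg
  · exact Or.inl (h24_X_pow_NX B n)
  · rw [Set.mem_singleton_iff] at hg
    rw [hg]
    exact Or.inr (Y_NY B)

theorem h24_inv_N (B : Base G) {g : G} (hg : g ∈ B.NX ∨ g ∈ B.NY) : g⁻¹ ∈ B.NX ∨ g⁻¹ ∈ B.NY :=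
  hg.imp (fun h => Subgroup.inv_mem _ h) (fun h => Subgroup.inv_mem _ h)

theorem P0_ind (V : VData B ψ c) (K : Subgroup H) (hK : B.Ac ψ c ≤ K)
    (he : ∀ r ∈ B.Γ, ∀ p ∈ B.P0 ψ c, p ∈ K → B.e ψ r p ∈ K) : B.P0 ψ c ≤ K := by
  let F : Set (Subgroup H) := {K' | B.Ac ψ c ≤ K' ∧
    ∀ r ∈ B.Γ, ∀ p ∈ B.P0 ψ c, p ∈ K' → B.e ψ r p ∈ K'}
  let T : Subgroup H := sInf F
  have hTK : T ≤ K := sInf_le (show K ∈ F from ⟨hK, he⟩)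
  have hTP : T ≤ B.P0 ψ c := sInf_le (show B.P0 ψ c ∈ F from
    ⟨V.Ac_le, fun r hr p hp _ => V.e_mem hr hp⟩)
  have hTA : B.Ac ψ c ≤ T := le_sInf fun K' hK' => hK'.1
  have hTe : ∀ r ∈ B.Γ, ∀ p ∈ T, B.e ψ r p ∈ T := by
    intro r hr p hp
    rw [Subgroup.mem_sInf]
    intro K' hK'
    exact hK'.2 r hr p (hTP hp) ((Subgroup.mem_sInf.1 hp) K' hK')
  -- stable under constants
  have hTC : ∀ u ∈ B.Cst, ∀ p ∈ T, ψ u p ∈ T := by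
    intro u hu p hp
    have h1 : T.comap (ψ u).toMonoidHom ∈ F := by
      refine ⟨fun w hw => ?_, fun r hr q hq hqK => ?_⟩
      · exact hTA (V.Ac_Cst hu hw)
      · have hq1 : ψ u q ∈ T := hqK
        have h2 := hTe r hr _ hq1
        rw [V.e_Cst hr hu hq] at h2
        exact h2
    exact (Subgroup.mem_sInf.1 hp) _ h1
  -- stable under local elements
  have hTL : ∀ r ∈ B.Γ, ∀ u, (u ∈ B.NX ∨ u ∈ B.NY) → u ∈ B.Cst → ∀ p ∈ T,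
      ψ (sn r * u * (sn r)⁻¹) p ∈ T := by
    intro r hr u hu huC p hp
    have e1 : sn r * u * (sn r)⁻¹ = u * (u⁻¹ * (sn r * u * (sn r)⁻¹)) := by
      rw [mul_inv_cancel_left]
    rw [e1, map_mul, MulAut.mul_apply, V.e_loc hr hu (hTP hp)]
    apply hTC u huC
    have h1 := hTe r hr p hp
    exact Subgroup.mul_mem _ (Subgroup.mul_mem _ hp h1)
      (hTC _ (Subgroup.inv_mem _ (Subgroup.mul_mem _ huC huC)) _ h1)
  -- stable under `L0`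
  have hT0 : ∀ g ∈ B.L0, ∀ p ∈ T, ψ g p ∈ T ∧ ψ g⁻¹ p ∈ T := by
    intro g hg
    rw [B.L0_gen] at hg
    refine Subgroup.closure_induction
      (p := fun g _ => ∀ p ∈ T, ψ g p ∈ T ∧ ψ g⁻¹ p ∈ T) ?_ ?_ ?_ ?_ hg
    · rintro _ ⟨r, hr, u, hu, rfl⟩ p hp
      have huN := h24_CstG_N B hu
      have huC : u ∈ B.Cst := Subgroup.subset_closure hu
      refine ⟨hTL r hr u huN huC p hp, ?_⟩
      have e1 : (sn r * u * (sn r)⁻¹)⁻¹ = sn r * u⁻¹ * (sn r)⁻¹ := by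
        rw [mul_inv_rev, mul_inv_rev, inv_inv, mul_assoc]
      rw [e1]
      exact hTL r hr u⁻¹ (h24_inv_N B huN) (Subgroup.inv_mem _ huC) p hp
    · intro p hp
      simpa using hp
    · intro x y _ _ h1 h2 p hp
      refine ⟨?_, ?_⟩
      · rw [map_mul, MulAut.mul_apply]
        exact (h1 _ (h2 p hp).1).1
      · rw [mul_inv_rev, map_mul, MulAut.mul_apply]
        exact (h2 _ (h1 p hp).2).2
    · intro x _ h1 p hp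
      rw [inv_inv]
      exact ⟨(h1 p hp).2, (h1 p hp).1⟩
  refine le_trans ?_ hTK
  unfold Base.P0
  rw [Subgroup.closure_le]
  rintro _ ⟨g, hg, rfl⟩
  exact (hT0 g hg c (hTA V.c_mem)).1

/-- an element normalising `L0` and fixing `c` preserves `P0` -/
theorem P0_norm (B : Base G) (ψ : G →* MulAut H) (c : H) {x : G}
    (hx : ∀ g ∈ B.L0, x * g * x⁻¹ ∈ B.L0) (hc : ψ x c = c) {p : H} (hp : p ∈ B.P0 ψ c) :
    ψ x p ∈ B.P0 ψ c := by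
  have h1 : B.P0 ψ c ≤ (B.P0 ψ c).comap (ψ x).toMonoidHom := by
    conv_lhs => unfold Base.P0
    rw [Subgroup.closure_le]
    rintro _ ⟨g, hg, rfl⟩
    show ψ x (ψ g c) ∈ B.P0 ψ c
    apply Subgroup.subset_closure
    refine ⟨x * g * x⁻¹, hx g hg, ?_⟩
    have h2 : ψ (x * g * x⁻¹) c = ψ (x * g * x⁻¹) (ψ x c) := by rw [hc]
    rw [h2, ← MulAut.mul_apply, ← MulAut.mul_apply, ← map_mul, ← map_mul, inv_mul_cancel_right]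
  exact h1 hp

theorem P0_sn (V : VData B ψ c) {r : G × G} (hr : r ∈ B.Γ) {p : H} (hp : p ∈ B.P0 ψ c) :
    ψ (sn r) p ∈ B.P0 ψ c :=
  P0_norm B ψ c (fun _ hg => B.L0_sn hr hg) (V.hsn r hr) hp

theorem P0_φ (V : VData B ψ c) {p : H} (hp : p ∈ B.P0 ψ c) :
    ψ B.φ p ∈ B.P0 ψ c ∧ ψ B.φ⁻¹ p ∈ B.P0 ψ c := by
  refine ⟨P0_norm B ψ c (fun _ hg => B.L0_φ hg) V.hφ hp,
    P0_norm B ψ c (fun g hg => ?_) ?_ hp⟩
  · rw [inv_inv]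
    exact B.L0_φ' hg
  · have h1 := congrArg (ψ B.φ⁻¹) V.hφ
    rw [← MulAut.mul_apply, ← map_mul, inv_mul_cancel, map_one, MulAut.one_apply] at h1
    exact h1.symm

/-- an element commuting with `L0` and fixing `c` fixes `P0` -/
theorem P0_fix (B : Base G) (ψ : G →* MulAut H) (c : H) {x : G}
    (hx : ∀ g ∈ B.L0, Commute x g) (hc : ψ x c = c) {p : H} (hp : p ∈ B.P0 ψ c) :
    ψ x p = p := by
  refine Subgroup.closure_induction (p := fun p _ => ψ x p = p) ?_ ?_ ?_ ?_ hp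
  · rintro _ ⟨g, hg, rfl⟩
    rw [← MulAut.mul_apply, ← map_mul, (hx g hg).eq, map_mul, MulAut.mul_apply, hc]
  · exact map_one _
  · intro y z _ _ h1 h2
    rw [map_mul, h1, h2]
  · intro y _ h1
    rw [map_inv, h1]

theorem P0_et (V : VData B ψ c) {r : G × G} (hr : r ∈ B.Γ) {p : H} (hp : p ∈ B.P0 ψ c) :
    ψ r.2 p = p :=
  P0_fix B ψ c (fun _ hg => B.L0_et hr hg) (V.het r hr) hp

theorem P0_ς (V : VData B ψ c) {p : H} (hp : p ∈ B.P0 ψ c) : ψ B.ς p = p :=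
  P0_fix B ψ c (fun _ hg => B.L0_ς hg) V.hς hp

/-- `σ = [δ, ς]` normalises `L0` -/
theorem L0_σ (B : Base G) {g : G} (hg : g ∈ B.L0) : ⁅B.δ, B.ς⁆ * g * ⁅B.δ, B.ς⁆⁻¹ ∈ B.L0 := by
  have h1 : B.L0 ≤ B.L0.comap (MulAut.conj ⁅B.δ, B.ς⁆).toMonoidHom := by
    refine sup_le (fun y hy => ?_) (fun y hy => ?_)
    · show ⁅B.δ, B.ς⁆ * y * ⁅B.δ, B.ς⁆⁻¹ ∈ B.L0
      rw [B.mX.N0_σ hy]
      exact Subgroup.inv_mem _ (NX_L0 B (Or.inl hy))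
    · show ⁅B.δ, B.ς⁆ * y * ⁅B.δ, B.ς⁆⁻¹ ∈ B.L0
      rw [B.mY.N0_σ hy]
      exact Subgroup.inv_mem _ (NX_L0 B (Or.inr hy))
  exact h1 hg

theorem P0_σ (V : VData B ψ c) {p : H} (hp : p ∈ B.P0 ψ c) : ψ ⁅B.δ, B.ς⁆ p ∈ B.P0 ψ c :=
  P0_norm B ψ c (fun _ hg => L0_σ B hg) V.hσ hp

theorem h24_δδ (B : Base G) (ψ : G →* MulAut H) (p : H) : ψ B.δ (ψ B.δ p) = p := by
  rw [← MulAut.mul_apply, ← map_mul, B.δ_sq, map_one, MulAut.one_apply]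

/-- elements of `PP` -/
theorem mem_PP (V : VData B ψ c) {h : H} :
    h ∈ B.PP ψ c ↔ ∃ p0 ∈ B.P0 ψ c, ∃ p1 ∈ B.P0 ψ c, h = p0 * ψ B.δ p1 := by
  constructor
  · intro hh
    let K : Subgroup H :=
      { carrier := {h | ∃ p0 ∈ B.P0 ψ c, ∃ p1 ∈ B.P0 ψ c, h = p0 * ψ B.δ p1}
        one_mem' := ⟨1, Subgroup.one_mem _, 1, Subgroup.one_mem _, by simp⟩
        mul_mem' := by
          rintro _ _ ⟨p0, h0, p1, h1, rfl⟩ ⟨q0, k0, q1, k1, rfl⟩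
          refine ⟨p0 * q0, Subgroup.mul_mem _ h0 k0, p1 * q1, Subgroup.mul_mem _ h1 k1, ?_⟩
          rw [map_mul, (V.P0_P1 k0 h1).symm.mul_mul_mul_comm]
        inv_mem' := by
          rintro _ ⟨p0, h0, p1, h1, rfl⟩
          refine ⟨p0⁻¹, Subgroup.inv_mem _ h0, p1⁻¹, Subgroup.inv_mem _ h1, ?_⟩
          rw [map_inv, ← mul_inv_rev, (V.P0_P1 h0 h1).eq] }
    have hK : B.PP ψ c ≤ K := by
      refine sup_le (fun p hp => ?_) (fun p hp => ?_)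
      · exact ⟨p, hp, 1, Subgroup.one_mem _, by simp⟩
      · obtain ⟨q, hq, rfl⟩ := hp
        exact ⟨1, Subgroup.one_mem _, q, hq, by simp⟩
    exact hK hh
  · rintro ⟨p0, h0, p1, h1, rfl⟩
    exact Subgroup.mul_mem _ ((le_sup_left : B.P0 ψ c ≤ _) h0)
      ((le_sup_right : (B.P0 ψ c).map (ψ B.δ).toMonoidHom ≤ _) ⟨p1, h1, rfl⟩)

theorem PP_comm (V : VData B ψ c) {p q : H} (hp : p ∈ B.PP ψ c) (hq : q ∈ B.PP ψ c) :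
    Commute p q := by
  rw [V.mem_PP] at hp hq
  obtain ⟨p0, h0, p1, h1, rfl⟩ := hp
  obtain ⟨q0, k0, q1, k1, rfl⟩ := hq
  have c1 : Commute (ψ B.δ p1) (ψ B.δ q1) := (V.P0_comm h1 k1).map (ψ B.δ).toMonoidHom
  exact ((V.P0_comm h0 k0).mul_left (V.P0_P1 k0 h1).symm).mul_right
    ((V.P0_P1 h0 k1).mul_left c1)

theorem PP_sq (V : VData B ψ c) {p : H} (hp : p ∈ B.PP ψ c) : p * p = 1 := by
  rw [V.mem_PP] at hp
  obtain ⟨p0, h0, p1, h1, rfl⟩ := hp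
  rw [(V.P0_P1 h0 h1).symm.mul_mul_mul_comm, V.P0_sq h0, ← map_mul, V.P0_sq h1, map_one, mul_one]

theorem PP_δ (V : VData B ψ c) {p : H} (hp : p ∈ B.PP ψ c) : ψ B.δ p ∈ B.PP ψ c := by
  rw [V.mem_PP] at hp ⊢
  obtain ⟨p0, h0, p1, h1, rfl⟩ := hp
  refine ⟨p1, h1, p0, h0, ?_⟩
  rw [map_mul, h24_δδ, (V.P0_P1 h1 h0).eq]

/-- `x` maps `PP` into itself as soon as it does on `P0` and on `δ P0` -/
theorem PP_map (V : VData B ψ c) {x : G} (h1 : ∀ p ∈ B.P0 ψ c, ψ x p ∈ B.PP ψ c)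
    (h2 : ∀ p ∈ B.P0 ψ c, ψ x (ψ B.δ p) ∈ B.PP ψ c) {p : H} (hp : p ∈ B.PP ψ c) :
    ψ x p ∈ B.PP ψ c := by
  rw [V.mem_PP] at hp
  obtain ⟨p0, h0, p1, k1, rfl⟩ := hp
  rw [map_mul]
  exact Subgroup.mul_mem _ (h1 p0 h0) (h2 p1 k1)

theorem P0_PP (B : Base G) (ψ : G →* MulAut H) (c : H) {p : H} (hp : p ∈ B.P0 ψ c) :
    p ∈ B.PP ψ c := (le_sup_left : B.P0 ψ c ≤ _) hp

theorem ψ_δ_comm {x : G} (h : Commute B.δ x) (p : H) : ψ x (ψ B.δ p) = ψ B.δ (ψ x p) := by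
  rw [← MulAut.mul_apply, ← map_mul, ← h.eq, map_mul, MulAut.mul_apply]

theorem PP_Γ (V : VData B ψ c) {r : G × G} (hr : r ∈ B.Γ) {p : H} (hp : p ∈ B.PP ψ c) :
    ψ r.1 p ∈ B.PP ψ c ∧ ψ r.2 p ∈ B.PP ψ c := by
  have k1 : ∀ p ∈ B.P0 ψ c, ψ r.1 p ∈ B.PP ψ c := by
    intro p hp
    rw [V.mem_PP]
    exact ⟨_, Subgroup.mul_mem _ hp (V.e_mem hr hp), _, V.e_mem hr hp, V.e_th hr hp⟩
  refine ⟨V.PP_map k1 (fun p hp => ?_) hp, V.PP_map (fun p hp => ?_) (fun p hp => ?_) hp⟩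
  · rw [ψ_δ_comm (B.δ_th r hr)]
    exact V.PP_δ (k1 p hp)
  · rw [V.P0_et hr hp]
    exact P0_PP B ψ c hp
  · have e1 : r.2 * B.δ = B.δ * (sn r * r.2) := by
      rw [← B.toEng.δ_et' hr, B.toEng.δ_inv, mul_assoc B.δ, ← mul_assoc B.δ B.δ, B.δ_sq, one_mul]
    rw [← MulAut.mul_apply, ← map_mul, e1, map_mul, MulAut.mul_apply, map_mul ψ (sn r),
      MulAut.mul_apply, V.P0_et hr hp]
    exact V.PP_δ (P0_PP B ψ c (V.P0_sn hr hp))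

theorem PP_δς (V : VData B ψ c) {p : H} (hp : p ∈ B.PP ψ c) :
    ψ B.δ p ∈ B.PP ψ c ∧ ψ B.ς p ∈ B.PP ψ c ∧ ψ B.φ p ∈ B.PP ψ c ∧ ψ B.φ⁻¹ p ∈ B.PP ψ c := by
  refine ⟨V.PP_δ hp, V.PP_map (fun p hp => ?_) (fun p hp => ?_) hp,
    V.PP_map (fun p hp => ?_) (fun p hp => ?_) hp, V.PP_map (fun p hp => ?_) (fun p hp => ?_) hp⟩
  · rw [V.P0_ς hp]
    exact P0_PP B ψ c hp
  · have e1 : B.ς * B.δ = B.δ * (⁅B.δ, B.ς⁆ * B.ς) := by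
      rw [commutatorElement_def, inv_mul_cancel_right, B.toEng.δ_inv, mul_assoc B.δ B.ς,
        ← mul_assoc B.δ B.δ, B.δ_sq, one_mul]
    rw [← MulAut.mul_apply, ← map_mul, e1, map_mul, MulAut.mul_apply, map_mul ψ ⁅B.δ, B.ς⁆,
      MulAut.mul_apply, V.P0_ς hp]
    exact V.PP_δ (P0_PP B ψ c (V.P0_σ hp))
  · exact P0_PP B ψ c (V.P0_φ hp).1
  · rw [ψ_δ_comm B.mX.φδ.symm]
    exact V.PP_δ (P0_PP B ψ c (V.P0_φ hp).1)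
  · exact P0_PP B ψ c (V.P0_φ hp).2
  · rw [ψ_δ_comm B.mX.φδ.symm.inv_right]
    exact V.PP_δ (P0_PP B ψ c (V.P0_φ hp).2)

theorem PP_L0 (V : VData B ψ c) {g : G} (hg : g ∈ B.L0) {p : H} (hp : p ∈ B.PP ψ c) :
    ψ g p ∈ B.PP ψ c ∧ ψ (B.δ * g * B.δ⁻¹) p ∈ B.PP ψ c := by
  refine ⟨V.PP_map (fun p hp => ?_) (fun p hp => ?_) hp,
    V.PP_map (fun p hp => ?_) (fun p hp => ?_) hp⟩
  · exact P0_PP B ψ c (V.P0_L0 hg hp)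
  · rw [V.L0_P1 hg hp]
    exact V.PP_δ (P0_PP B ψ c hp)
  · rw [V.L1_P0 hg hp]
    exact P0_PP B ψ c hp
  · rw [← MulAut.mul_apply, ← map_mul, inv_mul_cancel_right, map_mul, MulAut.mul_apply]
    exact V.PP_δ (P0_PP B ψ c (V.P0_L0 hg hp))

end VData

end Pool.Agent.H86.FS
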